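import Pool.Agent.Run7.h115.Conf

/-! Paths of symplectic balls inside a fixed collection of Darboux balls. -/

set_option autoImplicit false
set_option linter.unusedSectionVars false
set_option maxSynthPendingDepth 3

open scoped ContDiff Topology Manifold
open Set Metric Function

noncomputable section

namespace Run7.h115

variable {E : Type*} [NormedAddCommGroup E] [InnerProductSpace ℂ E] [FiniteDimensional ℂ E]
  {M : Type*} [TopologicalSpace M] [ChartedSpace E M] [IsManifold 𝓘(ℝ, E) ∞ M]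

/-- symplectic maps of a ball of radius `R` into the ball of radius `r₀` -/
structure InBall (R r₀ : ℝ) (g : E → E) : Prop where
  smooth : ContDiffOn ℝ ∞ g (ball 0 R)
  inj : InjOn g (ball 0 R)
  symp : ∀ x ∈ ball (0 : E) R, IsSymp (stdL E) (fderiv ℝ g x)
  maps : MapsTo g (ball 0 R) (ball 0 r₀)

lemma mfderiv_comp_ball {wM : Bil E M} {S : Set M} {r₀ R : ℝ} {φ₀ : M → E → M}
    (h₀ : Balls wM S r₀ φ₀) {p : M} (hp : p ∈ S) {g : E → E} (hg : InBall R r₀ g) {x : E}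
    (hx : x ∈ ball (0 : E) R) (u : E) :
    (mfderiv 𝓘(ℝ, E) 𝓘(ℝ, E) (fun y => φ₀ p (g y)) x u : E) =
      mfderiv 𝓘(ℝ, E) 𝓘(ℝ, E) (φ₀ p) (g x) (fderiv ℝ g x u) := by
  have hd1 : MDifferentiableAt 𝓘(ℝ, E) 𝓘(ℝ, E) (φ₀ p) (g x) :=
    ((h₀.smooth p hp).contMDiffAt (isOpen_ball.mem_nhds (hg.maps hx))).mdifferentiableAt (by simp)
  have hgd : MDifferentiableAt 𝓘(ℝ, E) 𝓘(ℝ, E) g x :=
    (hg.smooth.contDiffAt (isOpen_ball.mem_nhds hx)).contMDiffAt.mdifferentiableAt (by simp)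
  have e1 : mfderiv 𝓘(ℝ, E) 𝓘(ℝ, E) (φ₀ p ∘ g) x =
      (mfderiv 𝓘(ℝ, E) 𝓘(ℝ, E) (φ₀ p) (g x)).comp (mfderiv 𝓘(ℝ, E) 𝓘(ℝ, E) g x) :=
    mfderiv_comp x hd1 hgd
  rw [mfderiv_eq_fderiv] at e1
  exact DFunLike.congr_fun e1 u

/-- the composition of Darboux balls with symplectic maps between balls -/
lemma Balls.comp {wM : Bil E M} {S : Set M} {r₀ R : ℝ} {φ₀ : M → E → M} (h₀ : Balls wM S r₀ φ₀)
    {g : M → E → E} (hg : ∀ p ∈ S, InBall R r₀ (g p)) :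
    Balls wM S R (fun p x => φ₀ p (g p x)) where
  smooth := fun p hp => by
    have h1 : ContMDiffOn 𝓘(ℝ, E) 𝓘(ℝ, E) ∞ (g p) (ball 0 R) := (hg p hp).smooth.contMDiffOn
    exact (h₀.smooth p hp).comp h1 (hg p hp).maps
  inj := fun p hp q hq x hx y hy hxy => by
    obtain ⟨h1, h2⟩ := h₀.inj p hp q hq _ ((hg p hp).maps hx) _ ((hg q hq).maps hy) hxy
    subst h1
    exact ⟨rfl, (hg p hp).inj hx hy h2⟩
  symp := fun p hp x hx u v => by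
    have h1 := h₀.symp p hp (g p x) ((hg p hp).maps hx) (fderiv ℝ (g p) x u) (fderiv ℝ (g p) x v)
    have h2 := (hg p hp).symp x hx u v
    rw [stdL_apply, stdL_apply] at h2
    rw [h2] at h1
    refine Eq.trans ?_ h1
    exact congrArg₂ (fun a' b' : E =>
      (wM (φ₀ p (g p x)) : E →L[ℝ] E →L[ℝ] ℝ) a' b')
      (mfderiv_comp_ball h₀ hp (hg p hp) hx u) (mfderiv_comp_ball h₀ hp (hg p hp) hx v)

/-- **Paths in a chart.** -/
lemma related_of_chart_path [T2Space M] {wM : Bil E M} {S : Set M} (hS : S.Finite)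
    {r₀ R₁ : ℝ} {φ₀ : M → E → M} (h₀ : Balls wM S r₀ φ₀) {g : ℝ → M → E → E}
    (hg : ∀ s ∈ Icc (0 : ℝ) 1, ∀ p ∈ S, InBall R₁ r₀ (g s p))
    (hc : ∀ p ∈ S, ContinuousOn (fun z : ℝ × E => g z.1 p z.2) (Icc (0 : ℝ) 1 ×ˢ ball (0 : E) R₁))
    (hdc : ∀ p ∈ S, ContinuousOn (fun z : ℝ × E => fderiv ℝ (g z.1 p) z.2)
      (Icc (0 : ℝ) 1 ×ˢ ball (0 : E) R₁)) {ρ : ℝ} (hρ : 0 < ρ) (hρR : ρ < R₁) :
    Related wM S (fun p x => φ₀ p (g 0 p x)) (fun p x => φ₀ p (g 1 p x)) ρ := by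
  obtain ⟨R, hR1, hR2⟩ := exists_between hρR
  refine related_of_path hS hρ hR1 hR2 (Φ := fun s p x => φ₀ p (g s p x))
    (fun s hs => h₀.comp (hg s hs)) (fun p hp => ?_)
  -- continuity of the jets
  have key : ∀ z : Icc (0 : ℝ) 1 × KSpace E R, (⟨φ₀ p (g z.1 p z.2.1),
      mfderiv 𝓘(ℝ, E) 𝓘(ℝ, E) (fun x => φ₀ p (g z.1 p x)) (z.2.1 : E) (z.2.2 : E)⟩ :
        TangentBundle 𝓘(ℝ, E) M) = tangentMap 𝓘(ℝ, E) 𝓘(ℝ, E) (φ₀ p)
        (⟨g z.1 p z.2.1, fderiv ℝ (g z.1 p) z.2.1 z.2.2⟩ : TangentBundle 𝓘(ℝ, E) E) := by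
    intro z
    have hx : (z.2.1 : E) ∈ ball (0 : E) R₁ := closedBall_subset_ball hR2 z.2.1.2
    have h1 := mfderiv_comp_ball h₀ hp (hg z.1 z.1.2 p hp) hx (z.2.2 : E)
    exact congrArg (fun a : E => (⟨φ₀ p (g z.1 p z.2.1), a⟩ : TangentBundle 𝓘(ℝ, E) M)) h1
  rw [continuous_congr key]
  rw [continuous_iff_continuousAt]
  intro z
  have hx : (z.2.1 : E) ∈ ball (0 : E) R₁ := closedBall_subset_ball hR2 z.2.1.2
  have hm : g z.1 p z.2.1 ∈ ball (0 : E) r₀ := (hg z.1 z.1.2 p hp).maps hx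
  have h2 : Continuous (fun z : Icc (0 : ℝ) 1 × KSpace E R =>
      (⟨g z.1 p z.2.1, fderiv ℝ (g z.1 p) z.2.1 z.2.2⟩ : TangentBundle 𝓘(ℝ, E) E)) := by
    have h4 : Continuous (fun z : Icc (0 : ℝ) 1 × KSpace E R => ((z.1 : ℝ), (z.2.1 : E))) := by
      fun_prop
    have h5 : ∀ z : Icc (0 : ℝ) 1 × KSpace E R,
        ((z.1 : ℝ), (z.2.1 : E)) ∈ Icc (0 : ℝ) 1 ×ˢ ball (0 : E) R₁ := fun z =>
      ⟨z.1.2, closedBall_subset_ball hR2 z.2.1.2⟩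
    have h6 : Continuous (fun z : Icc (0 : ℝ) 1 × KSpace E R => g z.1 p z.2.1) :=
      (hc p hp).comp_continuous h4 h5
    have h7 : Continuous (fun z : Icc (0 : ℝ) 1 × KSpace E R =>
        fderiv ℝ (g z.1 p) (z.2.1 : E)) := (hdc p hp).comp_continuous h4 h5
    have h8 : Continuous (fun z : Icc (0 : ℝ) 1 × KSpace E R => (z.2.2 : E)) := by fun_prop
    have h3 : Continuous (fun z : Icc (0 : ℝ) 1 × KSpace E R =>
        ((g z.1 p z.2.1, fderiv ℝ (g z.1 p) z.2.1 z.2.2) : E × E)) :=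
      h6.prodMk (h7.clm_apply h8)
    exact (tangentBundleModelSpaceHomeomorph 𝓘(ℝ, E)).symm.continuous.comp h3
  exact ContinuousAt.comp (g := tangentMap 𝓘(ℝ, E) 𝓘(ℝ, E) (φ₀ p))
    (f := fun z : Icc (0 : ℝ) 1 × KSpace E R =>
      (⟨g z.1 p z.2.1, fderiv ℝ (g z.1 p) z.2.1 z.2.2⟩ : TangentBundle 𝓘(ℝ, E) E))
    (continuousAt_tangentMap isOpen_ball (h₀.smooth p hp) hm) h2.continuousAt

end Run7.h115
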