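import Pool.Agent.Run7.h115.Germ

/-! Conformally expandable symplectic manifolds: all `ε`-blowups at finitely many points are
symplectomorphic. -/

set_option autoImplicit false
set_option linter.unusedSectionVars false
set_option maxSynthPendingDepth 3

open scoped ContDiff Topology Manifold
open Set Metric Function

noncomputable section

namespace Run7.h115

section defs

variable {E : Type*} [NormedAddCommGroup E] [NormedSpace ℝ E]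
  {M : Type*} [TopologicalSpace M] [ChartedSpace E M]

/-- A smooth family `Ψ s`, `0 ≤ s ≤ 1`, of conformal symplectic embeddings of the open set `U`,
starting at the inclusion, with conformal factors `c s ≥ 1`. -/
structure ConformalFamily (wM : Bil E M) (U : Set M) (Ψ : ℝ → M → M) (c : ℝ → ℝ) : Prop where
  isOpen : IsOpen U
  smooth : ContMDiffOn (𝓘(ℝ, ℝ).prod 𝓘(ℝ, E)) 𝓘(ℝ, E) ∞ (fun q : ℝ × M => Ψ q.1 q.2) (univ ×ˢ U)
  zero : ∀ x ∈ U, Ψ 0 x = x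
  cont : Continuous c
  c_zero : c 0 = 1
  one_le : ∀ s ∈ Icc (0 : ℝ) 1, 1 ≤ c s
  inj : ∀ s ∈ Icc (0 : ℝ) 1, InjOn (Ψ s) U
  conf : ∀ s ∈ Icc (0 : ℝ) 1, ∀ x ∈ U, ∀ u v,
    wM (Ψ s x) (mfderiv 𝓘(ℝ, E) 𝓘(ℝ, E) (Ψ s) x u) (mfderiv 𝓘(ℝ, E) 𝓘(ℝ, E) (Ψ s) x v) =
      c s * wM x u v

/-- `(M, wM)` is conformally expandable: every compact subset has a neighbourhood which can be
expanded, inside `M`, by conformal symplectic embeddings with an arbitrarily large conformal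
factor. -/
def ConformallyExpandable (wM : Bil E M) : Prop :=
  ∀ K : Set M, IsCompact K → ∀ C : ℝ, ∃ (U : Set M) (Ψ : ℝ → M → M) (c : ℝ → ℝ),
    K ⊆ U ∧ C ≤ c 1 ∧ ConformalFamily wM U Ψ c

end defs

variable {E : Type*} [NormedAddCommGroup E] [InnerProductSpace ℂ E] [FiniteDimensional ℂ E]
  {M : Type*} [TopologicalSpace M] [ChartedSpace E M] [IsManifold 𝓘(ℝ, E) ∞ M]

/-- **Path lemma.** A path of families of balls, continuous in the `C¹` sense, has related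
end points. -/
lemma related_of_path [T2Space M] {wM : Bil E M} {S : Set M} (hS : S.Finite) {ρ R r : ℝ}
    (hρ : 0 < ρ) (hρR : ρ < R) (hRr : R < r) {Φ : ℝ → M → E → M}
    (hΦ : ∀ s ∈ Icc (0 : ℝ) 1, Balls wM S r (Φ s))
    (hcont : ∀ p ∈ S, Continuous (fun z : Icc (0 : ℝ) 1 × KSpace E R =>
      (⟨Φ z.1 p z.2.1, mfderiv 𝓘(ℝ, E) 𝓘(ℝ, E) (Φ z.1 p) (z.2.1 : E) (z.2.2 : E)⟩ :
        TangentBundle 𝓘(ℝ, E) M))) :
    Related wM S (Φ 0) (Φ 1) ρ := by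
  -- the continuous path of jets
  let Θ : Icc (0 : ℝ) 1 → S → C(KSpace E R, TangentBundle 𝓘(ℝ, E) M) := fun s p =>
    (ContinuousMap.curry ⟨_, hcont p p.2⟩) s
  have hΘc : Continuous Θ := by
    rw [continuous_pi_iff]
    intro p
    exact (ContinuousMap.curry ⟨_, hcont p p.2⟩).continuous
  have hΘj : ∀ s : Icc (0 : ℝ) 1, ∀ p : S, IsJet (φ := Φ s p) (Θ s p) := fun s p k => rfl
  have hloc : ∀ s : Icc (0 : ℝ) 1, ∀ᶠ s' : Icc (0 : ℝ) 1 in 𝓝 s, Related wM S (Φ s) (Φ s') ρ := by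
    intro s
    obtain ⟨𝒰, h1, h2, h3⟩ := exists_open_related hS (hΦ s s.2) hρ hρR hRr (hΘj s)
    filter_upwards [hΘc.continuousAt.eventually (h1.mem_nhds h2)] with s' hs'
    exact h3 r (Φ s') (Θ s') (hΦ s' s'.2) hRr (hΘj s') hs'
  set A : Set (Icc (0 : ℝ) 1) := {s | Related wM S (Φ 0) (Φ s) ρ} with hA
  have hAo : IsOpen A := by
    rw [isOpen_iff_mem_nhds]
    intro s hs
    filter_upwards [hloc s] with s' hs'
    exact Related.trans hs hs'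
  have hAc : IsClosed A := by
    rw [← isOpen_compl_iff, isOpen_iff_mem_nhds]
    intro s hs
    filter_upwards [hloc s] with s' hs' hmem
    exact hs (Related.trans hmem hs'.symm)
  have h0 : (⟨0, by norm_num, by norm_num⟩ : Icc (0 : ℝ) 1) ∈ A := Related.refl _ _ _ _
  have huniv : A = univ := IsClopen.eq_univ ⟨hAc, hAo⟩ ⟨_, h0⟩
  have h1 : (⟨1, by norm_num, by norm_num⟩ : Icc (0 : ℝ) 1) ∈ A := by rw [huniv]; trivial
  exact h1

/-- the rescaling factor -/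
def lam (c : ℝ → ℝ) (s : ℝ) : ℝ := (Real.sqrt (c s))⁻¹

lemma lam_pos {c : ℝ → ℝ} {s : ℝ} (h : 1 ≤ c s) : 0 < lam c s :=
  inv_pos.2 (Real.sqrt_pos.2 (by linarith))

lemma lam_le {c : ℝ → ℝ} {s : ℝ} (h : 1 ≤ c s) : lam c s ≤ 1 := by
  unfold lam
  apply inv_le_one_of_one_le₀
  rw [Real.one_le_sqrt]
  exact h

lemma lam_sq {c : ℝ → ℝ} {s : ℝ} (h : 1 ≤ c s) : c s * (lam c s * lam c s) = 1 := by
  unfold lam
  have h1 : Real.sqrt (c s) * Real.sqrt (c s) = c s := Real.mul_self_sqrt (by linarith)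
  have h2 : Real.sqrt (c s) ≠ 0 := (Real.sqrt_pos.2 (by linarith)).ne'
  field_simp
  rw [sq, h1]

/-- the expanded balls -/
def expand (φ : M → E → M) (Ψ : ℝ → M → M) (c : ℝ → ℝ) (s : ℝ) (p : M) (x : E) : M :=
  Ψ s (φ p (lam c s • x))

section family

variable {wM : Bil E M} {S : Set M} {r R₁ : ℝ} {φ : M → E → M} {U : Set M} {Ψ : ℝ → M → M}
  {c : ℝ → ℝ}

lemma lam_smul_mem {s : ℝ} (hc : 1 ≤ c s) {R : ℝ} {x : E} (hx : x ∈ ball (0 : E) R) :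
    lam c s • x ∈ ball (0 : E) R := by
  rw [mem_ball_zero_iff] at hx ⊢
  rw [norm_smul, Real.norm_eq_abs, abs_of_pos (lam_pos hc)]
  have h1 := lam_le hc
  have h2 := norm_nonneg x
  nlinarith

lemma contMDiffOn_slice (hΨ : ConformalFamily wM U Ψ c) (s : ℝ) :
    ContMDiffOn 𝓘(ℝ, E) 𝓘(ℝ, E) ∞ (Ψ s) U := by
  have h1 : ContMDiffOn 𝓘(ℝ, E) (𝓘(ℝ, ℝ).prod 𝓘(ℝ, E)) ∞ (fun x : M => (s, x)) U :=
    contMDiffOn_const.prodMk contMDiffOn_id
  exact hΨ.smooth.comp h1 (fun x hx => ⟨mem_univ _, hx⟩)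

/-- the expanded balls as a smooth map on a vector space -/
lemma contMDiffOn_hat (hΨ : ConformalFamily wM U Ψ c) (h : Balls wM S r φ) (hR₁ : R₁ ≤ r) {p : M}
    (hp : p ∈ S) (hU : φ p '' ball 0 R₁ ⊆ U) :
    ContMDiffOn 𝓘(ℝ, ℝ × E) 𝓘(ℝ, E) ∞ (fun q : ℝ × E => Ψ q.1 (φ p q.2))
      (univ ×ˢ ball (0 : E) R₁) := by
  have h1 : ContMDiffOn 𝓘(ℝ, ℝ × E) 𝓘(ℝ, ℝ) ∞ (fun q : ℝ × E => q.1) (univ ×ˢ ball (0 : E) R₁) :=
    contDiff_fst.contMDiff.contMDiffOn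
  have h2 : ContMDiffOn 𝓘(ℝ, ℝ × E) 𝓘(ℝ, E) ∞ (fun q : ℝ × E => φ p q.2)
      (univ ×ˢ ball (0 : E) R₁) := by
    have h3 : ContMDiffOn 𝓘(ℝ, ℝ × E) 𝓘(ℝ, E) ∞ (fun q : ℝ × E => q.2) (univ ×ˢ ball (0 : E) R₁) :=
      contDiff_snd.contMDiff.contMDiffOn
    exact (h.smooth p hp).comp h3 (fun q hq => ball_subset_ball hR₁ hq.2)
  exact hΨ.smooth.comp (h1.prodMk h2) (fun q hq => ⟨mem_univ _, hU (mem_image_of_mem _ hq.2)⟩)

/-- derivative of the expanded balls, in terms of the map on the vector space -/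
lemma mfderiv_expand (hΨ : ConformalFamily wM U Ψ c) (h : Balls wM S r φ) (hR₁ : R₁ ≤ r) {p : M}
    (hp : p ∈ S) (hU : φ p '' ball 0 R₁ ⊆ U) {s : ℝ} (hc : 1 ≤ c s) {x : E}
    (hx : x ∈ ball (0 : E) R₁) (v : E) :
    (mfderiv 𝓘(ℝ, E) 𝓘(ℝ, E) (expand φ Ψ c s p) x v : E) =
      (mfderiv 𝓘(ℝ, ℝ × E) 𝓘(ℝ, E) (fun q : ℝ × E => Ψ q.1 (φ p q.2)) (s, lam c s • x)
        ((0, lam c s • v) : ℝ × E) : E) := by
  set F : ℝ × E → M := fun q => Ψ q.1 (φ p q.2) with hF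
  have hm : (s, lam c s • x) ∈ (univ ×ˢ ball (0 : E) R₁ : Set (ℝ × E)) :=
    ⟨mem_univ _, lam_smul_mem hc hx⟩
  have hFd : MDifferentiableAt 𝓘(ℝ, ℝ × E) 𝓘(ℝ, E) F (s, lam c s • x) :=
    ((contMDiffOn_hat hΨ h hR₁ hp hU).contMDiffAt
      ((isOpen_univ.prod isOpen_ball).mem_nhds hm)).mdifferentiableAt (by simp)
  set a : E → ℝ × E := fun x => (s, lam c s • x) with ha
  have had : HasFDerivAt a (ContinuousLinearMap.prod (0 : E →L[ℝ] ℝ)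
      (lam c s • ContinuousLinearMap.id ℝ E)) x :=
    (hasFDerivAt_const s x).prodMk ((hasFDerivAt_id x).const_smul (lam c s))
  have ham : HasMFDerivAt 𝓘(ℝ, E) 𝓘(ℝ, ℝ × E) a x (ContinuousLinearMap.prod (0 : E →L[ℝ] ℝ)
      (lam c s • ContinuousLinearMap.id ℝ E)) := had.hasMFDerivAt
  have h1 : mfderiv 𝓘(ℝ, E) 𝓘(ℝ, E) (F ∘ a) x = (mfderiv 𝓘(ℝ, ℝ × E) 𝓘(ℝ, E) F (a x)).comp
      (mfderiv 𝓘(ℝ, E) 𝓘(ℝ, ℝ × E) a x) := mfderiv_comp x hFd ham.mdifferentiableAt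
  rw [ham.mfderiv] at h1
  exact DFunLike.congr_fun h1 v

lemma mfderiv_expand' (hΨ : ConformalFamily wM U Ψ c) (h : Balls wM S r φ) (hR₁ : R₁ ≤ r) {p : M}
    (hp : p ∈ S) (hU : φ p '' ball 0 R₁ ⊆ U) {s : ℝ} (hc : 1 ≤ c s) {x : E}
    (hx : x ∈ ball (0 : E) R₁) (v : E) :
    (mfderiv 𝓘(ℝ, E) 𝓘(ℝ, E) (expand φ Ψ c s p) x v : E) =
      (mfderiv 𝓘(ℝ, E) 𝓘(ℝ, E) (Ψ s) (φ p (lam c s • x))
        (mfderiv 𝓘(ℝ, E) 𝓘(ℝ, E) (φ p) (lam c s • x) (lam c s • v : E))) := by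
  have hx' := lam_smul_mem hc hx
  have hφd : MDifferentiableAt 𝓘(ℝ, E) 𝓘(ℝ, E) (φ p) (lam c s • x) :=
    ((h.smooth p hp).contMDiffAt (isOpen_ball.mem_nhds
      (ball_subset_ball hR₁ hx'))).mdifferentiableAt (by simp)
  have hΨd : MDifferentiableAt 𝓘(ℝ, E) 𝓘(ℝ, E) (Ψ s) (φ p (lam c s • x)) :=
    ((contMDiffOn_slice hΨ s).contMDiffAt (hΨ.isOpen.mem_nhds
      (hU (mem_image_of_mem _ hx')))).mdifferentiableAt (by simp)
  set a : E → E := fun x => lam c s • x with ha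
  have had : HasFDerivAt a (lam c s • ContinuousLinearMap.id ℝ E) x :=
    (hasFDerivAt_id x).const_smul (lam c s)
  have ham : HasMFDerivAt 𝓘(ℝ, E) 𝓘(ℝ, E) a x (lam c s • ContinuousLinearMap.id ℝ E) :=
    had.hasMFDerivAt
  have h1 : mfderiv 𝓘(ℝ, E) 𝓘(ℝ, E) (φ p ∘ a) x = (mfderiv 𝓘(ℝ, E) 𝓘(ℝ, E) (φ p) (a x)).comp
      (mfderiv 𝓘(ℝ, E) 𝓘(ℝ, E) a x) := mfderiv_comp x hφd ham.mdifferentiableAt
  have h2 : mfderiv 𝓘(ℝ, E) 𝓘(ℝ, E) (Ψ s ∘ (φ p ∘ a)) x =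
      (mfderiv 𝓘(ℝ, E) 𝓘(ℝ, E) (Ψ s) ((φ p ∘ a) x)).comp
      (mfderiv 𝓘(ℝ, E) 𝓘(ℝ, E) (φ p ∘ a) x) :=
    mfderiv_comp x hΨd (hφd.comp x ham.mdifferentiableAt)
  rw [h1, ham.mfderiv] at h2
  exact DFunLike.congr_fun h2 v

/-- the expanded balls are symplectic balls -/
lemma balls_expand (hΨ : ConformalFamily wM U Ψ c) (h : Balls wM S r φ) (hR₁ : R₁ ≤ r)
    (hU : ∀ p ∈ S, φ p '' ball 0 R₁ ⊆ U) {s : ℝ} (hs : s ∈ Icc (0 : ℝ) 1) :
    Balls wM S R₁ (expand φ Ψ c s) := by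
  have hc := hΨ.one_le s hs
  refine ⟨fun p hp => ?_, fun p hp q hq x hx y hy hxy => ?_, fun p hp x hx u v => ?_⟩
  · have h1 : ContMDiffOn 𝓘(ℝ, E) 𝓘(ℝ, ℝ × E) ∞ (fun x : E => (s, lam c s • x)) (ball 0 R₁) := by
      apply ContMDiff.contMDiffOn
      exact (contDiff_const.prodMk (contDiff_const.smul contDiff_id)).contMDiff
    exact (contMDiffOn_hat hΨ h hR₁ hp (hU p hp)).comp h1
      (fun x hx => ⟨mem_univ _, lam_smul_mem hc hx⟩)
  · have hx' := lam_smul_mem hc hx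
    have hy' := lam_smul_mem hc hy
    have h1 := hΨ.inj s hs (hU p hp (mem_image_of_mem _ hx')) (hU q hq (mem_image_of_mem _ hy')) hxy
    obtain ⟨h2, h3⟩ := h.inj p hp q hq _ (ball_subset_ball hR₁ hx') _ (ball_subset_ball hR₁ hy') h1
    exact ⟨h2, smul_right_injective E (lam_pos hc).ne' h3⟩
  · have hx' := lam_smul_mem hc hx
    have e := mfderiv_expand' hΨ h hR₁ hp (hU p hp) hc hx
    have h1 := hΨ.conf s hs _ (hU p hp (mem_image_of_mem _ hx'))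
      (mfderiv 𝓘(ℝ, E) 𝓘(ℝ, E) (φ p) (lam c s • x) (lam c s • u : E))
      (mfderiv 𝓘(ℝ, E) 𝓘(ℝ, E) (φ p) (lam c s • x) (lam c s • v : E))
    have h2 := h.symp p hp _ (ball_subset_ball hR₁ hx') (lam c s • u) (lam c s • v)
    rw [h2] at h1
    have h3 : c s * stdForm (lam c s • u) (lam c s • v) = stdForm u v := by
      rw [stdForm_smul_left, stdForm_smul_right]
      have h4 := lam_sq hc
      calc c s * (lam c s * (lam c s * stdForm u v)) =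
          (c s * (lam c s * lam c s)) * stdForm u v := by ring
        _ = stdForm u v := by rw [h4, one_mul]
    rw [h3] at h1
    refine Eq.trans ?_ h1
    exact congrArg₂ (fun a' b' : E =>
      (wM (expand φ Ψ c s p x) : E →L[ℝ] E →L[ℝ] ℝ) a' b') (e u) (e v)

/-- the jets of the expanded balls depend continuously on the parameters -/
lemma continuous_expand (hΨ : ConformalFamily wM U Ψ c) (h : Balls wM S r φ) (hR₁ : R₁ ≤ r)
    {p : M} (hp : p ∈ S) (hU : φ p '' ball 0 R₁ ⊆ U) {R : ℝ} (hR : R < R₁) :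
    Continuous (fun z : Icc (0 : ℝ) 1 × KSpace E R =>
      (⟨expand φ Ψ c z.1 p z.2.1, mfderiv 𝓘(ℝ, E) 𝓘(ℝ, E) (expand φ Ψ c z.1 p) (z.2.1 : E)
        (z.2.2 : E)⟩ : TangentBundle 𝓘(ℝ, E) M)) := by
  set F : ℝ × E → M := fun q => Ψ q.1 (φ p q.2) with hF
  have hFs := contMDiffOn_hat hΨ h hR₁ hp hU
  have hlam : Continuous (fun z : Icc (0 : ℝ) 1 × KSpace E R => lam c z.1) := by
    unfold lam
    refine Continuous.inv₀ ?_ ?_
    · exact Real.continuous_sqrt.comp (hΨ.cont.comp (continuous_subtype_val.comp continuous_fst))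
    · intro z
      exact (Real.sqrt_pos.2 (by linarith [hΨ.one_le z.1 z.1.2])).ne'
  set G : Icc (0 : ℝ) 1 × KSpace E R → TangentBundle 𝓘(ℝ, ℝ × E) (ℝ × E) := fun z =>
    ⟨((z.1 : ℝ), lam c z.1 • (z.2.1 : E)), ((0 : ℝ), lam c z.1 • (z.2.2 : E))⟩ with hG
  have hGc : Continuous G := by
    have h3 : Continuous (fun z : Icc (0 : ℝ) 1 × KSpace E R =>
        ((((z.1 : ℝ), lam c z.1 • (z.2.1 : E)), ((0 : ℝ), lam c z.1 • (z.2.2 : E))) :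
          (ℝ × E) × (ℝ × E))) := by
      have h4 : Continuous (fun z : Icc (0 : ℝ) 1 × KSpace E R => (z.2.1 : E)) := by fun_prop
      have h5 : Continuous (fun z : Icc (0 : ℝ) 1 × KSpace E R => (z.2.2 : E)) := by fun_prop
      have h6 : Continuous (fun z : Icc (0 : ℝ) 1 × KSpace E R => (z.1 : ℝ)) := by fun_prop
      exact (h6.prodMk (hlam.smul h4)).prodMk (continuous_const.prodMk (hlam.smul h5))
    exact (tangentBundleModelSpaceHomeomorph 𝓘(ℝ, ℝ × E)).symm.continuous.comp h3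
  have hD : IsOpen (univ ×ˢ ball (0 : E) R₁ : Set (ℝ × E)) := isOpen_univ.prod isOpen_ball
  have key : ∀ z : Icc (0 : ℝ) 1 × KSpace E R, (⟨expand φ Ψ c z.1 p z.2.1,
      mfderiv 𝓘(ℝ, E) 𝓘(ℝ, E) (expand φ Ψ c z.1 p) (z.2.1 : E) (z.2.2 : E)⟩ :
        TangentBundle 𝓘(ℝ, E) M) = tangentMap 𝓘(ℝ, ℝ × E) 𝓘(ℝ, E) F (G z) := by
    intro z
    have hx : (z.2.1 : E) ∈ ball (0 : E) R₁ := closedBall_subset_ball hR z.2.1.2
    have h1 := mfderiv_expand hΨ h hR₁ hp hU (hΨ.one_le z.1 z.1.2) hx (z.2.2 : E)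
    exact congrArg (fun a : E => (⟨expand φ Ψ c z.1 p z.2.1, a⟩ : TangentBundle 𝓘(ℝ, E) M)) h1
  rw [continuous_congr key]
  rw [continuous_iff_continuousAt]
  intro z
  have hx : (z.2.1 : E) ∈ ball (0 : E) R₁ := closedBall_subset_ball hR z.2.1.2
  have hm : (G z).1 ∈ (univ ×ˢ ball (0 : E) R₁ : Set (ℝ × E)) :=
    ⟨mem_univ _, lam_smul_mem (hΨ.one_le z.1 z.1.2) hx⟩
  have h1 := hFs.contMDiffOn_tangentMapWithin (m := ∞) (by simp) hD.uniqueMDiffOn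
  have hU' : IsOpen (Bundle.TotalSpace.proj ⁻¹' (univ ×ˢ ball (0 : E) R₁) :
      Set (TangentBundle 𝓘(ℝ, ℝ × E) (ℝ × E))) := hD.preimage (FiberBundle.continuous_proj _ _)
  have h2 : ContinuousAt (tangentMap 𝓘(ℝ, ℝ × E) 𝓘(ℝ, E) F) (G z) := by
    refine ((h1.contMDiffAt (hU'.mem_nhds hm)).congr_of_eventuallyEq ?_).continuousAt
    filter_upwards [hU'.mem_nhds hm] with w hw
    exact (tangentMapWithin_eq_tangentMap (hD.uniqueMDiffOn _ hw)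
      ((hFs.contMDiffAt (hD.mem_nhds hw)).mdifferentiableAt (by simp))).symm
  exact ContinuousAt.comp (g := tangentMap 𝓘(ℝ, ℝ × E) 𝓘(ℝ, E) F) (f := G) h2 hGc.continuousAt

end family

end Run7.h115
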