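import Pool.Agent.Run7.h115.Multi

/-! The space of collections of symplectic balls is second countable and the relation of being
ambiently symplectomorphic is open. -/

set_option autoImplicit false
set_option linter.unusedSectionVars false
set_option maxSynthPendingDepth 3

open scoped ContDiff Topology Manifold
open Set Metric Function

noncomputable section

namespace Run7.h115

section general

variable {E : Type*} [NormedAddCommGroup E] [NormedSpace ℝ E] [FiniteDimensional ℝ E]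
  {X : Type*} [TopologicalSpace X] [ChartedSpace E X] [IsManifold 𝓘(ℝ, E) ∞ X]
  {M : Type*} [TopologicalSpace M] [ChartedSpace E M] [IsManifold 𝓘(ℝ, E) ∞ M]

lemma continuousAt_tangentMap {f : X → M} {U : Set X}
    (hU : IsOpen U) (hf : ContMDiffOn 𝓘(ℝ, E) 𝓘(ℝ, E) ∞ f U) {v : TangentBundle 𝓘(ℝ, E) X}
    (hv : v.1 ∈ U) : ContinuousAt (tangentMap 𝓘(ℝ, E) 𝓘(ℝ, E) f) v := by
  have h1 := hf.contMDiffOn_tangentMapWithin (m := ∞) (by simp) hU.uniqueMDiffOn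
  have hU' : IsOpen (Bundle.TotalSpace.proj ⁻¹' U : Set (TangentBundle 𝓘(ℝ, E) X)) :=
    hU.preimage (FiberBundle.continuous_proj _ _)
  refine ((h1.contMDiffAt (hU'.mem_nhds hv)).congr_of_eventuallyEq ?_).continuousAt
  filter_upwards [hU'.mem_nhds hv] with w hw
  exact (tangentMapWithin_eq_tangentMap (hU.uniqueMDiffOn _ hw)
    ((hf.contMDiffAt (hU.mem_nhds hw)).mdifferentiableAt (by simp))).symm

/-- the differential of a function with values in a vector space, as a function on the tangent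
bundle -/
def dmap (f : M → E) (ξ : TangentBundle 𝓘(ℝ, E) M) : E := mfderiv 𝓘(ℝ, E) 𝓘(ℝ, E) f ξ.1 ξ.2

lemma continuousOn_dmap {f : M → E} {V : Set M} (hV : IsOpen V)
    (hf : ContMDiffOn 𝓘(ℝ, E) 𝓘(ℝ, E) ∞ f V) :
    ContinuousOn (dmap f) (Bundle.TotalSpace.proj ⁻¹' V) := by
  intro ξ hξ
  have h1 := continuousAt_tangentMap hV hf hξ
  have h2 : Continuous (fun p : TangentBundle 𝓘(ℝ, E) E => (p.2 : E)) :=
    (contMDiff_snd_tangentBundle_modelSpace (n := 1) E 𝓘(ℝ, E)).continuous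
  exact (h2.continuousAt.comp h1).continuousWithinAt

lemma secondCountable_tangent [SecondCountableTopology M] :
    SecondCountableTopology (TangentBundle 𝓘(ℝ, E) M) := by
  obtain ⟨s, hs, hsU⟩ := TopologicalSpace.countable_cover_nhds
    (f := fun x : M => (chartAt E x).source) (fun x => chart_source_mem_nhds E x)
  have h2 : SecondCountableTopology (ModelProd E E) :=
    inferInstanceAs (SecondCountableTopology (E × E))
  refine ChartedSpace.secondCountable_of_countable_cover (ModelProd E E)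
    (s := (fun x : M => (⟨x, 0⟩ : TangentBundle 𝓘(ℝ, E) M)) '' s) ?_ (hs.image _)
  rw [eq_univ_iff_forall]
  intro ξ
  have h1 : ξ.1 ∈ ⋃ x ∈ s, (chartAt E x).source := by rw [hsU]; trivial
  simp only [mem_iUnion] at h1
  obtain ⟨x, hx, hξ⟩ := h1
  simp only [mem_iUnion]
  refine ⟨⟨x, 0⟩, mem_image_of_mem _ hx, ?_⟩
  rw [TangentBundle.mem_chart_source_iff]
  exact hξ

/-- the inverse of an injective immersion (in equal dimensions) -/
lemma exists_inverse [Nonempty X] {f : X → M} {U : Set X} (hU : IsOpen U)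
    (hf : ContMDiffOn 𝓘(ℝ, E) 𝓘(ℝ, E) ∞ f U) (hinj : InjOn f U)
    (hd : ∀ x ∈ U, Injective (mfderiv 𝓘(ℝ, E) 𝓘(ℝ, E) f x)) :
    IsOpen (f '' U) ∧ ∃ ψ : M → X, ContMDiffOn 𝓘(ℝ, E) 𝓘(ℝ, E) ∞ ψ (f '' U) ∧
      ∀ x ∈ U, ψ (f x) = x := by
  have hleft : ∀ x ∈ U, invFunOn f U (f x) = x := fun x hx => hinj.leftInvOn_invFunOn hx
  have hloc : ∀ x ∈ U, ∃ T : Set X, IsOpen T ∧ x ∈ T ∧ T ⊆ U ∧ IsOpen (f '' T) ∧
      ContMDiffAt 𝓘(ℝ, E) 𝓘(ℝ, E) ∞ (invFunOn f U) (f x) := by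
    intro x hx
    obtain ⟨T, v, hTo, hxT, hTU, hv, hTopen, hvs⟩ := local_inverse hU hf hx (hd x hx)
    refine ⟨T, hTo, hxT, hTU, hTopen T subset_rfl hTo, ?_⟩
    refine (hvs x hxT).congr_of_eventuallyEq ?_
    filter_upwards [(hTopen T subset_rfl hTo).mem_nhds (mem_image_of_mem f hxT)] with y hy
    obtain ⟨ζ, hζ, rfl⟩ := hy
    rw [hv ζ hζ, hleft ζ (hTU hζ)]
  refine ⟨?_, invFunOn f U, ?_, hleft⟩
  · rw [isOpen_iff_mem_nhds]
    rintro _ ⟨x, hx, rfl⟩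
    obtain ⟨T, hTo, hxT, hTU, hfT, -⟩ := hloc x hx
    exact Filter.mem_of_superset (hfT.mem_nhds (mem_image_of_mem f hxT)) (image_mono hTU)
  · rintro _ ⟨x, hx, rfl⟩
    obtain ⟨T, hTo, hxT, hTU, hfT, h⟩ := hloc x hx
    exact h.contMDiffWithinAt

end general

variable {E : Type*} [NormedAddCommGroup E] [InnerProductSpace ℂ E] [FiniteDimensional ℂ E]
  {M : Type*} [TopologicalSpace M] [ChartedSpace E M] [IsManifold 𝓘(ℝ, E) ∞ M]

variable (E) in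
/-- the compact space of tangent vectors of length `≤ 1` at points of the ball of radius `R` -/
abbrev KSpace (R : ℝ) : Type _ := closedBall (0 : E) R × closedBall (0 : E) 1

/-- the one-jet of a ball -/
def IsJet {φ : E → M} {R : ℝ} (θ : C(KSpace E R, TangentBundle 𝓘(ℝ, E) M)) : Prop :=
  ∀ k : KSpace E R, θ k = ⟨φ k.1, mfderiv 𝓘(ℝ, E) 𝓘(ℝ, E) φ k.1 (k.2 : E)⟩

lemma exists_jet {φ : E → M} {R r : ℝ} (hR : R < r)
    (hφ : ContMDiffOn 𝓘(ℝ, E) 𝓘(ℝ, E) ∞ φ (ball 0 r)) :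
    ∃ θ : C(KSpace E R, TangentBundle 𝓘(ℝ, E) M), IsJet (φ := φ) θ := by
  have h2 : Continuous (fun k : KSpace E R => (⟨(k.1 : E), (k.2 : E)⟩ : TangentBundle 𝓘(ℝ, E) E)) := by
    have h3 : Continuous (fun k : KSpace E R => ((k.1 : E), (k.2 : E))) := by fun_prop
    exact (tangentBundleModelSpaceHomeomorph 𝓘(ℝ, E)).symm.continuous.comp h3
  refine ⟨⟨fun k => tangentMap 𝓘(ℝ, E) 𝓘(ℝ, E) φ ⟨(k.1 : E), (k.2 : E)⟩, ?_⟩, fun k => rfl⟩
  rw [continuous_iff_continuousAt]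
  intro k
  have h4 : ((⟨(k.1 : E), (k.2 : E)⟩ : TangentBundle 𝓘(ℝ, E) E)).1 ∈ ball (0 : E) r :=
    closedBall_subset_ball hR k.1.2
  exact ContinuousAt.comp (g := tangentMap 𝓘(ℝ, E) 𝓘(ℝ, E) φ)
    (f := fun k : KSpace E R => (⟨(k.1 : E), (k.2 : E)⟩ : TangentBundle 𝓘(ℝ, E) E)) (x := k)
    (continuousAt_tangentMap isOpen_ball hφ h4) h2.continuousAt

lemma dmap_jet {φ : E → M} {ψ : M → E} {x : E} (hφ : MDifferentiableAt 𝓘(ℝ, E) 𝓘(ℝ, E) φ x)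
    (hψ : MDifferentiableAt 𝓘(ℝ, E) 𝓘(ℝ, E) ψ (φ x)) (v : E) :
    dmap ψ ⟨φ x, mfderiv 𝓘(ℝ, E) 𝓘(ℝ, E) φ x v⟩ = fderiv ℝ (fun y => ψ (φ y)) x v := by
  have h1 : mfderiv 𝓘(ℝ, E) 𝓘(ℝ, E) (ψ ∘ φ) x =
      (mfderiv 𝓘(ℝ, E) 𝓘(ℝ, E) ψ (φ x)).comp (mfderiv 𝓘(ℝ, E) 𝓘(ℝ, E) φ x) :=
    mfderiv_comp x hψ hφ
  have h2 := DFunLike.congr_fun h1 v
  have h3 : mfderiv 𝓘(ℝ, E) 𝓘(ℝ, E) (ψ ∘ φ) x = fderiv ℝ (ψ ∘ φ) x := mfderiv_eq_fderiv
  rw [h3] at h2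
  exact h2.symm

lemma opNorm_le_of_unit {A : E →L[ℝ] E} {η : ℝ} (hη : 0 ≤ η)
    (h : ∀ v, ‖v‖ ≤ 1 → ‖A v‖ ≤ η) : ‖A‖ ≤ η := by
  refine ContinuousLinearMap.opNorm_le_bound _ hη fun v => ?_
  rcases eq_or_ne v 0 with rfl | hv
  · simp
  · have hv' : 0 < ‖v‖ := norm_pos_iff.2 hv
    have h1 := h ((‖v‖⁻¹ : ℝ) • v) (by
      rw [norm_smul, norm_inv, norm_norm, inv_mul_cancel₀ hv'.ne'])
    rw [map_smul, norm_smul, norm_inv, norm_norm] at h1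
    rw [inv_mul_le_iff₀ hv'] at h1
    linarith

/-- Around the one-jet of a collection of balls there is an open set of jets whose balls are
related to the given ones. -/
lemma exists_open_related [T2Space M] {wM : Bil E M} {S : Set M} (hS : S.Finite)
    {r : ℝ} {φ₁ : M → E → M} (h₁ : Balls wM S r φ₁) {ρ R : ℝ} (hρ : 0 < ρ) (hρR : ρ < R)
    (hRr : R < r) {θ₁ : S → C(KSpace E R, TangentBundle 𝓘(ℝ, E) M)}
    (hθ₁ : ∀ p : S, IsJet (φ := φ₁ p) (θ₁ p)) :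
    ∃ 𝒰 : Set (S → C(KSpace E R, TangentBundle 𝓘(ℝ, E) M)), IsOpen 𝒰 ∧ θ₁ ∈ 𝒰 ∧
      ∀ (r₂ : ℝ) (φ₂ : M → E → M) (θ₂ : S → C(KSpace E R, TangentBundle 𝓘(ℝ, E) M)),
        Balls wM S r₂ φ₂ → R < r₂ → (∀ p : S, IsJet (φ := φ₂ p) (θ₂ p)) → θ₂ ∈ 𝒰 →
        Related wM S φ₁ φ₂ ρ := by
  obtain ⟨η, hη, key⟩ := exists_related hS h₁ hρ hρR hRr.le
  have hfin : Finite S := hS
  -- inverses of the balls
  have hinv : ∀ p : S, IsOpen (φ₁ p '' ball 0 r) ∧ ∃ ψ : M → E,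
      ContMDiffOn 𝓘(ℝ, E) 𝓘(ℝ, E) ∞ ψ (φ₁ p '' ball 0 r) ∧ ∀ x ∈ ball (0 : E) r, ψ (φ₁ p x) = x := by
    intro p
    exact exists_inverse isOpen_ball (h₁.smooth p p.2)
      (fun x hx y hy hxy => (h₁.inj p p.2 p p.2 x hx y hy hxy).2)
      (fun x hx => (h₁.pullsBack p.2).injective one_ne_zero stdBil_nd hx)
  choose hVo ψ hψ hψφ using hinv
  -- the open conditions
  set W : S → Set (KSpace E R × TangentBundle 𝓘(ℝ, E) M) := fun p =>
    {z | z.2.1 ∈ φ₁ p '' ball 0 r ∧ ‖ψ p z.2.1 - z.1.1‖ < η ∧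
      ‖dmap (ψ p) z.2 - (z.1.2 : E)‖ < η} with hW
  have hWo : ∀ p, IsOpen (W p) := by
    intro p
    have hA : IsOpen {z : KSpace E R × TangentBundle 𝓘(ℝ, E) M | z.2.1 ∈ φ₁ p '' ball 0 r} :=
      (hVo p).preimage ((FiberBundle.continuous_proj E (TangentSpace 𝓘(ℝ, E))).comp
        continuous_snd)
    have hA' : IsOpen (Bundle.TotalSpace.proj ⁻¹' (φ₁ p '' ball 0 r) :
        Set (TangentBundle 𝓘(ℝ, E) M)) := (hVo p).preimage (FiberBundle.continuous_proj _ _)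
    have c1 : ContinuousOn (fun z : KSpace E R × TangentBundle 𝓘(ℝ, E) M => ‖ψ p z.2.1 - z.1.1‖)
        {z | z.2.1 ∈ φ₁ p '' ball 0 r} := by
      have d1 : ContinuousOn (fun z : KSpace E R × TangentBundle 𝓘(ℝ, E) M => ψ p z.2.1)
          {z | z.2.1 ∈ φ₁ p '' ball 0 r} :=
        (hψ p).continuousOn.comp ((FiberBundle.continuous_proj E (TangentSpace 𝓘(ℝ, E))).comp
          continuous_snd).continuousOn (fun z hz => hz)
      have d2 : Continuous (fun z : KSpace E R × TangentBundle 𝓘(ℝ, E) M => (z.1.1 : E)) := by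
        fun_prop
      exact (d1.sub d2.continuousOn).norm
    have c2 : ContinuousOn (fun z : KSpace E R × TangentBundle 𝓘(ℝ, E) M =>
        ‖dmap (ψ p) z.2 - (z.1.2 : E)‖)
        {z | z.2.1 ∈ φ₁ p '' ball 0 r} := by
      have d1 : ContinuousOn (fun z : KSpace E R × TangentBundle 𝓘(ℝ, E) M => dmap (ψ p) z.2)
          {z | z.2.1 ∈ φ₁ p '' ball 0 r} :=
        (continuousOn_dmap (hVo p) (hψ p)).comp continuous_snd.continuousOn (fun z hz => hz)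
      have d2 : Continuous (fun z : KSpace E R × TangentBundle 𝓘(ℝ, E) M => (z.1.2 : E)) := by
        fun_prop
      exact (d1.sub d2.continuousOn).norm
    have e1 := c1.isOpen_inter_preimage hA (isOpen_Iio (a := η))
    have e2 := c2.isOpen_inter_preimage hA (isOpen_Iio (a := η))
    convert e1.inter e2 using 1
    ext z
    simp only [hW, mem_ofPred_eq, mem_inter_iff, mem_preimage, mem_Iio]
    tauto
  set 𝒰 : Set (S → C(KSpace E R, TangentBundle 𝓘(ℝ, E) M)) :=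
    {θ | ∀ p, ∀ k, (k, θ p k) ∈ W p} with h𝒰
  refine ⟨𝒰, ?_, ?_, ?_⟩
  · have h1 : 𝒰 = ⋂ p : S, {θ | MapsTo ((ContinuousMap.id _).prodMk (θ p)) univ (W p)} := by
      ext θ
      simp only [h𝒰, mem_ofPred_eq, mem_iInter]
      exact ⟨fun h p k _ => h p k, fun h p k => h p (mem_univ k)⟩
    rw [h1]
    apply isOpen_iInter_of_finite
    intro p
    have hc : Continuous (fun θ : S → C(KSpace E R, TangentBundle 𝓘(ℝ, E) M) =>
        (ContinuousMap.id (KSpace E R)).prodMk (θ p)) := by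
      have h2 : Continuous (fun θ : C(KSpace E R, TangentBundle 𝓘(ℝ, E) M) =>
          (ContinuousMap.id (KSpace E R)).prodMk θ) := by
        apply ContinuousMap.continuous_of_continuous_uncurry
        show Continuous (fun z : C(KSpace E R, TangentBundle 𝓘(ℝ, E) M) × KSpace E R =>
          (z.2, z.1 z.2))
        exact continuous_snd.prodMk continuous_eval
      exact h2.comp (continuous_apply p)
    exact (ContinuousMap.isOpen_setOfPred_mapsTo isCompact_univ (hWo p)).preimage hc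
  · intro p k
    have hk : (k.1 : E) ∈ ball (0 : E) r := closedBall_subset_ball hRr k.1.2
    have hm : φ₁ p k.1 ∈ φ₁ p '' ball 0 r := mem_image_of_mem _ hk
    have hd1 : MDifferentiableAt 𝓘(ℝ, E) 𝓘(ℝ, E) (φ₁ p) (k.1 : E) :=
      ((h₁.smooth p p.2).contMDiffAt (isOpen_ball.mem_nhds hk)).mdifferentiableAt (by simp)
    have hd2 : MDifferentiableAt 𝓘(ℝ, E) 𝓘(ℝ, E) (ψ p) (φ₁ p k.1) :=
      ((hψ p).contMDiffAt ((hVo p).mem_nhds hm)).mdifferentiableAt (by simp)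
    show (θ₁ p k).1 ∈ φ₁ p '' ball 0 r ∧ ‖ψ p (θ₁ p k).1 - k.1‖ < η ∧
      ‖dmap (ψ p) (θ₁ p k) - (k.2 : E)‖ < η
    rw [hθ₁ p k]
    refine ⟨hm, ?_, ?_⟩
    · show ‖ψ p (φ₁ p k.1) - k.1‖ < η
      rw [hψφ p _ hk, sub_self, norm_zero]
      exact hη
    · rw [dmap_jet hd1 hd2]
      have h1 : (fun y => ψ p (φ₁ p y)) =ᶠ[𝓝 (k.1 : E)] id := by
        filter_upwards [isOpen_ball.mem_nhds hk] with y hy
        exact hψφ p y hy
      rw [h1.fderiv_eq, fderiv_id, ContinuousLinearMap.id_apply, sub_self, norm_zero]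
      exact hη
  · intro r₂ φ₂ θ₂ h₂ hR₂ hθ₂ hmem
    -- reformulate the membership
    have hx : ∀ (p : M) (hp : p ∈ S), ∀ x ∈ closedBall (0 : E) R,
        φ₂ p x ∈ φ₁ p '' ball 0 r ∧ ‖ψ ⟨p, hp⟩ (φ₂ p x) - x‖ < η ∧
        ∀ v : E, ‖v‖ ≤ 1 →
          ‖dmap (ψ ⟨p, hp⟩) ⟨φ₂ p x, mfderiv 𝓘(ℝ, E) 𝓘(ℝ, E) (φ₂ p) x v⟩ - v‖ < η := by
      intro p hp x hx
      have h1 : ∀ v : E, ‖v‖ ≤ 1 → φ₂ p x ∈ φ₁ p '' ball 0 r ∧ ‖ψ ⟨p, hp⟩ (φ₂ p x) - x‖ < η ∧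
          ‖dmap (ψ ⟨p, hp⟩) ⟨φ₂ p x, mfderiv 𝓘(ℝ, E) 𝓘(ℝ, E) (φ₂ p) x v⟩ - v‖ < η := by
        intro v hv
        have h2 := hmem ⟨p, hp⟩ (⟨⟨x, hx⟩, ⟨v, by rwa [mem_closedBall_zero_iff]⟩⟩ : KSpace E R)
        have h3 : (θ₂ ⟨p, hp⟩ (⟨⟨x, hx⟩, ⟨v, by rwa [mem_closedBall_zero_iff]⟩⟩ : KSpace E R)).1 ∈
            φ₁ p '' ball 0 r ∧
            ‖ψ ⟨p, hp⟩ (θ₂ ⟨p, hp⟩ (⟨⟨x, hx⟩, ⟨v, by rwa [mem_closedBall_zero_iff]⟩⟩ :
              KSpace E R)).1 - x‖ < η ∧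
            ‖dmap (ψ ⟨p, hp⟩) (θ₂ ⟨p, hp⟩ (⟨⟨x, hx⟩, ⟨v, by rwa [mem_closedBall_zero_iff]⟩⟩ :
              KSpace E R)) - v‖ < η := h2
        rw [hθ₂ ⟨p, hp⟩] at h3
        exact h3
      exact ⟨(h1 0 (by simp)).1, (h1 0 (by simp)).2.1, fun v hv => (h1 v hv).2.2⟩
    classical
    set g : M → E → E := fun p x => if hp : p ∈ S then ψ ⟨p, hp⟩ (φ₂ p x) else x with hg
    have hgS : ∀ (p : M) (hp : p ∈ S), g p = fun x => ψ ⟨p, hp⟩ (φ₂ p x) := by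
      intro p hp
      funext x
      simp only [hg, dif_pos hp]
    have hsub : ball (0 : E) R ⊆ ball 0 r₂ := ball_subset_ball hR₂.le
    have hd2 : ∀ p ∈ S, ∀ x ∈ ball (0 : E) R, ContMDiffAt 𝓘(ℝ, E) 𝓘(ℝ, E) ∞ (φ₂ p) x :=
      fun p hp x hx => (h₂.smooth p hp).contMDiffAt (isOpen_ball.mem_nhds (hsub hx))
    have hdψ : ∀ (p : M) (hp : p ∈ S), ∀ x ∈ ball (0 : E) R,
        ContMDiffAt 𝓘(ℝ, E) 𝓘(ℝ, E) ∞ (ψ ⟨p, hp⟩) (φ₂ p x) :=
      fun p hp x hxR => (hψ ⟨p, hp⟩).contMDiffAt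
        ((hVo ⟨p, hp⟩).mem_nhds (hx p hp x (ball_subset_closedBall hxR)).1)
    have hgφ : ∀ p ∈ S, ∀ x ∈ closedBall (0 : E) R, g p x ∈ ball (0 : E) r ∧
        φ₁ p (g p x) = φ₂ p x := by
      intro p hp x hxR
      obtain ⟨y, hy, hyx⟩ := (hx p hp x hxR).1
      rw [hgS p hp]
      show ψ ⟨p, hp⟩ (φ₂ p x) ∈ ball (0 : E) r ∧ φ₁ p (ψ ⟨p, hp⟩ (φ₂ p x)) = φ₂ p x
      rw [← hyx, hψφ ⟨p, hp⟩ y hy]
      exact ⟨hy, rfl⟩
    have hgs : ∀ p ∈ S, ContDiffOn ℝ ∞ (g p) (ball 0 R) := by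
      intro p hp x hxR
      apply ContDiffAt.contDiffWithinAt
      rw [← contMDiffAt_iff_contDiffAt, hgS p hp]
      exact (hdψ p hp x hxR).comp x (hd2 p hp x hxR)
    refine key φ₂ g hgs ?_ ?_ ?_ ?_
    · intro p hp x hxR u v
      obtain ⟨h3, h4⟩ := hgφ p hp x (ball_subset_closedBall hxR)
      have h5 := h₁.symp p hp (g p x) h3 (fderiv ℝ (g p) x u) (fderiv ℝ (g p) x v)
      have h6 := h₂.symp p hp x (hsub hxR) u v
      rw [stdL_apply, stdL_apply, ← h5, ← h6]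
      have hgd : MDifferentiableAt 𝓘(ℝ, E) 𝓘(ℝ, E) (g p) x :=
        ((hgs p hp).contDiffAt (isOpen_ball.mem_nhds hxR)).contMDiffAt.mdifferentiableAt (by simp)
      have hd1 : MDifferentiableAt 𝓘(ℝ, E) 𝓘(ℝ, E) (φ₁ p) (g p x) :=
        ((h₁.smooth p hp).contMDiffAt (isOpen_ball.mem_nhds h3)).mdifferentiableAt (by simp)
      have e1 : mfderiv 𝓘(ℝ, E) 𝓘(ℝ, E) (φ₁ p ∘ g p) x =
          (mfderiv 𝓘(ℝ, E) 𝓘(ℝ, E) (φ₁ p) (g p x)).comp (mfderiv 𝓘(ℝ, E) 𝓘(ℝ, E) (g p) x) :=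
        mfderiv_comp x hd1 hgd
      have e2 : (φ₁ p ∘ g p) =ᶠ[𝓝 x] φ₂ p := by
        filter_upwards [isOpen_ball.mem_nhds hxR] with y hy
        exact (hgφ p hp y (ball_subset_closedBall hy)).2
      have e3 := e2.mfderiv_eq (I := 𝓘(ℝ, E)) (I' := 𝓘(ℝ, E))
      have e5 : ∀ b : E, (mfderiv 𝓘(ℝ, E) 𝓘(ℝ, E) (φ₁ p) (g p x) (fderiv ℝ (g p) x b) : E) =
          (mfderiv 𝓘(ℝ, E) 𝓘(ℝ, E) (φ₂ p) x b : E) := by
        intro b
        have h7 := DFunLike.congr_fun e1 b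
        have h8 := DFunLike.congr_fun e3 b
        rw [mfderiv_eq_fderiv] at h7
        exact h7.symm.trans h8
      refine (bil_congr wM h4 _ _).trans ?_
      exact congrArg₂ (fun a' b' : E => (wM (φ₂ p x) : E →L[ℝ] E →L[ℝ] ℝ) a' b') (e5 u) (e5 v)
    · intro p hp x hxR
      rw [hgS p hp]
      exact (hx p hp x (ball_subset_closedBall hxR)).2.1.le
    · intro p hp x hxR
      apply opNorm_le_of_unit hη.le
      intro v hv
      have h7 := (hx p hp x (ball_subset_closedBall hxR)).2.2 v hv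
      rw [dmap_jet ((hd2 p hp x hxR).mdifferentiableAt (by simp))
        ((hdψ p hp x hxR).mdifferentiableAt (by simp))] at h7
      rw [hgS p hp]
      exact h7.le
    · intro p hp x hxR
      exact (hgφ p hp x (closedBall_subset_closedBall hρR.le hxR)).2.symm

/-- The family version: countably many classes of collections of balls. -/
lemma countable_balls [T2Space M] [SecondCountableTopology M] {wM : Bil E M} {S : Set M}
    (hS : S.Finite) {ρ R : ℝ} (hρ : 0 < ρ) (hρR : ρ < R) {ι : Type*} {r : ι → ℝ}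
    {φ : ι → M → E → M} (hφ : ∀ i, Balls wM S (r i) (φ i)) (hR : ∀ i, R < r i) :
    ∃ c : Set ι, c.Countable ∧ ∀ i, ∃ j ∈ c, Related wM S (φ j) (φ i) ρ := by
  have hfin : Finite S := hS
  have hTM : SecondCountableTopology (TangentBundle 𝓘(ℝ, E) M) := secondCountable_tangent
  have hjet : ∀ i, ∃ θ : S → C(KSpace E R, TangentBundle 𝓘(ℝ, E) M),
      ∀ p : S, IsJet (φ := φ i p) (θ p) := by
    intro i
    have h1 : ∀ p : S, ∃ θ : C(KSpace E R, TangentBundle 𝓘(ℝ, E) M), IsJet (φ := φ i p) θ :=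
      fun p => exists_jet (hR i) ((hφ i).smooth p p.2)
    choose θ hθ using h1
    exact ⟨θ, hθ⟩
  choose θ hθ using hjet
  have hop := fun i => exists_open_related hS (hφ i) hρ hρR (hR i) (hθ i)
  choose 𝒰 h𝒰o h𝒰m h𝒰 using hop
  obtain ⟨T, hT, hTU⟩ := TopologicalSpace.isOpen_iUnion_countable 𝒰 h𝒰o
  refine ⟨T, hT, fun i => ?_⟩
  have h1 : θ i ∈ ⋃ i ∈ T, 𝒰 i := by
    rw [hTU]
    exact mem_iUnion.2 ⟨i, h𝒰m i⟩
  simp only [mem_iUnion] at h1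
  obtain ⟨j, hj, hij⟩ := h1
  exact ⟨j, hj, h𝒰 j (r i) (φ i) (θ i) (hφ i) (hR i) (hθ i) hij⟩

end Run7.h115
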