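import Pool.Agent.Run7.h115.Pert

/-! Cutting off symplectic maps which are close to the identity. -/

set_option autoImplicit false
set_option linter.unusedSectionVars false
set_option maxSynthPendingDepth 3

open scoped ContDiff Topology NNReal
open Set Metric Function

noncomputable section

namespace Run7.h115

variable {E : Type*} [NormedAddCommGroup E] [NormedSpace ℝ E] [FiniteDimensional ℝ E]

/-- a symplectic form on a vector space: alternating and nondegenerate -/
structure IsSympForm (σ : E →L[ℝ] E →L[ℝ] ℝ) : Prop where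
  alt : ∀ v, σ v v = 0
  nd : ∀ v, (∀ w, σ v w = 0) → v = 0

/-- linear maps preserving the form -/
def IsSymp (σ : E →L[ℝ] E →L[ℝ] ℝ) (A : E →L[ℝ] E) : Prop := ∀ u v, σ (A u) (A v) = σ u v

namespace IsSympForm

variable {σ : E →L[ℝ] E →L[ℝ] ℝ} (hσ : IsSympForm σ)

include hσ

lemma skew (u v : E) : σ u v = - σ v u := by
  have h := hσ.alt (u + v)
  simp only [map_add, add_apply, hσ.alt, zero_add, add_zero] at h
  linarith

lemma injective : Injective σ := by
  rw [injective_iff_map_eq_zero]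
  intro v hv
  exact hσ.nd v fun w => by rw [hv]; rfl

/-- the musical isomorphism -/
lemma exists_sharp : ∃ s : (E →L[ℝ] ℝ) →L[ℝ] E, (∀ ℓ u, σ (s ℓ) u = ℓ u) ∧ ∀ v, s (σ v) = v := by
  have hdim : Module.finrank ℝ E = Module.finrank ℝ (E →L[ℝ] ℝ) := by
    have h1 : Module.finrank ℝ (E →ₗ[ℝ] ℝ) = Module.finrank ℝ E := by
      rw [Module.finrank_linearMap, Module.finrank_self, mul_one]
    rw [← h1]
    exact LinearEquiv.finrank_eq LinearMap.toContinuousLinearMap
  let l : E ≃ₗ[ℝ] (E →L[ℝ] ℝ) :=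
    LinearEquiv.ofInjectiveOfFinrankEq (σ : E →ₗ[ℝ] (E →L[ℝ] ℝ)) hσ.injective hdim
  have hl : ∀ v, l v = σ v := fun v => rfl
  refine ⟨l.symm.toContinuousLinearEquiv, fun ℓ u => ?_, fun v => ?_⟩
  · have h1 : σ (l.symm ℓ) = ℓ := by rw [← hl]; exact l.apply_symm_apply ℓ
    have h2 := DFunLike.congr_fun h1 u
    exact h2
  · have h1 : l.symm (l v) = v := l.symm_apply_apply v
    rw [hl] at h1
    exact h1

end IsSympForm

/-- The algebra behind the midpoint generating function. -/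
lemma symp_of_symm {σ : E →L[ℝ] E →L[ℝ] ℝ} (hσ : IsSympForm σ) {D : E →L[ℝ] E}
    (hD : ∀ u v, σ (D u) v = σ (D v) u) (u v : E) :
    σ (u + (1/2 : ℝ) • D u) (v + (1/2 : ℝ) • D v) = σ (u - (1/2 : ℝ) • D u) (v - (1/2 : ℝ) • D v) := by
  simp only [map_add, map_sub, map_smul, add_apply, sub_apply,
    smul_apply, smul_eq_mul]
  have h1 := hD u v
  have h2 := hσ.skew u (D v)
  linarith

lemma symm_of_symp {σ : E →L[ℝ] E →L[ℝ] ℝ} (hσ : IsSympForm σ) {D : E →L[ℝ] E}
    (h : ∀ u v, σ (u + (1/2 : ℝ) • D u) (v + (1/2 : ℝ) • D v) =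
      σ (u - (1/2 : ℝ) • D u) (v - (1/2 : ℝ) • D v)) (u v : E) :
    σ (D u) v = σ (D v) u := by
  have h1 := h u v
  simp only [map_add, map_sub, map_smul, add_apply, sub_apply,
    smul_apply, smul_eq_mul] at h1
  have h2 := hσ.skew u (D v)
  linarith

/-- Given a small symmetric field `Δ = ♯ dS`, the map `m - Δ/2 ↦ m + Δ/2` is a symplectic
diffeomorphism. -/
lemma exists_of_generating {σ : E →L[ℝ] E →L[ℝ] ℝ} (hσ : IsSympForm σ) {Δ : E → E}
    (hΔ : ContDiff ℝ ∞ Δ) (hs : ∀ m u v, σ (fderiv ℝ Δ m u) v = σ (fderiv ℝ Δ m v) u)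
    (hb : ∀ m, ‖fderiv ℝ Δ m‖ ≤ 1) :
    ∃ H : E ≃ E, ContDiff ℝ ∞ H ∧ ContDiff ℝ ∞ H.symm ∧ (∀ x, IsSymp σ (fderiv ℝ H x)) ∧
      ∀ m, H (m - (1/2 : ℝ) • Δ m) = m + (1/2 : ℝ) • Δ m := by
  set a : E → E := fun m => m - (1/2 : ℝ) • Δ m with ha
  set b : E → E := fun m => m + (1/2 : ℝ) • Δ m with hb'
  have hΔd := hΔ.differentiable (by simp)
  have has : ContDiff ℝ ∞ a := contDiff_id.sub (contDiff_const.smul hΔ)
  have hbs : ContDiff ℝ ∞ b := contDiff_id.add (contDiff_const.smul hΔ)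
  have had : ∀ m, fderiv ℝ a m = ContinuousLinearMap.id ℝ E - (1/2 : ℝ) • fderiv ℝ Δ m := fun m =>
    ((hasFDerivAt_id m).sub ((hΔd m).hasFDerivAt.const_smul (1/2 : ℝ))).fderiv
  have hbd : ∀ m, fderiv ℝ b m = ContinuousLinearMap.id ℝ E + (1/2 : ℝ) • fderiv ℝ Δ m := fun m =>
    ((hasFDerivAt_id m).add ((hΔd m).hasFDerivAt.const_smul (1/2 : ℝ))).fderiv
  have hn : ∀ m, ‖(1/2 : ℝ) • fderiv ℝ Δ m‖ ≤ 1/2 := by
    intro m
    rw [norm_smul]
    have := hb m
    norm_num
    linarith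
  obtain ⟨ea, hea, heas⟩ := pert_diffeo has (fun m => by
    rw [had, sub_sub_cancel_left, norm_neg]; exact hn m)
  obtain ⟨eb, heb, hebs⟩ := pert_diffeo hbs (fun m => by
    rw [hbd, add_sub_cancel_left]; exact hn m)
  have hea' : (ea : E → E) = a := funext hea
  have heb' : (eb : E → E) = b := funext heb
  have hec : ContDiff ℝ ∞ ea := by rw [hea']; exact has
  have hebc : ContDiff ℝ ∞ eb := by rw [heb']; exact hbs
  refine ⟨ea.symm.trans eb, hebc.comp heas, hec.comp hebs, fun x u v => ?_, fun m => ?_⟩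
  · set m := ea.symm x with hm
    have hx : ea m = x := ea.apply_symm_apply x
    have h1 : fderiv ℝ (ea.symm.trans eb) x = (fderiv ℝ eb m).comp (fderiv ℝ ea.symm x) :=
      fderiv_comp x (hebc.differentiable (by simp) _) (heas.differentiable (by simp) x)
    have h2 : (fderiv ℝ ea m).comp (fderiv ℝ ea.symm x) = ContinuousLinearMap.id ℝ E := by
      have h3 : fderiv ℝ (ea ∘ ea.symm) x = (fderiv ℝ ea m).comp (fderiv ℝ ea.symm x) :=
        fderiv_comp x (hec.differentiable (by simp) _) (heas.differentiable (by simp) x)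
      rw [← h3]
      have h4 : (ea ∘ ea.symm) = id := by funext z; simp
      rw [h4, fderiv_id]
    have h5 : ∀ w, fderiv ℝ ea m (fderiv ℝ ea.symm x w) = w := fun w => DFunLike.congr_fun h2 w
    rw [h1]
    simp only [ContinuousLinearMap.comp_apply]
    have h6 := symp_of_symm hσ (hs m) (fderiv ℝ ea.symm x u) (fderiv ℝ ea.symm x v)
    rw [heb', hbd]
    simp only [add_apply, smul_apply,
      ContinuousLinearMap.id_apply]
    rw [h6]
    have h7 := h5 u
    have h8 := h5 v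
    rw [hea', had] at h7 h8
    simp only [sub_apply, smul_apply,
      ContinuousLinearMap.id_apply] at h7 h8
    rw [h7, h8]
  · show eb (ea.symm (a m)) = b m
    rw [← hea m, ea.symm_apply_apply, heb]

end Run7.h115
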