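import Pool.Agent.Run7.h115.Cut

/-! Cutting off symplectic maps which are close to the identity: the main lemma. -/

set_option autoImplicit false
set_option linter.unusedSectionVars false
set_option maxSynthPendingDepth 3

open scoped ContDiff Topology NNReal
open Set Metric Function

noncomputable section

namespace Run7.h115

variable {E : Type*} [NormedAddCommGroup E] [NormedSpace ℝ E] [FiniteDimensional ℝ E]

/-- bounds on the derivative of a smooth function with compact support -/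
lemma exists_fderiv_bound {F : Type*} [NormedAddCommGroup F] [NormedSpace ℝ F] {f : E → F}
    (hs : ContDiff ℝ ∞ f) (hc : HasCompactSupport f) :
    ∃ C, 0 ≤ C ∧ (∀ x, ‖f x‖ ≤ C) ∧ (∀ x, ‖fderiv ℝ f x‖ ≤ C) := by
  have h1 : Continuous (fderiv ℝ f) := hs.continuous_fderiv (by simp)
  obtain ⟨C1, hC1⟩ := (hc.fderiv ℝ).exists_bound_of_continuous h1
  obtain ⟨C2, hC2⟩ := hc.exists_bound_of_continuous hs.continuous
  have h0 : 0 ≤ C1 := (norm_nonneg _).trans (hC1 0)
  exact ⟨max C1 C2, h0.trans (le_max_left _ _), fun x => (hC2 x).trans (le_max_right _ _),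
    fun x => (hC1 x).trans (le_max_left _ _)⟩

/-- bump functions -/
lemma exists_bump0 (a b : ℝ) (ha : 0 < a) (hab : a < b) : ∃ χ : E → ℝ, ContDiff ℝ ∞ χ ∧
    HasCompactSupport χ ∧
    (∀ x, ‖x‖ ≤ a → χ x = 1) ∧ (∀ x, b ≤ ‖x‖ → χ x = 0) ∧ (∀ x, 0 ≤ χ x ∧ χ x ≤ 1) := by
  obtain ⟨f, hfi, hfo⟩ : ∃ f : ContDiffBump (0 : E), f.rIn = a ∧ f.rOut = b :=
    ⟨⟨a, b, ha, hab⟩, rfl, rfl⟩
  refine ⟨f, f.contDiff, f.hasCompactSupport, fun x hx => ?_, fun x hx => ?_, fun x => ?_⟩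
  · apply f.one_of_mem_closedBall
    rw [mem_closedBall_zero_iff, hfi]
    exact hx
  · apply f.zero_of_le_dist
    rw [dist_zero_right, hfo]
    exact hx
  · exact ⟨f.nonneg, f.le_one⟩

/-- bump functions with bounds -/
lemma exists_bump (a b : ℝ) (ha : 0 < a) (hab : a < b) : ∃ χ : E → ℝ, ContDiff ℝ ∞ χ ∧
    (∀ x, ‖x‖ ≤ a → χ x = 1) ∧ (∀ x, b ≤ ‖x‖ → χ x = 0) ∧ (∀ x, 0 ≤ χ x ∧ χ x ≤ 1) ∧
    ∃ C, 0 ≤ C ∧ (∀ x, ‖fderiv ℝ χ x‖ ≤ C) ∧ ∀ x, ‖fderiv ℝ (fderiv ℝ χ) x‖ ≤ C := by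
  obtain ⟨χ, h1, h2, h3, h4, h5⟩ := exists_bump0 (E := E) a b ha hab
  obtain ⟨C, hC0, hC1, hC2⟩ := exists_fderiv_bound (f := fderiv ℝ χ) (h1.fderiv_right (by simp)) (h2.fderiv ℝ)
  exact ⟨χ, h1, h3, h4, h5, C, hC0, hC1, hC2⟩

/-- The cut-off lemma: a symplectic map of a ball which is `C¹` close to the identity agrees on a
smaller ball with a symplectic diffeomorphism supported in the bigger one. -/
theorem cutoff_ext {σ : E →L[ℝ] E →L[ℝ] ℝ} (hσ : IsSympForm σ) {r R : ℝ} (hr : 0 < r) (hrR : r < R) :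
    ∃ η : ℝ, 0 < η ∧ ∀ h : E → E, ContDiffOn ℝ ∞ h (ball 0 R) →
      (∀ x ∈ ball (0 : E) R, IsSymp σ (fderiv ℝ h x)) →
      (∀ x ∈ ball (0 : E) R, ‖h x - x‖ ≤ η) →
      (∀ x ∈ ball (0 : E) R, ‖fderiv ℝ h x - ContinuousLinearMap.id ℝ E‖ ≤ η) →
      ∃ H : E ≃ E, ContDiff ℝ ∞ H ∧ ContDiff ℝ ∞ H.symm ∧ (∀ x, IsSymp σ (fderiv ℝ H x)) ∧
        (∀ x ∈ closedBall (0 : E) r, H x = h x) ∧ ∃ R' < R, ∀ x, x ∉ ball (0 : E) R' → H x = x := by
  obtain ⟨s, hs1, hs2⟩ := hσ.exists_sharp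
  set d : ℝ := (R - r) / 6 with hd
  have hd0 : 0 < d := by rw [hd]; linarith
  set r1 := r + d with hr1
  set r2 := r + 2 * d with hr2
  set r3 := r + 3 * d with hr3
  set r4 := r + 4 * d with hr4
  set r5 := r + 5 * d with hr5
  have hR6 : R = r + 6 * d := by rw [hd]; ring
  obtain ⟨χ, hχs, hχ1, hχ0, hχb, C1, hC10, hC1, hC1'⟩ :=
    exists_bump (E := E) r1 r2 (by linarith) (by linarith)
  obtain ⟨ψ, hψs, hψ1, hψ0, hψb, C2, hC20, hC2, hC2'⟩ :=
    exists_bump (E := E) r4 r5 (by linarith) (by linarith)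
  -- the constants
  set A : ℝ := ‖s‖ * (‖σ‖ * (2 * C1 + 4 * (C2 + 1) + C1 * r3)) with hA
  have hA0 : 0 ≤ A := by positivity
  set η : ℝ := min d (min (1 / (2 * (C2 + 1))) (1 / (A + 1))) with hη
  have hη0 : 0 < η := by positivity
  have hηd : η ≤ d := min_le_left _ _
  have hη2 : (C2 + 1) * η ≤ 1 / 2 := by
    have h1 : η ≤ 1 / (2 * (C2 + 1)) := (min_le_right _ _).trans (min_le_left _ _)
    rw [le_div_iff₀ (by positivity)] at h1
    linarith
  have hη3 : A * η ≤ 1 := by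
    have h1 : η ≤ 1 / (A + 1) := (min_le_right _ _).trans (min_le_right _ _)
    rw [le_div_iff₀ (by positivity)] at h1
    nlinarith
  refine ⟨η, hη0, fun h hh hsymp hh0 hh1 => ?_⟩
  -- the globalised map
  set k : E → E := fun x => ψ x • (h x - x) with hk
  have hks : ContDiff ℝ ∞ k := by
    rw [contDiff_iff_contDiffAt]
    intro x
    rcases lt_or_ge ‖x‖ R with hx | hx
    · have h1 : ContDiffAt ℝ ∞ h x :=
        hh.contDiffAt (isOpen_ball.mem_nhds (by rwa [mem_ball_zero_iff]))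
      exact hψs.contDiffAt.smul (h1.sub contDiffAt_id)
    · have h1 : k =ᶠ[𝓝 x] fun _ => 0 := by
        have h2 : ∀ᶠ y in 𝓝 x, r5 < ‖y‖ :=
          (isOpen_lt continuous_const continuous_norm).mem_nhds (by
            show r5 < ‖x‖
            linarith)
        filter_upwards [h2] with y hy
        simp only [hk, hψ0 y hy.le, zero_smul]
      exact contDiffAt_const.congr_of_eventuallyEq h1
  have hkn : ∀ x, ‖k x‖ ≤ η := by
    intro x
    rcases lt_or_ge ‖x‖ R with hx | hx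
    · have h1 := hh0 x (by rwa [mem_ball_zero_iff])
      simp only [hk, norm_smul, Real.norm_eq_abs, abs_of_nonneg (hψb x).1]
      calc ψ x * ‖h x - x‖ ≤ 1 * η := mul_le_mul (hψb x).2 h1 (norm_nonneg _) zero_le_one
        _ = η := one_mul _
    · simp only [hk, hψ0 x (by linarith), zero_smul, norm_zero]
      exact hη0.le
  have hkd : ∀ x, ‖fderiv ℝ k x‖ ≤ (C2 + 1) * η := by
    intro x
    rcases lt_or_ge ‖x‖ R with hx | hx
    · have hxb : x ∈ ball (0 : E) R := by rwa [mem_ball_zero_iff]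
      have h1 : DifferentiableAt ℝ h x :=
        (hh.contDiffAt (isOpen_ball.mem_nhds hxb)).differentiableAt (by simp)
      have h2 : HasFDerivAt (fun x => h x - x) (fderiv ℝ h x - ContinuousLinearMap.id ℝ E) x :=
        h1.hasFDerivAt.sub (hasFDerivAt_id x)
      have h3 : HasFDerivAt ψ (fderiv ℝ ψ x) x := (hψs.differentiable (by simp) x).hasFDerivAt
      have h4 := (h3.smul h2).fderiv
      have h5 : fderiv ℝ k x = ψ x • (fderiv ℝ h x - ContinuousLinearMap.id ℝ E) +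
        (fderiv ℝ ψ x).smulRight (h x - x) := h4
      rw [h5]
      refine (norm_add_le _ _).trans ?_
      rw [norm_smul, Real.norm_eq_abs, abs_of_nonneg (hψb x).1, ContinuousLinearMap.norm_smulRight_apply]
      have h6 : ψ x * ‖fderiv ℝ h x - ContinuousLinearMap.id ℝ E‖ ≤ 1 * η :=
        mul_le_mul (hψb x).2 (hh1 x hxb) (norm_nonneg _) zero_le_one
      have h7 : ‖fderiv ℝ ψ x‖ * ‖h x - x‖ ≤ C2 * η :=
        mul_le_mul (hC2 x) (hh0 x hxb) (norm_nonneg _) hC20
      linarith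
    · have h1 : k =ᶠ[𝓝 x] fun _ => 0 := by
        have h2 : ∀ᶠ y in 𝓝 x, r5 < ‖y‖ :=
          (isOpen_lt continuous_const continuous_norm).mem_nhds (by
            show r5 < ‖x‖
            linarith)
        filter_upwards [h2] with y hy
        simp only [hk, hψ0 y hy.le, zero_smul]
      rw [h1.fderiv_eq]
      simp only [fderiv_fun_const, Pi.zero_apply, norm_zero]
      positivity
  set a : E → E := fun x => x + (1/2 : ℝ) • k x with ha
  have has : ContDiff ℝ ∞ a := contDiff_id.add (contDiff_const.smul hks)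
  have had : ∀ x, fderiv ℝ a x = ContinuousLinearMap.id ℝ E + (1/2 : ℝ) • fderiv ℝ k x := fun x =>
    ((hasFDerivAt_id x).add (((hks.differentiable (by simp)) x).hasFDerivAt.const_smul
      (1/2 : ℝ))).fderiv
  have had' : ∀ x, ‖fderiv ℝ a x - ContinuousLinearMap.id ℝ E‖ ≤ (C2 + 1) * η / 2 := by
    intro x
    rw [had, add_sub_cancel_left, norm_smul]
    have := hkd x
    norm_num
    linarith
  obtain ⟨e, he, hes⟩ := pert_diffeo has (fun x => (had' x).trans (by linarith))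
  have he' : (e : E → E) = a := funext he
  have hec : ContDiff ℝ ∞ e := by rw [he']; exact has
  set b : E → E := fun m => e.symm m with hb
  have hbs : ContDiff ℝ ∞ b := hes
  have hbd : ∀ m, ‖fderiv ℝ b m - ContinuousLinearMap.id ℝ E‖ ≤ (C2 + 1) * η := by
    intro m
    have h1 := fderiv_symm_near hec hes (δ := (C2 + 1) * η / 2) (by linarith)
      (fun x => by rw [he']; exact had' x) m
    have h2 : fderiv ℝ b m = fderiv ℝ e.symm m := rfl
    rw [h2]
    linarith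
  have hab : ∀ m, a (b m) = m := fun m => by rw [← he]; exact e.apply_symm_apply m
  have hba : ∀ x, b (a x) = x := fun x => by rw [← he]; exact e.symm_apply_apply x
  -- the displacement as a function of the midpoint
  set Δ : E → E := fun m => (2 : ℝ) • (m - b m) with hΔ
  have hΔs : ContDiff ℝ ∞ Δ := contDiff_const.smul (contDiff_id.sub hbs)
  have hΔk : ∀ m, Δ m = k (b m) := by
    intro m
    have h1 : m - b m = (1/2 : ℝ) • k (b m) := by
      have h2 : b m + (1/2 : ℝ) • k (b m) = m := hab m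
      rw [sub_eq_iff_eq_add, add_comm]
      exact h2.symm
    simp only [hΔ, h1, smul_smul]
    norm_num
  have hΔn : ∀ m, ‖Δ m‖ ≤ η := fun m => by rw [hΔk]; exact hkn _
  have hbn : ∀ m, ‖b m‖ ≤ ‖m‖ + d / 2 := by
    intro m
    have h1 : b m = m - (1/2 : ℝ) • Δ m := by
      simp only [hΔ, smul_smul]
      norm_num
    rw [h1]
    refine (norm_sub_le _ _).trans ?_
    rw [norm_smul]
    have := hΔn m
    norm_num
    linarith
  have hbdd : ∀ m, HasFDerivAt b (fderiv ℝ b m) m := fun m =>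
    (hbs.differentiable (by simp) m).hasFDerivAt
  have hΔd0 : ∀ m, HasFDerivAt Δ ((2 : ℝ) • (ContinuousLinearMap.id ℝ E - fderiv ℝ b m)) m :=
    fun m => ((hasFDerivAt_id m).sub (hbdd m)).const_smul (2 : ℝ)
  have hΔd : ∀ m, fderiv ℝ Δ m = (2 : ℝ) • (ContinuousLinearMap.id ℝ E - fderiv ℝ b m) :=
    fun m => (hΔd0 m).fderiv
  have hΔdn : ∀ m, ‖fderiv ℝ Δ m‖ ≤ 2 * ((C2 + 1) * η) := by
    intro m
    rw [hΔd, norm_smul, norm_sub_rev]
    have := hbd m
    norm_num
    linarith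
  -- `DΔ` is symmetric on the ball of radius `r3`
  have hsym : ∀ m ∈ ball (0 : E) r3, ∀ u v, σ (fderiv ℝ Δ m u) v = σ (fderiv ℝ Δ m v) u := by
    intro m hm
    rw [mem_ball_zero_iff] at hm
    have hbm : ‖b m‖ < r4 := by
      have := hbn m
      linarith
    have hbR : b m ∈ ball (0 : E) R := by rw [mem_ball_zero_iff]; linarith
    have hkh : k =ᶠ[𝓝 (b m)] fun x => h x - x := by
      have h2 : ∀ᶠ y in 𝓝 (b m), ‖y‖ < r4 :=
        (isOpen_lt continuous_norm continuous_const).mem_nhds hbm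
      filter_upwards [h2] with y hy
      simp only [hk, hψ1 y hy.le, one_smul]
    have h1 : DifferentiableAt ℝ h (b m) :=
      (hh.contDiffAt (isOpen_ball.mem_nhds hbR)).differentiableAt (by simp)
    have h2 : fderiv ℝ k (b m) = fderiv ℝ h (b m) - ContinuousLinearMap.id ℝ E := by
      rw [hkh.fderiv_eq]
      exact (h1.hasFDerivAt.sub (hasFDerivAt_id _)).fderiv
    have h3 : fderiv ℝ Δ m = (fderiv ℝ k (b m)).comp (fderiv ℝ b m) := by
      have h4 : Δ = k ∘ b := funext hΔk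
      rw [h4]
      exact fderiv_comp m (hks.differentiable (by simp) _) (hbs.differentiable (by simp) m)
    apply symm_of_symp hσ
    intro u v
    have h5 : ∀ u, u - (1/2 : ℝ) • fderiv ℝ Δ m u = fderiv ℝ b m u := by
      intro u
      rw [hΔd]
      simp only [smul_apply, sub_apply, ContinuousLinearMap.id_apply, smul_smul]
      norm_num
    have h6 : ∀ u, u + (1/2 : ℝ) • fderiv ℝ Δ m u = fderiv ℝ h (b m) (fderiv ℝ b m u) := by
      intro u
      have h7 : fderiv ℝ Δ m u = fderiv ℝ h (b m) (fderiv ℝ b m u) - fderiv ℝ b m u := by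
        rw [h3, h2]
        simp
      have h8 : fderiv ℝ h (b m) (fderiv ℝ b m u) = fderiv ℝ Δ m u + fderiv ℝ b m u := by
        rw [h7]; abel
      rw [h8, ← h5 u]
      have h9 : fderiv ℝ Δ m u = (1/2 : ℝ) • fderiv ℝ Δ m u + (1/2 : ℝ) • fderiv ℝ Δ m u := by
        rw [← add_smul]; norm_num
      nth_rewrite 2 [h9]
      abel
    rw [h5, h5, h6, h6]
    exact hsymp (b m) hbR _ _
  -- primitive
  set θ : E → E →L[ℝ] ℝ := fun m => σ (Δ m) with hθ
  have hθs : ContDiff ℝ ∞ θ := σ.contDiff.comp hΔs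
  have hθd0 : ∀ m, HasFDerivAt θ (σ.comp (fderiv ℝ Δ m)) m := fun m =>
    σ.hasFDerivAt.comp m ((hΔs.differentiable (by simp) m).hasFDerivAt)
  have hθd : ∀ m, fderiv ℝ θ m = σ.comp (fderiv ℝ Δ m) := fun m => (hθd0 m).fderiv
  have hθn : ∀ m, ‖θ m‖ ≤ ‖σ‖ * η := fun m =>
    (σ.le_opNorm _).trans (mul_le_mul_of_nonneg_left (hΔn m) (norm_nonneg _))
  have hθdn : ∀ m, ‖fderiv ℝ θ m‖ ≤ ‖σ‖ * (2 * ((C2 + 1) * η)) := fun m => by
    rw [hθd]
    exact (ContinuousLinearMap.opNorm_comp_le _ _).trans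
      (mul_le_mul_of_nonneg_left (hΔdn m) (norm_nonneg _))
  obtain ⟨S0, hS0⟩ := (convex_ball (0 : E) r3).exists_forall_hasFDerivAt_of_fderiv_symmetric
    isOpen_ball (fun m _ => (hθd0 m).differentiableAt.differentiableWithinAt)
    (fun m hm u v => by
      rw [hθd]
      exact hsym m hm u v)
  set S : E → ℝ := fun m => S0 m - S0 0 with hS
  have hSd : ∀ m ∈ ball (0 : E) r3, HasFDerivAt S (θ m) m := fun m hm => (hS0 m hm).sub_const _
  have hSs : ContDiffOn ℝ ∞ S (ball 0 r3) := by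
    rw [contDiffOn_infty_iff_fderiv_of_isOpen isOpen_ball]
    refine ⟨fun m hm => (hSd m hm).differentiableAt.differentiableWithinAt, ?_⟩
    exact hθs.contDiffOn.congr fun m hm => (hSd m hm).fderiv
  have hSn : ∀ m ∈ ball (0 : E) r3, ‖S m‖ ≤ ‖σ‖ * η * r3 := by
    intro m hm
    have h1 := (convex_ball (0 : E) r3).norm_image_sub_le_of_norm_hasFDerivWithin_le
      (fun x hx => (hSd x hx).hasFDerivWithinAt) (fun x _ => hθn x)
      (mem_ball_self (show 0 < r3 by linarith)) hm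
    have h2 : S m - S 0 = S m := by simp [hS]
    rw [h2, sub_zero] at h1
    rw [mem_ball_zero_iff] at hm
    exact h1.trans (mul_le_mul_of_nonneg_left hm.le (by positivity))
  set S' : E → ℝ := fun m => χ m * S m with hS'
  have hfar : ∀ m, r3 ≤ ‖m‖ → S' =ᶠ[𝓝 m] fun _ => 0 := by
    intro m hm
    have h2 : ∀ᶠ y in 𝓝 m, r2 < ‖y‖ :=
      (isOpen_lt continuous_const continuous_norm).mem_nhds (by
        show r2 < ‖m‖
        linarith)
    filter_upwards [h2] with y hy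
    simp only [hS', hχ0 y hy.le, zero_mul]
  have hS's : ContDiff ℝ ∞ S' := by
    rw [contDiff_iff_contDiffAt]
    intro m
    rcases lt_or_ge ‖m‖ r3 with hx | hx
    · have h1 : ContDiffAt ℝ ∞ S m :=
        hSs.contDiffAt (isOpen_ball.mem_nhds (by rwa [mem_ball_zero_iff]))
      exact hχs.contDiffAt.mul h1
    · exact contDiffAt_const.congr_of_eventuallyEq (hfar m hx)
  have hχd : ∀ m, HasFDerivAt χ (fderiv ℝ χ m) m := fun m =>
    (hχs.differentiable (by simp) m).hasFDerivAt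
  have hS'd : ∀ m ∈ ball (0 : E) r3, fderiv ℝ S' m = χ m • θ m + S m • fderiv ℝ χ m := fun m hm =>
    ((hχd m).mul (hSd m hm)).fderiv
  have hχ2 : ContDiff ℝ ∞ (fderiv ℝ χ) := hχs.fderiv_right (by simp)
  have hS'dd : ∀ m ∈ ball (0 : E) r3, fderiv ℝ (fderiv ℝ S') m =
      (χ m • fderiv ℝ θ m + (fderiv ℝ χ m).smulRight (θ m)) +
      (S m • fderiv ℝ (fderiv ℝ χ) m + (θ m).smulRight (fderiv ℝ χ m)) := by
    intro m hm
    have h1 : fderiv ℝ S' =ᶠ[𝓝 m] fun m => χ m • θ m + S m • fderiv ℝ χ m := by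
      filter_upwards [isOpen_ball.mem_nhds hm] with y hy
      exact hS'd y hy
    rw [h1.fderiv_eq]
    have h2 : HasFDerivAt θ (fderiv ℝ θ m) m := (hθs.differentiable (by simp) m).hasFDerivAt
    have h3 : HasFDerivAt (fderiv ℝ χ) (fderiv ℝ (fderiv ℝ χ) m) m :=
      (hχ2.differentiable (by simp) m).hasFDerivAt
    exact (((hχd m).smul h2).add ((hSd m hm).smul h3)).fderiv
  set Δ' : E → E := fun m => s (fderiv ℝ S' m) with hΔ'
  have hS'f : ContDiff ℝ ∞ (fderiv ℝ S') := hS's.fderiv_right (by simp)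
  have hΔ's : ContDiff ℝ ∞ Δ' := s.contDiff.comp hS'f
  have hΔ'd : ∀ m, fderiv ℝ Δ' m = s.comp (fderiv ℝ (fderiv ℝ S') m) := fun m =>
    (s.hasFDerivAt.comp m ((hS'f.differentiable (by simp) m).hasFDerivAt)).fderiv
  have hsym' : ∀ m u v, σ (fderiv ℝ Δ' m u) v = σ (fderiv ℝ Δ' m v) u := by
    intro m u v
    rw [hΔ'd]
    simp only [ContinuousLinearMap.comp_apply, hs1]
    have h1 : IsSymmSndFDerivAt ℝ S' m :=
      hS's.contDiffAt.isSymmSndFDerivAt (by
        rw [minSmoothness_of_isRCLikeNormedField]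
        exact ENat.LEInfty.out)
    exact h1 u v
  have hΔ'n : ∀ m, ‖fderiv ℝ Δ' m‖ ≤ 1 := by
    intro m
    rw [hΔ'd]
    refine (ContinuousLinearMap.opNorm_comp_le _ _).trans ?_
    rcases lt_or_ge ‖m‖ r3 with hx | hx
    · have hm : m ∈ ball (0 : E) r3 := by rwa [mem_ball_zero_iff]
      rw [hS'dd m hm]
      have h1 : ‖χ m • fderiv ℝ θ m‖ ≤ ‖σ‖ * (2 * ((C2 + 1) * η)) := by
        rw [norm_smul, Real.norm_eq_abs, abs_of_nonneg (hχb m).1]
        calc χ m * ‖fderiv ℝ θ m‖ ≤ 1 * (‖σ‖ * (2 * ((C2 + 1) * η))) :=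
              mul_le_mul (hχb m).2 (hθdn m) (norm_nonneg _) zero_le_one
          _ = _ := one_mul _
      have h2 : ‖(fderiv ℝ χ m).smulRight (θ m)‖ ≤ C1 * (‖σ‖ * η) := by
        rw [ContinuousLinearMap.norm_smulRight_apply]
        exact mul_le_mul (hC1 m) (hθn m) (norm_nonneg _) hC10
      have h3 : ‖S m • fderiv ℝ (fderiv ℝ χ) m‖ ≤ (‖σ‖ * η * r3) * C1 := by
        rw [norm_smul]
        exact mul_le_mul (hSn m hm) (hC1' m) (norm_nonneg _) (by positivity)
      have h4 : ‖(θ m).smulRight (fderiv ℝ χ m)‖ ≤ (‖σ‖ * η) * C1 := by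
        rw [ContinuousLinearMap.norm_smulRight_apply]
        exact mul_le_mul (hθn m) (hC1 m) (norm_nonneg _) (by positivity)
      have h5 := norm_add_le (χ m • fderiv ℝ θ m + (fderiv ℝ χ m).smulRight (θ m))
        (S m • fderiv ℝ (fderiv ℝ χ) m + (θ m).smulRight (fderiv ℝ χ m))
      have h6 := norm_add_le (χ m • fderiv ℝ θ m) ((fderiv ℝ χ m).smulRight (θ m))
      have h7 := norm_add_le (S m • fderiv ℝ (fderiv ℝ χ) m) ((θ m).smulRight (fderiv ℝ χ m))
      have h8 : ‖(χ m • fderiv ℝ θ m + (fderiv ℝ χ m).smulRight (θ m)) +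
          (S m • fderiv ℝ (fderiv ℝ χ) m + (θ m).smulRight (fderiv ℝ χ m))‖ ≤
          (‖σ‖ * (2 * C1 + 4 * (C2 + 1) + C1 * r3)) * η := by
        have h9 : 0 ≤ ‖σ‖ * ((C2 + 1) * η) := by positivity
        nlinarith
      calc ‖s‖ * _ ≤ ‖s‖ * ((‖σ‖ * (2 * C1 + 4 * (C2 + 1) + C1 * r3)) * η) :=
            mul_le_mul_of_nonneg_left h8 (norm_nonneg _)
        _ = A * η := by rw [hA]; ring
        _ ≤ 1 := hη3
    · have h1 : fderiv ℝ S' =ᶠ[𝓝 m] fderiv ℝ (fun _ => (0 : ℝ)) := (hfar m hx).fderiv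
      rw [h1.fderiv_eq]
      simp
  obtain ⟨H, hHs, hHs', hHsymp, hH⟩ := exists_of_generating hσ hΔ's hsym' hΔ'n
  refine ⟨H, hHs, hHs', hHsymp, fun x hx => ?_, r3, by linarith, fun x hx => ?_⟩
  · rw [mem_closedBall_zero_iff] at hx
    have hψx : ψ x = 1 := hψ1 x (by linarith)
    set m := a x with hm
    have hbm : b m = x := hba x
    have hmn : ‖m‖ < r1 := by
      have h1 : ‖m‖ ≤ ‖x‖ + ‖(1/2 : ℝ) • k x‖ := norm_add_le _ _
      rw [norm_smul] at h1
      have h2 := hkn x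
      norm_num at h1
      linarith
    have hmr3 : m ∈ ball (0 : E) r3 := by rw [mem_ball_zero_iff]; linarith
    have hSS : S' =ᶠ[𝓝 m] S := by
      have h2 : ∀ᶠ y in 𝓝 m, ‖y‖ < r1 :=
        (isOpen_lt continuous_norm continuous_const).mem_nhds hmn
      filter_upwards [h2] with y hy
      simp only [hS', hχ1 y hy.le, one_mul]
    have h3 : Δ' m = Δ m := by
      simp only [hΔ']
      rw [hSS.fderiv_eq, (hSd m hmr3).fderiv]
      exact hs2 _
    have h4 := hH m
    rw [h3, hΔk, hbm] at h4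
    have h5 : m = x + (1/2 : ℝ) • k x := rfl
    have h6 : k x = h x - x := by simp only [hk, hψx, one_smul]
    have h7 : m - (1/2 : ℝ) • k x = x := by rw [h5]; abel
    have h8 : m + (1/2 : ℝ) • k x = h x := by
      rw [h5, add_assoc, ← add_smul, h6]
      norm_num
    rw [h7, h8] at h4
    exact h4
  · rw [mem_ball_zero_iff, not_lt] at hx
    have h1 : Δ' x = 0 := by
      simp only [hΔ']
      rw [(hfar x hx).fderiv_eq]
      simp
    have h2 := hH x
    rw [h1] at h2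
    simpa using h2

end Run7.h115
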