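import Pool.Agent.Run7.h115.Defs
import Pool.Agent.Helper186.ExtDer

/-! Blowups of a symplectic manifold along a symplectic submanifold of codimension two. -/

set_option autoImplicit false
set_option linter.unusedSectionVars false
set_option maxSynthPendingDepth 3

open scoped ContDiff Topology Manifold
open Set Metric Function

noncomputable section

namespace Run7.h115

open Pool.Agent.Helper186 (SmoothForm extDer)

universe u v

/-- A field of linear forms on the tangent spaces of `M`. -/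
abbrev OneForm (E : Type*) [NormedAddCommGroup E] [NormedSpace ℝ E] (M : Type*) [TopologicalSpace M]
    [ChartedSpace E M] : Type _ :=
  (x : M) → TangentSpace 𝓘(ℝ, E) x →L[ℝ] ℝ

variable {E : Type*} [NormedAddCommGroup E] [NormedSpace ℝ E]
  {M : Type*} [TopologicalSpace M] [ChartedSpace E M]
  {N : Type*} [TopologicalSpace N] [ChartedSpace E N]
  {G : Type*} [NormedAddCommGroup G] [NormedSpace ℝ G]
  {P : Type*} [TopologicalSpace P] [ChartedSpace G P] [IsManifold 𝓘(ℝ, G) ∞ P]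
  [MulAction Circle P]

/-- The velocity at `p` of the circle action, `d/dθ (exp (i θ) • p)` at `θ = 0`. -/
def gen (p : P) : G :=
  mfderiv 𝓘(ℝ, ℝ) 𝓘(ℝ, G) (fun θ : ℝ => Circle.exp θ • p) 0 (1 : ℝ)

/-- `β` is a connection form on the principal circle bundle `P`: the circle acts smoothly and
freely on `P`, and `β` is a smooth invariant one-form equal to one on the generator. -/
structure IsConnection (β : OneForm G P) : Prop where
  smooth_action : ContMDiff (𝓘(ℝ, ℝ).prod 𝓘(ℝ, G)) 𝓘(ℝ, G) ∞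
    (fun a : ℝ × P => Circle.exp a.1 • a.2)
  free : ∀ (t : Circle) (p : P), t • p = p → t = 1
  smooth : SmoothForm β
  apply_gen : ∀ p : P, β p (gen (G := G) p) = 1
  invariant : ∀ (t : Circle) (p : P) (ξ : G),
    β (t • p) (mfderiv 𝓘(ℝ, G) 𝓘(ℝ, G) (fun q => t • q) p ξ) = β p ξ

variable (E) in
/-- the derivative at `a` of a map from `P × ℂ` to a manifold -/
def dtube (Φ : P × ℂ → M) (a : P × ℂ) (u : G × ℂ) : TangentSpace 𝓘(ℝ, E) (Φ a) :=
  mfderiv (𝓘(ℝ, G).prod 𝓘(ℝ, ℂ)) 𝓘(ℝ, E) Φ a u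

/-- The two-form `d(|z|²/2) ∧ β + dx ∧ dy` on `P × ℂ`, at the point `a = (p, z)`. -/
def radialForm (β : OneForm G P) (a : P × ℂ) (u v : G × ℂ) : ℝ :=
  inner ℝ a.2 u.2 * β a.1 v.1 - inner ℝ a.2 v.2 * β a.1 u.1 + stdForm u.2 v.2

/-- The pull back to `P` of the form `w` of `M` by the map `p ↦ Φ (p, 0)`. -/
def baseForm (w : Bil E M) (Φ : P × ℂ → M) (p : P) (ξ η : G) : ℝ :=
  w (Φ (p, 0)) (dtube E Φ (p, 0) (ξ, (0 : ℂ))) (dtube E Φ (p, 0) (η, (0 : ℂ)))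

/-- The minimal coupling form, pulled back to `P × ℂ`: this is
`ω_S + dx ∧ dy + d ((|z|²/2 + t) β)`, where `ω_S` is the pull back of `w` by `p ↦ Φ (p, 0)`. -/
def couplingForm (w : Bil E M) (Φ : P × ℂ → M) (β : OneForm G P) (t : ℝ) (a : P × ℂ) (u v : G × ℂ) : ℝ :=
  baseForm w Φ a.1 u.1 v.1 + (‖a.2‖ ^ 2 / 2 + t) * extDer 𝓘(ℝ, G) β a.1 u.1 v.1 +
    radialForm β a u v

/-- `Φ` identifies `P ×_{U(1)} B(r)` with a neighbourhood of `S`, a submanifold of codimension two,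
so that the symplectic form `w` becomes the minimal coupling form given by `β`. The map `Φ` is only
used on the disc bundle of radius `r`. -/
structure IsTube (w : Bil E M) (S : Set M) (r : ℝ) (β : OneForm G P) (Φ : P × ℂ → M) : Prop where
  /-- `P` has dimension `dim M - 1` -/
  dim : Module.finrank ℝ G + 1 = Module.finrank ℝ E
  smooth : ContMDiffOn (𝓘(ℝ, G).prod 𝓘(ℝ, ℂ)) 𝓘(ℝ, E) ∞ Φ {a | ‖a.2‖ < r}
  /-- `Φ` is a submersion -/
  submersion : ∀ a : P × ℂ, ‖a.2‖ < r → Surjective (fun u : G × ℂ => dtube E Φ a u)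
  /-- two points have the same image if and only if they give the same point of
  `P ×_{U(1)} ℂ` -/
  eq_iff : ∀ a b : P × ℂ, ‖a.2‖ < r → ‖b.2‖ < r →
    (Φ a = Φ b ↔ ∃ t : Circle, b.1 = t • a.1 ∧ a.2 = t * b.2)
  /-- `S` is the image of the zero section -/
  zero_section : ∀ x, x ∈ S ↔ ∃ p, Φ (p, 0) = x
  /-- `Φ` pulls the symplectic form back to the minimal coupling form -/
  symp : ∀ a : P × ℂ, ‖a.2‖ < r → ∀ u v : G × ℂ,
    w (Φ a) (dtube E Φ a u) (dtube E Φ a v) = couplingForm w Φ β 0 a u v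

/-- `(N, wN)` is the `ε`-blowup of `(M, wM)` along the submanifold `S` of codimension two, given by
the tube `Φ` of radius `r > ε`. The manifold `N` is obtained by gluing the complement of the closed
tube of radius `ε` and `P ×_{U(1)} B(√(r²-ε²))`. -/
structure IsBlowupCodimTwo (wM : Bil E M) (S : Set M) (ε : ℝ) (wN : Bil E N) (r : ℝ) (β : OneForm G P)
    (Φ : P × ℂ → M) (J : M → N) (K : P × ℂ → N) : Prop where
  lt : ε < r
  connection : IsConnection β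
  tube : IsTube wM S r β Φ
  /-- `J` is smooth on the complement of the closed tube of radius `ε` -/
  J_smooth : ContMDiffOn 𝓘(ℝ, E) 𝓘(ℝ, E) ∞ J {x | ∀ a : P × ℂ, ‖a.2‖ ≤ ε → Φ a ≠ x}
  J_inj : InjOn J {x | ∀ a : P × ℂ, ‖a.2‖ ≤ ε → Φ a ≠ x}
  /-- `J` is symplectic there -/
  J_symp : ∀ x, (∀ a : P × ℂ, ‖a.2‖ ≤ ε → Φ a ≠ x) → ∀ u v,
    wN (J x) (mfderiv 𝓘(ℝ, E) 𝓘(ℝ, E) J x u) (mfderiv 𝓘(ℝ, E) 𝓘(ℝ, E) J x v) = wM x u v
  K_smooth : ContMDiffOn (𝓘(ℝ, G).prod 𝓘(ℝ, ℂ)) 𝓘(ℝ, E) ∞ K {a | ‖a.2‖ ^ 2 + ε ^ 2 < r ^ 2}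
  /-- `K` is a submersion -/
  K_submersion : ∀ a : P × ℂ, ‖a.2‖ ^ 2 + ε ^ 2 < r ^ 2 → Surjective (fun u : G × ℂ => dtube E K a u)
  /-- two points have the same image if and only if they give the same point of
  `P ×_{U(1)} ℂ` -/
  K_eq_iff : ∀ a b : P × ℂ, ‖a.2‖ ^ 2 + ε ^ 2 < r ^ 2 → ‖b.2‖ ^ 2 + ε ^ 2 < r ^ 2 →
    (K a = K b ↔ ∃ t : Circle, b.1 = t • a.1 ∧ a.2 = t * b.2)
  /-- `K` pulls the form of the blowup back to the minimal coupling form for the moment map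
  `|z|²/2 + ε²/2` of the blowup of the plane -/
  K_symp : ∀ a : P × ℂ, ‖a.2‖ ^ 2 + ε ^ 2 < r ^ 2 → ∀ u v : G × ℂ,
    wN (K a) (dtube E K a u) (dtube E K a v) = couplingForm wM Φ β (ε ^ 2 / 2) a u v
  /-- the gluing rule -/
  glue : ∀ a : P × ℂ, ‖a.2‖ ^ 2 + ε ^ 2 < r ^ 2 → ∀ x, (∀ a : P × ℂ, ‖a.2‖ ≤ ε → Φ a ≠ x) →
    (J x = K a ↔ a.2 ≠ 0 ∧ x = Φ (a.1, (Real.sqrt (‖a.2‖ ^ 2 + ε ^ 2) / ‖a.2‖ : ℝ) • a.2))
  /-- the two pieces cover the blowup -/
  cover : ∀ y : N, (∃ x, (∀ a : P × ℂ, ‖a.2‖ ≤ ε → Φ a ≠ x) ∧ J x = y) ∨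
    ∃ a : P × ℂ, ‖a.2‖ ^ 2 + ε ^ 2 < r ^ 2 ∧ K a = y

/-- A cut-off function on `[0, r²)`: equal to one near zero and to zero near `r²`. -/
structure IsCut (r : ℝ) (χ : ℝ → ℝ) : Prop where
  smooth : ContDiff ℝ ∞ χ
  one : ∃ ρ > 0, ∀ u ≤ ρ, χ u = 1
  zero : ∃ ρ < r ^ 2, ∀ u ≥ ρ, χ u = 0

/-- The Thom form `d (χ(|z|²) (β + dθ))`, in the coordinates of the tube. It represents `-2π` times
the class Poincaré dual to `S`. -/
def thomForm (β : OneForm G P) (χ : ℝ → ℝ) (a : P × ℂ) (u v : G × ℂ) : ℝ :=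
  χ (‖a.2‖ ^ 2) * extDer 𝓘(ℝ, G) β a.1 u.1 v.1 + 2 * deriv χ (‖a.2‖ ^ 2) * radialForm β a u v

/-- The class Poincaré dual to `S` is `c` times the class of `w`, in terms of the tube `Φ`: for each
cut-off function `χ`, the closed form `2π c w + T` is exact, where `T` is the Thom form given by
`χ` and `Φ`, extended by zero. -/
def DualTube [IsManifold 𝓘(ℝ, E) ∞ M] (w : Bil E M) (c r : ℝ) (β : OneForm G P) (Φ : P × ℂ → M) : Prop :=
  ∀ χ : ℝ → ℝ, IsCut r χ → ∃ μ : OneForm E M, SmoothForm μ ∧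
    (∀ a : P × ℂ, ‖a.2‖ < r → ∀ u v : G × ℂ,
      extDer 𝓘(ℝ, E) μ (Φ a) (dtube E Φ a u) (dtube E Φ a v) =
        2 * Real.pi * c * w (Φ a) (dtube E Φ a u) (dtube E Φ a v) + thomForm β χ a u v) ∧
    ∀ x, (∀ a : P × ℂ, ‖a.2‖ < r → Φ a ≠ x) → ∀ u v,
      extDer 𝓘(ℝ, E) μ x u v = 2 * Real.pi * c * w x u v

/-- The class Poincaré dual to `S` is `c` times the class of `w`: for each tube around `S` and each
cut-off function, the form `2π c w + T` is exact, where `T` is the Thom form. -/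
def PoincareDual {E : Type u} [NormedAddCommGroup E] [NormedSpace ℝ E] {M : Type v}
    [TopologicalSpace M] [ChartedSpace E M] [IsManifold 𝓘(ℝ, E) ∞ M] (w : Bil E M) (S : Set M)
    (c : ℝ) : Prop :=
  ∀ (G : Type u) [NormedAddCommGroup G] [NormedSpace ℝ G] [FiniteDimensional ℝ G] (P : Type v)
    [TopologicalSpace P] [CompactSpace P] [ChartedSpace G P] [IsManifold 𝓘(ℝ, G) ∞ P]
    [MulAction Circle P] (r : ℝ) (β : OneForm G P) (Φ : P × ℂ → M),
    IsConnection β → IsTube w S r β Φ → DualTube w c r β Φ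

end Run7.h115
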