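import Pool.Agent.Run7.h115.CutDefs

/-! The cut-off functions and the radial maps used for blowups of codimension two. -/

set_option autoImplicit false
set_option linter.unusedSectionVars false
set_option maxSynthPendingDepth 3

open scoped ContDiff Topology Manifold
open Set Metric Function MeasureTheory

noncomputable section

namespace Run7.h115

/-- Cut-off functions whose derivative is bigger than `-1/ε²`. -/
lemma exists_cut {ε r : ℝ} (hε : 0 < ε) (h : ε < r) : ∃ χ : ℝ → ℝ, IsCut r χ ∧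
    (∀ u, 0 < 1 + ε ^ 2 * deriv χ u) ∧ ∀ u, deriv χ u ≤ 0 := by
  have hsq : ε ^ 2 < r ^ 2 := by nlinarith
  have hε2 : 0 < ε ^ 2 := by positivity
  let f : ContDiffBump (r ^ 2 / 2 : ℝ) :=
    ⟨(ε ^ 2 + r ^ 2) / 4, (ε ^ 2 + 3 * r ^ 2) / 8, by positivity, by linarith⟩
  have hin : f.rIn = (ε ^ 2 + r ^ 2) / 4 := rfl
  have hout : f.rOut = (ε ^ 2 + 3 * r ^ 2) / 8 := rfl
  set I : ℝ := ∫ x, f x with hI
  have hI1 : 2 * f.rIn ≤ I := by
    have h1 := f.measure_closedBall_le_integral (μ := volume)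
    have h2 : volume.real (closedBall (r ^ 2 / 2 : ℝ) f.rIn) = 2 * f.rIn := by
      rw [Measure.real, Real.volume_closedBall, ENNReal.toReal_ofReal]
      rw [hin]
      positivity
    rw [h2] at h1
    exact h1
  have hI2 : ε ^ 2 < I := by
    rw [hin] at hI1
    linarith
  have hI0 : 0 < I := lt_trans hε2 hI2
  have hfc : Continuous f := f.continuous
  set χ : ℝ → ℝ := fun u => 1 - (∫ x in (0:ℝ)..u, f x) / I with hχ
  have hd : ∀ u, HasDerivAt χ (- (f u / I)) u := by
    intro u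
    have h1 : HasDerivAt (fun u => ∫ x in (0:ℝ)..u, f x) (f u) u :=
      intervalIntegral.integral_hasDerivAt_right (hfc.intervalIntegrable _ _)
        (hfc.stronglyMeasurableAtFilter _ _) hfc.continuousAt
    exact (h1.div_const I).const_sub 1
  have hderiv : deriv χ = fun u => - (f u / I) := funext fun u => (hd u).deriv
  have hsmooth : ContDiff ℝ ∞ χ := by
    rw [contDiff_infty_iff_deriv]
    refine ⟨fun u => (hd u).differentiableAt, ?_⟩
    rw [hderiv]
    exact (f.contDiff.div_const I).neg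
  refine ⟨χ, ⟨hsmooth, ⟨r ^ 2 / 2 - f.rOut, by rw [hout]; linarith, ?_⟩,
    ⟨r ^ 2 / 2 + f.rOut, by rw [hout]; linarith, ?_⟩⟩, ?_, ?_⟩
  · intro u hu
    have h1 : (∫ x in (0:ℝ)..u, f x) = 0 := by
      have h2 : ∀ x ∈ uIcc 0 u, f x = 0 := by
        intro x hx
        apply f.zero_of_le_dist
        rw [Real.dist_eq]
        have h3 : x ≤ r ^ 2 / 2 - f.rOut := by
          rcases mem_uIcc.1 hx with h4 | h4
          · exact h4.2.trans hu
          · refine h4.2.trans ?_
            rw [hout]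
            linarith
        rw [abs_sub_comm]
        refine le_trans ?_ (le_abs_self _)
        linarith
      rw [intervalIntegral.integral_congr h2]
      simp
    simp [hχ, h1]
  · intro u hu
    have h1 : (∫ x in (0:ℝ)..u, f x) = I := by
      apply intervalIntegral.integral_eq_integral_of_support_subset
      rw [f.support_eq, Real.ball_eq_Ioo]
      intro x hx
      refine ⟨?_, ?_⟩
      · have := hx.1
        rw [hout] at this
        linarith
      · exact hx.2.le.trans hu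
    simp only [hχ, h1, div_self hI0.ne', sub_self]
  · intro u
    rw [hderiv]
    have h1 : f u ≤ 1 := f.le_one
    have h2 : 0 ≤ f u := f.nonneg
    have h3 : f u / I < 1 / ε ^ 2 := by
      rw [div_lt_div_iff₀ hI0 hε2]
      nlinarith
    have h4 : ε ^ 2 * (f u / I) < 1 := by
      calc ε ^ 2 * (f u / I) < ε ^ 2 * (1 / ε ^ 2) := by
            exact mul_lt_mul_of_pos_left h3 hε2
        _ = 1 := by field_simp
    show 0 < 1 + ε ^ 2 * (- (f u / I))
    linarith
  · intro u
    rw [hderiv]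
    have h2 : 0 ≤ f u := f.nonneg
    have : 0 ≤ f u / I := div_nonneg h2 hI0.le
    show - (f u / I) ≤ 0
    linarith

/-- The profile of the radial map. -/
structure Prof (ε r : ℝ) (χ g : ℝ → ℝ) : Prop where
  cut : IsCut r χ
  slope : ∀ u, 0 < 1 + ε ^ 2 * deriv χ u
  anti : ∀ u, deriv χ u ≤ 0
  smooth : ContDiff ℝ ∞ g
  pos : ∀ u, 0 < g u
  eq : ∀ u, u * g u ^ 2 = u - ε ^ 2 * (1 - χ u)

lemma strictMono_of_slope {r : ℝ} {χ : ℝ → ℝ} (hχ : IsCut r χ) {s : ℝ}
    (h : ∀ u, 0 < 1 + s * deriv χ u) : StrictMono (fun u => u + s * χ u) := by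
  have hd : ∀ u, HasDerivAt (fun u => u + s * χ u) (1 + s * deriv χ u) u := by
    intro u
    have h1 : HasDerivAt χ (deriv χ u) u :=
      ((hχ.smooth.differentiable (by simp)) u).hasDerivAt
    exact (hasDerivAt_id u).add (h1.const_mul s)
  apply strictMono_of_deriv_pos
  intro u
  rw [(hd u).deriv]
  exact h u

lemma exists_prof {ε r : ℝ} (hε : 0 < ε) (h : ε < r) : ∃ χ g : ℝ → ℝ, Prof ε r χ g := by
  obtain ⟨χ, hχ, hs, ha⟩ := exists_cut hε h
  obtain ⟨ρ, hρ, hρ1⟩ := hχ.one
  have hmono := strictMono_of_slope hχ hs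
  set q : ℝ → ℝ := fun u => (1 - χ u) / u with hq
  have hqs : ContDiff ℝ ∞ q := by
    rw [contDiff_iff_contDiffAt]
    intro u
    by_cases hu : u = 0
    · have h1 : q =ᶠ[𝓝 u] fun _ => 0 := by
        filter_upwards [Iio_mem_nhds (show u < ρ by rw [hu]; exact hρ)] with x hx
        simp [hq, hρ1 x (le_of_lt hx)]
      exact contDiffAt_const.congr_of_eventuallyEq h1
    · exact (contDiffAt_const.sub hχ.smooth.contDiffAt).div contDiffAt_id hu
  set W : ℝ → ℝ := fun u => 1 - ε ^ 2 * q u with hW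
  have hWs : ContDiff ℝ ∞ W := contDiff_const.sub (contDiff_const.mul hqs)
  have hWpos : ∀ u, 0 < W u := by
    intro u
    by_cases hu : u ≤ ρ
    · simp [hW, hq, hρ1 u hu]
    · have hu' : ρ < u := not_le.1 hu
      have h1 := hmono hu'
      simp only [hρ1 ρ le_rfl] at h1
      have hu0 : 0 < u := hρ.trans hu'
      have h2 : W u = (u - ε ^ 2 * (1 - χ u)) / u := by
        simp only [hW, hq]
        field_simp
      rw [h2]
      apply div_pos _ hu0
      nlinarith
  refine ⟨χ, fun u => Real.sqrt (W u), hχ, hs, ha, hWs.sqrt (fun u => (hWpos u).ne'),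
    fun u => Real.sqrt_pos.2 (hWpos u), ?_⟩
  intro u
  simp only [Real.sq_sqrt (hWpos u).le]
  by_cases hu : u = 0
  · subst hu
    simp [hρ1 0 hρ.le]
  · simp only [hW, hq]
    field_simp

variable {ε r : ℝ} {χ g : ℝ → ℝ}

/-- the radial map of the plane -/
def rad (g : ℝ → ℝ) (z : ℂ) : ℂ := g (‖z‖ ^ 2) • z

/-- the derivative of the radial map -/
def drad (g : ℝ → ℝ) (z : ℂ) : ℂ →L[ℝ] ℂ :=
  g (‖z‖ ^ 2) • ContinuousLinearMap.id ℝ ℂ +
    (deriv g (‖z‖ ^ 2) • (2 • innerSL ℝ z)).smulRight z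

lemma drad_apply (g : ℝ → ℝ) (z ζ : ℂ) : drad g z ζ =
    g (‖z‖ ^ 2) • ζ + (2 * deriv g (‖z‖ ^ 2) * inner ℝ z ζ) • z := by
  simp only [drad, add_apply, smul_apply, ContinuousLinearMap.id_apply,
    ContinuousLinearMap.smulRight_apply, innerSL_apply_apply, smul_eq_mul, nsmul_eq_mul]
  congr 2
  push_cast
  ring

lemma Prof.hasFDerivAt_rad (h : Prof ε r χ g) (z : ℂ) : HasFDerivAt (rad g) (drad g z) z := by
  have h1 : HasFDerivAt (fun z : ℂ => ‖z‖ ^ 2) (2 • innerSL ℝ z) z :=
    (hasStrictFDerivAt_norm_sq z).hasFDerivAt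
  have h2 : HasDerivAt g (deriv g (‖z‖ ^ 2)) (‖z‖ ^ 2) :=
    ((h.smooth.differentiable (by simp)) _).hasDerivAt
  have h3 := h2.comp_hasFDerivAt z h1
  exact h3.smul (hasFDerivAt_id z)

lemma Prof.contDiff_rad (h : Prof ε r χ g) : ContDiff ℝ ∞ (rad g) :=
  (h.smooth.comp (contDiff_norm_sq ℝ)).smul contDiff_id

lemma Prof.norm_rad (h : Prof ε r χ g) (z : ℂ) :
    ‖rad g z‖ ^ 2 = ‖z‖ ^ 2 - ε ^ 2 * (1 - χ (‖z‖ ^ 2)) := by
  rw [← h.eq, rad, norm_smul, Real.norm_of_nonneg (h.pos _).le]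
  ring

lemma Prof.deriv_eq (h : Prof ε r χ g) (u : ℝ) :
    g u ^ 2 + 2 * u * g u * deriv g u = 1 + ε ^ 2 * deriv χ u := by
  have h2 : HasDerivAt g (deriv g u) u := ((h.smooth.differentiable (by simp)) _).hasDerivAt
  have h3 : HasDerivAt χ (deriv χ u) u :=
    ((h.cut.smooth.differentiable (by simp)) _).hasDerivAt
  have h4 : HasDerivAt (fun u => u * g u ^ 2) (1 * g u ^ 2 + u * (2 * g u ^ 1 * deriv g u)) u := by
    have := (hasDerivAt_id u).fun_mul (h2.fun_pow 2)
    simpa using this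
  have h5 : HasDerivAt (fun u => u - ε ^ 2 * (1 - χ u)) (1 - ε ^ 2 * (- deriv χ u)) u := by
    have := (hasDerivAt_id u).sub (((h3.const_sub 1)).const_mul (ε ^ 2))
    exact this
  have h6 : (fun u => u * g u ^ 2) = fun u => u - ε ^ 2 * (1 - χ u) := funext h.eq
  rw [h6] at h4
  have h7 := h4.unique h5
  linarith

lemma stdForm_complex (a b : ℂ) : stdForm a b = a.re * b.im - a.im * b.re := by
  simp [stdForm, Complex.mul_im, mul_comm]
  ring

lemma inner_complex (a b : ℂ) : inner ℝ a b = a.re * b.re + a.im * b.im := by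
  simp [Complex.inner, Complex.mul_re]
  ring

lemma norm_sq_complex (a : ℂ) : ‖a‖ ^ 2 = a.re * a.re + a.im * a.im := by
  rw [Complex.sq_norm, Complex.normSq_apply]

/-- the radial map multiplies `d(|z|²/2)` and the area form by the same factor -/
lemma Prof.inner_drad (h : Prof ε r χ g) (z ζ : ℂ) :
    inner ℝ (rad g z) (drad g z ζ) = (1 + ε ^ 2 * deriv χ (‖z‖ ^ 2)) * inner ℝ z ζ := by
  rw [← h.deriv_eq, drad_apply, rad]
  generalize g (‖z‖ ^ 2) = a
  generalize deriv g (‖z‖ ^ 2) = b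
  rw [norm_sq_complex]
  simp only [inner_complex, Complex.add_re, Complex.add_im, Complex.real_smul, Complex.mul_re,
    Complex.mul_im, Complex.ofReal_re, Complex.ofReal_im]
  ring

lemma Prof.stdForm_drad (h : Prof ε r χ g) (z ζ ζ' : ℂ) :
    stdForm (drad g z ζ) (drad g z ζ') =
      (1 + ε ^ 2 * deriv χ (‖z‖ ^ 2)) * stdForm ζ ζ' := by
  rw [← h.deriv_eq, drad_apply, drad_apply]
  generalize g (‖z‖ ^ 2) = a
  generalize deriv g (‖z‖ ^ 2) = b
  rw [norm_sq_complex]
  simp only [stdForm_complex, inner_complex, Complex.add_re, Complex.add_im, Complex.real_smul,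
    Complex.mul_re, Complex.mul_im, Complex.ofReal_re, Complex.ofReal_im]
  ring

end Run7.h115
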