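import Pool.Agent.Run7.h115.CutTube
import Pool.Agent.Run7.h115.CutFun

/-! The diffeomorphism from `M` to a blowup of codimension two. -/

set_option autoImplicit false
set_option linter.unusedSectionVars false
set_option maxSynthPendingDepth 3

open scoped ContDiff Topology Manifold
open Set Metric Function
open Pool.Agent.Helper186

noncomputable section

namespace Run7.h115

section rad

variable {ε r : ℝ} {χ g : ℝ → ℝ}

lemma Prof.mono (h : Prof ε r χ g) : StrictMono (fun u => u + ε ^ 2 * χ u) :=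
  strictMono_of_slope h.cut h.slope

lemma Prof.chi_zero (h : Prof ε r χ g) : χ 0 = 1 := by
  obtain ⟨ρ, hρ, hρ1⟩ := h.cut.one
  exact hρ1 0 hρ.le

lemma Prof.chi_r (h : Prof ε r χ g) : χ (r ^ 2) = 0 := by
  obtain ⟨ρ, hρ, hρ1⟩ := h.cut.zero
  exact hρ1 _ hρ.le

lemma Prof.rad_lt (h : Prof ε r χ g) {z : ℂ} (hz : ‖z‖ < r) : ‖rad g z‖ ^ 2 + ε ^ 2 < r ^ 2 := by
  have hu : ‖z‖ ^ 2 < r ^ 2 := by
    have := norm_nonneg z
    nlinarith
  have h1 := h.mono hu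
  simp only [h.chi_r] at h1
  rw [h.norm_rad]
  linarith

lemma Prof.rad_inj (h : Prof ε r χ g) {z z' : ℂ} (hzz : ‖rad g z‖ = ‖rad g z'‖) : ‖z‖ = ‖z'‖ := by
  have h1 := h.norm_rad z
  have h2 := h.norm_rad z'
  rw [hzz, h2] at h1
  have h3 : ‖z‖ ^ 2 = ‖z'‖ ^ 2 := by
    apply h.mono.injective
    show ‖z‖ ^ 2 + ε ^ 2 * χ (‖z‖ ^ 2) = ‖z'‖ ^ 2 + ε ^ 2 * χ (‖z'‖ ^ 2)
    linarith
  exact (sq_eq_sq₀ (norm_nonneg _) (norm_nonneg _)).1 h3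

lemma Prof.rad_surj (h : Prof ε r χ g) (hr : 0 < r) {z : ℂ} (hz : ‖z‖ ^ 2 + ε ^ 2 < r ^ 2) :
    ∃ z' : ℂ, ‖z'‖ < r ∧ rad g z' = z := by
  by_cases h0 : z = 0
  · refine ⟨0, by simpa using hr, ?_⟩
    simp [rad, h0]
  have hzn : 0 < ‖z‖ := norm_pos_iff.2 h0
  have hcont : Continuous (fun u => u + ε ^ 2 * χ u) :=
    continuous_id.add (continuous_const.mul h.cut.smooth.continuous)
  have h1 : ‖z‖ ^ 2 + ε ^ 2 ∈ Icc ((0:ℝ) + ε ^ 2 * χ 0) (r ^ 2 + ε ^ 2 * χ (r ^ 2)) := by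
    rw [h.chi_zero, h.chi_r]
    constructor
    · have := sq_nonneg ‖z‖
      linarith
    · linarith
  obtain ⟨u, hu, hu2⟩ := intermediate_value_Icc (by positivity : (0:ℝ) ≤ r ^ 2)
    hcont.continuousOn h1
  have hu2' : u + ε ^ 2 * χ u = ‖z‖ ^ 2 + ε ^ 2 := hu2
  have hur : u < r ^ 2 := by
    rcases lt_or_eq_of_le hu.2 with h3 | h3
    · exact h3
    · rw [h3, h.chi_r] at hu2'
      linarith
  have hug : u * g u ^ 2 = ‖z‖ ^ 2 := by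
    rw [h.eq]
    linarith
  have hnorm : ‖((Real.sqrt u / ‖z‖ : ℝ) : ℝ) • z‖ ^ 2 = u := by
    rw [norm_smul, mul_pow, Real.norm_eq_abs, sq_abs, div_pow, Real.sq_sqrt hu.1]
    field_simp
  refine ⟨(Real.sqrt u / ‖z‖ : ℝ) • z, ?_, ?_⟩
  · refine lt_of_pow_lt_pow_left₀ 2 hr.le ?_
    rw [hnorm]
    exact hur
  · rw [rad, hnorm, smul_smul]
    have h3 : g u * Real.sqrt u = ‖z‖ := by
      refine (sq_eq_sq₀ (mul_nonneg (h.pos u).le (Real.sqrt_nonneg u)) hzn.le).1 ?_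
      rw [mul_pow, Real.sq_sqrt hu.1, ← hug]
      ring
    have h4 : g u * (Real.sqrt u / ‖z‖) = 1 := by
      rw [← mul_div_assoc, h3]
      field_simp
    rw [h4, one_smul]

lemma rad_mul (g : ℝ → ℝ) (t : Circle) (z : ℂ) : rad g (t * z) = t * rad g z := by
  simp only [rad, norm_mul, Circle.norm_coe, one_mul]
  rw [mul_smul_comm]

lemma Prof.rad_zero (h : Prof ε r χ g) {z : ℂ} : rad g z = 0 ↔ z = 0 := by
  rw [rad, smul_eq_zero]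
  constructor
  · rintro (h1 | h1)
    · exact absurd h1 (h.pos _).ne'
    · exact h1
  · exact Or.inr

end rad

section glue

variable {E : Type*} [NormedAddCommGroup E] [NormedSpace ℝ E] [FiniteDimensional ℝ E]
  {M : Type*} [TopologicalSpace M] [ChartedSpace E M] [IsManifold 𝓘(ℝ, E) ∞ M]
  {N : Type*} [TopologicalSpace N] [ChartedSpace E N] [IsManifold 𝓘(ℝ, E) ∞ N]
  {G : Type*} [NormedAddCommGroup G] [NormedSpace ℝ G] [FiniteDimensional ℝ G]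
  {P : Type*} [TopologicalSpace P] [ChartedSpace G P] [IsManifold 𝓘(ℝ, G) ∞ P]
  [MulAction Circle P]
  {wM : Bil E M} {wN : Bil E N} {S : Set M} {ε r : ℝ} {β : OneForm G P} {Φ : P × ℂ → M}
  {J : M → N} {K : P × ℂ → N} {χ g : ℝ → ℝ}

/-- the radial map on `P × ℂ` -/
def radP (g : ℝ → ℝ) (a : P × ℂ) : P × ℂ := (a.1, rad g a.2)

open Classical in
/-- the comparison map from `M` to the blowup -/
def cmp (r : ℝ) (g : ℝ → ℝ) (Φ : P × ℂ → M) (J : M → N) (K : P × ℂ → N) (x : M) : N :=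
  if h : ∃ a : P × ℂ, ‖a.2‖ < r ∧ Φ a = x then K (radP g h.choose) else J x

lemma IsBlowupCodimTwo.K_congr (B : IsBlowupCodimTwo wM S ε wN r β Φ J K) (pr : Prof ε r χ g)
    {a b : P × ℂ} (ha : ‖a.2‖ < r) (hb : ‖b.2‖ < r) :
    K (radP g a) = K (radP g b) ↔ Φ a = Φ b := by
  rw [B.tube.eq_iff a b ha hb, B.K_eq_iff _ _ (pr.rad_lt ha) (pr.rad_lt hb)]
  constructor
  · rintro ⟨t, h1, h2⟩
    refine ⟨t, h1, ?_⟩
    have h3 : rad g a.2 = t * rad g b.2 := h2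
    have h4 : ‖a.2‖ = ‖b.2‖ := by
      apply pr.rad_inj
      rw [h3, norm_mul, Circle.norm_coe, one_mul]
    rw [rad, rad, h4, mul_smul_comm] at h3
    exact smul_right_injective ℂ (pr.pos _).ne' h3
  · rintro ⟨t, h1, h2⟩
    refine ⟨t, h1, ?_⟩
    show rad g a.2 = t * rad g b.2
    rw [h2, rad_mul]

lemma IsBlowupCodimTwo.cmp_tube (B : IsBlowupCodimTwo wM S ε wN r β Φ J K) (pr : Prof ε r χ g)
    {a : P × ℂ} (ha : ‖a.2‖ < r) : cmp r g Φ J K (Φ a) = K (radP g a) := by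
  have h : ∃ b : P × ℂ, ‖b.2‖ < r ∧ Φ b = Φ a := ⟨a, ha, rfl⟩
  unfold cmp
  rw [dif_pos h]
  exact (B.K_congr pr h.choose_spec.1 ha).2 h.choose_spec.2

lemma IsBlowupCodimTwo.cmp_out (B : IsBlowupCodimTwo wM S ε wN r β Φ J K) (pr : Prof ε r χ g)
    (hε : 0 < ε) {ρ : ℝ} (hρ : ∀ u ≥ ρ, χ u = 0) {x : M}
    (hx : ∀ a : P × ℂ, ‖a.2‖ < r → ‖a.2‖ ^ 2 ≤ ρ → Φ a ≠ x) : cmp r g Φ J K x = J x := by
  by_cases h : ∃ a : P × ℂ, ‖a.2‖ < r ∧ Φ a = x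
  · obtain ⟨a, ha, rfl⟩ := h
    rw [B.cmp_tube pr ha]
    have hu : ρ < ‖a.2‖ ^ 2 := by
      by_contra h1
      exact hx a ha (not_lt.1 h1) rfl
    have hχ0 : χ (‖a.2‖ ^ 2) = 0 := hρ _ hu.le
    have hn : ‖rad g a.2‖ ^ 2 + ε ^ 2 = ‖a.2‖ ^ 2 := by
      rw [pr.norm_rad, hχ0]
      ring
    have hρε : ε ^ 2 < ‖a.2‖ ^ 2 := by
      have h1 : (0 : ℝ) < ‖a.2‖ ^ 2 := by
        have h2 : ‖a.2‖ ^ 2 ≠ 0 := by
          intro h3
          rw [h3, pr.chi_zero] at hχ0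
          exact one_ne_zero hχ0
        positivity
      have h2 := pr.mono h1
      simp only [pr.chi_zero, hχ0] at h2
      linarith
    have ha0 : a.2 ≠ 0 := by
      intro h3
      rw [h3] at hρε
      simp only [norm_zero] at hρε
      have : 0 < ε ^ 2 := by positivity
      nlinarith
    have hxo : ∀ b : P × ℂ, ‖b.2‖ ≤ ε → Φ b ≠ Φ a := by
      intro b hb hba
      obtain ⟨t, h1, h2⟩ := (B.tube.eq_iff b a (lt_of_le_of_lt hb B.lt) ha).1 hba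
      have h3 : ‖b.2‖ = ‖a.2‖ := by rw [h2, norm_mul, Circle.norm_coe, one_mul]
      rw [h3] at hb
      have := norm_nonneg a.2
      nlinarith
    refine ((B.glue (radP g a) (pr.rad_lt ha) (Φ a) hxo).2 ⟨?_, ?_⟩).symm
    · exact fun h3 => ha0 (pr.rad_zero.1 h3)
    · show Φ a = Φ (a.1, (Real.sqrt (‖rad g a.2‖ ^ 2 + ε ^ 2) / ‖rad g a.2‖ : ℝ) • rad g a.2)
      rw [hn, Real.sqrt_sq (norm_nonneg _)]
      have h4 : (‖a.2‖ / ‖rad g a.2‖ : ℝ) • rad g a.2 = a.2 := by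
        rw [rad, norm_smul, Real.norm_of_nonneg (pr.pos _).le, smul_smul]
        have h5 : ‖a.2‖ / (g (‖a.2‖ ^ 2) * ‖a.2‖) * g (‖a.2‖ ^ 2) = 1 := by
          have h6 : g (‖a.2‖ ^ 2) ≠ 0 := (pr.pos _).ne'
          have h7 : ‖a.2‖ ≠ 0 := norm_ne_zero_iff.2 ha0
          field_simp
        rw [h5, one_smul]
      rw [h4]
  · unfold cmp
    rw [dif_neg h]

lemma outer_of_tube (h : IsTube wM S r β Φ) (hε : ε < r) {a : P × ℂ} (ha : ‖a.2‖ < r)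
    (ha' : ε < ‖a.2‖) : ∀ b : P × ℂ, ‖b.2‖ ≤ ε → Φ b ≠ Φ a := by
  intro b hb hba
  obtain ⟨t, h1, h2⟩ := (h.eq_iff b a (lt_of_le_of_lt hb hε) ha).1 hba
  have h3 : ‖b.2‖ = ‖a.2‖ := by rw [h2, norm_mul, Circle.norm_coe, one_mul]
  rw [h3] at hb
  linarith

lemma IsBlowupCodimTwo.cmp_injective (B : IsBlowupCodimTwo wM S ε wN r β Φ J K)
    (pr : Prof ε r χ g) (hε : 0 < ε) : Injective (cmp r g Φ J K) := by
  -- mixed case
  have mixed : ∀ (a : P × ℂ) (x : M), ‖a.2‖ < r → (¬ ∃ b : P × ℂ, ‖b.2‖ < r ∧ Φ b = x) →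
      K (radP g a) ≠ J x := by
    intro a x ha hx h
    have hxo : ∀ b : P × ℂ, ‖b.2‖ ≤ ε → Φ b ≠ x := fun b hb hbx =>
      hx ⟨b, lt_of_le_of_lt hb B.lt, hbx⟩
    obtain ⟨h1, h2⟩ := (B.glue (radP g a) (pr.rad_lt ha) x hxo).1 h.symm
    apply hx
    refine ⟨_, ?_, h2.symm⟩
    have h3 : (0:ℝ) < ‖(radP g a).2‖ := norm_pos_iff.2 h1
    show ‖(Real.sqrt (‖(radP g a).2‖ ^ 2 + ε ^ 2) / ‖(radP g a).2‖ : ℝ) • (radP g a).2‖ < r
    rw [norm_smul, Real.norm_of_nonneg (by positivity), div_mul_cancel₀ _ h3.ne']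
    have hr : 0 < r := hε.trans B.lt
    rw [Real.sqrt_lt' hr]
    exact pr.rad_lt ha
  intro x x' h
  by_cases hx : ∃ a : P × ℂ, ‖a.2‖ < r ∧ Φ a = x
  · by_cases hx' : ∃ a : P × ℂ, ‖a.2‖ < r ∧ Φ a = x'
    · obtain ⟨a, ha, rfl⟩ := hx
      obtain ⟨b, hb, rfl⟩ := hx'
      rw [B.cmp_tube pr ha, B.cmp_tube pr hb] at h
      exact (B.K_congr pr ha hb).1 h
    · obtain ⟨a, ha, rfl⟩ := hx
      rw [B.cmp_tube pr ha] at h
      unfold cmp at h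
      rw [dif_neg hx'] at h
      exact absurd h (mixed a x' ha hx')
  · by_cases hx' : ∃ a : P × ℂ, ‖a.2‖ < r ∧ Φ a = x'
    · obtain ⟨a, ha, rfl⟩ := hx'
      rw [B.cmp_tube pr ha] at h
      unfold cmp at h
      rw [dif_neg hx] at h
      exact absurd h.symm (mixed a x ha hx)
    · unfold cmp at h
      rw [dif_neg hx, dif_neg hx'] at h
      refine B.J_inj ?_ ?_ h
      · exact fun b hb hbx => hx ⟨b, lt_of_le_of_lt hb B.lt, hbx⟩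
      · exact fun b hb hbx => hx' ⟨b, lt_of_le_of_lt hb B.lt, hbx⟩

lemma IsBlowupCodimTwo.cmp_surjective (B : IsBlowupCodimTwo wM S ε wN r β Φ J K)
    (pr : Prof ε r χ g) (hε : 0 < ε) : Surjective (cmp r g Φ J K) := by
  have hr : 0 < r := hε.trans B.lt
  have hK : ∀ b : P × ℂ, ‖b.2‖ ^ 2 + ε ^ 2 < r ^ 2 → ∃ x, cmp r g Φ J K x = K b := by
    intro b hb
    obtain ⟨z, hz, hzb⟩ := pr.rad_surj hr hb
    refine ⟨Φ (b.1, z), ?_⟩
    rw [B.cmp_tube pr hz]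
    show K (b.1, rad g z) = K b
    rw [hzb]
  intro y
  rcases B.cover y with ⟨x, hx, rfl⟩ | ⟨a, ha, rfl⟩
  · by_cases h : ∃ a : P × ℂ, ‖a.2‖ < r ∧ Φ a = x
    · obtain ⟨b, hb, rfl⟩ := h
      have hbε : ε < ‖b.2‖ := by
        by_contra h1
        exact hx b (not_lt.1 h1) rfl
      have hb0 : 0 < ‖b.2‖ := hε.trans hbε
      have hpos : 0 < ‖b.2‖ ^ 2 - ε ^ 2 := by nlinarith
      set b' : P × ℂ := (b.1, (Real.sqrt (‖b.2‖ ^ 2 - ε ^ 2) / ‖b.2‖ : ℝ) • b.2) with hb'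
      have hn : ‖b'.2‖ = Real.sqrt (‖b.2‖ ^ 2 - ε ^ 2) := by
        show ‖(Real.sqrt (‖b.2‖ ^ 2 - ε ^ 2) / ‖b.2‖ : ℝ) • b.2‖ = _
        rw [norm_smul, Real.norm_of_nonneg (by positivity), div_mul_cancel₀ _ hb0.ne']
      have hn2 : ‖b'.2‖ ^ 2 + ε ^ 2 = ‖b.2‖ ^ 2 := by
        rw [hn, Real.sq_sqrt hpos.le]
        ring
      have hb'd : ‖b'.2‖ ^ 2 + ε ^ 2 < r ^ 2 := by
        rw [hn2]
        nlinarith
      have hs0 : Real.sqrt (‖b.2‖ ^ 2 - ε ^ 2) ≠ 0 := (Real.sqrt_pos.2 hpos).ne'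
      have h1 : J (Φ b) = K b' := by
        refine (B.glue b' hb'd (Φ b) hx).2 ⟨?_, ?_⟩
        · rw [← norm_ne_zero_iff, hn]
          exact hs0
        · rw [hn2, hn, Real.sqrt_sq hb0.le]
          have h4 : (‖b.2‖ / Real.sqrt (‖b.2‖ ^ 2 - ε ^ 2) : ℝ) • b'.2 = b.2 := by
            show (‖b.2‖ / Real.sqrt (‖b.2‖ ^ 2 - ε ^ 2) : ℝ) •
              ((Real.sqrt (‖b.2‖ ^ 2 - ε ^ 2) / ‖b.2‖ : ℝ) • b.2) = b.2
            rw [smul_smul]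
            have h5 : ‖b.2‖ / Real.sqrt (‖b.2‖ ^ 2 - ε ^ 2) *
                (Real.sqrt (‖b.2‖ ^ 2 - ε ^ 2) / ‖b.2‖) = 1 := by
              field_simp
            rw [h5, one_smul]
          rw [h4]
      rw [h1]
      exact hK b' hb'd
    · refine ⟨x, ?_⟩
      unfold cmp
      rw [dif_neg h]
  · exact hK a ha

end glue

end Run7.h115
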