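import Pool.Agent.Run7.h115.Defs

/-! Two blowups whose Darboux balls are related by an ambient symplectomorphism are
symplectomorphic. -/

set_option autoImplicit false
set_option linter.unusedSectionVars false
set_option maxSynthPendingDepth 3

open scoped ContDiff Topology Manifold
open Set Metric Function

noncomputable section

namespace Run7.h115

section chain

variable {E : Type*} [NormedAddCommGroup E] [NormedSpace ℝ E]
  {N₁ : Type*} [TopologicalSpace N₁] [ChartedSpace E N₁]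
  {N₂ : Type*} [TopologicalSpace N₂] [ChartedSpace E N₂]
  {F : Type*} [NormedAddCommGroup F] [NormedSpace ℝ F]
  {A : Type*} [TopologicalSpace A] [ChartedSpace F A]

lemma bil_congr (w : Bil E N₁) {z z' : N₁} (h : z = z') (a b : E) :
    (w z : E →L[ℝ] E →L[ℝ] ℝ) a b = (w z' : E →L[ℝ] E →L[ℝ] ℝ) a b := by
  subst h
  rfl

/-- chain rule for preserved forms -/
lemma pres_of_comp {w₁ : Bil E N₁} {w₂ : Bil E N₂} {f : A → N₁} {g : N₁ → N₂} {h : A → N₂} {a : A}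
    (hf : MDifferentiableAt 𝓘(ℝ, F) 𝓘(ℝ, E) f a) (hg : MDifferentiableAt 𝓘(ℝ, E) 𝓘(ℝ, E) g (f a))
    (hgf : g ∘ f =ᶠ[𝓝 a] h) (hsurj : Surjective (mfderiv 𝓘(ℝ, F) 𝓘(ℝ, E) f a))
    (hq : ∀ u v : F, w₁ (f a) (mfderiv 𝓘(ℝ, F) 𝓘(ℝ, E) f a u) (mfderiv 𝓘(ℝ, F) 𝓘(ℝ, E) f a v) =
      w₂ (h a) (mfderiv 𝓘(ℝ, F) 𝓘(ℝ, E) h a u) (mfderiv 𝓘(ℝ, F) 𝓘(ℝ, E) h a v))
    (u v : TangentSpace 𝓘(ℝ, E) (f a)) :
    w₂ (g (f a)) (mfderiv 𝓘(ℝ, E) 𝓘(ℝ, E) g (f a) u) (mfderiv 𝓘(ℝ, E) 𝓘(ℝ, E) g (f a) v) =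
      w₁ (f a) u v := by
  obtain ⟨u', rfl⟩ := hsurj u
  obtain ⟨v', rfl⟩ := hsurj v
  have e1 : mfderiv 𝓘(ℝ, F) 𝓘(ℝ, E) (g ∘ f) a =
      (mfderiv 𝓘(ℝ, E) 𝓘(ℝ, E) g (f a)).comp (mfderiv 𝓘(ℝ, F) 𝓘(ℝ, E) f a) :=
    mfderiv_comp a hg hf
  have e3 := hgf.mfderiv_eq (I := 𝓘(ℝ, F)) (I' := 𝓘(ℝ, E))
  have e5 : ∀ b : F, (mfderiv 𝓘(ℝ, E) 𝓘(ℝ, E) g (f a) (mfderiv 𝓘(ℝ, F) 𝓘(ℝ, E) f a b) : E) =
      (mfderiv 𝓘(ℝ, F) 𝓘(ℝ, E) h a b : E) := by
    intro b
    have h1 := DFunLike.congr_fun e1 b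
    have h4 := DFunLike.congr_fun e3 b
    exact h1.symm.trans h4
  have h3 := hq u' v'
  refine Eq.trans ?_ h3.symm
  refine (bil_congr w₂ hgf.eq_of_nhds _ _).trans ?_
  exact congrArg₂ (fun a' b' : E => (w₂ (h a) : E →L[ℝ] E →L[ℝ] ℝ) a' b') (e5 u') (e5 v')

end chain

section std

variable {E : Type*} [NormedAddCommGroup E] [InnerProductSpace ℂ E]

lemma stdForm_add_left (u u' v : E) : stdForm (u + u') v = stdForm u v + stdForm u' v := by
  simp [stdForm, inner_add_left]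

lemma stdForm_add_right (u v v' : E) : stdForm u (v + v') = stdForm u v + stdForm u v' := by
  simp [stdForm, inner_add_right]

lemma stdForm_smul_left (c : ℝ) (u v : E) : stdForm (c • u) v = c * stdForm u v := by
  have h : (c • u) = (c : ℂ) • u := (Complex.coe_smul c u).symm
  rw [h]
  simp [stdForm, inner_smul_left]

lemma stdForm_smul_right (c : ℝ) (u v : E) : stdForm u (c • v) = c * stdForm u v := by
  have h : (c • v) = (c : ℂ) • v := (Complex.coe_smul c v).symm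
  rw [h]
  simp [stdForm, inner_smul_right]

lemma stdForm_self (u : E) : stdForm u u = 0 := by
  unfold stdForm
  exact inner_self_im (𝕜 := ℂ) u

lemma stdForm_I (u : E) : stdForm u (Complex.I • u) = ‖u‖ ^ 2 := by
  unfold stdForm
  rw [inner_smul_right, inner_self_eq_norm_sq_to_K]
  simp only [Complex.mul_im, Complex.I_re, Complex.I_im, zero_mul, one_mul, zero_add]
  norm_cast

variable (E) in
/-- the standard form as a continuous bilinear map -/
def stdL : E →L[ℝ] E →L[ℝ] ℝ :=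
  LinearMap.mkContinuous₂ (LinearMap.mk₂ ℝ stdForm stdForm_add_left stdForm_smul_left
    stdForm_add_right stdForm_smul_right) 1 (fun u v => by
      simp only [LinearMap.mk₂_apply, one_mul]
      unfold stdForm
      rw [Real.norm_eq_abs]
      exact (Complex.abs_im_le_norm _).trans (norm_inner_le_norm u v))

@[simp] lemma stdL_apply (u v : E) : stdL E u v = stdForm u v := rfl

lemma isSympForm_stdL : IsSympForm (stdL E) where
  alt := fun v => stdForm_self v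
  nd := fun v h => by
    have h1 := h (Complex.I • v)
    rw [stdL_apply, stdForm_I] at h1
    exact norm_eq_zero.1 (pow_eq_zero_iff (two_ne_zero) |>.1 h1)

/-! the blowup form -/

lemma perp_smul (z : E) (c : ℂ) (u : E) : perp z (c • u) = c • perp z u := by
  unfold perp
  rw [inner_smul_right, smul_sub, smul_smul, mul_div_assoc]

lemma perp_add (z u v : E) : perp z (u + v) = perp z u + perp z v := by
  unfold perp
  rw [inner_add_right, add_div, add_smul]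
  abel

lemma inner_perp {z : E} (hz : z ≠ 0) (u : E) : inner ℂ z (perp z u) = 0 := by
  unfold perp
  have hz' : (‖z‖ : ℂ) ≠ 0 := by exact_mod_cast norm_ne_zero_iff.2 hz
  rw [inner_sub_right, inner_smul_right, inner_self_eq_norm_sq_to_K]
  have : ((‖z‖ : ℝ) : ℂ) = (‖z‖ : ℂ) := rfl
  field_simp
  simp

lemma perp_eq_self {z u : E} (h : inner ℂ z u = 0) : perp z u = u := by
  unfold perp
  rw [h]
  simp

/-- the slice direction -/
def sliceDir (z v : E) : E × ℂ := (perp z v, inner ℂ z v)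

lemma sliceDir_smul (z : E) (c : ℂ) (v : E) : sliceDir z (c • v) = c • sliceDir z v := by
  unfold sliceDir
  rw [perp_smul, inner_smul_right]
  rfl

lemma sliceDir_add (z v v' : E) : sliceDir z (v + v') = sliceDir z v + sliceDir z v' := by
  unfold sliceDir
  rw [perp_add, inner_add_right]
  rfl

lemma blowupForm_I (ε : ℝ) (a u : E × ℂ) : blowupForm ε a u (Complex.I • u) =
    ‖a.2 • u.1 + u.2 • a.1‖ ^ 2 + ε ^ 2 / ‖a.1‖ ^ 2 * ‖perp a.1 u.1‖ ^ 2 := by
  have h1 : a.2 • (Complex.I • u).1 + (Complex.I • u).2 • a.1 =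
      Complex.I • (a.2 • u.1 + u.2 • a.1) := by
    simp only [Prod.smul_fst, Prod.smul_snd, smul_add, smul_eq_mul, smul_smul]
    rw [mul_comm a.2]
  have h2 : perp a.1 (Complex.I • u).1 = Complex.I • perp a.1 u.1 := by
    rw [Prod.smul_fst, perp_smul]
  unfold blowupForm
  rw [h1, h2, stdForm_I, stdForm_I]

lemma slice_pos {ε : ℝ} (hε : 0 < ε) {a : E × ℂ} (ha : a.1 ≠ 0) {v : E}
    (h : blowupForm ε a (sliceDir a.1 v) (Complex.I • sliceDir a.1 v) = 0) : v = 0 := by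
  rw [blowupForm_I] at h
  have hz : 0 < ‖a.1‖ := norm_pos_iff.2 ha
  have h1 : 0 ≤ ‖a.2 • (sliceDir a.1 v).1 + (sliceDir a.1 v).2 • a.1‖ ^ 2 := by positivity
  have h2 : 0 ≤ ε ^ 2 / ‖a.1‖ ^ 2 * ‖perp a.1 (sliceDir a.1 v).1‖ ^ 2 := by positivity
  have h3 : ‖a.2 • (sliceDir a.1 v).1 + (sliceDir a.1 v).2 • a.1‖ ^ 2 = 0 := by linarith
  have h4 : ε ^ 2 / ‖a.1‖ ^ 2 * ‖perp a.1 (sliceDir a.1 v).1‖ ^ 2 = 0 := by linarith
  have h5 : a.2 • perp a.1 v + (inner ℂ a.1 v) • a.1 = 0 :=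
    norm_eq_zero.1 (pow_eq_zero_iff (two_ne_zero) |>.1 h3)
  have h6 : perp a.1 (perp a.1 v) = 0 := by
    rcases mul_eq_zero.1 h4 with h7 | h7
    · exact absurd h7 (by positivity)
    · exact norm_eq_zero.1 (pow_eq_zero_iff (two_ne_zero) |>.1 h7)
  rw [perp_eq_self (inner_perp ha v)] at h6
  rw [h6, smul_zero, zero_add] at h5
  rcases smul_eq_zero.1 h5 with h7 | h7
  · rwa [perp_eq_self h7] at h6
  · exact absurd h7 ha

end std

end Run7.h115
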