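import Pool.Agent.Run7.h115.CutGlue
import Pool.Agent.Run7.h115.Glue

/-! The comparison diffeomorphism: smoothness and pull back of the form. -/

set_option autoImplicit false
set_option linter.unusedSectionVars false
set_option maxSynthPendingDepth 3

open scoped ContDiff Topology Manifold
open Set Metric Function
open Pool.Agent.Helper186

noncomputable section

namespace Run7.h115

variable {E : Type*} [NormedAddCommGroup E] [NormedSpace ℝ E] [FiniteDimensional ℝ E]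
  {M : Type*} [TopologicalSpace M] [ChartedSpace E M] [IsManifold 𝓘(ℝ, E) ∞ M]
  {N : Type*} [TopologicalSpace N] [ChartedSpace E N] [IsManifold 𝓘(ℝ, E) ∞ N]
  {G : Type*} [NormedAddCommGroup G] [NormedSpace ℝ G] [FiniteDimensional ℝ G]
  {P : Type*} [TopologicalSpace P] [ChartedSpace G P] [IsManifold 𝓘(ℝ, G) ∞ P]
  [MulAction Circle P]
  {wM : Bil E M} {wN : Bil E N} {S : Set M} {ε r : ℝ} {β : OneForm G P} {Φ : P × ℂ → M}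
  {J : M → N} {K : P × ℂ → N} {χ g : ℝ → ℝ}

lemma isClosed_tube [T2Space M] [CompactSpace P] (h : IsTube wM S r β Φ) {ρ : ℝ} (hρ : ρ < r ^ 2)
    (hr : 0 < r) : IsClosed {x : M | ∃ a : P × ℂ, ‖a.2‖ ^ 2 ≤ ρ ∧ Φ a = x} := by
  by_cases hρ0 : ρ < 0
  · have : {x : M | ∃ a : P × ℂ, ‖a.2‖ ^ 2 ≤ ρ ∧ Φ a = x} = ∅ := by
      ext x
      simp only [mem_ofPred_eq, mem_empty_iff_false, iff_false]
      rintro ⟨a, ha, -⟩
      have := sq_nonneg ‖a.2‖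
      linarith
    rw [this]
    exact isClosed_empty
  have hρ0' : 0 ≤ ρ := not_lt.1 hρ0
  have hset : {x : M | ∃ a : P × ℂ, ‖a.2‖ ^ 2 ≤ ρ ∧ Φ a = x} =
      Φ '' (univ ×ˢ closedBall (0 : ℂ) (Real.sqrt ρ)) := by
    ext x
    constructor
    · rintro ⟨a, ha, rfl⟩
      refine ⟨a, ⟨mem_univ _, ?_⟩, rfl⟩
      rw [mem_closedBall_zero_iff]
      exact Real.le_sqrt_of_sq_le ha
    · rintro ⟨a, ⟨-, ha⟩, rfl⟩
      rw [mem_closedBall_zero_iff] at ha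
      refine ⟨a, ?_, rfl⟩
      calc ‖a.2‖ ^ 2 ≤ Real.sqrt ρ ^ 2 := by
            exact pow_le_pow_left₀ (norm_nonneg _) ha 2
        _ = ρ := Real.sq_sqrt hρ0'
  rw [hset]
  refine IsCompact.isClosed ((isCompact_univ.prod (isCompact_closedBall _ _)).image_of_continuousOn
    (h.smooth.continuousOn.mono ?_))
  rintro a ⟨-, ha⟩
  rw [mem_closedBall_zero_iff] at ha
  refine lt_of_le_of_lt ha ?_
  rw [Real.sqrt_lt' hr]
  exact hρ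

/-- the radial map is smooth -/
lemma contMDiff_radP (pr : Prof ε r χ g) :
    ContMDiff (𝓘(ℝ, G).prod 𝓘(ℝ, ℂ)) (𝓘(ℝ, G).prod 𝓘(ℝ, ℂ)) ∞ (radP (P := P) g) :=
  contMDiff_fst.prodMk (pr.contDiff_rad.contMDiff.comp contMDiff_snd)

lemma mfderiv_radP (pr : Prof ε r χ g) (a : P × ℂ) (u : G × ℂ) :
    (mfderiv (𝓘(ℝ, G).prod 𝓘(ℝ, ℂ)) (𝓘(ℝ, G).prod 𝓘(ℝ, ℂ)) (radP (P := P) g) a u : G × ℂ) =
      (u.1, drad g a.2 u.2) := by
  have h1 : HasMFDerivAt (𝓘(ℝ, G).prod 𝓘(ℝ, ℂ)) 𝓘(ℝ, ℂ) (fun a : P × ℂ => rad g a.2) a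
      ((drad g a.2).comp (ContinuousLinearMap.snd ℝ G ℂ)) :=
    HasMFDerivAt.comp a (g := rad g) (f := fun a : P × ℂ => a.2)
      (pr.hasFDerivAt_rad a.2).hasMFDerivAt (hasMFDerivAt_snd a)
  have h2 := (hasMFDerivAt_fst (I := 𝓘(ℝ, G)) (I' := 𝓘(ℝ, ℂ)) a).prodMk h1
  have h3 := h2.mfderiv
  have h4 : (radP (P := P) g) = fun a : P × ℂ => (a.1, rad g a.2) := rfl
  rw [h4, h3]
  rfl

/-- chain rule for maps from `P × ℂ` -/
lemma dtube_comp {f : M → N} {a : P × ℂ}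
    (hf : MDifferentiableAt 𝓘(ℝ, E) 𝓘(ℝ, E) f (Φ a))
    (hΦ : MDifferentiableAt (𝓘(ℝ, G).prod 𝓘(ℝ, ℂ)) 𝓘(ℝ, E) Φ a) (u : G × ℂ) :
    dtube E (f ∘ Φ) a u = mfderiv 𝓘(ℝ, E) 𝓘(ℝ, E) f (Φ a) (dtube E Φ a u) := by
  unfold dtube
  rw [mfderiv_comp a hf hΦ]
  rfl

lemma dtube_radP (pr : Prof ε r χ g) {a : P × ℂ}
    (hK : MDifferentiableAt (𝓘(ℝ, G).prod 𝓘(ℝ, ℂ)) 𝓘(ℝ, E) K (radP g a)) (u : G × ℂ) :
    dtube E (K ∘ radP g) a u = dtube E K (radP g a) (u.1, drad g a.2 u.2) := by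
  unfold dtube
  rw [mfderiv_comp a hK ((contMDiff_radP pr).mdifferentiableAt (by simp))]
  show mfderiv (𝓘(ℝ, G).prod 𝓘(ℝ, ℂ)) 𝓘(ℝ, E) K (radP g a) (mfderiv (𝓘(ℝ, G).prod 𝓘(ℝ, ℂ))
    (𝓘(ℝ, G).prod 𝓘(ℝ, ℂ)) (radP (P := P) g) a u) = _
  rw [mfderiv_radP pr a u]

lemma isOpen_model (ε r : ℝ) : IsOpen {a : P × ℂ | ‖a.2‖ ^ 2 + ε ^ 2 < r ^ 2} :=
  isOpen_lt (((continuous_norm.comp continuous_snd).pow 2).add continuous_const) continuous_const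

lemma IsBlowupCodimTwo.isOpen_outer [T2Space M] [CompactSpace P]
    (B : IsBlowupCodimTwo wM S ε wN r β Φ J K) (hε : 0 < ε) :
    IsOpen {x : M | ∀ a : P × ℂ, ‖a.2‖ ≤ ε → Φ a ≠ x} := by
  have hsq : ε ^ 2 < r ^ 2 := by
    have := B.lt
    nlinarith
  have h1 := isClosed_tube B.tube hsq (hε.trans B.lt)
  have h2 : {x : M | ∀ a : P × ℂ, ‖a.2‖ ≤ ε → Φ a ≠ x} =
      {x : M | ∃ a : P × ℂ, ‖a.2‖ ^ 2 ≤ ε ^ 2 ∧ Φ a = x}ᶜ := by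
    ext x
    simp only [mem_ofPred_eq, mem_compl_iff, not_exists, not_and]
    constructor
    · intro h a ha
      exact h a ((sq_le_sq₀ (norm_nonneg _) hε.le).1 ha)
    · intro h a ha
      exact h a ((sq_le_sq₀ (norm_nonneg _) hε.le).2 ha)
  rw [h2]
  exact h1.isOpen_compl

/-- local description of the comparison map near a point of the tube -/
lemma IsBlowupCodimTwo.cmp_smoothAt_tube (B : IsBlowupCodimTwo wM S ε wN r β Φ J K)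
    (pr : Prof ε r χ g) {a : P × ℂ} (ha : ‖a.2‖ < r) :
    ContMDiffAt 𝓘(ℝ, E) 𝓘(ℝ, E) ∞ (cmp r g Φ J K) (Φ a) := by
  obtain ⟨V, s, hV, haV, hs, hsa, hss⟩ := submersion_section (isOpen_disc r) B.tube.smooth
    (a := a) ha (B.tube.submersion a ha)
  have h1 : cmp r g Φ J K =ᶠ[𝓝 (Φ a)] (K ∘ radP g) ∘ s := by
    filter_upwards [hV.mem_nhds haV] with y hy
    have h2 := hs y hy
    have h3 := B.cmp_tube pr h2.1
    rw [h2.2] at h3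
    exact h3
  refine ContMDiffAt.congr_of_eventuallyEq ?_ h1
  refine ContMDiffAt.comp (Φ a) ?_ hss
  rw [hsa]
  refine ContMDiffAt.comp a ?_ (contMDiff_radP pr a)
  exact B.K_smooth.contMDiffAt ((isOpen_model ε r).mem_nhds (pr.rad_lt ha))

lemma IsBlowupCodimTwo.cmp_eq_J [T2Space M] [CompactSpace P]
    (B : IsBlowupCodimTwo wM S ε wN r β Φ J K)
    (pr : Prof ε r χ g) (hε : 0 < ε) {x : M} (hx : ∀ a : P × ℂ, ‖a.2‖ < r → Φ a ≠ x) :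
    (cmp r g Φ J K =ᶠ[𝓝 x] J) ∧ x ∈ {x : M | ∀ a : P × ℂ, ‖a.2‖ ≤ ε → Φ a ≠ x} := by
  obtain ⟨ρ, hρ, hρ0⟩ := pr.cut.zero
  refine ⟨?_, fun a ha => hx a (lt_of_le_of_lt ha B.lt)⟩
  have h1 := (isClosed_tube B.tube hρ (hε.trans B.lt)).isOpen_compl
  have h2 : x ∈ {x : M | ∃ a : P × ℂ, ‖a.2‖ ^ 2 ≤ ρ ∧ Φ a = x}ᶜ := by
    rintro ⟨a, ha, hax⟩
    refine hx a ?_ hax
    refine lt_of_pow_lt_pow_left₀ 2 (hε.trans B.lt).le (lt_of_le_of_lt ha hρ)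
  filter_upwards [h1.mem_nhds h2] with y hy
  apply B.cmp_out pr hε hρ0
  intro a _ ha hay
  exact hy ⟨a, ha, hay⟩

lemma IsBlowupCodimTwo.cmp_smooth [T2Space M] [CompactSpace P]
    (B : IsBlowupCodimTwo wM S ε wN r β Φ J K) (pr : Prof ε r χ g) (hε : 0 < ε) :
    ContMDiff 𝓘(ℝ, E) 𝓘(ℝ, E) ∞ (cmp r g Φ J K) := by
  intro x
  by_cases h : ∃ a : P × ℂ, ‖a.2‖ < r ∧ Φ a = x
  · obtain ⟨a, ha, rfl⟩ := h
    exact B.cmp_smoothAt_tube pr ha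
  · obtain ⟨h1, h2⟩ := B.cmp_eq_J pr hε (x := x) (fun a ha hax => h ⟨a, ha, hax⟩)
    exact (B.J_smooth.contMDiffAt ((B.isOpen_outer hε).mem_nhds h2)).congr_of_eventuallyEq h1

/-- The form of the blowup, pulled back to `M`, in the tube. -/
lemma IsBlowupCodimTwo.cmp_pull_tube (B : IsBlowupCodimTwo wM S ε wN r β Φ J K)
    (pr : Prof ε r χ g) {a : P × ℂ} (ha : ‖a.2‖ < r) (u v : G × ℂ) :
    wN (cmp r g Φ J K (Φ a)) (mfderiv 𝓘(ℝ, E) 𝓘(ℝ, E) (cmp r g Φ J K) (Φ a) (dtube E Φ a u))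
      (mfderiv 𝓘(ℝ, E) 𝓘(ℝ, E) (cmp r g Φ J K) (Φ a) (dtube E Φ a v)) =
    wM (Φ a) (dtube E Φ a u) (dtube E Φ a v) + ε ^ 2 / 2 * thomForm β χ a u v := by
  set F := cmp r g Φ J K with hF
  have hFs := B.cmp_smoothAt_tube pr ha
  have hΦ : MDifferentiableAt (𝓘(ℝ, G).prod 𝓘(ℝ, ℂ)) 𝓘(ℝ, E) Φ a :=
    (B.tube.smooth.contMDiffAt ((isOpen_disc r).mem_nhds ha)).mdifferentiableAt (by simp)
  have hK : MDifferentiableAt (𝓘(ℝ, G).prod 𝓘(ℝ, ℂ)) 𝓘(ℝ, E) K (radP g a) :=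
    (B.K_smooth.contMDiffAt ((isOpen_model ε r).mem_nhds (pr.rad_lt ha))).mdifferentiableAt (by simp)
  have h1 : F ∘ Φ =ᶠ[𝓝 a] K ∘ radP g := by
    filter_upwards [(isOpen_disc r).mem_nhds ha] with b hb
    exact B.cmp_tube pr hb
  have h2 : ∀ u : G × ℂ, (mfderiv 𝓘(ℝ, E) 𝓘(ℝ, E) F (Φ a) (dtube E Φ a u) : E) =
      (dtube E K (radP g a) (u.1, drad g a.2 u.2) : E) := by
    intro u
    have h3 := dtube_comp (hFs.mdifferentiableAt (by simp)) hΦ u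
    have h4 := dtube_radP pr hK u
    have h5 := h1.mfderiv_eq (I := 𝓘(ℝ, G).prod 𝓘(ℝ, ℂ)) (I' := 𝓘(ℝ, E))
    have h6 : (dtube E (F ∘ Φ) a u : E) = (dtube E (K ∘ radP g) a u : E) :=
      DFunLike.congr_fun h5 u
    exact (show (_ : E) = _ from h3).symm.trans (h6.trans h4)
  have h7 : F (Φ a) = K (radP g a) := B.cmp_tube pr ha
  have h8 : wN (F (Φ a)) (mfderiv 𝓘(ℝ, E) 𝓘(ℝ, E) F (Φ a) (dtube E Φ a u))
      (mfderiv 𝓘(ℝ, E) 𝓘(ℝ, E) F (Φ a) (dtube E Φ a v)) =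
      wN (K (radP g a)) (dtube E K (radP g a) (u.1, drad g a.2 u.2))
        (dtube E K (radP g a) (v.1, drad g a.2 v.2)) := by
    refine (bil_congr wN h7 _ _).trans ?_
    exact congrArg₂ (fun a' b' : E => (wN (K (radP g a)) : E →L[ℝ] E →L[ℝ] ℝ) a' b') (h2 u) (h2 v)
  rw [h8, B.K_symp _ (pr.rad_lt ha), B.tube.symp a ha]
  have h9 : ‖(radP g a).2‖ ^ 2 = ‖a.2‖ ^ 2 - ε ^ 2 * (1 - χ (‖a.2‖ ^ 2)) := pr.norm_rad a.2
  simp only [couplingForm, thomForm, radialForm]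
  rw [h9]
  have e1 := pr.inner_drad a.2 u.2
  have e2 := pr.inner_drad a.2 v.2
  have e3 := pr.stdForm_drad a.2 u.2 v.2
  simp only [radP]
  rw [e1, e2, e3]
  have key : ∀ A X I₁ I₂ b₁ b₂ s c d e n : ℝ, A + ((n - e * (1 - c)) / 2 + e / 2) * X +
      ((1 + e * d) * I₁ * b₂ - (1 + e * d) * I₂ * b₁ + (1 + e * d) * s) =
      A + (n / 2 + 0) * X + (I₁ * b₂ - I₂ * b₁ + s) +
        e / 2 * (c * X + 2 * d * (I₁ * b₂ - I₂ * b₁ + s)) := by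
    intros
    ring
  exact key _ _ _ _ _ _ _ _ _ _ _

end Run7.h115
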