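import Pool.Agent.Run7.h115.CutGlue2

/-! Blowups along a submanifold of codimension two, Poincaré dual to a multiple of the symplectic
form: the blowup is a multiple of the original manifold. -/

set_option autoImplicit false
set_option linter.unusedSectionVars false
set_option maxSynthPendingDepth 3

open scoped ContDiff Topology Manifold
open Set Metric Function
open Pool.Agent.Helper186

noncomputable section

namespace Run7.h115

section general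

variable {E : Type*} [NormedAddCommGroup E] [NormedSpace ℝ E] [FiniteDimensional ℝ E]
  {M : Type*} [TopologicalSpace M] [ChartedSpace E M] [IsManifold 𝓘(ℝ, E) ∞ M]
  {N : Type*} [TopologicalSpace N] [ChartedSpace E N] [IsManifold 𝓘(ℝ, E) ∞ N]
  {N' : Type*} [TopologicalSpace N'] [ChartedSpace E N'] [IsManifold 𝓘(ℝ, E) ∞ N']

/-- the inverse of a smooth bijection with injective derivatives is smooth -/
lemma contMDiff_symm_of_injective (F : M ≃ N) (hF : ContMDiff 𝓘(ℝ, E) 𝓘(ℝ, E) ∞ F)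
    (hinj : ∀ x, Injective (mfderiv 𝓘(ℝ, E) 𝓘(ℝ, E) F x)) :
    ContMDiff 𝓘(ℝ, E) 𝓘(ℝ, E) ∞ F.symm := by
  intro y
  obtain ⟨x, rfl⟩ := F.surjective y
  obtain ⟨S, v, hSo, hxS, -, hv, hopen, hvs⟩ := local_inverse isOpen_univ hF.contMDiffOn
    (mem_univ x) (hinj x)
  refine (hvs x hxS).congr_of_eventuallyEq ?_
  filter_upwards [(hopen S Subset.rfl hSo).mem_nhds (mem_image_of_mem F hxS)] with z hz
  obtain ⟨x', hx', rfl⟩ := hz
  rw [F.symm_apply_apply, hv x' hx']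

lemma Symplectomorphic.symm' {w : Bil E M} {w' : Bil E N} (h : Symplectomorphic w w') :
    Symplectomorphic w' w := by
  obtain ⟨F, hF, hFs, hp⟩ := h
  refine ⟨F.symm, hFs, hF, fun y u v => ?_⟩
  have h1 : ∀ u : TangentSpace 𝓘(ℝ, E) y,
      mfderiv 𝓘(ℝ, E) 𝓘(ℝ, E) F (F.symm y) (mfderiv 𝓘(ℝ, E) 𝓘(ℝ, E) F.symm y u) = u := by
    intro u
    have h1 : mfderiv 𝓘(ℝ, E) 𝓘(ℝ, E) (F ∘ F.symm) y =
        (mfderiv 𝓘(ℝ, E) 𝓘(ℝ, E) F (F.symm y)).comp (mfderiv 𝓘(ℝ, E) 𝓘(ℝ, E) F.symm y) :=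
      mfderiv_comp y (hF.mdifferentiableAt (by simp)) (hFs.mdifferentiableAt (by simp))
    have h2 : (F ∘ F.symm : N → N) = id := by funext z; simp
    rw [h2, mfderiv_id] at h1
    exact (DFunLike.congr_fun h1 u).symm
  have h2 := hp (F.symm y) (mfderiv 𝓘(ℝ, E) 𝓘(ℝ, E) F.symm y u)
    (mfderiv 𝓘(ℝ, E) 𝓘(ℝ, E) F.symm y v)
  rw [h1, h1] at h2
  rw [← h2]
  have h3 : F (F.symm y) = y := F.apply_symm_apply y
  rw [h3]

lemma Symplectomorphic.trans' {w : Bil E M} {w' : Bil E N} {w'' : Bil E N'}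
    (h : Symplectomorphic w w') (h' : Symplectomorphic w' w'') : Symplectomorphic w w'' := by
  obtain ⟨F, hF, hFs, hp⟩ := h
  obtain ⟨F', hF', hFs', hp'⟩ := h'
  refine ⟨F.trans F', hF'.comp hF, hFs.comp hFs', fun x u v => ?_⟩
  have h1 : mfderiv 𝓘(ℝ, E) 𝓘(ℝ, E) (F.trans F') x =
      (mfderiv 𝓘(ℝ, E) 𝓘(ℝ, E) F' (F x)).comp (mfderiv 𝓘(ℝ, E) 𝓘(ℝ, E) F x) :=
    mfderiv_comp x (hF'.mdifferentiableAt (by simp)) (hF.mdifferentiableAt (by simp))
  rw [h1]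
  have h2 := hp' (F x) (mfderiv 𝓘(ℝ, E) 𝓘(ℝ, E) F x u) (mfderiv 𝓘(ℝ, E) 𝓘(ℝ, E) F x v)
  exact h2.trans (hp x u v)

end general

section tube

variable {E : Type*} [NormedAddCommGroup E] [NormedSpace ℝ E] [FiniteDimensional ℝ E]
  {M : Type*} [TopologicalSpace M] [ChartedSpace E M] [IsManifold 𝓘(ℝ, E) ∞ M]
  {N : Type*} [TopologicalSpace N] [ChartedSpace E N] [IsManifold 𝓘(ℝ, E) ∞ N]
  {G : Type*} [NormedAddCommGroup G] [NormedSpace ℝ G] [FiniteDimensional ℝ G]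
  {P : Type*} [TopologicalSpace P] [ChartedSpace G P] [IsManifold 𝓘(ℝ, G) ∞ P]
  [MulAction Circle P]
  {wM : Bil E M} {wN : Bil E N} {S : Set M} {ε r : ℝ} {β : OneForm G P} {Φ : P × ℂ → M}
  {J : M → N} {K : P × ℂ → N} {χ g : ℝ → ℝ}

lemma one_lin (b : G →L[ℝ] ℝ) (x y : G) (s : ℝ) : b (x - s • y) = b x - s * b y := by
  rw [map_sub, map_smul, smul_eq_mul]

lemma one_smul' (b : G →L[ℝ] ℝ) (s : ℝ) (x : G) : b (s • x) = s * b x := by
  rw [map_smul, smul_eq_mul]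

lemma extDer_zero_right (β : OneForm G P) (p : P) (ξ : G) : extDer 𝓘(ℝ, G) β p ξ (0 : G) = 0 := by
  have h := map_zero (extDerL 𝓘(ℝ, G) β p ξ)
  exact h

lemma baseForm_zero_right (wM : Bil E M) (Φ : P × ℂ → M) (p : P) (ξ : G) :
    baseForm wM Φ p ξ (0 : G) = 0 := by
  unfold baseForm
  have h : dtube E Φ (p, (0 : ℂ)) ((0 : G), (0 : ℂ)) = 0 := dtube_zero Φ _
  rw [h, map_zero]

/-- **Nondegeneracy of the deformed forms.** -/
lemma nondeg_tube (ht : IsTube wM S r β Φ) (hβ : IsConnection β) (hnd : wM.ND)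
    (pr : Prof ε r χ g) {τ : ℝ} (hτ0 : 0 ≤ τ) (hτ : 2 * τ ≤ ε ^ 2) {a : P × ℂ} (ha : ‖a.2‖ < r)
    {T : E → E → ℝ} (hT : ∀ u v : G × ℂ, T (dtube E Φ a u) (dtube E Φ a v) = thomForm β χ a u v)
    {V : E} (hV : ∀ v : E, wM (Φ a) V v + τ * T V v = 0) : V = 0 := by
  obtain ⟨u₀, hu₀⟩ := ht.submersion a ha V
  have hu₀' : dtube E Φ a u₀ = V := hu₀
  -- make `u` horizontal
  obtain ⟨ξ, ζ, hu, hξ⟩ : ∃ (ξ : G) (ζ : ℂ), dtube E Φ a (ξ, ζ) = V ∧ β a.1 ξ = 0 := by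
    set k : G × ℂ := (gen (G := G) a.1, - (Complex.I * a.2)) with hk
    set u := u₀ - (β a.1 u₀.1) • k with hu
    refine ⟨u.1, u.2, ?_, ?_⟩
    · show dtube E Φ a u = V
      rw [hu, dtube_sub, dtube_smul, ht.dtube_gen hβ ha, hu₀']
      simp
    · show β a.1 (u₀.1 - (β a.1 u₀.1) • gen (G := G) a.1) = 0
      have h1 : β a.1 (u₀.1 - (β a.1 u₀.1) • gen (G := G) a.1) =
          β a.1 u₀.1 - (β a.1 u₀.1) * β a.1 (gen (G := G) a.1) :=
        one_lin (G := G) (β a.1) _ _ _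
      rw [h1, hβ.apply_gen, mul_one, sub_self]
  have hr : 0 < r := lt_of_le_of_lt (norm_nonneg _) ha
  have hslope : ∀ u, 0 < 1 + 2 * τ * deriv χ u := by
    intro u
    have h1 := pr.slope u
    have h2 := pr.anti u
    nlinarith
  have hmono := strictMono_of_slope pr.cut hslope
  have key : ∀ v : G × ℂ, couplingForm wM Φ β 0 a (ξ, ζ) v + τ * thomForm β χ a (ξ, ζ) v = 0 := by
    intro v
    have h1 := hV (dtube E Φ a v)
    rw [← hu, hT] at h1
    rw [← ht.symp a ha]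
    exact h1
  -- the vertical component vanishes
  have hζ : ζ = 0 := by
    have h1 := key ((0 : G), Complex.I * ζ)
    simp only [couplingForm, thomForm, radialForm] at h1
    rw [baseForm_zero_right, extDer_zero_right, hξ] at h1
    have h2 : β a.1 (0 : G) = 0 := map_zero _
    rw [h2] at h1
    have h3 : stdForm ζ (Complex.I * ζ) = ‖ζ‖ ^ 2 := by
      rw [stdForm_complex, norm_sq_complex]
      simp
    rw [h3] at h1
    have h4 : (1 + 2 * τ * deriv χ (‖a.2‖ ^ 2)) * ‖ζ‖ ^ 2 = 0 := by linarith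
    rcases mul_eq_zero.1 h4 with h5 | h5
    · exact absurd h5 (hslope _).ne'
    · exact norm_eq_zero.1 (pow_eq_zero_iff (two_ne_zero)|>.1 h5)
  subst hζ
  set n : ℝ := ‖a.2‖ ^ 2 with hn
  set m : ℝ := n + 2 * τ * χ n with hm
  have hn0 : 0 ≤ n := sq_nonneg _
  have hnr : n < r ^ 2 := by
    have := norm_nonneg a.2
    rw [hn]
    nlinarith
  have hm0 : 0 ≤ m := by
    have h1 := hmono.monotone hn0
    simp only [pr.chi_zero] at h1
    rw [hm]
    linarith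
  have hmr : m < r ^ 2 := by
    have h1 := hmono hnr
    simp only [pr.chi_r] at h1
    rw [hm]
    linarith
  have hbase : ∀ η : G, baseForm wM Φ a.1 ξ η + m / 2 * extDer 𝓘(ℝ, G) β a.1 ξ η = 0 := by
    intro η
    have h1 := key (η, (0 : ℂ))
    simp only [couplingForm, thomForm, radialForm] at h1
    rw [hξ] at h1
    have h2 : inner ℝ a.2 (0 : ℂ) = 0 := inner_zero_right _
    have h3 : stdForm (0 : ℂ) (0 : ℂ) = 0 := by simp [stdForm]
    rw [h2, h3] at h1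
    rw [hm, hn]
    linarith
  -- the point at the other radius
  set z₁ : ℂ := ((Real.sqrt m : ℝ) : ℂ) with hz₁
  have hz₁n : ‖z₁‖ = Real.sqrt m := by
    rw [hz₁, Complex.norm_real, Real.norm_of_nonneg (Real.sqrt_nonneg _)]
  have hz₁r : ‖z₁‖ < r := by
    rw [hz₁n, Real.sqrt_lt' hr]
    exact hmr
  set a₁ : P × ℂ := (a.1, z₁) with ha₁
  have h1 : dtube E Φ a₁ (ξ, (0 : ℂ)) = 0 := by
    apply hnd (Φ a₁)
    intro v
    obtain ⟨v₀, rfl⟩ := ht.submersion a₁ hz₁r v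
    show wM (Φ a₁) (dtube E Φ a₁ (ξ, (0 : ℂ))) (dtube E Φ a₁ v₀) = 0
    rw [ht.symp a₁ hz₁r]
    simp only [couplingForm, radialForm]
    have h2 : inner ℝ a₁.2 (0 : ℂ) = 0 := inner_zero_right _
    have h3 : stdForm (0 : ℂ) v₀.2 = 0 := by simp [stdForm]
    have h4 : β a₁.1 ξ = 0 := hξ
    have h5 : ‖a₁.2‖ ^ 2 = m := by
      show ‖z₁‖ ^ 2 = m
      rw [hz₁n, Real.sq_sqrt hm0]
    rw [h2, h3, h4, h5]
    have h6 := hbase v₀.1
    have h7 : baseForm wM Φ a₁.1 ξ v₀.1 + (m / 2 + 0) * extDer 𝓘(ℝ, G) β a₁.1 ξ v₀.1 = 0 := by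
      rw [add_zero]
      exact h6
    linarith
  obtain ⟨s, hs⟩ := ht.exists_smul_gen hβ (a := a₁) hz₁r h1
  have h2 : s • gen (G := G) a.1 = ξ := congrArg Prod.fst hs
  have h3 : s = 0 := by
    have h4 := hξ
    rw [← h2] at h4
    have h5 : β a.1 (s • gen (G := G) a.1) = s * β a.1 (gen (G := G) a.1) :=
      one_smul' (G := G) (β a.1) _ _
    rw [h5, hβ.apply_gen, mul_one] at h4
    exact h4
  have h4 : ξ = 0 := by rw [← h2, h3, zero_smul]
  rw [← hu, h4]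
  exact dtube_zero Φ a

/-- The `ε`-blowup of a closed manifold along a submanifold of codimension two which is Poincaré
dual to `c [w]` is `(M, (1 - c π ε²) w)`. -/
theorem symplectomorphic_scaled [T2Space M] [CompactSpace M] [CompactSpace P]
    (hw : IsSymplectic wM) (B : IsBlowupCodimTwo wM S ε wN r β Φ J K) (hε : 0 < ε) {c : ℝ}
    (hc : c * Real.pi * ε ^ 2 < 1) (hd : DualTube wM c r β Φ) :
    Symplectomorphic (fun x => (1 - c * Real.pi * ε ^ 2) • wM x) wN := by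
  obtain ⟨χ, g, pr⟩ := exists_prof hε B.lt
  obtain ⟨μ, hμ, hμ1, hμ2⟩ := hd χ pr.cut
  set κ : ℝ := 1 - c * Real.pi * ε ^ 2 with hκ
  have hκ0 : 0 < κ := by rw [hκ]; linarith
  have hnd : wM.ND := hw.nondeg
  -- nondegeneracy
  have nondeg : ∀ τ : ℝ, 0 ≤ τ → 2 * τ ≤ ε ^ 2 → ∀ (x : M) (V : E),
      (∀ v : E, (1 - 2 * Real.pi * c * τ) * wM x V v + τ * extDer 𝓘(ℝ, E) μ x V v = 0) → V = 0 := by
    intro τ hτ0 hτ x V hV
    by_cases h : ∃ a : P × ℂ, ‖a.2‖ < r ∧ Φ a = x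
    · obtain ⟨a, ha, rfl⟩ := h
      refine nondeg_tube B.tube B.connection hnd pr hτ0 hτ ha
        (T := fun u v => extDer 𝓘(ℝ, E) μ (Φ a) u v - 2 * Real.pi * c * wM (Φ a) u v) ?_ ?_
      · intro u v
        rw [hμ1 a ha]
        ring
      · intro v
        have h1 := hV v
        linear_combination h1
    · apply hnd x
      intro v
      have h1 := hV v
      rw [hμ2 x (fun a ha hax => h ⟨a, ha, hax⟩)] at h1
      have h2 : (1 - 2 * Real.pi * c * τ) * wM x V v + τ * (2 * Real.pi * c * wM x V v) =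
        wM x V v := by ring
      exact h2.symm.trans h1
  -- the comparison diffeomorphism
  set F : M ≃ N := Equiv.ofBijective (cmp r g Φ J K) ⟨B.cmp_injective pr hε,
    B.cmp_surjective pr hε⟩ with hF
  have hFs : ContMDiff 𝓘(ℝ, E) 𝓘(ℝ, E) ∞ F := B.cmp_smooth pr hε
  have hFp : ∀ x (u v : E), wN (F x) (mfderiv 𝓘(ℝ, E) 𝓘(ℝ, E) F x u)
      (mfderiv 𝓘(ℝ, E) 𝓘(ℝ, E) F x v) = κ * wM x u v + ε ^ 2 / 2 * extDer 𝓘(ℝ, E) μ x u v := by
    intro x u v
    by_cases h : ∃ a : P × ℂ, ‖a.2‖ < r ∧ Φ a = x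
    · obtain ⟨a, ha, rfl⟩ := h
      obtain ⟨u₀, rfl⟩ := B.tube.submersion a ha u
      obtain ⟨v₀, rfl⟩ := B.tube.submersion a ha v
      have h1 := B.cmp_pull_tube pr ha u₀ v₀
      have h2 := hμ1 a ha u₀ v₀
      have h3 : wM (Φ a) (dtube E Φ a u₀) (dtube E Φ a v₀) + ε ^ 2 / 2 * thomForm β χ a u₀ v₀ =
          κ * wM (Φ a) (dtube E Φ a u₀) (dtube E Φ a v₀) +
            ε ^ 2 / 2 * extDer 𝓘(ℝ, E) μ (Φ a) (dtube E Φ a u₀) (dtube E Φ a v₀) := by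
        rw [h2, hκ]
        ring
      exact h1.trans h3
    · obtain ⟨h1, h2⟩ := B.cmp_eq_J pr hε (x := x) (fun a ha hax => h ⟨a, ha, hax⟩)
      have h3 := B.J_symp x h2 u v
      have h4 := h1.mfderiv_eq (I := 𝓘(ℝ, E)) (I' := 𝓘(ℝ, E))
      have h5 := hμ2 x (fun a ha hax => h ⟨a, ha, hax⟩) u v
      have h6 : wN (F x) (mfderiv 𝓘(ℝ, E) 𝓘(ℝ, E) F x u) (mfderiv 𝓘(ℝ, E) 𝓘(ℝ, E) F x v) =
          wN (J x) (mfderiv 𝓘(ℝ, E) 𝓘(ℝ, E) J x u) (mfderiv 𝓘(ℝ, E) 𝓘(ℝ, E) J x v) := by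
        refine (bil_congr wN h1.eq_of_nhds _ _).trans ?_
        exact congrArg₂ (fun a' b' : E => (wN (J x) : E →L[ℝ] E →L[ℝ] ℝ) a' b')
          (DFunLike.congr_fun h4 u) (DFunLike.congr_fun h4 v)
      rw [h6, h3, h5, hκ]
      ring
  have hFinj : ∀ x, Injective (mfderiv 𝓘(ℝ, E) 𝓘(ℝ, E) F x) := by
    intro x
    rw [injective_iff_map_eq_zero]
    intro V hV
    refine nondeg (ε ^ 2 / 2) (by positivity) (by linarith) x V ?_
    intro v
    have h1 := hFp x V v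
    rw [hV, map_zero] at h1
    have h2 : (0 : ℝ) = κ * wM x V v + ε ^ 2 / 2 * extDer 𝓘(ℝ, E) μ x V v := h1
    rw [hκ] at h2
    linarith
  have hF1 : Symplectomorphic (fun x => κ • wM x + (ε ^ 2 / 2) • extDerL 𝓘(ℝ, E) μ x) wN :=
    ⟨F, hFs, contMDiff_symm_of_injective F hFs hFinj, hFp⟩
  -- Moser
  set s₁ : ℝ := ε ^ 2 / 2 / κ with hs₁
  have hs₁0 : 0 ≤ s₁ := by positivity
  have hs₁κ : κ * s₁ = ε ^ 2 / 2 := by
    rw [hs₁]
    field_simp
  obtain ⟨R, hR, hRs, hRp⟩ := moser_closed hw.smooth hw.alt hw.closed hμ hs₁0 (by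
    intro s hs x V hV
    have hpos : 0 < 1 + 2 * Real.pi * c * s := by
      have h1 : κ * (1 + 2 * Real.pi * c * s₁) = 1 := by
        have : κ * (1 + 2 * Real.pi * c * s₁) = κ + 2 * Real.pi * c * (κ * s₁) := by ring
        rw [this, hs₁κ, hκ]
        ring
      have h2 : 0 < 1 + 2 * Real.pi * c * s₁ := by
        by_contra h3
        have h4 : κ * (1 + 2 * Real.pi * c * s₁) ≤ 0 :=
          mul_nonpos_of_nonneg_of_nonpos hκ0.le (not_lt.1 h3)
        linarith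
      rcases le_or_gt 0 (2 * Real.pi * c) with h3 | h3
      · have := mul_nonneg h3 hs.1
        linarith
      · have := mul_le_mul_of_nonpos_left hs.2 h3.le
        linarith
    refine nondeg (s / (1 + 2 * Real.pi * c * s)) (div_nonneg hs.1 hpos.le) ?_ x V ?_
    · have h1 : s / (1 + 2 * Real.pi * c * s) ≤ ε ^ 2 / 2 := by
        rw [div_le_iff₀ hpos]
        have h2 : κ * s ≤ κ * s₁ := mul_le_mul_of_nonneg_left hs.2 hκ0.le
        rw [hs₁κ, hκ] at h2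
        linarith
      linarith
    · intro v
      have h1 := hV v
      have h2 : (1 - 2 * Real.pi * c * (s / (1 + 2 * Real.pi * c * s))) * wM x V v +
          s / (1 + 2 * Real.pi * c * s) * extDer 𝓘(ℝ, E) μ x V v =
          (wM x V v + s * extDer 𝓘(ℝ, E) μ x V v) / (1 + 2 * Real.pi * c * s) := by
        field_simp
        ring
      rw [h2]
      have h3 : wM x V v + s * extDer 𝓘(ℝ, E) μ x V v = 0 := h1
      rw [h3, zero_div])
  have hR1 : Symplectomorphic (fun x => κ • wM x)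
      (fun x => κ • wM x + (ε ^ 2 / 2) • extDerL 𝓘(ℝ, E) μ x) := by
    refine ⟨R, hR, hRs, fun x u v => ?_⟩
    have h1 := hRp x u v
    have h2 : κ * wM (R x) (mfderiv 𝓘(ℝ, E) 𝓘(ℝ, E) R x u) (mfderiv 𝓘(ℝ, E) 𝓘(ℝ, E) R x v) +
        ε ^ 2 / 2 * extDer 𝓘(ℝ, E) μ (R x) (mfderiv 𝓘(ℝ, E) 𝓘(ℝ, E) R x u)
          (mfderiv 𝓘(ℝ, E) 𝓘(ℝ, E) R x v) = κ * wM x u v := by
      rw [← h1, ← hs₁κ]
      ring
    exact h2
  exact hR1.trans' hF1

end tube

end Run7.h115
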