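import Pool.Agent.Run7.h115.MoserC

/-! Moser's stability theorem on closed manifolds, for deformations by exact forms. -/

set_option autoImplicit false
set_option linter.unusedSectionVars false
set_option maxSynthPendingDepth 3

open scoped ContDiff Topology Manifold
open Set Metric Function Bundle
open Pool.Agent.Helper186

noncomputable section

namespace Run7.h115

variable {E : Type*} [NormedAddCommGroup E] [NormedSpace ℝ E] [FiniteDimensional ℝ E]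
  {M : Type*} [TopologicalSpace M] [ChartedSpace E M] [IsManifold 𝓘(ℝ, E) ∞ M]

/-- **Moser's theorem** for `w + s dμ` on a closed manifold. -/
theorem moser_closed [T2Space M] [CompactSpace M] {w : Bil E M}
    (hw : ∀ x₀, ContDiffOn ℝ ∞ (chartBil w x₀) (extChartAt 𝓘(ℝ, E) x₀).target)
    (halt : ∀ x v, w x v v = 0)
    (hcl : ∀ x₀, ∀ y ∈ (extChartAt 𝓘(ℝ, E) x₀).target, ∀ u v t,
      fderiv ℝ (chartBil w x₀) y u v t + fderiv ℝ (chartBil w x₀) y v t u +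
        fderiv ℝ (chartBil w x₀) y t u v = 0)
    {μ : (x : M) → TangentSpace 𝓘(ℝ, E) x →L[ℝ] ℝ} (hμ : SmoothForm μ) {s₁ : ℝ} (hs₁ : 0 ≤ s₁)
    (hnd : ∀ s ∈ Icc (0:ℝ) s₁, ∀ x u, (∀ v, w x u v + s * extDer 𝓘(ℝ, E) μ x u v = 0) → u = 0) :
    ∃ R : M ≃ M, ContMDiff 𝓘(ℝ, E) 𝓘(ℝ, E) ∞ R ∧ ContMDiff 𝓘(ℝ, E) 𝓘(ℝ, E) ∞ R.symm ∧
      ∀ x u v, w (R x) (mfderiv 𝓘(ℝ, E) 𝓘(ℝ, E) R x u) (mfderiv 𝓘(ℝ, E) 𝓘(ℝ, E) R x v) +
        s₁ * extDer 𝓘(ℝ, E) μ (R x) (mfderiv 𝓘(ℝ, E) 𝓘(ℝ, E) R x u)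
          (mfderiv 𝓘(ℝ, E) 𝓘(ℝ, E) R x v) = w x u v := by
  classical
  set 𝒰 : Set (ℝ × M) := {p | ∀ u, (∀ v, pathForm w μ p u v = 0) → u = 0} with h𝒰
  have h𝒰o : IsOpen 𝒰 := by
    rw [isOpen_iff_mem_nhds]
    intro p hp
    exact eventually_nondegenerate contMDiffAt_snd (smooth_pathForm hw hμ p) hp
  have hex : ∀ p : ℝ × M, ∃ u : TangentSpace 𝓘(ℝ, E) p.2, p ∈ 𝒰 → ∀ v, pathForm w μ p u v =
      - μ p.2 v := by
    intro p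
    by_cases hp : p ∈ 𝒰
    · obtain ⟨u, hu⟩ := exists_sharp (pathForm w μ p) hp (- μ p.2)
      exact ⟨u, fun _ v => hu v⟩
    · exact ⟨0, fun h => absurd h hp⟩
  choose Y hY using hex
  have hYs : ∀ p ∈ 𝒰, ContMDiffAt (𝓘(ℝ, ℝ).prod 𝓘(ℝ, E)) 𝓘(ℝ, E).tangent ∞
      (fun p : ℝ × M => (⟨p.2, Y p⟩ : TangentBundle 𝓘(ℝ, E) M)) p := by
    intro p₀ hp₀
    refine contMDiffAt_of_pairing (f := fun p : ℝ × M => p.2) contMDiffAt_snd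
      (smooth_pathForm hw hμ p₀) hp₀ ?_
    intro v hv
    have a0 : ContMDiffAt (𝓘(ℝ, ℝ).prod 𝓘(ℝ, E)) 𝓘(ℝ, ℝ) ∞ (fun p : ℝ × M => μ p.2 (v p)) p₀ :=
      hμ.comp hv le_rfl
    refine a0.neg.congr_of_eventuallyEq ?_
    filter_upwards [h𝒰o.mem_nhds hp₀] with p hp
    exact hY p hp (v p)
  -- cut off
  have hKU : Icc (0:ℝ) s₁ ×ˢ (univ : Set M) ⊆ 𝒰 := fun p hp => hnd p.1 hp.1 p.2
  have hI : IsCompact (Icc (0:ℝ) s₁ ×ˢ (univ : Set M)) := isCompact_Icc.prod isCompact_univ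
  obtain ⟨χ, K', hχ, hK', hK'U, hχ1, hχ0⟩ := exists_cutoff (𝓘(ℝ, ℝ).prod 𝓘(ℝ, E)) hI h𝒰o hKU
  have hYt : ContMDiff (𝓘(ℝ, ℝ).prod 𝓘(ℝ, E)) 𝓘(ℝ, E).tangent ∞
      (fun p : ℝ × M => (⟨p.2, χ p • Y p⟩ : TangentBundle 𝓘(ℝ, E) M)) := by
    intro p
    by_cases hp : p ∈ 𝒰
    · exact contMDiffAt_smul_along (hχ p) (hYs p hp)
    · have hp' : p ∈ K'ᶜ := fun h => hp (hK'U h)
      have h1 : ContMDiffAt (𝓘(ℝ, ℝ).prod 𝓘(ℝ, E)) 𝓘(ℝ, E).tangent ∞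
        (fun p : ℝ × M => (⟨p.2, 0⟩ : TangentBundle 𝓘(ℝ, E) M)) p :=
        contMDiffAt_zero_along contMDiffAt_snd
      refine h1.congr_of_eventuallyEq ?_
      filter_upwards [hK'.isClosed.isOpen_compl.mem_nhds hp'] with q hq
      rw [hχ0 q hq, zero_smul]
  have hYK : ∀ p : ℝ × M, p ∉ K' → χ p • Y p = 0 := by
    intro p hp
    rw [hχ0 p hp, zero_smul]
  obtain ⟨R, B, hR, hB, hR0, hBR, hRB, hRd, hRu⟩ :=
    exists_evolution (Y := fun s x => χ (s, x) • Y (s, x)) hYt hK' hYK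
  have hdS : ∀ s x, dS 𝓘(ℝ, E) R s x = χ (s, R (s, x)) • Y (s, R (s, x)) := fun s x =>
    dS_eq_of_hasMFDerivAt (hRd s x)
  obtain ⟨U₁, hU₁o, hU₁C, hU₁⟩ : ∃ U₁ : Set (ℝ × M), IsOpen U₁ ∧
      Icc (0:ℝ) s₁ ×ˢ (univ : Set M) ⊆ U₁ ∧ ∀ p ∈ U₁, χ p = 1 ∧ p ∈ 𝒰 := by
    have h1 : ∀ᶠ p in 𝓝ˢ (Icc (0:ℝ) s₁ ×ˢ (univ : Set M)), p ∈ 𝒰 := h𝒰o.mem_nhdsSet.2 hKU
    obtain ⟨U₁, h2, h3, h4⟩ := mem_nhdsSet_iff_exists.1 (hχ1.and h1)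
    exact ⟨U₁, h2, h3, fun p hp => h4 hp⟩
  have hcont : Continuous (fun p : ℝ × M => (p.1, R p)) := continuous_fst.prodMk hR.continuous
  set D : Set (ℝ × M) := (fun p : ℝ × M => (p.1, R p)) ⁻¹' U₁ with hD
  have hDo : IsOpen D := hU₁o.preimage hcont
  have heq : ∀ p ∈ D, ∀ v, pathForm w μ (p.1, R p) (dS 𝓘(ℝ, E) R p.1 p.2) v = - μ (R p) v := by
    intro p hp v
    have h1 := hU₁ _ hp
    have h2 := hY (p.1, R p) h1.2 v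
    have h3 : dS 𝓘(ℝ, E) R p.1 p.2 = Y (p.1, R p) := by
      have := hdS p.1 p.2
      rw [this]
      show χ (p.1, R p) • Y (p.1, R p) = _
      rw [h1.1, one_smul]
    rw [h3]
    exact h2
  have hconst : ∀ (x : M) (u v : E), pathForm w μ (s₁, R (s₁, x)) (dX 𝓘(ℝ, E) 𝓘(ℝ, E) R s₁ x u)
      (dX 𝓘(ℝ, E) 𝓘(ℝ, E) R s₁ x v) = w x u v := by
    intro x u v
    have hder : ∀ σ ∈ Icc (0:ℝ) s₁, HasDerivAt (fun σ => pathForm w μ (σ, R (σ, x))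
        (dX 𝓘(ℝ, E) 𝓘(ℝ, E) R σ x u) (dX 𝓘(ℝ, E) 𝓘(ℝ, E) R σ x v)) 0 σ := by
      intro σ hσ
      exact hasDerivAt_moser hw halt hcl hμ hR hDo heq
        (hU₁C ⟨hσ, mem_univ _⟩ : (σ, R (σ, x)) ∈ U₁) u v
    have h1 := constant_of_has_deriv_right_zero
      (fun σ hσ => (hder σ hσ).continuousAt.continuousWithinAt)
      (fun σ hσ => (hder σ (Ico_subset_Icc_self hσ)).hasDerivWithinAt) s₁ (right_mem_Icc.2 hs₁)
    have h2 : pathForm w μ ((0:ℝ), R (0, x)) (dX 𝓘(ℝ, E) 𝓘(ℝ, E) R 0 x u)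
        (dX 𝓘(ℝ, E) 𝓘(ℝ, E) R 0 x v) = w x u v := by
      have h5 : (fun x' => R (0, x')) = id := by ext x'; exact hR0 x'
      have h6 : ∀ u : E, (dX 𝓘(ℝ, E) 𝓘(ℝ, E) R 0 x u : E) = u := by
        intro u
        unfold dX
        rw [h5, mfderiv_id]
        rfl
      have h7 : ∀ z : M, z = x → ∀ a a' d d' : E, a = a' → d = d' →
          (w z : E →L[ℝ] E →L[ℝ] ℝ) a d = (w x : E →L[ℝ] E →L[ℝ] ℝ) a' d' := by
        intro z h a a' d d' ha hd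
        subst h ha hd
        rfl
      rw [pathForm_apply]
      simp only [zero_mul, add_zero]
      exact h7 _ (hR0 x) _ _ _ _ (h6 u) (h6 v)
    exact h1.trans h2
  refine ⟨⟨fun x => R (s₁, x), fun x => B (s₁, x), fun x => hBR s₁ x, fun x => hRB s₁ x⟩,
    hR.comp (contMDiff_const.prodMk contMDiff_id), hB.comp (contMDiff_const.prodMk contMDiff_id), ?_⟩
  intro x u v
  exact hconst x u v

end Run7.h115
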