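import Pool.Agent.Run7.h115.CutDefs
import Pool.Agent.Run7.h115.MoserD

/-! Local sections of submersions, and the kernel of the derivative of a tube. -/

set_option autoImplicit false
set_option linter.unusedSectionVars false
set_option maxSynthPendingDepth 3

open scoped ContDiff Topology Manifold
open Set Metric Function
open Pool.Agent.Helper186

noncomputable section

namespace Run7.h115

section submersion

variable {E : Type*} [NormedAddCommGroup E] [NormedSpace ℝ E] [FiniteDimensional ℝ E]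
  {N : Type*} [TopologicalSpace N] [ChartedSpace E N] [IsManifold 𝓘(ℝ, E) ∞ N]
  {EA : Type*} [NormedAddCommGroup EA] [NormedSpace ℝ EA] [FiniteDimensional ℝ EA]
  {HA : Type*} [TopologicalSpace HA] {I : ModelWithCorners ℝ EA HA} [I.Boundaryless]
  {A : Type*} [TopologicalSpace A] [ChartedSpace HA A] [IsManifold I ∞ A]

/-- Submersions have local sections. -/
theorem submersion_section {f : A → N} {Ω : Set A} (hΩ : IsOpen Ω)
    (hf : ContMDiffOn I 𝓘(ℝ, E) ∞ f Ω) {a : A} (ha : a ∈ Ω)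
    (hsurj : Surjective (mfderiv I 𝓘(ℝ, E) f a)) :
    ∃ (V : Set N) (s : N → A), IsOpen V ∧ f a ∈ V ∧ (∀ y ∈ V, s y ∈ Ω ∧ f (s y) = y) ∧
      s (f a) = a ∧ ContMDiffAt 𝓘(ℝ, E) I ∞ s (f a) := by
  set A₀ : EA →L[ℝ] E := mfderiv I 𝓘(ℝ, E) f a with hA₀
  obtain ⟨L₀, hL₀⟩ := LinearMap.exists_rightInverse_of_surjective (A₀ : EA →ₗ[ℝ] E)
    (LinearMap.range_eq_top.2 hsurj)
  let L : E →L[ℝ] EA := LinearMap.toContinuousLinearMap L₀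
  have hL : ∀ e, A₀ (L e) = e := fun e => DFunLike.congr_fun hL₀ e
  set ψ := extChartAt I a with hψ
  have hψo : IsOpen ψ.target := isOpen_extChartAt_target a
  have hψs : ContMDiffOn 𝓘(ℝ, EA) I ∞ ψ.symm ψ.target := contMDiffOn_extChartAt_symm a
  set τ : E → EA := fun e => ψ a + L e with hτ
  have hτs : ContDiff ℝ ∞ τ := contDiff_const.add L.contDiff
  have hτ0 : τ 0 = ψ a := by simp [hτ]
  have hτd : HasFDerivAt τ L 0 := (L.hasFDerivAt (x := (0 : E))).const_add (ψ a)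
  set σ : E → A := fun e => ψ.symm (τ e) with hσ
  have hσ0 : σ 0 = a := by
    show ψ.symm (τ 0) = a
    rw [hτ0]
    exact ψ.left_inv (mem_extChartAt_source a)
  have hO1 : IsOpen (τ ⁻¹' ψ.target) := hψo.preimage hτs.continuous
  have hσs : ContMDiffOn 𝓘(ℝ, E) I ∞ σ (τ ⁻¹' ψ.target) :=
    hψs.comp hτs.contMDiff.contMDiffOn (fun e he => he)
  set O : Set E := (τ ⁻¹' ψ.target) ∩ σ ⁻¹' Ω with hO
  have hOo : IsOpen O := hσs.continuousOn.isOpen_inter_preimage hO1 hΩ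
  have h0O : (0 : E) ∈ O := by
    refine ⟨?_, ?_⟩
    · show τ 0 ∈ ψ.target
      rw [hτ0]
      exact mem_extChartAt_target a
    · show σ 0 ∈ Ω
      rw [hσ0]
      exact ha
  have hw : ContMDiffOn 𝓘(ℝ, E) 𝓘(ℝ, E) ∞ (f ∘ σ) O :=
    hf.comp (hσs.mono inter_subset_left) (fun e he => he.2)
  have hσm : MDifferentiableAt 𝓘(ℝ, E) I σ 0 :=
    (hσs.contMDiffAt (hO1.mem_nhds h0O.1)).mdifferentiableAt (by simp)
  have hfa : MDifferentiableAt I 𝓘(ℝ, E) f (σ 0) := by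
    rw [hσ0]
    exact (hf.contMDiffAt (hΩ.mem_nhds ha)).mdifferentiableAt (by simp)
  have hσd : ∀ e : E, (mfderiv 𝓘(ℝ, E) I σ 0 e : EA) = L e := by
    intro e
    have h1 : mfderiv 𝓘(ℝ, E) I σ 0 = (mfderiv 𝓘(ℝ, EA) I ψ.symm (τ 0)).comp
        (mfderiv 𝓘(ℝ, E) 𝓘(ℝ, EA) τ 0) := by
      apply mfderiv_comp
      · exact (hψs.contMDiffAt (hψo.mem_nhds h0O.1)).mdifferentiableAt (by simp)
      · exact hτd.hasMFDerivAt.mdifferentiableAt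
    have h2 := DFunLike.congr_fun h1 e
    have h3 : mfderiv 𝓘(ℝ, E) 𝓘(ℝ, EA) τ 0 = L := hτd.hasMFDerivAt.mfderiv
    refine (show _ = (_ : EA) from h2).trans ?_
    show (mfderiv 𝓘(ℝ, EA) I ψ.symm (τ 0) : EA →L[ℝ] EA) (mfderiv 𝓘(ℝ, E) 𝓘(ℝ, EA) τ 0 e : EA) = L e
    rw [h3, hτ0]
    exact mfderiv_extChartAt_symm_self a (L e)
  have hd : ∀ e : E, (mfderiv 𝓘(ℝ, E) 𝓘(ℝ, E) (f ∘ σ) 0 e : E) = e := by
    intro e
    have h1 : mfderiv 𝓘(ℝ, E) 𝓘(ℝ, E) (f ∘ σ) 0 = (mfderiv I 𝓘(ℝ, E) f (σ 0)).comp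
        (mfderiv 𝓘(ℝ, E) I σ 0) := mfderiv_comp 0 hfa hσm
    have h2 := DFunLike.congr_fun h1 e
    refine (show _ = (_ : E) from h2).trans ?_
    show (mfderiv I 𝓘(ℝ, E) f (σ 0) : EA →L[ℝ] E) (mfderiv 𝓘(ℝ, E) I σ 0 e : EA) = e
    rw [hσd e, hσ0]
    exact hL e
  have hinj : Injective (mfderiv 𝓘(ℝ, E) 𝓘(ℝ, E) (f ∘ σ) 0) := by
    intro e e' h
    have h1 := hd e
    have h2 := hd e'
    exact h1.symm.trans ((show _ = (_ : E) from h).trans h2)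
  obtain ⟨S, v, hSo, h0S, hSO, hv, hopen, hvs⟩ := local_inverse hOo hw h0O hinj
  refine ⟨(f ∘ σ) '' S, σ ∘ v, hopen S Subset.rfl hSo, ?_, ?_, ?_, ?_⟩
  · exact ⟨0, h0S, by show f (σ 0) = f a; rw [hσ0]⟩
  · rintro y ⟨e, he, rfl⟩
    have h1 : v ((f ∘ σ) e) = e := hv e he
    refine ⟨?_, ?_⟩
    · show σ (v ((f ∘ σ) e)) ∈ Ω
      rw [h1]
      exact (hSO he).2
    · show f (σ (v ((f ∘ σ) e))) = _
      rw [h1]
      rfl
  · have h1 : v ((f ∘ σ) 0) = 0 := hv 0 h0S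
    have h2 : (f ∘ σ) 0 = f a := by show f (σ 0) = f a; rw [hσ0]
    rw [h2] at h1
    show σ (v (f a)) = a
    rw [h1, hσ0]
  · have h2 : (f ∘ σ) 0 = f a := by show f (σ 0) = f a; rw [hσ0]
    have h1 : v ((f ∘ σ) 0) = 0 := hv 0 h0S
    have h3 := hvs 0 h0S
    rw [h2] at h1 h3
    refine ContMDiffAt.comp (f a) ?_ h3
    rw [h1]
    exact hσs.contMDiffAt (hO1.mem_nhds h0O.1)

end submersion

section tube

variable {E : Type*} [NormedAddCommGroup E] [NormedSpace ℝ E] [FiniteDimensional ℝ E]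
  {M : Type*} [TopologicalSpace M] [ChartedSpace E M] [IsManifold 𝓘(ℝ, E) ∞ M]
  {G : Type*} [NormedAddCommGroup G] [NormedSpace ℝ G] [FiniteDimensional ℝ G]
  {P : Type*} [TopologicalSpace P] [ChartedSpace G P] [IsManifold 𝓘(ℝ, G) ∞ P]
  [MulAction Circle P]
  {w : Bil E M} {S : Set M} {r : ℝ} {β : OneForm G P} {Φ : P × ℂ → M}

lemma isOpen_disc (r : ℝ) : IsOpen {a : P × ℂ | ‖a.2‖ < r} :=
  isOpen_lt (continuous_norm.comp continuous_snd) continuous_const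

lemma dtube_sub (Φ : P × ℂ → M) (a : P × ℂ) (u v : G × ℂ) :
    dtube E Φ a (u - v) = dtube E Φ a u - dtube E Φ a v :=
  map_sub (mfderiv (𝓘(ℝ, G).prod 𝓘(ℝ, ℂ)) 𝓘(ℝ, E) Φ a) u v

lemma dtube_add (Φ : P × ℂ → M) (a : P × ℂ) (u v : G × ℂ) :
    dtube E Φ a (u + v) = dtube E Φ a u + dtube E Φ a v :=
  map_add (mfderiv (𝓘(ℝ, G).prod 𝓘(ℝ, ℂ)) 𝓘(ℝ, E) Φ a) u v

lemma dtube_smul (Φ : P × ℂ → M) (a : P × ℂ) (c : ℝ) (u : G × ℂ) :
    dtube E Φ a (c • u) = c • dtube E Φ a u :=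
  map_smul (mfderiv (𝓘(ℝ, G).prod 𝓘(ℝ, ℂ)) 𝓘(ℝ, E) Φ a) c u

lemma dtube_zero (Φ : P × ℂ → M) (a : P × ℂ) :
    dtube E Φ a (0 : G × ℂ) = 0 :=
  map_zero (mfderiv (𝓘(ℝ, G).prod 𝓘(ℝ, ℂ)) 𝓘(ℝ, E) Φ a)

/-- The tangent vector of the circle orbits is in the kernel of a map which is constant on them. -/
lemma dtube_gen (hβ : IsConnection β) {Ω : Set (P × ℂ)} (hΩ : IsOpen Ω)
    (hs : ContMDiffOn (𝓘(ℝ, G).prod 𝓘(ℝ, ℂ)) 𝓘(ℝ, E) ∞ Φ Ω) {a : P × ℂ} (ha : a ∈ Ω)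
    (hc : ∀ t : Circle, Φ (t • a.1, (t⁻¹ : Circle) * a.2) = Φ a) :
    dtube E Φ a (gen (G := G) a.1, - (Complex.I * a.2)) = 0 := by
  set c : ℝ → P × ℂ := fun θ => (Circle.exp θ • a.1, ((Circle.exp θ)⁻¹ : Circle) * a.2) with hcd
  have hc0 : c 0 = a := by
    simp [hcd]
  have h1 : MDifferentiableAt 𝓘(ℝ, ℝ) 𝓘(ℝ, G) (fun θ : ℝ => Circle.exp θ • a.1) 0 := by
    have h2 : ContMDiffAt 𝓘(ℝ, ℝ) 𝓘(ℝ, G) ∞ (fun θ : ℝ => Circle.exp θ • a.1) 0 :=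
      (hβ.smooth_action (0, a.1)).comp (0 : ℝ)
        (contMDiffAt_id.prodMk (contMDiffAt_const (c := a.1)))
    exact h2.mdifferentiableAt (by simp)
  have h2 : HasDerivAt (fun θ : ℝ => (((Circle.exp θ)⁻¹ : Circle) : ℂ) * a.2)
      (- (Complex.I * a.2)) 0 := by
    have h3 : HasDerivAt (fun θ : ℝ => Complex.exp (- (θ * Complex.I))) (- Complex.I) 0 := by
      have h4 : HasDerivAt (fun θ : ℝ => - ((θ : ℂ) * Complex.I)) (- Complex.I) 0 := by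
        have := ((Complex.ofRealCLM.hasDerivAt (x := (0:ℝ))).mul_const Complex.I).fun_neg
        simpa using this
      simpa using h4.cexp
    have h5 := h3.mul_const a.2
    have h6 : (fun θ : ℝ => (((Circle.exp θ)⁻¹ : Circle) : ℂ) * a.2) =
        fun θ : ℝ => Complex.exp (- (θ * Complex.I)) * a.2 := by
      funext θ
      rw [Circle.coe_inv, Circle.coe_exp, ← Complex.exp_neg]
    rw [h6]
    simpa using h5
  have h3 : HasMFDerivAt 𝓘(ℝ, ℝ) 𝓘(ℝ, ℂ)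
      (fun θ : ℝ => (((Circle.exp θ)⁻¹ : Circle) : ℂ) * a.2) 0
      (ContinuousLinearMap.toSpanSingleton ℝ (- (Complex.I * a.2))) := h2.hasFDerivAt.hasMFDerivAt
  have h4 := h1.hasMFDerivAt.prodMk h3
  have hcm : mfderiv 𝓘(ℝ, ℝ) (𝓘(ℝ, G).prod 𝓘(ℝ, ℂ)) c 0 (1 : ℝ) =
      ((gen (G := G) a.1, - (Complex.I * a.2)) : G × ℂ) := by
    have h5 := h4.mfderiv
    rw [show c = fun θ : ℝ => (Circle.exp θ • a.1, (((Circle.exp θ)⁻¹ : Circle) : ℂ) * a.2) from rfl,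
      h5]
    refine Prod.ext rfl ?_
    show (1 : ℝ) • (- (Complex.I * a.2)) = _
    rw [one_smul]
  have hΦ : MDifferentiableAt (𝓘(ℝ, G).prod 𝓘(ℝ, ℂ)) 𝓘(ℝ, E) Φ (c 0) := by
    rw [hc0]
    exact (hs.contMDiffAt (hΩ.mem_nhds ha)).mdifferentiableAt (by simp)
  have h6 : mfderiv 𝓘(ℝ, ℝ) 𝓘(ℝ, E) (Φ ∘ c) 0 =
      (mfderiv (𝓘(ℝ, G).prod 𝓘(ℝ, ℂ)) 𝓘(ℝ, E) Φ (c 0)).comp
        (mfderiv 𝓘(ℝ, ℝ) (𝓘(ℝ, G).prod 𝓘(ℝ, ℂ)) c 0) :=
    mfderiv_comp 0 hΦ h4.mdifferentiableAt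
  have h7 : Φ ∘ c = fun _ => Φ a := by
    funext θ
    exact hc (Circle.exp θ)
  have h8 : (mfderiv 𝓘(ℝ, ℝ) 𝓘(ℝ, E) (Φ ∘ c) 0 (1 : ℝ) : E) = 0 := by
    rw [h7, mfderiv_const]
    rfl
  have h9 := DFunLike.congr_fun h6 (1 : ℝ)
  have h10 : (mfderiv (𝓘(ℝ, G).prod 𝓘(ℝ, ℂ)) 𝓘(ℝ, E) Φ (c 0) : G × ℂ →L[ℝ] E)
      (mfderiv 𝓘(ℝ, ℝ) (𝓘(ℝ, G).prod 𝓘(ℝ, ℂ)) c 0 (1 : ℝ) : G × ℂ) = 0 :=
    (show _ = (_ : E) from h9).symm.trans h8
  rw [hcm, hc0] at h10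
  exact h10

lemma IsTube.const_orbit (h : IsTube w S r β Φ) {a : P × ℂ} (ha : ‖a.2‖ < r) (t : Circle) :
    Φ (t • a.1, (t⁻¹ : Circle) * a.2) = Φ a := by
  have h1 : ‖((t⁻¹ : Circle) : ℂ) * a.2‖ < r := by
    rw [norm_mul, Circle.norm_coe, one_mul]
    exact ha
  refine ((h.eq_iff a (t • a.1, (t⁻¹ : Circle) * a.2) ha h1).2 ⟨t, rfl, ?_⟩).symm
  show a.2 = (t : ℂ) * (((t⁻¹ : Circle) : ℂ) * a.2)
  rw [← mul_assoc, ← Circle.coe_mul, mul_inv_cancel, Circle.coe_one, one_mul]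

lemma IsTube.dtube_gen (h : IsTube w S r β Φ) (hβ : IsConnection β) {a : P × ℂ} (ha : ‖a.2‖ < r) :
    dtube E Φ a (gen (G := G) a.1, - (Complex.I * a.2)) = 0 :=
  Run7.h115.dtube_gen hβ (isOpen_disc r) h.smooth ha (h.const_orbit ha)

/-- The kernel of the derivative of a tube is spanned by the tangent vector of the orbits. -/
lemma IsTube.exists_smul_gen (h : IsTube w S r β Φ) (hβ : IsConnection β) {a : P × ℂ}
    (ha : ‖a.2‖ < r) {u : G × ℂ} (hu : dtube E Φ a u = 0) :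
    ∃ s : ℝ, s • ((gen (G := G) a.1, - (Complex.I * a.2)) : G × ℂ) = u := by
  set A : G × ℂ →L[ℝ] E := mfderiv (𝓘(ℝ, G).prod 𝓘(ℝ, ℂ)) 𝓘(ℝ, E) Φ a with hA
  set k : G × ℂ := (gen (G := G) a.1, - (Complex.I * a.2)) with hk
  have hAk : A k = 0 := h.dtube_gen hβ ha
  have hk0 : k ≠ 0 := by
    intro h0
    have h1 : gen (G := G) a.1 = 0 := congrArg Prod.fst h0
    have h2 := hβ.apply_gen a.1
    rw [h1] at h2
    have h3 : β a.1 (0 : G) = 0 := map_zero _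
    rw [h3] at h2
    exact zero_ne_one h2
  have hsurj : LinearMap.range (A : G × ℂ →ₗ[ℝ] E) = ⊤ :=
    LinearMap.range_eq_top.2 (h.submersion a ha)
  have h1 := LinearMap.finrank_range_add_finrank_ker (A : G × ℂ →ₗ[ℝ] E)
  rw [hsurj, finrank_top, Module.finrank_prod, Complex.finrank_real_complex] at h1
  have h2 : Module.finrank ℝ (LinearMap.ker (A : G × ℂ →ₗ[ℝ] E)) = 1 := by
    have := h.dim
    omega
  have hkm : k ∈ LinearMap.ker (A : G × ℂ →ₗ[ℝ] E) := hAk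
  have h3 := (finrank_eq_one_iff_of_nonzero' (⟨k, hkm⟩ : LinearMap.ker (A : G × ℂ →ₗ[ℝ] E)) (by
    intro h0
    exact hk0 (congrArg Subtype.val h0))).1 h2
  obtain ⟨s, hs⟩ := h3 ⟨u, hu⟩
  exact ⟨s, congrArg Subtype.val hs⟩

end tube

end Run7.h115
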