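import Pool.Agent.Run7.h115.Push
import Pool.Agent.Run7.h115.Cut2

/-! Symplectic manifolds, the local model of the symplectic blowup, and blowups of a symplectic
manifold at finitely many points. -/

set_option autoImplicit false
set_option linter.unusedSectionVars false
set_option maxSynthPendingDepth 3

open scoped ContDiff Topology Manifold
open Set Metric Function

noncomputable section

namespace Run7.h115

section real

variable {E : Type*} [NormedAddCommGroup E] [NormedSpace ℝ E]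
  {M : Type*} [TopologicalSpace M] [ChartedSpace E M]

/-- The expression of a field of bilinear forms in the preferred chart at `x₀`. -/
def chartBil (w : Bil E M) (x₀ : M) (y : E) : E →L[ℝ] E →L[ℝ] ℝ :=
  ContinuousLinearMap.bilinearComp
    (show E →L[ℝ] E →L[ℝ] ℝ from w ((extChartAt 𝓘(ℝ, E) x₀).symm y))
    (show E →L[ℝ] E from mfderiv 𝓘(ℝ, E) 𝓘(ℝ, E) (extChartAt 𝓘(ℝ, E) x₀).symm y)
    (show E →L[ℝ] E from mfderiv 𝓘(ℝ, E) 𝓘(ℝ, E) (extChartAt 𝓘(ℝ, E) x₀).symm y)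

/-- A symplectic form on `M`: a smooth closed nondegenerate two-form. Smoothness and closedness
are expressed in the charts of the atlas. -/
structure IsSymplectic (w : Bil E M) : Prop where
  alt : ∀ x v, w x v v = 0
  nondeg : ∀ x v, (∀ u, w x v u = 0) → v = 0
  smooth : ∀ x₀, ContDiffOn ℝ ∞ (chartBil w x₀) (extChartAt 𝓘(ℝ, E) x₀).target
  closed : ∀ x₀, ∀ y ∈ (extChartAt 𝓘(ℝ, E) x₀).target, ∀ u v t,
    fderiv ℝ (chartBil w x₀) y u v t + fderiv ℝ (chartBil w x₀) y v t u +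
      fderiv ℝ (chartBil w x₀) y t u v = 0

/-- `(M, w)` and `(N, w')` are symplectomorphic. -/
def Symplectomorphic {N : Type*} [TopologicalSpace N] [ChartedSpace E N]
    (w : Bil E M) (w' : Bil E N) : Prop :=
  ∃ F : M ≃ N, ContMDiff 𝓘(ℝ, E) 𝓘(ℝ, E) ∞ F ∧ ContMDiff 𝓘(ℝ, E) 𝓘(ℝ, E) ∞ F.symm ∧
    ∀ x u v, w' (F x) (mfderiv 𝓘(ℝ, E) 𝓘(ℝ, E) F x u) (mfderiv 𝓘(ℝ, E) 𝓘(ℝ, E) F x v) = w x u v

end real

variable {E : Type*} [NormedAddCommGroup E] [InnerProductSpace ℂ E]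

/-- The standard symplectic form of a complex inner product space (of `ℂⁿ = ℝ²ⁿ`). -/
def stdForm (u v : E) : ℝ := (inner ℂ u v).im

/-- The component of `u` orthogonal to the complex line through `z`. -/
def perp (z u : E) : E := u - (inner ℂ z u / (‖z‖ : ℂ) ^ 2) • z

/-- The local model of the blowup. A pair `(z, w)` with `z ≠ 0` stands for the point `w z` of the
complex line through `z`; the pairs `(z, w)` and `(t z, t⁻¹ w)` are the same point of the
tautological line bundle over the projective space. This is the form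
`π^* ω₀ + ε² ω_FS`, where `ω_FS` is the Fubini-Study form for which lines have area `π`,
pulled back to the space of pairs. -/
def blowupForm (ε : ℝ) (a u v : E × ℂ) : ℝ :=
  stdForm (a.2 • u.1 + u.2 • a.1) (a.2 • v.1 + v.2 • a.1) +
    ε ^ 2 / ‖a.1‖ ^ 2 * stdForm (perp a.1 u.1) (perp a.1 v.1)

/-- The domain, in the space of pairs, lying over the blown up ball of radius `r`. -/
def modelDomain (E : Type*) [NormedAddCommGroup E] [InnerProductSpace ℂ E] (ε r : ℝ) :
    Set (E × ℂ) :=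
  {a | a.1 ≠ 0 ∧ ‖a.2 • a.1‖ ^ 2 + ε ^ 2 < r ^ 2}

/-- The point of `ℂⁿ` outside the closed ball of radius `ε` which corresponds to the pair `a`
with `a.2 ≠ 0`. -/
def modelPoint (ε : ℝ) (a : E × ℂ) : E :=
  ((Real.sqrt (‖a.2 • a.1‖ ^ 2 + ε ^ 2) / ‖a.2 • a.1‖ : ℝ) : ℂ) • (a.2 • a.1)

variable {M : Type*} [TopologicalSpace M] [ChartedSpace E M]
  {N : Type*} [TopologicalSpace N] [ChartedSpace E N]

/-- `(N, wN)` is the `ε`-blowup of `(M, wM)` along the set of points `S` given by the Darboux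
balls `φ p`, for `p ∈ S`, of radius `r > ε`. The maps `φ p`, `J` and `K p` are only used on the
ball of radius `r`, on the complement of the closed balls of radius `ε`, and on the model domain,
respectively. The manifold `N` is obtained by gluing the complement of the images of the closed
balls of radius `ε` and, for each `p ∈ S`, the part of the tautological line bundle over the ball
of radius `r`. -/
structure IsBlowup (wM : Bil E M) (S : Set M) (ε : ℝ) (wN : Bil E N) (r : ℝ) (φ : M → E → M)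
    (J : M → N) (K : M → E × ℂ → N) : Prop where
  /-- the Darboux balls are bigger than the removed balls -/
  lt : ε < r
  /-- the Darboux balls are smooth -/
  φ_smooth : ∀ p ∈ S, ContMDiffOn 𝓘(ℝ, E) 𝓘(ℝ, E) ∞ (φ p) (ball 0 r)
  /-- the Darboux balls are embedded and disjoint -/
  φ_inj : ∀ p ∈ S, ∀ q ∈ S, ∀ x ∈ ball (0 : E) r, ∀ y ∈ ball (0 : E) r,
    φ p x = φ q y → p = q ∧ x = y
  /-- the Darboux ball `φ p` is centred at `p` -/
  φ_center : ∀ p ∈ S, φ p 0 = p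
  /-- the Darboux balls are symplectic -/
  φ_symp : ∀ p ∈ S, ∀ x ∈ ball (0 : E) r, ∀ u v : E,
    wM (φ p x) (mfderiv 𝓘(ℝ, E) 𝓘(ℝ, E) (φ p) x u) (mfderiv 𝓘(ℝ, E) 𝓘(ℝ, E) (φ p) x v) =
      stdForm u v
  /-- `J` is smooth on the complement of the closed balls -/
  J_smooth : ContMDiffOn 𝓘(ℝ, E) 𝓘(ℝ, E) ∞ J {x | ∀ p ∈ S, x ∉ φ p '' closedBall 0 ε}
  /-- `J` is injective there -/
  J_inj : InjOn J {x | ∀ p ∈ S, x ∉ φ p '' closedBall 0 ε}
  /-- `J` is symplectic there -/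
  J_symp : ∀ x, (∀ p ∈ S, x ∉ φ p '' closedBall 0 ε) → ∀ u v,
    wN (J x) (mfderiv 𝓘(ℝ, E) 𝓘(ℝ, E) J x u) (mfderiv 𝓘(ℝ, E) 𝓘(ℝ, E) J x v) = wM x u v
  /-- `K p` is smooth on the space of pairs over the ball of radius `r` -/
  K_smooth : ∀ p ∈ S, ContMDiffOn 𝓘(ℝ, E × ℂ) 𝓘(ℝ, E) ∞ (K p) (modelDomain E ε r)
  /-- `K p a` and `K q b` agree exactly when `p = q` and `a`, `b` are the same point of the
  tautological line bundle -/
  K_eq : ∀ p ∈ S, ∀ q ∈ S, ∀ a ∈ modelDomain E ε r, ∀ b ∈ modelDomain E ε r,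
    (K p a = K q b ↔ p = q ∧ ∃ t : ℂ, t ≠ 0 ∧ b = (t • a.1, t⁻¹ * a.2))
  /-- `K p` pulls the form of the blowup back to the model form -/
  K_symp : ∀ p ∈ S, ∀ a ∈ modelDomain E ε r, ∀ u v : E × ℂ,
    wN (K p a) (mfderiv 𝓘(ℝ, E × ℂ) 𝓘(ℝ, E) (K p) a u) (mfderiv 𝓘(ℝ, E × ℂ) 𝓘(ℝ, E) (K p) a v) =
      blowupForm ε a u v
  /-- the gluing rule -/
  glue : ∀ p ∈ S, ∀ a ∈ modelDomain E ε r, ∀ x, (∀ p ∈ S, x ∉ φ p '' closedBall 0 ε) →
    (J x = K p a ↔ a.2 ≠ 0 ∧ x = φ p (modelPoint ε a))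
  /-- the two kinds of pieces cover the blowup -/
  cover : ∀ y : N, (∃ x, (∀ p ∈ S, x ∉ φ p '' closedBall 0 ε) ∧ J x = y) ∨
    ∃ p ∈ S, ∃ a ∈ modelDomain E ε r, K p a = y

end Run7.h115
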