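import Pool.Agent.Run7.h115.Lin
import Pool.Agent.Run7.h115.Count

/-! Two Darboux balls with the same centre agree, near the centre, up to a symplectic
diffeomorphism with small support. -/

set_option autoImplicit false
set_option linter.unusedSectionVars false
set_option maxSynthPendingDepth 3

open scoped ContDiff Topology Manifold
open Set Metric Function

noncomputable section

namespace Run7.h115

section vec

variable {E : Type*} [NormedAddCommGroup E] [NormedSpace ℝ E] [FiniteDimensional ℝ E]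

lemma IsSymp.injective {σ : E →L[ℝ] E →L[ℝ] ℝ} (hσ : IsSympForm σ) {A : E →L[ℝ] E}
    (hA : IsSymp σ A) : Injective A := by
  rw [injective_iff_map_eq_zero]
  intro v hv
  apply hσ.nd
  intro w
  rw [← hA v w, hv, map_zero]
  rfl

/-- inverse of a linear symplectic map -/
lemma IsSymp.exists_inv {σ : E →L[ℝ] E →L[ℝ] ℝ} (hσ : IsSympForm σ) {A : E →L[ℝ] E}
    (hA : IsSymp σ A) : ∃ B : E →L[ℝ] E, IsSymp σ B ∧ (∀ x, A (B x) = x) ∧ ∀ x, B (A x) = x := by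
  let e := equivOfInj A (hA.injective hσ)
  refine ⟨(e.symm : E →L[ℝ] E), fun u v => ?_, fun x => ?_, fun x => ?_⟩
  · have h1 : ∀ x, A (e.symm x) = x := fun x => e.apply_symm_apply x
    have h2 := hA (e.symm u) (e.symm v)
    rw [h1, h1] at h2
    exact h2.symm
  · exact e.apply_symm_apply x
  · exact e.symm_apply_apply x

/-- a germ of symplectic map fixing the origin agrees near the origin with a symplectic
diffeomorphism of small support -/
theorem exists_germ_ext {σ : E →L[ℝ] E →L[ℝ] ℝ} (hσ : IsSympForm σ) {g : E → E} {r₀ : ℝ}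
    (hr₀ : 0 < r₀) (hg : ContDiffOn ℝ ∞ g (ball 0 r₀))
    (hsymp : ∀ x ∈ ball (0 : E) r₀, IsSymp σ (fderiv ℝ g x)) (hg0 : g 0 = 0) {δ : ℝ} (hδ : 0 < δ) :
    ∃ T : ℝ, 0 < T ∧ ∀ t, 0 < t → t < T → ∃ H : E ≃ E, CS σ H ∧
      (∀ x ∈ closedBall (0 : E) t, H x = g x) ∧ ∀ x, x ∉ closedBall (0 : E) δ → H x = x := by
  have h0m : (0 : E) ∈ ball (0 : E) r₀ := mem_ball_self hr₀
  have hgat : ∀ x ∈ ball (0 : E) r₀, ContDiffAt ℝ ∞ g x := fun x hx =>
    hg.contDiffAt (isOpen_ball.mem_nhds hx)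
  set A := fderiv ℝ g 0 with hA
  have hAs : IsSymp σ A := hsymp 0 h0m
  obtain ⟨B, hB, hAB, hBA⟩ := hAs.exists_inv hσ
  -- remove the linear part
  set h : E → E := fun x => B (g x) with hh
  have hhat : ∀ x ∈ ball (0 : E) r₀, ContDiffAt ℝ ∞ h x := fun x hx =>
    B.contDiff.contDiffAt.comp x (hgat x hx)
  have hhd : ∀ x ∈ ball (0 : E) r₀, fderiv ℝ h x = B.comp (fderiv ℝ g x) := fun x hx =>
    (B.hasFDerivAt.comp x ((hgat x hx).differentiableAt (by simp)).hasFDerivAt).fderiv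
  have hhs : ∀ x ∈ ball (0 : E) r₀, IsSymp σ (fderiv ℝ h x) := fun x hx => by
    rw [hhd x hx]
    exact hB.comp (hsymp x hx)
  have hh0 : h 0 = 0 := by simp only [hh, hg0, map_zero]
  have hhd0 : fderiv ℝ h 0 = ContinuousLinearMap.id ℝ E := by
    rw [hhd 0 h0m]
    ext x
    exact hBA x
  obtain ⟨η, hη, key⟩ := cutoff_ext hσ (r := 1) (R := 2) one_pos one_lt_two
  have hcont : ContinuousAt (fderiv ℝ h) 0 :=
    ((hhat 0 h0m).fderiv_right (m := ∞) (by simp)).continuousAt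
  obtain ⟨t₁, ht₁, hnear⟩ : ∃ t₁ > 0, ∀ x ∈ ball (0 : E) t₁,
      ‖fderiv ℝ h x - ContinuousLinearMap.id ℝ E‖ ≤ η / 2 := by
    have h1 : ∀ᶠ x in 𝓝 (0 : E), fderiv ℝ h x ∈ closedBall (fderiv ℝ h 0) (η / 2) :=
      hcont.eventually (closedBall_mem_nhds _ (by positivity))
    obtain ⟨t₁, ht₁, h2⟩ := Metric.mem_nhds_iff.1 h1
    refine ⟨t₁, ht₁, fun x hx => ?_⟩
    have h3 := h2 hx
    have h4 : fderiv ℝ h x ∈ closedBall (fderiv ℝ h 0) (η / 2) := h3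
    rw [mem_closedBall, dist_eq_norm, hhd0] at h4
    exact h4
  obtain ⟨HA, hHA, hHAA⟩ := (hasCS_of_symp hσ hAs).at_radius (t := 1 + η) (by positivity)
  obtain ⟨RA, hRA⟩ := hHA.supp
  set C : ℝ := max 2 RA with hC
  have hC2 : 2 ≤ C := le_max_left _ _
  refine ⟨min (min t₁ r₀ / 2) (δ / C), by positivity, fun t ht htT => ?_⟩
  have htt₁ : 2 * t < t₁ := by
    have h1 : t < min t₁ r₀ / 2 := htT.trans_le (min_le_left _ _)
    have h2 : min t₁ r₀ ≤ t₁ := min_le_left _ _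
    linarith
  have htr₀ : 2 * t < r₀ := by
    have h1 : t < min t₁ r₀ / 2 := htT.trans_le (min_le_left _ _)
    have h2 : min t₁ r₀ ≤ r₀ := min_le_right _ _
    linarith
  have htC : t * C < δ := by
    have h1 : t < δ / C := htT.trans_le (min_le_right _ _)
    rwa [lt_div_iff₀ (by positivity)] at h1
  -- the rescaled map
  have hsc : ∀ x ∈ ball (0 : E) 2, t • x ∈ ball (0 : E) t₁ ∧ t • x ∈ ball (0 : E) r₀ := by
    intro x hx
    rw [mem_ball_zero_iff] at hx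
    rw [mem_ball_zero_iff, mem_ball_zero_iff, norm_smul, Real.norm_eq_abs, abs_of_pos ht]
    constructor <;> nlinarith
  set ht' : E → E := fun x => t⁻¹ • h (t • x) with hht'
  have hd' : ∀ x ∈ ball (0 : E) 2, fderiv ℝ ht' x = fderiv ℝ h (t • x) := by
    intro x hx
    have h1 := fderiv_scale (t := t⁻¹) (inv_ne_zero ht.ne') (f := h) (x := x) (by
      rw [inv_inv]
      exact (hhat _ (hsc x hx).2).differentiableAt (by simp))
    simp only [inv_inv] at h1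
    exact h1
  have hs' : ContDiffOn ℝ ∞ ht' (ball 0 2) := by
    intro x hx
    apply ContDiffAt.contDiffWithinAt
    have h1 : ContDiffAt ℝ ∞ (fun x : E => t • x) x := contDiffAt_const.smul contDiffAt_id
    exact contDiffAt_const.smul ((hhat _ (hsc x hx).2).comp x h1)
  have hn' : ∀ x ∈ ball (0 : E) 2, ‖fderiv ℝ ht' x - ContinuousLinearMap.id ℝ E‖ ≤ η / 2 := by
    intro x hx
    rw [hd' x hx]
    exact hnear _ (hsc x hx).1
  have hdisp : ∀ x ∈ ball (0 : E) 2, ‖ht' x - x‖ ≤ η / 2 * ‖x‖ := by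
    intro x hx
    have h1 := (convex_ball (0 : E) 2).norm_image_sub_le_of_norm_hasFDerivWithin_le
      (f := fun x => ht' x - x) (f' := fun x => fderiv ℝ ht' x - ContinuousLinearMap.id ℝ E)
      (fun y hy => ((((hs'.contDiffAt (isOpen_ball.mem_nhds hy)).differentiableAt
        (by simp)).hasFDerivAt).sub (hasFDerivAt_id y)).hasFDerivWithinAt) hn'
      (mem_ball_self (by norm_num : (0 : ℝ) < 2)) hx
    have h2 : ht' 0 = 0 := by simp only [hht', smul_zero, hh0]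
    simpa [h2] using h1
  obtain ⟨H₁, h1, h2, h3, h4, R', hR', h5⟩ := key ht' hs'
    (fun x hx => by rw [hd' x hx]; exact hhs _ (hsc x hx).2)
    (fun x hx => (hdisp x hx).trans (by rw [mem_ball_zero_iff] at hx; nlinarith))
    (fun x hx => (hn' x hx).trans (by linarith))
  have hH₁ : CS σ H₁ := ⟨h1, h2, h3, R', fun x hx => h5 x (fun h => hx (ball_subset_closedBall h))⟩
  have hcomp : CS σ (H₁.trans HA) := hH₁.trans hHA
  refine ⟨scaleEquiv t ht.ne' (H₁.trans HA), hcomp.scale ht, fun x hx => ?_, fun x hx => ?_⟩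
  · rw [mem_closedBall_zero_iff] at hx
    have hx1 : t⁻¹ • x ∈ closedBall (0 : E) 1 := by
      rw [mem_closedBall_zero_iff, norm_smul, norm_inv, Real.norm_eq_abs, abs_of_pos ht,
        inv_mul_le_iff₀ ht, mul_one]
      exact hx
    have hx2 : t⁻¹ • x ∈ ball (0 : E) 2 := closedBall_subset_ball one_lt_two hx1
    rw [scaleEquiv_apply]
    have e1 : (H₁.trans HA) (t⁻¹ • x) = HA (H₁ (t⁻¹ • x)) := rfl
    have e2 : ht' (t⁻¹ • x) ∈ closedBall (0 : E) (1 + η) := by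
      rw [mem_closedBall_zero_iff]
      have h6 := hdisp _ hx2
      rw [mem_closedBall_zero_iff] at hx1
      have h7 : ‖ht' (t⁻¹ • x)‖ ≤ ‖ht' (t⁻¹ • x) - t⁻¹ • x‖ + ‖t⁻¹ • x‖ := by
        have := norm_add_le (ht' (t⁻¹ • x) - t⁻¹ • x) (t⁻¹ • x)
        simpa using this
      nlinarith
    rw [e1, h4 _ hx1, hHAA _ e2]
    simp only [hht', smul_smul, mul_inv_cancel₀ ht.ne', one_smul, map_smul, hh, hAB]
  · rw [scaleEquiv_apply]
    have h6 : C < ‖t⁻¹ • x‖ := by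
      rw [mem_closedBall_zero_iff, not_le] at hx
      rw [norm_smul, norm_inv, Real.norm_eq_abs, abs_of_pos ht, lt_inv_mul_iff₀ ht]
      linarith
    have h7 : H₁ (t⁻¹ • x) = t⁻¹ • x := by
      apply h5
      rw [mem_ball_zero_iff, not_lt]
      linarith
    have h8 : HA (t⁻¹ • x) = t⁻¹ • x := by
      apply hRA
      rw [mem_closedBall_zero_iff, not_le]
      exact (le_max_right _ _).trans_lt h6
    have e1 : (H₁.trans HA) (t⁻¹ • x) = HA (H₁ (t⁻¹ • x)) := rfl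
    rw [e1, h7, h8, smul_smul, mul_inv_cancel₀ ht.ne', one_smul]

end vec

variable {E : Type*} [NormedAddCommGroup E] [InnerProductSpace ℂ E] [FiniteDimensional ℂ E]
  {M : Type*} [TopologicalSpace M] [ChartedSpace E M] [IsManifold 𝓘(ℝ, E) ∞ M]

/-- comparison of two balls: if `φ₂` maps a small ball into the image of `φ₁`, then `φ₂ = φ₁ ∘ g`
with `g` symplectic. -/
lemma exists_compare {wM : Bil E M} {S : Set M} {r₁ r₂ : ℝ} {φ₁ φ₂ : M → E → M}
    (h₁ : Balls wM S r₁ φ₁) (h₂ : Balls wM S r₂ φ₂) {p : M} (hp : p ∈ S) {ρ : ℝ} (hρ : ρ ≤ r₂)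
    (hmaps : ∀ x ∈ ball (0 : E) ρ, φ₂ p x ∈ φ₁ p '' ball 0 r₁) :
    ∃ g : E → E, ContDiffOn ℝ ∞ g (ball 0 ρ) ∧
      (∀ x ∈ ball (0 : E) ρ, IsSymp (stdL E) (fderiv ℝ g x)) ∧
      ∀ x ∈ ball (0 : E) ρ, g x ∈ ball (0 : E) r₁ ∧ φ₁ p (g x) = φ₂ p x := by
  obtain ⟨hVo, ψ, hψ, hψφ⟩ := exists_inverse isOpen_ball (h₁.smooth p hp)
    (fun x hx y hy hxy => (h₁.inj p hp p hp x hx y hy hxy).2)
    (fun x hx => (h₁.pullsBack hp).injective one_ne_zero stdBil_nd hx)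
  have hsub : ball (0 : E) ρ ⊆ ball 0 r₂ := ball_subset_ball hρ
  have hd2 : ∀ x ∈ ball (0 : E) ρ, ContMDiffAt 𝓘(ℝ, E) 𝓘(ℝ, E) ∞ (φ₂ p) x :=
    fun x hx => (h₂.smooth p hp).contMDiffAt (isOpen_ball.mem_nhds (hsub hx))
  have hdψ : ∀ x ∈ ball (0 : E) ρ, ContMDiffAt 𝓘(ℝ, E) 𝓘(ℝ, E) ∞ ψ (φ₂ p x) :=
    fun x hxR => hψ.contMDiffAt (hVo.mem_nhds (hmaps x hxR))
  have hgφ : ∀ x ∈ ball (0 : E) ρ, ψ (φ₂ p x) ∈ ball (0 : E) r₁ ∧ φ₁ p (ψ (φ₂ p x)) = φ₂ p x := by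
    intro x hxR
    obtain ⟨y, hy, hyx⟩ := hmaps x hxR
    rw [← hyx, hψφ y hy]
    exact ⟨hy, rfl⟩
  set g : E → E := fun x => ψ (φ₂ p x) with hg
  have hgs : ContDiffOn ℝ ∞ g (ball 0 ρ) := by
    intro x hxR
    apply ContDiffAt.contDiffWithinAt
    rw [← contMDiffAt_iff_contDiffAt]
    exact (hdψ x hxR).comp x (hd2 x hxR)
  refine ⟨g, hgs, ?_, hgφ⟩
  intro x hxR u v
  obtain ⟨h3, h4⟩ := hgφ x hxR
  have h5 := h₁.symp p hp (g x) h3 (fderiv ℝ g x u) (fderiv ℝ g x v)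
  have h6 := h₂.symp p hp x (hsub hxR) u v
  rw [stdL_apply, stdL_apply, ← h5, ← h6]
  have hgd : MDifferentiableAt 𝓘(ℝ, E) 𝓘(ℝ, E) g x :=
    (hgs.contDiffAt (isOpen_ball.mem_nhds hxR)).contMDiffAt.mdifferentiableAt (by simp)
  have hd1 : MDifferentiableAt 𝓘(ℝ, E) 𝓘(ℝ, E) (φ₁ p) (g x) :=
    ((h₁.smooth p hp).contMDiffAt (isOpen_ball.mem_nhds h3)).mdifferentiableAt (by simp)
  have e1 : mfderiv 𝓘(ℝ, E) 𝓘(ℝ, E) (φ₁ p ∘ g) x =
      (mfderiv 𝓘(ℝ, E) 𝓘(ℝ, E) (φ₁ p) (g x)).comp (mfderiv 𝓘(ℝ, E) 𝓘(ℝ, E) g x) :=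
    mfderiv_comp x hd1 hgd
  have e2 : (φ₁ p ∘ g) =ᶠ[𝓝 x] φ₂ p := by
    filter_upwards [isOpen_ball.mem_nhds hxR] with y hy
    exact (hgφ y hy).2
  have e3 := e2.mfderiv_eq (I := 𝓘(ℝ, E)) (I' := 𝓘(ℝ, E))
  have e5 : ∀ b : E, (mfderiv 𝓘(ℝ, E) 𝓘(ℝ, E) (φ₁ p) (g x) (fderiv ℝ g x b) : E) =
      (mfderiv 𝓘(ℝ, E) 𝓘(ℝ, E) (φ₂ p) x b : E) := by
    intro b
    have h7 := DFunLike.congr_fun e1 b
    have h8 := DFunLike.congr_fun e3 b
    rw [mfderiv_eq_fderiv] at h7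
    exact h7.symm.trans h8
  refine (bil_congr wM h4 _ _).trans ?_
  exact congrArg₂ (fun a' b' : E => (wM (φ₂ p x) : E →L[ℝ] E →L[ℝ] ℝ) a' b') (e5 u) (e5 v)

lemma CS.isAut {H : E ≃ E} (h : CS (stdL E) H) : IsAut (stdBil E) H :=
  isAut_std h.smooth h.smooth_symm h.symp

/-- **The germ lemma**: two families of balls with the same centres are related near the centres,
by a symplectic diffeomorphism supported in the first balls. -/
theorem exists_related_germ [T2Space M] {wM : Bil E M} {S : Set M} (hS : S.Finite) {r₁ r₂ : ℝ}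
    {φ₁ φ₂ : M → E → M} (h₁ : Balls wM S r₁ φ₁) (h₂ : Balls wM S r₂ φ₂)
    (hr₂ : 0 < r₂) (hc : ∀ p ∈ S, φ₁ p 0 = φ₂ p 0) {R : ℝ} (hR : 0 < R) (hRr : R < r₁) :
    ∃ (T : ℝ), 0 < T ∧ ∀ t, 0 < t → t < T → ∃ Γ : M ≃ M, IsAut wM Γ ∧
      (∀ p ∈ S, ∀ x ∈ closedBall (0 : E) t, Γ (φ₁ p x) = φ₂ p x) ∧
      ∀ y, (∀ p ∈ S, y ∉ φ₁ p '' closedBall 0 R) → Γ y = y := by
  have h0 : (0 : E) ∈ ball (0 : E) r₁ := mem_ball_self (hR.trans hRr)
  -- one ball at a time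
  have hone : ∀ p ∈ S, ∃ T : ℝ, 0 < T ∧ ∀ t, 0 < t → t < T → ∃ H : E ≃ E, CS (stdL E) H ∧
      (∀ x ∈ closedBall (0 : E) t, φ₁ p (H x) = φ₂ p x) ∧
      ∀ x, x ∉ closedBall (0 : E) R → H x = x := by
    intro p hp
    have hVo : IsOpen (φ₁ p '' ball 0 r₁) := (exists_inverse isOpen_ball (h₁.smooth p hp)
      (fun x hx y hy hxy => (h₁.inj p hp p hp x hx y hy hxy).2)
      (fun x hx => (h₁.pullsBack hp).injective one_ne_zero stdBil_nd hx)).1
    have hcont : ContinuousAt (φ₂ p) 0 :=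
      ((h₂.smooth p hp).continuousOn).continuousAt (isOpen_ball.mem_nhds (mem_ball_self hr₂))
    have h3 : ∀ᶠ x in 𝓝 (0 : E), φ₂ p x ∈ φ₁ p '' ball 0 r₁ :=
      hcont.eventually (hVo.mem_nhds (by rw [← hc p hp]; exact mem_image_of_mem _ h0))
    obtain ⟨ρ', hρ', h4⟩ := Metric.mem_nhds_iff.1 h3
    set ρ := min ρ' r₂ with hρ
    have hρ0 : 0 < ρ := lt_min hρ' hr₂
    obtain ⟨g, hg1, hg2, hg3⟩ := exists_compare h₁ h₂ hp (ρ := ρ) (min_le_right _ _)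
      (fun x hx => h4 (ball_subset_ball (min_le_left _ _) hx))
    have hg0 : g 0 = 0 := by
      have h5 := hg3 0 (mem_ball_self hρ0)
      rw [← hc p hp] at h5
      exact (h₁.inj p hp p hp _ h5.1 _ h0 h5.2).2
    obtain ⟨T, hT, hTt⟩ := exists_germ_ext (isSympForm_stdL (E := E)) hρ0 hg1 hg2 hg0 hR
    refine ⟨min T ρ, lt_min hT hρ0, fun t ht htT => ?_⟩
    obtain ⟨H, hH1, hH2, hH3⟩ := hTt t ht (htT.trans_le (min_le_left _ _))
    refine ⟨H, hH1, fun x hx => ?_, hH3⟩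
    rw [hH2 x hx]
    exact (hg3 x (closedBall_subset_ball (htT.trans_le (min_le_right _ _)) hx)).2
  -- uniform size
  obtain ⟨T, hT, hTt⟩ : ∃ T : ℝ, 0 < T ∧ ∀ p ∈ S, ∀ t, 0 < t → t < T → ∃ H : E ≃ E,
      CS (stdL E) H ∧ (∀ x ∈ closedBall (0 : E) t, φ₁ p (H x) = φ₂ p x) ∧
      ∀ x, x ∉ closedBall (0 : E) R → H x = x := by
    have h5 : ∀ p : M, ∃ T : ℝ, 0 < T ∧ (p ∈ S → ∀ t, 0 < t → t < T → ∃ H : E ≃ E,
        CS (stdL E) H ∧ (∀ x ∈ closedBall (0 : E) t, φ₁ p (H x) = φ₂ p x) ∧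
        ∀ x, x ∉ closedBall (0 : E) R → H x = x) := by
      intro p
      by_cases hp : p ∈ S
      · obtain ⟨T, hT, h⟩ := hone p hp
        exact ⟨T, hT, fun _ => h⟩
      · exact ⟨1, one_pos, fun h => absurd h hp⟩
    choose T hT0 hT using h5
    have h6 : ∀ S' : Set M, S'.Finite → ∃ T' : ℝ, 0 < T' ∧ ∀ p ∈ S', T' ≤ T p := by
      intro S' hS'
      induction S', hS' using Set.Finite.induction_on with
      | empty => exact ⟨1, one_pos, fun p hp => absurd hp (notMem_empty p)⟩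
      | @insert q S' hq hS' ih =>
        obtain ⟨T', hT', h⟩ := ih
        refine ⟨min T' (T q), lt_min hT' (hT0 q), fun p hp => ?_⟩
        rcases hp with rfl | hp
        · exact min_le_right _ _
        · exact (min_le_left _ _).trans (h p hp)
    obtain ⟨T', hT', h⟩ := h6 S hS
    exact ⟨T', hT', fun p hp t ht htT => hT p hp t ht (htT.trans_le (h p hp))⟩
  refine ⟨min T r₁, lt_min hT (hR.trans hRr), fun t ht htT' => ?_⟩
  have htT : t < T := htT'.trans_le (min_le_left _ _)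
  have htr : t < r₁ := htT'.trans_le (min_le_right _ _)
  have h7 : ∀ p : M, ∃ H : E ≃ E, p ∈ S → (CS (stdL E) H ∧
      (∀ x ∈ closedBall (0 : E) t, φ₁ p (H x) = φ₂ p x) ∧
      ∀ x, x ∉ closedBall (0 : E) R → H x = x) := by
    intro p
    by_cases hp : p ∈ S
    · obtain ⟨H, h⟩ := hTt p hp t ht htT
      exact ⟨H, fun _ => h⟩
    · exact ⟨Equiv.refl E, fun h => absurd h hp⟩
  choose H hH using h7
  obtain ⟨G, hG1, hG2, hG3⟩ := exists_push_balls hS h₁ (H := H) (R := fun _ => R)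
    (fun p hp => (hH p hp).1.isAut) (fun p hp => hRr) (fun p hp => (hH p hp).2.2)
  refine ⟨G, hG1, fun p hp x hx => ?_, hG3⟩
  rw [hG2 p hp x (closedBall_subset_ball htr hx), (hH p hp).2.1 x hx]

end Run7.h115
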