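import Pool.Agent.Run7.h115.Glue
import Pool.Agent.Run7.h115.Germ

/-! A linear symplectic map can be joined to a unitary map inside the symplectic group without
increasing its norm. -/

set_option autoImplicit false
set_option linter.unusedSectionVars false
set_option maxSynthPendingDepth 3

open scoped ContDiff Topology
open Set Metric Function

noncomputable section

namespace Run7.h115

variable {E : Type*} [NormedAddCommGroup E] [InnerProductSpace ℂ E] [FiniteDimensional ℂ E]

local instance realInner : InnerProductSpace ℝ E := InnerProductSpace.rclikeToReal ℂ E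

lemma real_inner_def (u v : E) : (inner ℝ u v : ℝ) = (inner ℂ u v).re := rfl

lemma stdForm_eq_inner (u v : E) : stdForm u v = inner ℝ (Complex.I • u) v := by
  rw [real_inner_def, inner_smul_left]
  simp [stdForm]

lemma inner_I_I (u v : E) : (inner ℝ (Complex.I • u) (Complex.I • v) : ℝ) = inner ℝ u v := by
  rw [real_inner_def, real_inner_def, inner_smul_left, inner_smul_right]
  simp

/-- the path from a linear symplectic map `A` to a unitary map -/
theorem exists_polar_path {A : E →L[ℝ] E} (hA : IsSymp (stdL E) A) {K : ℝ} (hK : 1 ≤ K)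
    (hAK : ∀ x, ‖A x‖ ≤ K * ‖x‖) :
    ∃ (P : ℝ → (E →L[ℝ] E)) (U : E ≃ₗᵢ[ℂ] E), Continuous P ∧ P 1 = A ∧ (∀ x, P 0 x = U x) ∧
      ∀ s ∈ Icc (0 : ℝ) 1, IsSymp (stdL E) (P s) ∧ ∀ x, ‖P s x‖ ≤ K * ‖x‖ := by
  have hσ := isSympForm_stdL (E := E)
  obtain ⟨A', hA', hAA', hA'A⟩ := hA.exists_inv hσ
  -- the real linear multiplication by `i`
  let J : E →L[ℝ] E := ((Complex.I : ℂ) • ContinuousLinearMap.id ℂ E).restrictScalars ℝ
  have hJ : ∀ v, J v = Complex.I • v := fun v => rfl
  have hJJ : ∀ v, J (J v) = -v := fun v => by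
    rw [hJ, hJ, smul_smul, Complex.I_mul_I, neg_one_smul]
  have hform : ∀ u v : E, stdForm u v = inner ℝ (J u) v := stdForm_eq_inner
  have hAi : ∀ u v, (inner ℝ (J (A u)) (A v) : ℝ) = inner ℝ (J u) v := by
    intro u v
    rw [← hform, ← hform]
    exact hA u v
  -- the adjoint
  let T : E →L[ℝ] E := -(J.comp (A'.comp J))
  have hT : ∀ u, T u = -J (A' (J u)) := fun u => rfl
  have hJskew : ∀ u v : E, (inner ℝ (J u) v : ℝ) = - inner ℝ u (J v) := by
    intro u v
    rw [← hform, ← real_inner_comm, ← hform]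
    exact hσ.skew u v
  have hadj : ∀ u v, (inner ℝ (T u) v : ℝ) = inner ℝ u (A v) := by
    intro u v
    rw [hT, inner_neg_left, ← hAi, hAA', hJJ, inner_neg_left, neg_neg]
  -- the positive symmetric map
  let B : E →L[ℝ] E := T.comp A
  have hB : ∀ u v, (inner ℝ (B u) v : ℝ) = inner ℝ (A u) (A v) := fun u v => hadj (A u) v
  have hBsym : (B : E →ₗ[ℝ] E).IsSymmetric := by
    intro u v
    show (inner ℝ (B u) v : ℝ) = inner ℝ u (B v)
    rw [hB, ← real_inner_comm u (B v), hB, real_inner_comm]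
  have hBJ : ∀ u, B (J (B u)) = J u := by
    intro u
    have e1 : ∀ v, A v = A v := fun v => rfl
    show T (A (J (T (A u)))) = J u
    rw [hT (A u)]
    have e2 : J (-J (A' (J (A u)))) = A' (J (A u)) := by rw [map_neg, hJJ, neg_neg]
    rw [e2, hAA', hT, hJJ, map_neg, hA'A, map_neg, neg_neg]
  set n := Module.finrank ℝ E with hn
  let b := hBsym.eigenvectorBasis hn.symm
  let lam : Fin n → ℝ := hBsym.eigenvalues hn.symm
  have hb : ∀ i, B (b i) = lam i • b i := fun i => hBsym.apply_eigenvectorBasis hn.symm i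
  have hlam : ∀ i, lam i = ‖A (b i)‖ ^ 2 := by
    intro i
    have h1 : (inner ℝ (B (b i)) (b i) : ℝ) = lam i := by
      rw [hb, inner_smul_left, real_inner_self_eq_norm_sq, b.orthonormal.1 i]
      simp
    rw [← h1, hB, real_inner_self_eq_norm_sq]
  have hAinj : Injective A := hA.injective hσ
  have hlampos : ∀ i, 0 < lam i := by
    intro i
    rw [hlam]
    have h1 : A (b i) ≠ 0 := by
      intro h
      have h2 : b i = 0 := hAinj (by rw [h, map_zero])
      exact (b.orthonormal.ne_zero i) h2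
    positivity
  have hlamK : ∀ i, lam i ≤ K ^ 2 := by
    intro i
    rw [hlam]
    have h1 := hAK (b i)
    rw [b.orthonormal.1 i, mul_one] at h1
    exact pow_le_pow_left₀ (norm_nonneg _) h1 2
  -- eigenvectors
  have heig : ∀ (μ : ℝ) (v : E), B v = μ • v → ∀ i, (inner ℝ (b i) v : ℝ) ≠ 0 → lam i = μ := by
    intro μ v hv i hi
    have h1 : (inner ℝ (B (b i)) v : ℝ) = inner ℝ (b i) (B v) := hBsym (b i) v
    rw [hb, hv, inner_smul_left, inner_smul_right] at h1
    exact mul_right_cancel₀ hi (by simpa using h1)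
  -- the powers
  let Q : ℝ → (E →L[ℝ] E) := fun s => ∑ i, (lam i ^ s) • (innerSL ℝ (b i)).smulRight (b i)
  have hQ : ∀ s v, Q s v = ∑ i, (lam i ^ s * inner ℝ (b i) v) • b i := by
    intro s v
    simp only [Q, sum_apply, smul_apply, ContinuousLinearMap.smulRight_apply,
      innerSL_apply_apply, smul_smul]
  have hQeig : ∀ (s μ : ℝ) (v : E), B v = μ • v → Q s v = μ ^ s • v := by
    intro s μ v hv
    rw [hQ]
    have h1 : ∀ i, (lam i ^ s * inner ℝ (b i) v) • b i = μ ^ s • ((inner ℝ (b i) v : ℝ) • b i) := by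
      intro i
      by_cases hi : (inner ℝ (b i) v : ℝ) = 0
      · rw [hi]; simp
      · rw [heig μ v hv i hi, smul_smul]
    rw [Finset.sum_congr rfl (fun i _ => h1 i), ← Finset.smul_sum]
    congr 1
    exact b.sum_repr' v
  have hQb : ∀ s i, Q s (b i) = lam i ^ s • b i := fun s i => hQeig s (lam i) (b i) (hb i)
  have hcoef : ∀ s v i, (inner ℝ (b i) (Q s v) : ℝ) = lam i ^ s * inner ℝ (b i) v := by
    intro s v i
    rw [hQ, inner_sum]
    simp only [inner_smul_right]
    rw [Finset.sum_eq_single i]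
    · rw [real_inner_self_eq_norm_sq, b.orthonormal.1 i]; ring
    · intro j _ hj
      rw [b.orthonormal.2 hj.symm]; ring
    · intro h; exact absurd (Finset.mem_univ i) h
  have hQsym : ∀ s u v, (inner ℝ (Q s u) v : ℝ) = inner ℝ u (Q s v) := by
    intro s u v
    rw [← b.sum_inner_mul_inner (Q s u) v, ← b.sum_inner_mul_inner u (Q s v)]
    refine Finset.sum_congr rfl fun i _ => ?_
    rw [hcoef, real_inner_comm (b i) (Q s u), hcoef, real_inner_comm (b i) u]
    ring
  -- `J b_i` is an eigenvector for the inverse eigenvalue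
  have hJb : ∀ i, B (J (b i)) = (lam i)⁻¹ • J (b i) := by
    intro i
    have h1 := hBJ (b i)
    rw [hb, map_smul, map_smul] at h1
    rw [← h1, smul_smul, inv_mul_cancel₀ (hlampos i).ne', one_smul]
    rw [h1]
  have hQJQ : ∀ s v, Q s (J (Q s v)) = J v := by
    intro s
    have h1 : ((Q s).comp (J.comp (Q s)) : E →L[ℝ] E) = J := by
      apply ContinuousLinearMap.coe_injective
      apply b.toBasis.ext
      intro i
      show Q s (J (Q s (b.toBasis i))) = J (b.toBasis i)
      rw [OrthonormalBasis.coe_toBasis, hQb, map_smul, map_smul, hQeig s _ _ (hJb i), smul_smul,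
        Real.inv_rpow (hlampos i).le, mul_inv_cancel₀ (Real.rpow_pos_of_pos (hlampos i) s).ne',
        one_smul]
    intro v
    exact DFunLike.congr_fun h1 v
  have hQsymp : ∀ s, IsSymp (stdL E) (Q s) := by
    intro s u v
    show stdForm (Q s u) (Q s v) = stdForm u v
    rw [hform, ← hQsym, hQJQ, ← hform]
  have hQ0 : ∀ v, Q 0 v = v := by
    intro v
    rw [hQ]
    simp only [Real.rpow_zero, one_mul]
    exact b.sum_repr' v
  -- the path
  let P : ℝ → (E →L[ℝ] E) := fun s => A.comp (Q (-(1 - s) / 2))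
  have hPnorm : ∀ s v, ‖P s v‖ ^ 2 = ∑ i, lam i ^ s * (inner ℝ (b i) v : ℝ) ^ 2 := by
    intro s v
    have h1 : ‖P s v‖ ^ 2 = inner ℝ (B (Q (-(1 - s) / 2) v)) (Q (-(1 - s) / 2) v) := by
      rw [hB, real_inner_self_eq_norm_sq]
      rfl
    rw [h1, ← b.sum_inner_mul_inner]
    refine Finset.sum_congr rfl fun i _ => ?_
    have h2 : (inner ℝ (B (Q (-(1 - s) / 2) v)) (b i) : ℝ) =
        lam i * inner ℝ (b i) (Q (-(1 - s) / 2) v) := by
      have h3 : (inner ℝ (B (Q (-(1 - s) / 2) v)) (b i) : ℝ) =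
        inner ℝ (Q (-(1 - s) / 2) v) (B (b i)) := hBsym _ _
      rw [h3, hb, inner_smul_right, real_inner_comm]
    rw [h2, hcoef]
    have h4 : lam i ^ s = lam i * (lam i ^ (-(1 - s) / 2) * lam i ^ (-(1 - s) / 2)) := by
      rw [← Real.rpow_add (hlampos i)]
      nth_rewrite 2 [← Real.rpow_one (lam i)]
      rw [← Real.rpow_add (hlampos i)]
      congr 1
      ring
    rw [h4]
    ring
  have hparseval : ∀ v, ‖v‖ ^ 2 = ∑ i, (inner ℝ (b i) v : ℝ) ^ 2 := by
    intro v
    rw [← real_inner_self_eq_norm_sq, ← b.sum_inner_mul_inner]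
    refine Finset.sum_congr rfl fun i _ => ?_
    rw [real_inner_comm (b i) v, sq]
  have hP0 : ∀ v, ‖P 0 v‖ = ‖v‖ := by
    intro v
    have h1 : ‖P 0 v‖ ^ 2 = ‖v‖ ^ 2 := by
      rw [hPnorm, hparseval]
      simp
    exact (pow_left_inj₀ (norm_nonneg _) (norm_nonneg _) two_ne_zero).1 h1
  have hPsymp : ∀ s, IsSymp (stdL E) (P s) := fun s => hA.comp (hQsymp _)
  -- the unitary part
  have hP0inner : ∀ u v, (inner ℝ (P 0 u) (P 0 v) : ℝ) = inner ℝ u v := by
    intro u v
    have h1 := hP0 (u + v)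
    have h2 := norm_add_sq_real u v
    have h3 := norm_add_sq_real (P 0 u) (P 0 v)
    rw [← map_add, h1, hP0, hP0, h2] at h3
    linarith
  have hP0inj : Injective (P 0) := (hPsymp 0).injective hσ
  have hP0surj : Surjective (P 0) :=
    LinearMap.surjective_of_injective (f := (P 0 : E →ₗ[ℝ] E)) hP0inj
  have hP0J : ∀ v, P 0 (J v) = J (P 0 v) := by
    intro v
    have h1 : ∀ w, (inner ℝ (P 0 (J v) - J (P 0 v)) w : ℝ) = 0 := by
      intro w
      obtain ⟨w', rfl⟩ := hP0surj w
      rw [inner_sub_left, hP0inner, ← hform, ← hform]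
      have h2 := hPsymp 0 v w'
      rw [stdL_apply, stdL_apply] at h2
      rw [h2, sub_self]
    have h3 := h1 (P 0 (J v) - J (P 0 v))
    rw [inner_self_eq_zero] at h3
    exact sub_eq_zero.1 h3
  have hP0smul : ∀ (c : ℂ) v, P 0 (c • v) = c • P 0 v := by
    intro c v
    have h1 : ∀ w : E, c • w = c.re • w + c.im • J w := by
      intro w
      rw [hJ]
      nth_rewrite 1 [← Complex.re_add_im c]
      rw [add_smul, mul_smul, Complex.coe_smul, Complex.coe_smul]
    rw [h1 v, map_add, map_smul, map_smul, hP0J, h1 (P 0 v)]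
  let U₀ : E ≃ₗ[ℂ] E := LinearEquiv.ofBijective
    ({ toFun := P 0, map_add' := map_add (P 0), map_smul' := hP0smul } : E →ₗ[ℂ] E)
    ⟨hP0inj, hP0surj⟩
  let U : E ≃ₗᵢ[ℂ] E := ⟨U₀, hP0⟩
  refine ⟨P, U, ?_, ?_, fun x => rfl, fun s hs => ⟨hPsymp s, fun x => ?_⟩⟩
  · have h1 : Continuous Q := by
      show Continuous fun s => ∑ i, (lam i ^ s) • (innerSL ℝ (b i)).smulRight (b i)
      apply continuous_finsetSum
      intro i _
      exact (Real.continuous_const_rpow (hlampos i).ne').smul continuous_const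
    have h2 : Continuous (fun s : ℝ => Q (-(1 - s) / 2)) := h1.comp (by fun_prop)
    exact continuous_const.clm_comp h2
  · ext v
    show A (Q (-(1 - 1) / 2) v) = A v
    have h3 : (-(1 - 1) / 2 : ℝ) = 0 := by norm_num
    rw [h3, hQ0]
  · have h1 : ‖P s x‖ ^ 2 ≤ (K * ‖x‖) ^ 2 := by
      rw [hPnorm, mul_pow, hparseval, Finset.mul_sum]
      refine Finset.sum_le_sum fun i _ => mul_le_mul_of_nonneg_right ?_ (sq_nonneg _)
      rcases le_total 1 (lam i) with h2 | h2
      · calc lam i ^ s ≤ lam i ^ (1 : ℝ) := Real.rpow_le_rpow_of_exponent_le h2 hs.2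
          _ = lam i := Real.rpow_one _
          _ ≤ K ^ 2 := hlamK i
      · calc lam i ^ s ≤ 1 := Real.rpow_le_one (hlampos i).le h2 hs.1
          _ ≤ K ^ 2 := by nlinarith
    exact (pow_le_pow_iff_left₀ (norm_nonneg _) (by positivity) two_ne_zero).1 h1

end Run7.h115
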