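import Pool.Agent.Run7.h115.Chart
import Pool.Agent.Run7.h115.Polar

/-! Darboux balls of bounded dilatation are related to a fixed Darboux ball, up to a unitary
change of coordinates. -/

set_option autoImplicit false
set_option linter.unusedSectionVars false
set_option maxSynthPendingDepth 3

open scoped ContDiff Topology Manifold
open Set Metric Function

noncomputable section

namespace Run7.h115

variable {E : Type*} [NormedAddCommGroup E] [InnerProductSpace ℂ E] [FiniteDimensional ℂ E]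
  {M : Type*} [TopologicalSpace M] [ChartedSpace E M] [IsManifold 𝓘(ℝ, E) ∞ M]

/-- the contraction of a map to its linear part -/
def contr (g : E → E) (s : ℝ) (x : E) : E :=
  fderiv ℝ g 0 x + s⁻¹ • (g (s • x) - fderiv ℝ g 0 (s • x))

lemma contr_zero (g : E → E) (x : E) : contr g 0 x = fderiv ℝ g 0 x := by
  simp [contr]

lemma contr_of_ne (g : E → E) {s : ℝ} (hs : s ≠ 0) (x : E) : contr g s x = s⁻¹ • g (s • x) := by
  unfold contr
  rw [smul_sub, map_smul, smul_smul, inv_mul_cancel₀ hs, one_smul]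
  abel

lemma contr_one (g : E → E) (x : E) : contr g 1 x = g x := by
  rw [contr_of_ne g one_ne_zero, inv_one, one_smul, one_smul]

section

variable {g : E → E} {R r₁ : ℝ}

lemma smul_mem_ball' {s : ℝ} (hs : s ∈ Icc (0 : ℝ) 1) {x : E} (hx : x ∈ ball (0 : E) R) :
    s • x ∈ ball (0 : E) R := by
  rw [mem_ball_zero_iff] at hx ⊢
  rw [norm_smul, Real.norm_eq_abs, abs_of_nonneg hs.1]
  have h1 := norm_nonneg x
  nlinarith [hs.2]

lemma fderiv_contr (hg : ContDiffOn ℝ ∞ g (ball 0 R)) {s : ℝ} (hs : s ∈ Icc (0 : ℝ) 1) {x : E}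
    (hx : x ∈ ball (0 : E) R) : fderiv ℝ (contr g s) x = fderiv ℝ g (s • x) := by
  rcases eq_or_ne s 0 with rfl | hs0
  · have h1 : contr g 0 = fun x => fderiv ℝ g 0 x := funext (contr_zero g)
    rw [h1, zero_smul]
    exact (fderiv ℝ g 0).fderiv
  · have h1 : contr g s = fun x => s⁻¹ • g (s • x) := funext (contr_of_ne g hs0)
    have h2 : DifferentiableAt ℝ g (s⁻¹⁻¹ • x) := by
      rw [inv_inv]
      exact (hg.contDiffAt (isOpen_ball.mem_nhds (smul_mem_ball' hs hx))).differentiableAt (by simp)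
    have h3 := fderiv_scale (t := s⁻¹) (inv_ne_zero hs0) h2
    simp only [inv_inv] at h3
    rw [h1]
    exact h3

lemma smooth_contr (hg : ContDiffOn ℝ ∞ g (ball 0 R)) {s : ℝ} (hs : s ∈ Icc (0 : ℝ) 1) :
    ContDiffOn ℝ ∞ (contr g s) (ball 0 R) := by
  rcases eq_or_ne s 0 with rfl | hs0
  · have h1 : contr g 0 = fun x => fderiv ℝ g 0 x := funext (contr_zero g)
    rw [h1]
    exact (fderiv ℝ g 0).contDiff.contDiffOn
  · have h1 : contr g s = fun x => s⁻¹ • g (s • x) := funext (contr_of_ne g hs0)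
    rw [h1]
    intro x hx
    apply ContDiffAt.contDiffWithinAt
    have h2 : ContDiffAt ℝ ∞ (fun x : E => s • x) x := contDiffAt_const.smul contDiffAt_id
    exact contDiffAt_const.smul
      ((hg.contDiffAt (isOpen_ball.mem_nhds (smul_mem_ball' hs hx))).comp x h2)

lemma continuousOn_contr (hR : 0 < R) (hg : ContDiffOn ℝ ∞ g (ball 0 R)) (hg0 : g 0 = 0) :
    ContinuousOn (fun z : ℝ × E => contr g z.1 z.2) (Icc (0 : ℝ) 1 ×ˢ ball (0 : E) R) := by
  rintro ⟨s, x⟩ ⟨hs, hx⟩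
  rcases eq_or_ne s 0 with rfl | hs0
  · -- continuity at time zero
    have hd : HasFDerivAt g (fderiv ℝ g 0) 0 :=
      ((hg.contDiffAt (isOpen_ball.mem_nhds (mem_ball_self hR))).differentiableAt
        (by simp)).hasFDerivAt
    have h1 : Filter.Tendsto (fun z : ℝ × E => z.1⁻¹ • (g (z.1 • z.2) - fderiv ℝ g 0 (z.1 • z.2)))
        (𝓝 ((0 : ℝ), x)) (𝓝 0) := by
      rw [Metric.tendsto_nhds]
      intro η hη
      have h2 := hd.isLittleO
      rw [Asymptotics.isLittleO_iff] at h2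
      have h3 := h2 (c := η / (2 * (‖x‖ + 1))) (by positivity)
      have h4 : Filter.Tendsto (fun z : ℝ × E => z.1 • z.2) (𝓝 ((0 : ℝ), x)) (𝓝 0) := by
        have h5 : Continuous (fun z : ℝ × E => z.1 • z.2) := by fun_prop
        have h6 := h5.tendsto ((0 : ℝ), x)
        simpa using h6
      have h7 : ∀ᶠ z : ℝ × E in 𝓝 ((0 : ℝ), x), ‖z.2‖ < ‖x‖ + 1 := by
        have h8 : Continuous (fun z : ℝ × E => ‖z.2‖) := by fun_prop
        exact h8.continuousAt.eventually (Iio_mem_nhds (by simp))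
      filter_upwards [h4.eventually h3, h7] with z hz hz2
      rw [dist_zero_right]
      rcases eq_or_ne z.1 0 with h9 | h9
      · rw [h9, inv_zero, zero_smul, norm_zero]
        exact hη
      · rw [hg0, sub_zero, sub_zero] at hz
        rw [norm_smul, norm_inv]
        have h10 : 0 < ‖z.1‖ := norm_pos_iff.2 h9
        rw [norm_smul] at hz
        calc ‖z.1‖⁻¹ * ‖g (z.1 • z.2) - fderiv ℝ g 0 (z.1 • z.2)‖
            ≤ ‖z.1‖⁻¹ * (η / (2 * (‖x‖ + 1)) * (‖z.1‖ * ‖z.2‖)) :=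
              mul_le_mul_of_nonneg_left hz (by positivity)
          _ = η / (2 * (‖x‖ + 1)) * ‖z.2‖ := by field_simp
          _ ≤ η / (2 * (‖x‖ + 1)) * (‖x‖ + 1) :=
              mul_le_mul_of_nonneg_left hz2.le (by positivity)
          _ = η / 2 := by field_simp
          _ < η := by linarith
    have h2 : Filter.Tendsto (fun z : ℝ × E => fderiv ℝ g 0 z.2) (𝓝 ((0 : ℝ), x))
        (𝓝 (fderiv ℝ g 0 x)) :=
      ((fderiv ℝ g 0).continuous.comp continuous_snd).tendsto _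
    have h3 := h2.add h1
    rw [add_zero] at h3
    have h4 : ContinuousAt (fun z : ℝ × E => contr g z.1 z.2) ((0 : ℝ), x) := by
      unfold ContinuousAt
      have h5 : contr g 0 x = fderiv ℝ g 0 x := contr_zero g x
      show Filter.Tendsto _ _ (𝓝 (contr g 0 x))
      rw [h5]
      exact h3
    exact h4.continuousWithinAt
  · apply ContinuousAt.continuousWithinAt
    have h1 : ContinuousAt (fun z : ℝ × E => z.1⁻¹ • g (z.1 • z.2)) (s, x) := by
      have h2 : ContinuousAt g (s • x) :=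
        (hg.contDiffAt (isOpen_ball.mem_nhds (smul_mem_ball' hs hx))).continuousAt
      have h3 : ContinuousAt (fun z : ℝ × E => z.1 • z.2) (s, x) := by fun_prop
      have h4 : ContinuousAt (fun z : ℝ × E => g (z.1 • z.2)) (s, x) :=
        ContinuousAt.comp (f := fun z : ℝ × E => z.1 • z.2) h2 h3
      have h5 : ContinuousAt (fun z : ℝ × E => z.1⁻¹) (s, x) :=
        continuousAt_fst.inv₀ hs0
      exact h5.smul h4
    refine h1.congr ?_
    have h6 : ∀ᶠ z : ℝ × E in 𝓝 (s, x), z.1 ≠ 0 := continuousAt_fst.eventually_ne hs0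
    filter_upwards [h6] with z hz
    exact (contr_of_ne g hz z.2).symm

lemma continuousOn_fderiv_contr (hg : ContDiffOn ℝ ∞ g (ball 0 R)) :
    ContinuousOn (fun z : ℝ × E => fderiv ℝ (contr g z.1) z.2)
      (Icc (0 : ℝ) 1 ×ˢ ball (0 : E) R) := by
  have h1 : ContinuousOn (fderiv ℝ g) (ball 0 R) :=
    hg.continuousOn_fderiv_of_isOpen isOpen_ball (by simp)
  have h2 : ContinuousOn (fun z : ℝ × E => fderiv ℝ g (z.1 • z.2))
      (Icc (0 : ℝ) 1 ×ˢ ball (0 : E) R) :=
    h1.comp (by fun_prop) (fun z hz => smul_mem_ball' hz.1 hz.2)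
  exact h2.congr fun z hz => fderiv_contr hg hz.1 hz.2

lemma linear_bound (hR : 0 < R) (hg : ContDiffOn ℝ ∞ g (ball 0 R)) (hg0 : g 0 = 0) {K : ℝ}
    (hK : ∀ x ∈ ball (0 : E) R, ‖g x‖ ≤ K * ‖x‖) (x : E) : ‖fderiv ℝ g 0 x‖ ≤ K * ‖x‖ := by
  -- limit of `contr g s x`, for `x` in the ball
  have key : ∀ x ∈ ball (0 : E) R, ‖fderiv ℝ g 0 x‖ ≤ K * ‖x‖ := by
    intro x hx
    have h1 := continuousOn_contr hR hg hg0 (0, x) ⟨⟨le_rfl, zero_le_one⟩, hx⟩
    have h2 : Filter.Tendsto (fun s : ℝ => (s, x)) (𝓝[>] 0)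
        (𝓝[Icc (0 : ℝ) 1 ×ˢ ball (0 : E) R] (0, x)) := by
      apply tendsto_nhdsWithin_of_tendsto_nhds_of_eventually_within
      · have h3 : Continuous (fun s : ℝ => (s, x)) := by fun_prop
        exact (h3.tendsto 0).mono_left nhdsWithin_le_nhds
      · filter_upwards [Ioo_mem_nhdsGT (zero_lt_one' ℝ)] with s hs
        exact ⟨⟨hs.1.le, hs.2.le⟩, hx⟩
    have h3 := (h1.tendsto.comp h2).norm
    have h4 : ∀ᶠ s : ℝ in 𝓝[>] 0, ‖contr g s x‖ ≤ K * ‖x‖ := by
      filter_upwards [Ioo_mem_nhdsGT (zero_lt_one' ℝ)] with s hs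
      rw [contr_of_ne g hs.1.ne', norm_smul, norm_inv, Real.norm_eq_abs, abs_of_pos hs.1,
        inv_mul_le_iff₀ hs.1]
      have h5 := hK (s • x) (smul_mem_ball' ⟨hs.1.le, hs.2.le⟩ hx)
      rw [norm_smul, Real.norm_eq_abs, abs_of_pos hs.1] at h5
      linarith
    have h5 : ‖contr g 0 x‖ ≤ K * ‖x‖ := le_of_tendsto h3 h4
    rwa [contr_zero] at h5
  rcases eq_or_ne x 0 with rfl | hx
  · simp
  · have hx' : 0 < ‖x‖ := norm_pos_iff.2 hx
    have h1 := key ((R / (2 * ‖x‖)) • x) (by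
      rw [mem_ball_zero_iff, norm_smul, Real.norm_eq_abs, abs_of_pos (by positivity)]
      field_simp
      linarith)
    rw [map_smul, norm_smul, norm_smul, Real.norm_eq_abs, abs_of_pos (by positivity)] at h1
    have h2 : 0 < R / (2 * ‖x‖) := by positivity
    have h3 : R / (2 * ‖x‖) * ‖fderiv ℝ g 0 x‖ ≤ R / (2 * ‖x‖) * (K * ‖x‖) := by linarith
    exact le_of_mul_le_mul_left h3 h2

/-- the contraction stays in the big ball -/
lemma inBall_contr (hR : 0 < R) (hg : InBall R r₁ g) (hg0 : g 0 = 0) {K r₀ : ℝ} (hK0 : 0 < K)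
    (hK : ∀ x ∈ ball (0 : E) R, ‖g x‖ ≤ K * ‖x‖) (hKR : K * R ≤ r₀) {s : ℝ}
    (hs : s ∈ Icc (0 : ℝ) 1) : InBall R r₀ (contr g s) := by
  refine ⟨smooth_contr hg.smooth hs, ?_, fun x hx => ?_, fun x hx => ?_⟩
  · rcases eq_or_ne s 0 with rfl | hs0
    · have h1 : contr g 0 = fun x => fderiv ℝ g 0 x := funext (contr_zero g)
      rw [h1]
      exact ((hg.symp 0 (mem_ball_self hR)).injective isSympForm_stdL).injOn
    · intro x hx y hy hxy
      rw [contr_of_ne g hs0, contr_of_ne g hs0] at hxy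
      have h1 := hg.inj (smul_mem_ball' hs hx) (smul_mem_ball' hs hy)
        (smul_right_injective E (inv_ne_zero hs0) hxy)
      exact smul_right_injective E hs0 h1
  · rw [fderiv_contr hg.smooth hs hx]
    exact hg.symp _ (smul_mem_ball' hs hx)
  · have h2 : ‖contr g s x‖ ≤ K * ‖x‖ := by
      rcases eq_or_ne s 0 with rfl | hs0
      · rw [contr_zero]
        exact linear_bound hR hg.smooth hg0 hK x
      · have hs1 : 0 < s := lt_of_le_of_ne hs.1 hs0.symm
        rw [contr_of_ne g hs0, norm_smul, norm_inv, Real.norm_eq_abs, abs_of_pos hs1,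
          inv_mul_le_iff₀ hs1]
        have h5 := hK (s • x) (smul_mem_ball' hs hx)
        rw [norm_smul, Real.norm_eq_abs, abs_of_pos hs1] at h5
        linarith
    rw [mem_ball_zero_iff] at hx ⊢
    nlinarith

/-- linear symplectic maps -/
lemma inBall_linear {A : E →L[ℝ] E} (hA : IsSymp (stdL E) A) {K r₀ : ℝ} (hK0 : 0 < K)
    (hK : ∀ x, ‖A x‖ ≤ K * ‖x‖) (hKR : K * R ≤ r₀) : InBall R r₀ A := by
  refine ⟨A.contDiff.contDiffOn, (hA.injective isSympForm_stdL).injOn, fun x hx => ?_,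
    fun x hx => ?_⟩
  · have h1 : fderiv ℝ A x = A := A.fderiv
    rw [h1]
    exact hA
  · have h1 := hK x
    rw [mem_ball_zero_iff] at hx ⊢
    nlinarith

end

/-- **A family of balls of bounded dilatation is related to the reference balls.** -/
theorem related_unitary_of_inBall [T2Space M] {wM : Bil E M} {S : Set M} (hS : S.Finite)
    {r₀ R : ℝ} (hR : 0 < R) {φ₀ : M → E → M} (h₀ : Balls wM S r₀ φ₀) {g : M → E → E} {r₁ : ℝ}
    (hg : ∀ p ∈ S, InBall R r₁ (g p)) (hg0 : ∀ p ∈ S, g p 0 = 0) {K : ℝ} (hK1 : 1 ≤ K)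
    (hK : ∀ p ∈ S, ∀ x ∈ ball (0 : E) R, ‖g p x‖ ≤ K * ‖x‖) (hKR : K * R ≤ r₀) {ρ : ℝ}
    (hρ : 0 < ρ) (hρR : ρ < R) :
    ∃ U : M → (E ≃ₗᵢ[ℂ] E),
      Related wM S (fun p x => φ₀ p (U p x)) (fun p x => φ₀ p (g p x)) ρ := by
  have hK0 : 0 < K := by linarith
  have hpol : ∀ p : M, ∃ (P : ℝ → (E →L[ℝ] E)) (U : E ≃ₗᵢ[ℂ] E), p ∈ S → (Continuous P ∧
      P 1 = fderiv ℝ (g p) 0 ∧ (∀ x, P 0 x = U x) ∧
      ∀ s ∈ Icc (0 : ℝ) 1, IsSymp (stdL E) (P s) ∧ ∀ x, ‖P s x‖ ≤ K * ‖x‖) := by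
    intro p
    by_cases hp : p ∈ S
    · obtain ⟨P, U, h⟩ := exists_polar_path ((hg p hp).symp 0 (mem_ball_self hR)) hK1
        (linear_bound hR (hg p hp).smooth (hg0 p hp) (hK p hp))
      exact ⟨P, U, fun _ => h⟩
    · exact ⟨fun _ => 0, LinearIsometryEquiv.refl ℂ E, fun h => absurd h hp⟩
  choose P U hPU using hpol
  refine ⟨U, ?_⟩
  -- the non-linear path
  have e1 : Related wM S (fun p x => φ₀ p (contr (g p) 0 x)) (fun p x => φ₀ p (contr (g p) 1 x)) ρ :=
    related_of_chart_path hS h₀ (g := fun s p => contr (g p) s)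
      (fun s hs p hp => inBall_contr hR (hg p hp) (hg0 p hp) hK0 (hK p hp) hKR hs)
      (fun p hp => continuousOn_contr hR (hg p hp).smooth (hg0 p hp))
      (fun p hp => continuousOn_fderiv_contr (hg p hp).smooth) hρ hρR
  -- the linear path
  have e2 : Related wM S (fun p x => φ₀ p (P p 0 x)) (fun p x => φ₀ p (P p 1 x)) ρ := by
    refine related_of_chart_path hS h₀ (g := fun s p => P p s)
      (fun s hs p hp => inBall_linear ((hPU p hp).2.2.2 s hs).1 hK0
        ((hPU p hp).2.2.2 s hs).2 hKR) (fun p hp => ?_) (fun p hp => ?_) hρ hρR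
    · have h1 : Continuous (fun z : ℝ × E => P p z.1 z.2) :=
        ((hPU p hp).1.comp continuous_fst).clm_apply continuous_snd
      exact h1.continuousOn
    · have h1 : Continuous (fun z : ℝ × E => P p z.1) := (hPU p hp).1.comp continuous_fst
      have h2 : (fun z : ℝ × E => fderiv ℝ (P p z.1) z.2) = fun z => P p z.1 := by
        funext z
        exact (P p z.1).fderiv
      rw [h2]
      exact h1.continuousOn
  obtain ⟨Γ₁, h11, h12⟩ := e1
  obtain ⟨Γ₂, h21, h22⟩ := e2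
  refine ⟨Γ₂.trans Γ₁, h21.trans h11, fun p hp x hx => ?_⟩
  show Γ₁ (Γ₂ (φ₀ p (U p x))) = φ₀ p (g p x)
  have h3 := h22 p hp x hx
  have h4 := h12 p hp x hx
  simp only [(hPU p hp).2.2.1, (hPU p hp).2.1] at h3
  simp only [contr_zero, contr_one] at h4
  rw [h3, h4]

end Run7.h115
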