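import Pool.Agent.Run7.h115.Conf

/-! In a conformally expandable symplectic manifold any two families of Darboux balls of the same
radius, with the same centres, are related by an ambient symplectomorphism. -/

set_option autoImplicit false
set_option linter.unusedSectionVars false
set_option maxSynthPendingDepth 3

open scoped ContDiff Topology Manifold
open Set Metric Function

noncomputable section

namespace Run7.h115

variable {E : Type*} [NormedAddCommGroup E] [InnerProductSpace ℂ E] [FiniteDimensional ℂ E]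
  {M : Type*} [TopologicalSpace M] [ChartedSpace E M] [IsManifold 𝓘(ℝ, E) ∞ M]

/-- expansion does not change the class of the balls -/
lemma related_expand [T2Space M] {wM : Bil E M} {S : Set M} (hS : S.Finite) {r R₁ : ℝ}
    {φ : M → E → M} {U : Set M} {Ψ : ℝ → M → M} {c : ℝ → ℝ} (hΨ : ConformalFamily wM U Ψ c)
    (h : Balls wM S r φ) (hR₁ : R₁ ≤ r) (hU : ∀ p ∈ S, φ p '' ball 0 R₁ ⊆ U) {ρ : ℝ} (hρ : 0 < ρ)
    (hρR : ρ < R₁) : Related wM S φ (expand φ Ψ c 1) ρ := by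
  obtain ⟨R, hR1, hR2⟩ := exists_between hρR
  have h1 := related_of_path hS hρ hR1 hR2 (Φ := expand φ Ψ c)
    (fun s hs => balls_expand hΨ h hR₁ hU hs)
    (fun p hp => continuous_expand hΨ h hR₁ hp (hU p hp) hR2)
  obtain ⟨Γ, hΓ, hΓφ⟩ := h1
  refine ⟨Γ, hΓ, fun p hp x hx => ?_⟩
  have hl : lam c 0 = 1 := by
    unfold lam
    rw [hΨ.c_zero, Real.sqrt_one, inv_one]
  have h2 : expand φ Ψ c 0 p x = φ p x := by
    unfold expand
    rw [hl, one_smul]
    exact hΨ.zero _ (hU p hp (mem_image_of_mem _ (closedBall_subset_ball hρR hx)))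
  rw [← h2]
  exact hΓφ p hp x hx

/-- **Main lemma for conformally expandable manifolds.** -/
theorem related_of_expandable [T2Space M] {wM : Bil E M} (hnd : wM.ND)
    (hexp : ConformallyExpandable wM) {S : Set M} (hS : S.Finite) {r₁ r₂ : ℝ}
    {φ₁ φ₂ : M → E → M} (h₁ : Balls wM S r₁ φ₁) (h₂ : Balls wM S r₂ φ₂)
    (hc : ∀ p ∈ S, φ₁ p 0 = φ₂ p 0) {ρ : ℝ} (hρ : 0 < ρ) (hρ₁ : ρ < r₁) (hρ₂ : ρ < r₂) :
    Related wM S φ₁ φ₂ ρ := by
  obtain ⟨R₁, hR1, hR2⟩ := exists_between (lt_min hρ₁ hρ₂)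
  have hRr₁ : R₁ < r₁ := hR2.trans_le (min_le_left _ _)
  have hRr₂ : R₁ < r₂ := hR2.trans_le (min_le_right _ _)
  have hR₁ : 0 < R₁ := hρ.trans hR1
  -- the compact sets swept by the balls
  set C₁ : Set M := ⋃ p ∈ S, φ₁ p '' closedBall 0 R₁ with hC₁
  set C₂ : Set M := ⋃ p ∈ S, φ₂ p '' closedBall 0 R₁ with hC₂
  have hC₁c : IsCompact C₁ := hS.isCompact_biUnion fun p hp =>
    (isCompact_closedBall _ _).image_of_continuousOn
      ((h₁.smooth p hp).continuousOn.mono (closedBall_subset_ball hRr₁))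
  have hC₂c : IsCompact C₂ := hS.isCompact_biUnion fun p hp =>
    (isCompact_closedBall _ _).image_of_continuousOn
      ((h₂.smooth p hp).continuousOn.mono (closedBall_subset_ball hRr₂))
  obtain ⟨T, hT, hTt⟩ := exists_related_germ hS h₁ h₂ (hρ.trans hρ₂) hc hR₁ hRr₁
  obtain ⟨U, Ψ, c, hKU, hcC, hΨ⟩ := hexp (C₁ ∪ C₂) (hC₁c.union hC₂c) ((2 * ρ / T) ^ 2)
  have hU₁ : ∀ p ∈ S, φ₁ p '' ball 0 R₁ ⊆ U := fun p hp =>
    (image_mono ball_subset_closedBall).trans
      ((subset_biUnion_of_mem (u := fun p => φ₁ p '' closedBall 0 R₁) hp).trans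
        (subset_union_left.trans hKU))
  have hU₂ : ∀ p ∈ S, φ₂ p '' ball 0 R₁ ⊆ U := fun p hp =>
    (image_mono ball_subset_closedBall).trans
      ((subset_biUnion_of_mem (u := fun p => φ₂ p '' closedBall 0 R₁) hp).trans
        (subset_union_right.trans hKU))
  have e₁ := related_expand hS hΨ h₁ hRr₁.le hU₁ hρ hR1
  have e₂ := related_expand hS hΨ h₂ hRr₂.le hU₂ hρ hR1
  have h01 : (1 : ℝ) ∈ Icc (0 : ℝ) 1 := ⟨zero_le_one, le_rfl⟩
  have hc1 := hΨ.one_le 1 h01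
  have hl := lam_pos hc1
  -- the contracted radius is small
  have hsmall : lam c 1 * ρ < T := by
    have h3 : 2 * ρ / T ≤ Real.sqrt (c 1) := Real.le_sqrt_of_sq_le hcC
    have h4 : 0 < Real.sqrt (c 1) := Real.sqrt_pos.2 (by linarith)
    unfold lam
    rw [inv_mul_lt_iff₀ h4]
    rw [div_le_iff₀ hT] at h3
    nlinarith
  obtain ⟨Γ₀, hΓ₀, hΓ₀φ, hΓ₀s⟩ := hTt (lam c 1 * ρ) (mul_pos hl hρ) hsmall
  have hΓ₀C : ∀ y, y ∉ C₁ → Γ₀ y = y := by
    intro y hy
    apply hΓ₀s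
    intro p hp h3
    exact hy (mem_biUnion hp h3)
  have hpb : PullsBack wM wM (Ψ 1) (c 1) U := fun x hx u v => hΨ.conf 1 h01 x hx u v
  obtain ⟨Γ₁, hΓ₁, hΓ₁Ψ, -⟩ := exists_push (wM := wM) (wX := wM) (ψ := Ψ 1) (c := c 1)
    (by linarith) hΨ.isOpen (contMDiffOn_slice hΨ 1) (hΨ.inj 1 h01) hpb hnd hΓ₀ hC₁c
    (subset_union_left.trans hKU) hΓ₀C
  have e₃ : Related wM S (expand φ₁ Ψ c 1) (expand φ₂ Ψ c 1) ρ := by
    refine ⟨Γ₁, hΓ₁, fun p hp x hx => ?_⟩
    have hx1 : lam c 1 • x ∈ closedBall (0 : E) (lam c 1 * ρ) := by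
      rw [mem_closedBall_zero_iff] at hx ⊢
      rw [norm_smul, Real.norm_eq_abs, abs_of_pos hl]
      exact mul_le_mul_of_nonneg_left hx hl.le
    have hx2 : φ₁ p (lam c 1 • x) ∈ U :=
      hU₁ p hp (mem_image_of_mem _ (lam_smul_mem hc1 (closedBall_subset_ball hR1 hx)))
    unfold expand
    rw [hΓ₁Ψ _ hx2, hΓ₀φ p hp _ hx1]
  exact (e₁.trans e₃).trans e₂.symm

/-! Examples. -/

section examples

variable {F : Type*} [NormedAddCommGroup F] [NormedSpace ℝ F]
  {X : Type*} [TopologicalSpace X] [ChartedSpace F X] [IsManifold 𝓘(ℝ, F) ∞ X]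

/-- A manifold with a smooth family `Ψ s`, `s ∈ ℝ`, of injective maps with `Ψ 0 = id` and
`Ψ s ^* w = exp s * w` (for instance, the flow of a complete Liouville vector field) is
conformally expandable. -/
theorem expandable_of_liouville {w : Bil F X} {Ψ : ℝ → X → X}
    (hs : ContMDiff (𝓘(ℝ, ℝ).prod 𝓘(ℝ, F)) 𝓘(ℝ, F) ∞ (fun q : ℝ × X => Ψ q.1 q.2))
    (h0 : ∀ x, Ψ 0 x = x) (hinj : ∀ s, Injective (Ψ s))
    (hconf : ∀ s x u v, w (Ψ s x) (mfderiv 𝓘(ℝ, F) 𝓘(ℝ, F) (Ψ s) x u)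
      (mfderiv 𝓘(ℝ, F) 𝓘(ℝ, F) (Ψ s) x v) = Real.exp s * w x u v) :
    ConformallyExpandable w := by
  intro K _ C
  set T : ℝ := max 0 C with hT
  refine ⟨univ, fun s => Ψ (T * s), fun s => Real.exp (T * s), subset_univ _, ?_, ?_⟩
  · have h1 : C ≤ T := le_max_right _ _
    have h2 : T + 1 ≤ Real.exp T := Real.add_one_le_exp T
    have h3 : Real.exp (T * 1) = Real.exp T := by rw [mul_one]
    show C ≤ Real.exp (T * 1)
    rw [h3]
    linarith
  · refine ⟨isOpen_univ, ?_, fun x _ => by simp [h0], by fun_prop, by simp, fun s hs => ?_,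
      fun s _ => (hinj _).injOn, fun s _ x _ u v => hconf _ x u v⟩
    · apply ContMDiff.contMDiffOn
      have h1 : ContMDiff (𝓘(ℝ, ℝ).prod 𝓘(ℝ, F)) 𝓘(ℝ, ℝ) ∞ (fun q : ℝ × X => T * q.1) :=
        contMDiff_const.mul contMDiff_fst
      exact hs.comp (h1.prodMk contMDiff_snd)
    · have h1 : 0 ≤ T := le_max_left _ _
      have h2 : 0 ≤ T * s := mul_nonneg h1 hs.1
      exact Real.one_le_exp h2

end examples

/-- The standard symplectic vector space is conformally expandable. -/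
theorem expandable_std : ConformallyExpandable (stdBil E) := by
  have hd : ∀ (s : ℝ) (x : E), HasFDerivAt (fun x : E => Real.exp (s / 2) • x)
      (Real.exp (s / 2) • ContinuousLinearMap.id ℝ E) x := fun s x =>
    (hasFDerivAt_id x).const_smul _
  refine expandable_of_liouville (Ψ := fun s x => Real.exp (s / 2) • x) ?_ (fun x => by simp)
    (fun s => smul_right_injective E (Real.exp_pos _).ne') ?_
  · have h1 : ContMDiff (𝓘(ℝ, ℝ).prod 𝓘(ℝ, E)) 𝓘(ℝ, ℝ) ∞
        (fun q : ℝ × E => Real.exp (q.1 / 2)) := by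
      have h2 : ContDiff ℝ ∞ (fun s : ℝ => Real.exp (s / 2)) := by fun_prop
      exact h2.contMDiff.comp contMDiff_fst
    exact h1.smul contMDiff_snd
  · intro s x u v
    have h1 : mfderiv 𝓘(ℝ, E) 𝓘(ℝ, E) (fun x : E => Real.exp (s / 2) • x) x =
        Real.exp (s / 2) • ContinuousLinearMap.id ℝ E := (hd s x).hasMFDerivAt.mfderiv
    rw [h1]
    have h2 : ∀ a b : E, stdForm (Real.exp (s / 2) • a) (Real.exp (s / 2) • b) =
        Real.exp s * stdForm a b := by
      intro a b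
      rw [stdForm_smul_left, stdForm_smul_right, ← mul_assoc, ← Real.exp_add]
      congr 2
      ring
    exact h2 u v

end Run7.h115
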