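import Pool.Agent.Run7.h115.Glue

/-! Two blowups whose Darboux balls are related by an ambient symplectomorphism are
symplectomorphic. -/

set_option autoImplicit false
set_option linter.unusedSectionVars false
set_option maxSynthPendingDepth 3

open scoped ContDiff Topology Manifold
open Set Metric Function

noncomputable section

namespace Run7.h115

variable {E : Type*} [NormedAddCommGroup E] [InnerProductSpace ℂ E] [FiniteDimensional ℂ E]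
  {M : Type*} [TopologicalSpace M] [ChartedSpace E M] [IsManifold 𝓘(ℝ, E) ∞ M]
  {N : Type*} [TopologicalSpace N] [ChartedSpace E N] [IsManifold 𝓘(ℝ, E) ∞ N]

lemma isOpen_modelDomain (ε r : ℝ) : IsOpen (modelDomain E ε r) := by
  have h1 : Continuous (fun a : E × ℂ => ‖a.2 • a.1‖ ^ 2 + ε ^ 2) := by fun_prop
  exact (isOpen_ne_fun continuous_fst continuous_const).inter (isOpen_lt h1 continuous_const)

/-- the affine slice -/
def sliceL (z : E) : E →L[ℂ] E × ℂ :=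
  LinearMap.toContinuousLinearMap
    { toFun := sliceDir z
      map_add' := sliceDir_add z
      map_smul' := fun c v => sliceDir_smul z c v }

lemma sliceL_apply (z v : E) : sliceL z v = sliceDir z v := rfl

/-- the map `K` has local sections, and its derivative is surjective -/
lemma exists_section {wN : Bil E N} {ε : ℝ} (hε : 0 < ε) {K : E × ℂ → N} {Ω : Set (E × ℂ)}
    (hΩ : IsOpen Ω) (hK : ContMDiffOn 𝓘(ℝ, E × ℂ) 𝓘(ℝ, E) ∞ K Ω)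
    (hKf : ∀ a ∈ Ω, ∀ u v : E × ℂ,
      wN (K a) (mfderiv 𝓘(ℝ, E × ℂ) 𝓘(ℝ, E) K a u) (mfderiv 𝓘(ℝ, E × ℂ) 𝓘(ℝ, E) K a v) =
        blowupForm ε a u v) {a : E × ℂ} (ha : a ∈ Ω) (ha1 : a.1 ≠ 0) :
    Surjective (mfderiv 𝓘(ℝ, E × ℂ) 𝓘(ℝ, E) K a) ∧
    ∃ (V : Set N) (s : N → E × ℂ), IsOpen V ∧ K a ∈ V ∧ (∀ y ∈ V, s y ∈ Ω ∧ K (s y) = y) ∧
      s (K a) = a ∧ ContMDiffAt 𝓘(ℝ, E) 𝓘(ℝ, E × ℂ) ∞ s (K a) := by
  set L : E →L[ℝ] E × ℂ := (sliceL a.1).restrictScalars ℝ with hL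
  have hLv : ∀ v, L v = sliceDir a.1 v := fun v => rfl
  set σ : E → E × ℂ := fun v => a + L v with hσ
  have hσs : ContDiff ℝ ∞ σ := contDiff_const.add L.contDiff
  have hσ0 : σ 0 = a := by simp [hσ]
  have hσd : HasFDerivAt σ L 0 := (L.hasFDerivAt (x := (0 : E))).const_add a
  have hσm : HasMFDerivAt 𝓘(ℝ, E) 𝓘(ℝ, E × ℂ) σ 0 L := hσd.hasMFDerivAt
  have hKa : MDifferentiableAt 𝓘(ℝ, E × ℂ) 𝓘(ℝ, E) K (σ 0) := by
    rw [hσ0]
    exact (hK.contMDiffAt (hΩ.mem_nhds ha)).mdifferentiableAt (by simp)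
  have hd : mfderiv 𝓘(ℝ, E) 𝓘(ℝ, E) (K ∘ σ) 0 =
      (mfderiv 𝓘(ℝ, E × ℂ) 𝓘(ℝ, E) K (σ 0)).comp (mfderiv 𝓘(ℝ, E) 𝓘(ℝ, E × ℂ) σ 0) :=
    mfderiv_comp 0 hKa hσm.mdifferentiableAt
  rw [hσm.mfderiv] at hd
  have hinj : Injective (mfderiv 𝓘(ℝ, E) 𝓘(ℝ, E) (K ∘ σ) 0) := by
    rw [injective_iff_map_eq_zero]
    intro v hv
    have h1 : mfderiv 𝓘(ℝ, E × ℂ) 𝓘(ℝ, E) K (σ 0) (L v) = 0 := by
      rw [hd] at hv
      exact hv
    rw [hσ0] at h1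
    have h2 := hKf a ha (L v) (Complex.I • L v)
    rw [h1, map_zero] at h2
    have h3 : (0 : ℝ) = blowupForm ε a (L v) (Complex.I • L v) := h2
    exact slice_pos hε ha1 h3.symm
  have hU : IsOpen (σ ⁻¹' Ω) := hΩ.preimage hσs.continuous
  have hKσ : ContMDiffOn 𝓘(ℝ, E) 𝓘(ℝ, E) ∞ (K ∘ σ) (σ ⁻¹' Ω) :=
    hK.comp hσs.contMDiff.contMDiffOn subset_rfl
  have h0 : (0 : E) ∈ σ ⁻¹' Ω := by
    show σ 0 ∈ Ω
    rw [hσ0]
    exact ha
  refine ⟨?_, ?_⟩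
  · intro y
    obtain ⟨v, hv⟩ := surjective_of_injective_tangent _ hinj y
    refine ⟨L v, ?_⟩
    rw [hd] at hv
    have h1 : ∀ b : E × ℂ, b = a →
      (mfderiv 𝓘(ℝ, E × ℂ) 𝓘(ℝ, E) K b (L v) : E) = mfderiv 𝓘(ℝ, E × ℂ) 𝓘(ℝ, E) K a (L v) := by
      rintro b rfl
      rfl
    exact (h1 _ hσ0).symm.trans hv
  · obtain ⟨S, v, hSo, h0S, hSU, hv, hSopen, hvs⟩ := local_inverse hU hKσ h0 hinj
    have hKσ0 : (K ∘ σ) 0 = K a := by
      show K (σ 0) = K a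
      rw [hσ0]
    refine ⟨(K ∘ σ) '' S, fun y => σ (v y), hSopen S subset_rfl hSo, ?_, ?_, ?_, ?_⟩
    · rw [← hKσ0]
      exact mem_image_of_mem _ h0S
    · rintro _ ⟨ζ, hζ, rfl⟩
      refine ⟨?_, ?_⟩
      · show σ (v ((K ∘ σ) ζ)) ∈ Ω
        rw [hv ζ hζ]
        exact hSU hζ
      · show K (σ (v ((K ∘ σ) ζ))) = _
        rw [hv ζ hζ]
        rfl
    · show σ (v (K a)) = a
      rw [← hKσ0, hv 0 h0S, hσ0]
    · have h1 := hvs 0 h0S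
      rw [hKσ0] at h1
      exact hσs.contMDiff.contMDiffAt.comp (K a) h1

lemma norm_modelPoint {ε r : ℝ} {a : E × ℂ} (ha : a ∈ modelDomain E ε r)
    (h2 : a.2 ≠ 0) : ‖modelPoint ε a‖ = Real.sqrt (‖a.2 • a.1‖ ^ 2 + ε ^ 2) := by
  unfold modelPoint
  have h1 : 0 < ‖a.2 • a.1‖ := norm_pos_iff.2 (smul_ne_zero h2 ha.1)
  rw [norm_smul, Complex.norm_real, Real.norm_eq_abs, abs_of_nonneg (by positivity)]
  field_simp

lemma modelPoint_lt {ε r : ℝ} (hr : 0 < r) {a : E × ℂ} (ha : a ∈ modelDomain E ε r)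
    (h2 : a.2 ≠ 0) : ‖modelPoint ε a‖ < r := by
  rw [norm_modelPoint ha h2]
  have := ha.2
  rw [Real.sqrt_lt' hr]
  exact this

lemma lt_modelPoint {ε r : ℝ} {a : E × ℂ} (ha : a ∈ modelDomain E ε r)
    (h2 : a.2 ≠ 0) : ε < ‖modelPoint ε a‖ := by
  rw [norm_modelPoint ha h2]
  have h1 : 0 < ‖a.2 • a.1‖ := norm_pos_iff.2 (smul_ne_zero h2 ha.1)
  exact Real.lt_sqrt_of_sq_lt (by nlinarith)

lemma modelDomain_mono {ε r r' : ℝ} (h0 : 0 ≤ r) (h : r ≤ r') :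
    modelDomain E ε r ⊆ modelDomain E ε r' := by
  intro a ha
  refine ⟨ha.1, ha.2.trans_le ?_⟩
  nlinarith

end Run7.h115
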