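import Pool.Agent.Run7.h115.Glue2

/-! Two blowups whose Darboux balls are related by an ambient symplectomorphism are
symplectomorphic. -/

set_option autoImplicit false
set_option linter.unusedSectionVars false
set_option maxSynthPendingDepth 3

open scoped ContDiff Topology Manifold
open Set Metric Function

noncomputable section

namespace Run7.h115

variable {E : Type*} [NormedAddCommGroup E] [InnerProductSpace ℂ E] [FiniteDimensional ℂ E]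
  {M : Type*} [TopologicalSpace M] [ChartedSpace E M] [IsManifold 𝓘(ℝ, E) ∞ M]
  {N₁ : Type*} [TopologicalSpace N₁] [ChartedSpace E N₁] [IsManifold 𝓘(ℝ, E) ∞ N₁]
  {N₂ : Type*} [TopologicalSpace N₂] [ChartedSpace E N₂] [IsManifold 𝓘(ℝ, E) ∞ N₂]

section one

variable {wM : Bil E M} {S : Set M} {ε : ℝ} {wN : Bil E N₁} {r : ℝ} {φ : M → E → M} {J : M → N₁}
  {K : M → E × ℂ → N₁}

/-- the complement of the closed balls -/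
def outer (S : Set M) (ε : ℝ) (φ : M → E → M) : Set M := {x | ∀ p ∈ S, x ∉ φ p '' closedBall 0 ε}

lemma IsBlowup.isOpen_outer [T2Space M] (B : IsBlowup wM S ε wN r φ J K) (hS : S.Finite) :
    IsOpen (outer S ε φ) := by
  have h1 : outer S ε φ = ⋂ p ∈ S, (φ p '' closedBall 0 ε)ᶜ := by
    ext x
    simp [outer]
  rw [h1]
  refine hS.isOpen_biInter fun p hp => ?_
  have h2 : IsCompact (φ p '' closedBall 0 ε) :=
    (isCompact_closedBall _ _).image_of_continuousOn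
      ((B.φ_smooth p hp).continuousOn.mono (closedBall_subset_ball B.lt))
  exact h2.isClosed.isOpen_compl

/-- every point of the blowup comes from the complement of the balls or from a small
neighbourhood of the exceptional divisors -/
lemma IsBlowup.cover' (B : IsBlowup wM S ε wN r φ J K) (hε : 0 < ε) {ρ : ℝ} (hρ : ε < ρ)
    (y : N₁) : (∃ x, x ∈ outer S ε φ ∧ J x = y) ∨
      ∃ p ∈ S, ∃ a ∈ modelDomain E ε ρ, K p a = y := by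
  rcases B.cover y with h | ⟨p, hp, a, ha, rfl⟩
  · exact Or.inl h
  · by_cases h : ‖a.2 • a.1‖ ^ 2 + ε ^ 2 < ρ ^ 2
    · exact Or.inr ⟨p, hp, a, ⟨ha.1, h⟩, rfl⟩
    · left
      have h2 : a.2 ≠ 0 := by
        intro h2
        apply h
        rw [h2, zero_smul, norm_zero]
        nlinarith
      have hr : 0 < r := hε.trans B.lt
      have h3 := lt_modelPoint ha h2
      have h4 := modelPoint_lt hr ha h2
      have hx : φ p (modelPoint ε a) ∈ outer S ε φ := by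
        rintro q hq ⟨y', hy', hyq⟩
        rw [mem_closedBall_zero_iff] at hy'
        obtain ⟨-, h5⟩ := B.φ_inj q hq p hp y' (by
          rw [mem_ball_zero_iff]; exact hy'.trans_lt B.lt) _ (by
          rw [mem_ball_zero_iff]; exact h4) hyq
        rw [← h5] at h3
        exact absurd hy' (not_le.2 h3)
      exact ⟨_, hx, (B.glue p hp a ha _ hx).2 ⟨h2, rfl⟩⟩

end one

variable {wM : Bil E M} {S : Set M} {ε : ℝ} {wN₁ : Bil E N₁} {r₁ : ℝ} {φ₁ : M → E → M}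
  {J₁ : M → N₁} {K₁ : M → E × ℂ → N₁}
  {wN₂ : Bil E N₂} {r₂ : ℝ} {φ₂ : M → E → M} {J₂ : M → N₂} {K₂ : M → E × ℂ → N₂}

/-- an ambient bijection matching the balls maps the complements to each other -/
lemma outer_maps {Γ : M ≃ M} {ρ : ℝ} (hρ : ε < ρ)
    (hΓ : ∀ p ∈ S, ∀ x ∈ ball (0 : E) ρ, Γ (φ₁ p x) = φ₂ p x) {x : M} (hx : x ∈ outer S ε φ₁) :
    Γ x ∈ outer S ε φ₂ := by
  rintro q hq ⟨y', hy', hyq⟩
  have h1 := hΓ q hq y' (closedBall_subset_ball hρ hy')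
  rw [hyq] at h1
  exact hx q hq ⟨y', hy', Γ.injective h1⟩

/-- existence of the map between the blowups -/
lemma exists_map (B₁ : IsBlowup wM S ε wN₁ r₁ φ₁ J₁ K₁) (B₂ : IsBlowup wM S ε wN₂ r₂ φ₂ J₂ K₂)
    (hε : 0 < ε) {Γ : M ≃ M} {ρ : ℝ} (hρ : ε < ρ) (hρ1 : ρ ≤ r₁) (hρ2 : ρ ≤ r₂)
    (hΓ : ∀ p ∈ S, ∀ x ∈ ball (0 : E) ρ, Γ (φ₁ p x) = φ₂ p x) :
    ∃ F : N₁ → N₂, (∀ x ∈ outer S ε φ₁, F (J₁ x) = J₂ (Γ x)) ∧
      ∀ p ∈ S, ∀ a ∈ modelDomain E ε ρ, F (K₁ p a) = K₂ p a := by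
  have hρ0 : 0 < ρ := hε.trans hρ
  have hm1 : ∀ a ∈ modelDomain E ε ρ, a ∈ modelDomain E ε r₁ := fun a ha =>
    modelDomain_mono hρ0.le hρ1 ha
  have hm2 : ∀ a ∈ modelDomain E ε ρ, a ∈ modelDomain E ε r₂ := fun a ha =>
    modelDomain_mono hρ0.le hρ2 ha
  have hJK : ∀ x ∈ outer S ε φ₁, ∀ p ∈ S, ∀ a ∈ modelDomain E ε ρ, J₁ x = K₁ p a →
      J₂ (Γ x) = K₂ p a := by
    intro x hx p hp a ha h
    obtain ⟨h2, h3⟩ := (B₁.glue p hp a (hm1 a ha) x hx).1 h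
    have h4 := modelPoint_lt hρ0 ha h2
    have h5 : Γ x = φ₂ p (modelPoint ε a) := by
      rw [h3]
      exact hΓ p hp _ (by rwa [mem_ball_zero_iff])
    exact (B₂.glue p hp a (hm2 a ha) _ (outer_maps hρ hΓ hx)).2 ⟨h2, h5⟩
  have hex : ∀ y : N₁, ∃ z : N₂, (∀ x ∈ outer S ε φ₁, J₁ x = y → z = J₂ (Γ x)) ∧
      ∀ p ∈ S, ∀ a ∈ modelDomain E ε ρ, K₁ p a = y → z = K₂ p a := by
    intro y
    rcases B₁.cover' hε hρ y with ⟨x, hx, rfl⟩ | ⟨p, hp, a, ha, rfl⟩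
    · refine ⟨J₂ (Γ x), fun x' hx' h => ?_, fun p hp a ha h => hJK x hx p hp a ha h.symm⟩
      rw [B₁.J_inj hx' hx h]
    · refine ⟨K₂ p a, fun x hx h => (hJK x hx p hp a ha h).symm, fun q hq b hb h => ?_⟩
      have h1 := (B₁.K_eq p hp q hq a (hm1 a ha) b (hm1 b hb)).1 h.symm
      exact (B₂.K_eq p hp q hq a (hm2 a ha) b (hm2 b hb)).2 h1
  choose F hF1 hF2 using hex
  exact ⟨F, fun x hx => hF1 _ x hx rfl, fun p hp a ha => hF2 _ p hp a ha rfl⟩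

lemma J_local [T2Space M] (hnd : wM.ND) (B₁ : IsBlowup wM S ε wN₁ r₁ φ₁ J₁ K₁) (hS : S.Finite)
    {x : M} (hx : x ∈ outer S ε φ₁) : Injective (mfderiv 𝓘(ℝ, E) 𝓘(ℝ, E) J₁ x) := by
  have h1 : PullsBack wN₁ wM J₁ 1 (outer S ε φ₁) := by
    intro x hx u v
    rw [one_mul]
    exact B₁.J_symp x hx u v
  exact h1.injective one_ne_zero hnd hx

lemma smooth_of_spec [T2Space M] (hnd : wM.ND)
    (B₁ : IsBlowup wM S ε wN₁ r₁ φ₁ J₁ K₁) (B₂ : IsBlowup wM S ε wN₂ r₂ φ₂ J₂ K₂)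
    (hS : S.Finite) (hε : 0 < ε) {Γ : M ≃ M} (hΓs : ContMDiff 𝓘(ℝ, E) 𝓘(ℝ, E) ∞ Γ)
    {ρ : ℝ} (hρ : ε < ρ) (hρ1 : ρ ≤ r₁) (hρ2 : ρ ≤ r₂)
    (hΓ : ∀ p ∈ S, ∀ x ∈ ball (0 : E) ρ, Γ (φ₁ p x) = φ₂ p x) {F : N₁ → N₂}
    (hF1 : ∀ x ∈ outer S ε φ₁, F (J₁ x) = J₂ (Γ x))
    (hF2 : ∀ p ∈ S, ∀ a ∈ modelDomain E ε ρ, F (K₁ p a) = K₂ p a) :
    ContMDiff 𝓘(ℝ, E) 𝓘(ℝ, E) ∞ F := by
  have hρ0 : 0 < ρ := hε.trans hρ
  have hm1 : ∀ a ∈ modelDomain E ε ρ, a ∈ modelDomain E ε r₁ := fun a ha =>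
    modelDomain_mono hρ0.le hρ1 ha
  have hm2 : ∀ a ∈ modelDomain E ε ρ, a ∈ modelDomain E ε r₂ := fun a ha =>
    modelDomain_mono hρ0.le hρ2 ha
  have hU1 := B₁.isOpen_outer hS
  have hU2 := B₂.isOpen_outer hS
  intro y
  rcases B₁.cover' hε hρ y with ⟨x, hx, rfl⟩ | ⟨p, hp, a, ha, rfl⟩
  · obtain ⟨T, v, hTo, hxT, hTU, hv, hTopen, hvs⟩ :=
      local_inverse hU1 B₁.J_smooth hx (J_local hnd B₁ hS hx)
    have h1 : F =ᶠ[𝓝 (J₁ x)] fun y => J₂ (Γ (v y)) := by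
      filter_upwards [(hTopen T subset_rfl hTo).mem_nhds (mem_image_of_mem J₁ hxT)] with y hy
      obtain ⟨ζ, hζ, rfl⟩ := hy
      rw [hF1 ζ (hTU hζ), hv ζ hζ]
    refine ContMDiffAt.congr_of_eventuallyEq ?_ h1
    have h3 : ContMDiffAt 𝓘(ℝ, E) 𝓘(ℝ, E) ∞ (fun y => Γ (v y)) (J₁ x) :=
      (hΓs _).comp _ (hvs x hxT)
    have h5 : ContMDiffAt 𝓘(ℝ, E) 𝓘(ℝ, E) ∞ J₂ (Γ (v (J₁ x))) := by
      rw [hv x hxT]
      exact B₂.J_smooth.contMDiffAt (hU2.mem_nhds (outer_maps hρ hΓ hx))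
    exact h5.comp (J₁ x) h3
  · have hΩ := isOpen_modelDomain (E := E) ε ρ
    obtain ⟨-, V, s, hVo, haV, hs, hsa, hss⟩ := exists_section (wN := wN₁) hε hΩ
      ((B₁.K_smooth p hp).mono hm1) (fun b hb => B₁.K_symp p hp b (hm1 b hb)) ha ha.1
    have h1 : F =ᶠ[𝓝 (K₁ p a)] fun y => K₂ p (s y) := by
      filter_upwards [hVo.mem_nhds haV] with y hy
      obtain ⟨h2, h3⟩ := hs y hy
      rw [← hF2 p hp _ h2, h3]
    refine ContMDiffAt.congr_of_eventuallyEq ?_ h1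
    have h5 : ContMDiffAt 𝓘(ℝ, E × ℂ) 𝓘(ℝ, E) ∞ (K₂ p) (s (K₁ p a)) := by
      rw [hsa]
      exact (B₂.K_smooth p hp).contMDiffAt
        ((isOpen_modelDomain (E := E) ε r₂).mem_nhds (hm2 a ha))
    exact h5.comp (K₁ p a) hss

/-- **Blowups with ambiently equivalent balls are symplectomorphic.** -/
theorem symplectomorphic_of_ambient [T2Space M] (hnd : wM.ND)
    (B₁ : IsBlowup wM S ε wN₁ r₁ φ₁ J₁ K₁) (B₂ : IsBlowup wM S ε wN₂ r₂ φ₂ J₂ K₂)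
    (hS : S.Finite) (hε : 0 < ε) {Γ : M ≃ M} (hΓa : IsAut wM Γ)
    {ρ : ℝ} (hρ : ε < ρ) (hρ1 : ρ ≤ r₁) (hρ2 : ρ ≤ r₂)
    (hΓ : ∀ p ∈ S, ∀ x ∈ ball (0 : E) ρ, Γ (φ₁ p x) = φ₂ p x) :
    Symplectomorphic wN₁ wN₂ := by
  have hρ0 : 0 < ρ := hε.trans hρ
  have hm1 : ∀ a ∈ modelDomain E ε ρ, a ∈ modelDomain E ε r₁ := fun a ha =>
    modelDomain_mono hρ0.le hρ1 ha
  have hm2 : ∀ a ∈ modelDomain E ε ρ, a ∈ modelDomain E ε r₂ := fun a ha =>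
    modelDomain_mono hρ0.le hρ2 ha
  have hΓ' : ∀ p ∈ S, ∀ x ∈ ball (0 : E) ρ, Γ.symm (φ₂ p x) = φ₁ p x := by
    intro p hp x hx
    rw [Equiv.symm_apply_eq, hΓ p hp x hx]
  obtain ⟨F, hF1, hF2⟩ := exists_map B₁ B₂ hε hρ hρ1 hρ2 hΓ
  obtain ⟨G, hG1, hG2⟩ := exists_map B₂ B₁ hε hρ hρ2 hρ1 hΓ'
  have hGF : ∀ y, G (F y) = y := by
    intro y
    rcases B₁.cover' hε hρ y with ⟨x, hx, rfl⟩ | ⟨p, hp, a, ha, rfl⟩
    · rw [hF1 x hx, hG1 _ (outer_maps hρ hΓ hx), Γ.symm_apply_apply]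
    · rw [hF2 p hp a ha, hG2 p hp a ha]
  have hFG : ∀ y, F (G y) = y := by
    intro y
    rcases B₂.cover' hε hρ y with ⟨x, hx, rfl⟩ | ⟨p, hp, a, ha, rfl⟩
    · rw [hG1 x hx, hF1 _ (outer_maps hρ hΓ' hx), Γ.apply_symm_apply]
    · rw [hG2 p hp a ha, hF2 p hp a ha]
  have hFs : ContMDiff 𝓘(ℝ, E) 𝓘(ℝ, E) ∞ F :=
    smooth_of_spec hnd B₁ B₂ hS hε hΓa.smooth hρ hρ1 hρ2 hΓ hF1 hF2
  have hGs : ContMDiff 𝓘(ℝ, E) 𝓘(ℝ, E) ∞ G :=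
    smooth_of_spec hnd B₂ B₁ hS hε hΓa.smooth_symm hρ hρ2 hρ1 hΓ' hG1 hG2
  refine ⟨⟨F, G, hGF, hFG⟩, hFs, hGs, fun y => ?_⟩
  show ∀ u v, wN₂ (F y) (mfderiv 𝓘(ℝ, E) 𝓘(ℝ, E) F y u) (mfderiv 𝓘(ℝ, E) 𝓘(ℝ, E) F y v) =
    wN₁ y u v
  rcases B₁.cover' hε hρ y with ⟨x, hx, rfl⟩ | ⟨p, hp, a, ha, rfl⟩
  · have hU1 := B₁.isOpen_outer hS
    have hU2 := B₂.isOpen_outer hS
    have hJ1 : MDifferentiableAt 𝓘(ℝ, E) 𝓘(ℝ, E) J₁ x :=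
      (B₁.J_smooth.contMDiffAt (hU1.mem_nhds hx)).mdifferentiableAt (by simp)
    have hJ2 : MDifferentiableAt 𝓘(ℝ, E) 𝓘(ℝ, E) J₂ (Γ x) :=
      (B₂.J_smooth.contMDiffAt (hU2.mem_nhds (outer_maps hρ hΓ hx))).mdifferentiableAt (by simp)
    have e1 : mfderiv 𝓘(ℝ, E) 𝓘(ℝ, E) (J₂ ∘ Γ) x =
        (mfderiv 𝓘(ℝ, E) 𝓘(ℝ, E) J₂ (Γ x)).comp (mfderiv 𝓘(ℝ, E) 𝓘(ℝ, E) Γ x) :=
      mfderiv_comp x hJ2 (hΓa.smooth.mdifferentiableAt (by simp))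
    refine pres_of_comp (w₁ := wN₁) (w₂ := wN₂) (f := J₁) (g := F) (h := J₂ ∘ Γ) hJ1
      (hFs.mdifferentiableAt (by simp)) ?_
      (surjective_of_injective_tangent _ (J_local hnd B₁ hS hx)) ?_
    · filter_upwards [hU1.mem_nhds hx] with z hz
      exact hF1 z hz
    · intro u v
      rw [e1]
      have h1 := B₂.J_symp (Γ x) (outer_maps hρ hΓ hx) (mfderiv 𝓘(ℝ, E) 𝓘(ℝ, E) Γ x u)
        (mfderiv 𝓘(ℝ, E) 𝓘(ℝ, E) Γ x v)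
      rw [hΓa.pres x u v] at h1
      exact (B₁.J_symp x hx u v).trans h1.symm
  · have hΩ := isOpen_modelDomain (E := E) ε ρ
    obtain ⟨hsurj, -⟩ := exists_section (wN := wN₁) hε hΩ
      ((B₁.K_smooth p hp).mono hm1) (fun b hb => B₁.K_symp p hp b (hm1 b hb)) ha ha.1
    have hK1 : MDifferentiableAt 𝓘(ℝ, E × ℂ) 𝓘(ℝ, E) (K₁ p) a :=
      ((B₁.K_smooth p hp).contMDiffAt ((isOpen_modelDomain (E := E) ε r₁).mem_nhds
        (hm1 a ha))).mdifferentiableAt (by simp)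
    refine pres_of_comp (w₁ := wN₁) (w₂ := wN₂) (f := K₁ p) (g := F) (h := K₂ p) hK1
      (hFs.mdifferentiableAt (by simp)) ?_ hsurj ?_
    · filter_upwards [hΩ.mem_nhds ha] with z hz
      exact hF2 p hp z hz
    · intro u v
      exact (B₁.K_symp p hp a (hm1 a ha) u v).trans (B₂.K_symp p hp a (hm2 a ha) u v).symm

end Run7.h115
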