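import Pool.Agent.Run7.h115.Reparam

/-! Darboux balls of bounded dilatation with respect to reference balls. -/

set_option autoImplicit false
set_option linter.unusedSectionVars false
set_option maxSynthPendingDepth 3

open scoped ContDiff Topology Manifold
open Set Metric Function

noncomputable section

namespace Run7.h115

variable {E : Type*} [NormedAddCommGroup E] [InnerProductSpace ℂ E] [FiniteDimensional ℂ E]
  {M : Type*} [TopologicalSpace M] [ChartedSpace E M] [IsManifold 𝓘(ℝ, E) ∞ M]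

lemma InBall.mono {R R' r₀ : ℝ} {g : E → E} (h : InBall R r₀ g) (hR : R' ≤ R) : InBall R' r₀ g :=
  ⟨h.smooth.mono (ball_subset_ball hR), h.inj.mono (ball_subset_ball hR),
    fun x hx => h.symp x (ball_subset_ball hR hx), h.maps.mono_left (ball_subset_ball hR)⟩

/-- the transition map to the reference ball, on a slightly bigger ball -/
lemma exists_inBall_of_growth {wM : Bil E M} {S : Set M} {r₀ r : ℝ} {φ₀ φ : M → E → M}
    (h₀ : Balls wM S r₀ φ₀) (h : Balls wM S r φ) {p : M} (hp : p ∈ S) (hc : φ p 0 = φ₀ p 0)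
    {ε K K' : ℝ} (hε : 0 < ε) (hεr : ε < r) (hK0 : 0 < K) (hKε : K * ε < r₀) (hKK' : K < K')
    (hgrow : ∀ x ∈ closedBall (0 : E) ε, φ p x ∈ φ₀ p '' closedBall 0 (K * ‖x‖)) :
    ∃ R : ℝ, ε < R ∧ R ≤ r ∧ ∃ g : E → E, InBall R r₀ g ∧ g 0 = 0 ∧
      (∀ x ∈ ball (0 : E) R, ‖g x‖ ≤ K' * ‖x‖) ∧ ∀ x ∈ ball (0 : E) R, φ₀ p (g x) = φ p x := by
  have hr₀ : 0 < r₀ := (mul_pos hK0 hε).trans hKε
  obtain ⟨hVo, ψ, hψ, hψφ⟩ := exists_inverse isOpen_ball (h₀.smooth p hp)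
    (fun x hx y hy hxy => (h₀.inj p hp p hp x hx y hy hxy).2)
    (fun x hx => (h₀.pullsBack hp).injective one_ne_zero stdBil_nd hx)
  -- the open set where the bound holds
  have hsub : ∀ x ∈ closedBall (0 : E) ε, φ p x ∈ φ₀ p '' ball 0 r₀ := by
    intro x hx
    refine image_mono (closedBall_subset_ball ?_) (hgrow x hx)
    rw [mem_closedBall_zero_iff] at hx
    have : K * ‖x‖ ≤ K * ε := mul_le_mul_of_nonneg_left hx hK0.le
    linarith
  have hA : IsOpen (ball (0 : E) r ∩ φ p ⁻¹' (φ₀ p '' ball 0 r₀)) :=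
    (h.smooth p hp).continuousOn.isOpen_inter_preimage isOpen_ball hVo
  set A := ball (0 : E) r ∩ φ p ⁻¹' (φ₀ p '' ball 0 r₀) with hAdef
  have hgc : ContinuousOn (fun x => ψ (φ p x)) A := by
    refine hψ.continuousOn.comp ((h.smooth p hp).continuousOn.mono inter_subset_left) ?_
    intro x hx
    exact hx.2
  have hhc : ContinuousOn (fun x => K' * ‖x‖ - ‖ψ (φ p x)‖) A := by
    have h1 : ContinuousOn (fun x : E => K' * ‖x‖) A := by fun_prop
    exact h1.sub hgc.norm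
  have hB : IsOpen (A ∩ (fun x => K' * ‖x‖ - ‖ψ (φ p x)‖) ⁻¹' (Ioi 0)) :=
    hhc.isOpen_inter_preimage hA isOpen_Ioi
  set B := A ∩ (fun x => K' * ‖x‖ - ‖ψ (φ p x)‖) ⁻¹' (Ioi 0) with hBdef
  have hnorm : ∀ x ∈ closedBall (0 : E) ε, ‖ψ (φ p x)‖ ≤ K * ‖x‖ := by
    intro x hx
    obtain ⟨y, hy, hyx⟩ := hgrow x hx
    rw [← hyx, hψφ y]
    · rwa [mem_closedBall_zero_iff] at hy
    · refine closedBall_subset_ball ?_ hy
      rw [mem_closedBall_zero_iff] at hx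
      have : K * ‖x‖ ≤ K * ε := mul_le_mul_of_nonneg_left hx hK0.le
      linarith
  have hW : IsOpen (B ∪ ball (0 : E) ε) := hB.union isOpen_ball
  have hcW : closedBall (0 : E) ε ⊆ B ∪ ball (0 : E) ε := by
    intro x hx
    by_cases hx' : x ∈ ball (0 : E) ε
    · exact Or.inr hx'
    · left
      refine ⟨⟨closedBall_subset_ball hεr hx, hsub x hx⟩, ?_⟩
      show 0 < K' * ‖x‖ - ‖ψ (φ p x)‖
      have h1 := hnorm x hx
      rw [mem_ball_zero_iff, not_lt] at hx'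
      have h2 : 0 < ‖x‖ := hε.trans_le hx'
      nlinarith
  obtain ⟨δ, hδ, hδW⟩ := (isCompact_closedBall (0 : E) ε).exists_thickening_subset_open hW hcW
  have hδ' : ball (0 : E) (δ + ε) ⊆ B ∪ ball (0 : E) ε := by
    rw [← thickening_closedBall hδ hε.le]
    exact hδW
  set R := min (δ + ε) r with hR
  have hεR : ε < R := lt_min (by linarith) hεr
  have hRr : R ≤ r := min_le_right _ _
  have hbW : ∀ x ∈ ball (0 : E) R, x ∈ B ∪ ball (0 : E) ε := fun x hx =>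
    hδ' (ball_subset_ball (min_le_left _ _) hx)
  have hmaps : ∀ x ∈ ball (0 : E) R, φ p x ∈ φ₀ p '' ball 0 r₀ := by
    intro x hx
    rcases hbW x hx with h1 | h1
    · exact h1.1.2
    · exact hsub x (ball_subset_closedBall h1)
  obtain ⟨g, hg1, hg2, hg3⟩ := exists_compare h₀ h hp hRr hmaps
  have hgψ : ∀ x ∈ ball (0 : E) R, g x = ψ (φ p x) := by
    intro x hx
    obtain ⟨h1, h2⟩ := hg3 x hx
    rw [← h2, hψφ _ h1]
  have h0R : (0 : E) ∈ ball (0 : E) R := mem_ball_self (hε.trans hεR)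
  refine ⟨R, hεR, hRr, g, ⟨hg1, fun x hx y hy hxy => ?_, hg2, fun x hx => (hg3 x hx).1⟩, ?_,
    fun x hx => ?_, fun x hx => (hg3 x hx).2⟩
  · have h1 : φ p x = φ p y := by rw [← (hg3 x hx).2, ← (hg3 y hy).2, hxy]
    exact (h.inj p hp p hp x (ball_subset_ball hRr hx) y (ball_subset_ball hRr hy) h1).2
  · rw [hgψ 0 h0R, hc, hψφ 0 (mem_ball_self hr₀)]
  · rw [hgψ x hx]
    rcases hbW x hx with h1 | h1
    · have h2 : 0 < K' * ‖x‖ - ‖ψ (φ p x)‖ := h1.2
      linarith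
    · have h2 := hnorm x (ball_subset_closedBall h1)
      have h3 : K * ‖x‖ ≤ K' * ‖x‖ := mul_le_mul_of_nonneg_right hKK'.le (norm_nonneg _)
      linarith

/-- balls of bounded dilatation are related to the reference balls, up to unitary maps -/
theorem related_unitary_of_growth [T2Space M] {wM : Bil E M} {S : Set M} (hS : S.Finite)
    {r₀ r : ℝ} {φ₀ φ : M → E → M} (h₀ : Balls wM S r₀ φ₀) (h : Balls wM S r φ)
    (hc : ∀ p ∈ S, φ p 0 = φ₀ p 0) {ε K : ℝ} (hε : 0 < ε) (hεr : ε < r) (hK1 : 1 ≤ K)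
    (hKε : K * ε < r₀)
    (hgrow : ∀ p ∈ S, ∀ x ∈ closedBall (0 : E) ε, φ p x ∈ φ₀ p '' closedBall 0 (K * ‖x‖)) :
    ∃ ρ₀ : ℝ, ε < ρ₀ ∧ ρ₀ ≤ r ∧ ∀ ρ, ε < ρ → ρ < ρ₀ → ∃ U : M → (E ≃ₗᵢ[ℂ] E),
      Related wM S (fun p x => φ₀ p (U p x)) φ ρ := by
  have hK0 : 0 < K := by linarith
  -- a slightly bigger constant
  obtain ⟨K', hKK', hK'ε⟩ : ∃ K' : ℝ, K < K' ∧ K' * ε < r₀ := by
    have h1 : K < r₀ / ε := by rwa [lt_div_iff₀ hε]
    obtain ⟨K', h2, h3⟩ := exists_between h1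
    exact ⟨K', h2, by rwa [lt_div_iff₀ hε] at h3⟩
  have hK'0 : 0 < K' := hK0.trans hKK'
  have h1 : ∀ p : M, ∃ (R : ℝ) (g : E → E), ε < R ∧ (p ∈ S → R ≤ r ∧ InBall R r₀ g ∧ g 0 = 0 ∧
      (∀ x ∈ ball (0 : E) R, ‖g x‖ ≤ K' * ‖x‖) ∧ ∀ x ∈ ball (0 : E) R, φ₀ p (g x) = φ p x) := by
    intro p
    by_cases hp : p ∈ S
    · obtain ⟨R, hR1, hR2, g, hg⟩ := exists_inBall_of_growth h₀ h hp (hc p hp) hε hεr hK0 hKε hKK'
        (hgrow p hp)
      exact ⟨R, g, hR1, fun _ => ⟨hR2, hg⟩⟩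
    · exact ⟨ε + 1, id, by linarith, fun h => absurd h hp⟩
  choose Rp g hRp hg using h1
  -- uniform radius
  have h2 : ∀ S' : Set M, S'.Finite → ∃ R : ℝ, ε < R ∧ ∀ p ∈ S', R ≤ Rp p := by
    intro S' hS'
    induction S', hS' using Set.Finite.induction_on with
    | empty => exact ⟨ε + 1, by linarith, fun p hp => absurd hp (notMem_empty p)⟩
    | @insert q S' hq hS' ih =>
      obtain ⟨R, hR, h⟩ := ih
      refine ⟨min R (Rp q), lt_min hR (hRp q), fun p hp => ?_⟩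
      rcases hp with rfl | hp
      · exact min_le_right _ _
      · exact (min_le_left _ _).trans (h p hp)
  obtain ⟨R', hR', hR'p⟩ := h2 S hS
  set R := min (min R' (r₀ / K')) r with hR
  have hεR : ε < R := by
    refine lt_min (lt_min hR' ?_) hεr
    rw [lt_div_iff₀ hK'0]
    linarith
  have hKR : K' * R ≤ r₀ := by
    have h3 : R ≤ r₀ / K' := (min_le_left _ _).trans (min_le_right _ _)
    rw [le_div_iff₀ hK'0] at h3
    linarith
  have hRp' : ∀ p ∈ S, R ≤ Rp p := fun p hp =>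
    ((min_le_left _ _).trans (min_le_left _ _)).trans (hR'p p hp)
  refine ⟨R, hεR, min_le_right _ _, fun ρ hρ1 hρ2 => ?_⟩
  obtain ⟨U, Γ, hΓ, hΓφ⟩ := related_unitary_of_inBall hS (hε.trans hεR) h₀ (g := g)
    (fun p hp => (hg p hp).2.1.mono (hRp' p hp)) (fun p hp => (hg p hp).2.2.1)
    (by linarith : 1 ≤ K') (fun p hp x hx => (hg p hp).2.2.2.1 x (ball_subset_ball (hRp' p hp) hx))
    hKR (hε.trans hρ1) hρ2
  refine ⟨U, Γ, hΓ, fun p hp x hx => ?_⟩
  have h3 := hΓφ p hp x hx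
  rw [h3]
  exact (hg p hp).2.2.2.2 x (ball_subset_ball (hRp' p hp) (closedBall_subset_ball hρ2 hx))

end Run7.h115
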