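import Pool.Agent.Run7.h115.Cut2

/-! Every linear symplectic map agrees on a ball with a compactly supported symplectic
diffeomorphism. -/

set_option autoImplicit false
set_option linter.unusedSectionVars false
set_option maxSynthPendingDepth 3

open scoped ContDiff Topology NNReal
open Set Metric Function

noncomputable section

namespace Run7.h115

variable {E : Type*} [NormedAddCommGroup E] [NormedSpace ℝ E] [FiniteDimensional ℝ E]

/-- compactly supported symplectic diffeomorphisms of a symplectic vector space -/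
structure CS (σ : E →L[ℝ] E →L[ℝ] ℝ) (H : E ≃ E) : Prop where
  smooth : ContDiff ℝ ∞ H
  smooth_symm : ContDiff ℝ ∞ H.symm
  symp : ∀ x, IsSymp σ (fderiv ℝ H x)
  supp : ∃ R : ℝ, ∀ x, x ∉ closedBall (0 : E) R → H x = x

lemma CS.refl (σ : E →L[ℝ] E →L[ℝ] ℝ) : CS σ (Equiv.refl E) := by
  refine ⟨contDiff_id, contDiff_id, fun x u v => ?_, 0, fun x _ => rfl⟩
  have : fderiv ℝ (Equiv.refl E) x = ContinuousLinearMap.id ℝ E := fderiv_id
  rw [this]
  rfl

lemma CS.trans {σ : E →L[ℝ] E →L[ℝ] ℝ} {H H' : E ≃ E} (h : CS σ H) (h' : CS σ H') :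
    CS σ (H.trans H') := by
  refine ⟨h'.smooth.comp h.smooth, h.smooth_symm.comp h'.smooth_symm, fun x u v => ?_, ?_⟩
  · have h1 : fderiv ℝ (H.trans H') x = (fderiv ℝ H' (H x)).comp (fderiv ℝ H x) :=
      fderiv_comp x (h'.smooth.differentiable (by simp) _) (h.smooth.differentiable (by simp) x)
    rw [h1]
    simp only [ContinuousLinearMap.comp_apply]
    rw [h'.symp, h.symp]
  · obtain ⟨R, hR⟩ := h.supp
    obtain ⟨R', hR'⟩ := h'.supp
    refine ⟨max R R', fun x hx => ?_⟩
    have h1 : x ∉ closedBall (0 : E) R := fun h => hx (closedBall_subset_closedBall (le_max_left _ _) h)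
    have h2 : x ∉ closedBall (0 : E) R' :=
      fun h => hx (closedBall_subset_closedBall (le_max_right _ _) h)
    show H' (H x) = x
    rw [hR x h1, hR' x h2]

/-- conjugation by a dilation -/
def scaleEquiv (t : ℝ) (ht : t ≠ 0) (H : E ≃ E) : E ≃ E where
  toFun x := t • H (t⁻¹ • x)
  invFun x := t • H.symm (t⁻¹ • x)
  left_inv x := by simp [smul_smul, ht]
  right_inv x := by simp [smul_smul, ht]

lemma scaleEquiv_apply (t : ℝ) (ht : t ≠ 0) (H : E ≃ E) (x : E) :
    scaleEquiv t ht H x = t • H (t⁻¹ • x) := rfl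

lemma scale_smooth {t : ℝ} {f : E → E} (hf : ContDiff ℝ ∞ f) :
    ContDiff ℝ ∞ (fun x => t • f (t⁻¹ • x)) :=
  contDiff_const.smul (hf.comp (contDiff_const.smul contDiff_id))

lemma fderiv_scale {t : ℝ} (ht : t ≠ 0) {f : E → E} {x : E} (hf : DifferentiableAt ℝ f (t⁻¹ • x)) :
    fderiv ℝ (fun x => t • f (t⁻¹ • x)) x = fderiv ℝ f (t⁻¹ • x) := by
  have h1 : HasFDerivAt (fun x : E => t⁻¹ • x) (t⁻¹ • ContinuousLinearMap.id ℝ E) x :=
    (hasFDerivAt_id x).const_smul t⁻¹
  have h2 := (hf.hasFDerivAt.comp x h1).const_smul t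
  have h3 := h2.fderiv
  refine Eq.trans h3 ?_
  ext v
  simp [smul_smul, ht]

lemma CS.scale {σ : E →L[ℝ] E →L[ℝ] ℝ} {H : E ≃ E} (h : CS σ H) {t : ℝ} (ht : 0 < t) :
    CS σ (scaleEquiv t ht.ne' H) := by
  refine ⟨scale_smooth h.smooth, scale_smooth h.smooth_symm, fun x => ?_, ?_⟩
  · have h1 : fderiv ℝ (scaleEquiv t ht.ne' H) x = fderiv ℝ H (t⁻¹ • x) :=
      fderiv_scale ht.ne' (h.smooth.differentiable (by simp) _)
    rw [h1]
    exact h.symp _
  · obtain ⟨R, hR⟩ := h.supp
    refine ⟨t * R, fun x hx => ?_⟩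
    rw [scaleEquiv_apply, hR, smul_smul, mul_inv_cancel₀ ht.ne', one_smul]
    intro h2
    apply hx
    rw [mem_closedBall_zero_iff] at h2 ⊢
    rw [norm_smul, norm_inv, Real.norm_eq_abs, abs_of_pos ht, inv_mul_le_iff₀ ht] at h2
    exact h2

/-- the linear map `A` agrees on the unit ball with a compactly supported symplectic
diffeomorphism -/
def HasCS (σ : E →L[ℝ] E →L[ℝ] ℝ) (A : E →L[ℝ] E) : Prop :=
  ∃ H : E ≃ E, CS σ H ∧ ∀ x ∈ closedBall (0 : E) 1, H x = A x

lemma HasCS.at_radius {σ : E →L[ℝ] E →L[ℝ] ℝ} {A : E →L[ℝ] E} (h : HasCS σ A) {t : ℝ} (ht : 0 < t) :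
    ∃ H : E ≃ E, CS σ H ∧ ∀ x ∈ closedBall (0 : E) t, H x = A x := by
  obtain ⟨H, hH, hHA⟩ := h
  refine ⟨scaleEquiv t ht.ne' H, hH.scale ht, fun x hx => ?_⟩
  rw [scaleEquiv_apply, hHA, map_smul, smul_smul, mul_inv_cancel₀ ht.ne', one_smul]
  rw [mem_closedBall_zero_iff] at hx ⊢
  rw [norm_smul, norm_inv, Real.norm_eq_abs, abs_of_pos ht, inv_mul_le_iff₀ ht, mul_one]
  exact hx

lemma HasCS.comp {σ : E →L[ℝ] E →L[ℝ] ℝ} {A B : E →L[ℝ] E} (hA : HasCS σ A) (hB : HasCS σ B) :
    HasCS σ (A.comp B) := by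
  obtain ⟨H, hH, hHB⟩ := hB
  obtain ⟨G, hG, hGA⟩ := hA.at_radius (t := ‖B‖ + 1) (by positivity)
  refine ⟨H.trans G, hH.trans hG, fun x hx => ?_⟩
  show G (H x) = A (B x)
  rw [hHB x hx, hGA]
  rw [mem_closedBall_zero_iff] at hx ⊢
  have h1 := B.le_opNorm x
  have h2 : ‖B‖ * ‖x‖ ≤ ‖B‖ * 1 := mul_le_mul_of_nonneg_left hx (norm_nonneg _)
  linarith

lemma HasCS.id (σ : E →L[ℝ] E →L[ℝ] ℝ) : HasCS σ (ContinuousLinearMap.id ℝ E) :=
  ⟨Equiv.refl E, CS.refl σ, fun _ _ => rfl⟩

/-- the transvection -/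
def transv (σ : E →L[ℝ] E →L[ℝ] ℝ) (w : E) (c : ℝ) : E →L[ℝ] E :=
  ContinuousLinearMap.id ℝ E + c • (σ w).smulRight w

lemma transv_apply (σ : E →L[ℝ] E →L[ℝ] ℝ) (w : E) (c : ℝ) (x : E) :
    transv σ w c x = x + (c * σ w x) • w := by
  simp [transv, smul_smul]

lemma transv_symp {σ : E →L[ℝ] E →L[ℝ] ℝ} (hσ : IsSympForm σ) (w : E) (c : ℝ) :
    IsSymp σ (transv σ w c) := by
  intro u v
  rw [transv_apply, transv_apply]
  simp only [map_add, map_smul, add_apply, smul_apply, smul_eq_mul, hσ.alt w]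
  have h := hσ.skew u w
  rw [h]
  ring

lemma transv_comp {σ : E →L[ℝ] E →L[ℝ] ℝ} (hσ : IsSympForm σ) (w : E) (c d : ℝ) :
    (transv σ w c).comp (transv σ w d) = transv σ w (c + d) := by
  ext x
  rw [ContinuousLinearMap.comp_apply, transv_apply, transv_apply, transv_apply]
  simp only [map_add, map_smul, smul_eq_mul, hσ.alt w, mul_zero, add_zero]
  rw [add_assoc, ← add_smul]
  congr 2
  ring

lemma hasCS_of_near {σ : E →L[ℝ] E →L[ℝ] ℝ} (hσ : IsSympForm σ) :
    ∃ η : ℝ, 0 < η ∧ ∀ A : E →L[ℝ] E, IsSymp σ A → ‖A - ContinuousLinearMap.id ℝ E‖ ≤ η →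
      HasCS σ A := by
  obtain ⟨η, hη, key⟩ := cutoff_ext hσ (r := 1) (R := 2) one_pos one_lt_two
  refine ⟨η / 2, by positivity, fun A hA hAn => ?_⟩
  have hd : ∀ x : E, fderiv ℝ A x = A := fun x => A.fderiv
  have hx' : ∀ x ∈ ball (0 : E) 2, ‖A x - x‖ ≤ η := by
    intro x hx
    have h6 := (A - ContinuousLinearMap.id ℝ E).le_of_opNorm_le hAn x
    rw [mem_ball_zero_iff] at hx
    have h7 : (A - ContinuousLinearMap.id ℝ E) x = A x - x := rfl
    rw [h7] at h6
    nlinarith
  obtain ⟨H, h1, h2, h3, h4, R', -, h5⟩ := key A A.contDiff.contDiffOn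
    (fun x _ => by rw [hd]; exact hA) hx' (fun x _ => by rw [hd]; linarith)
  exact ⟨H, ⟨h1, h2, h3, R', fun x hx => h5 x (fun h => hx (ball_subset_closedBall h))⟩, h4⟩

lemma transv_zero (σ : E →L[ℝ] E →L[ℝ] ℝ) (w : E) : transv σ w 0 = ContinuousLinearMap.id ℝ E := by
  ext x
  rw [transv_apply]
  simp

lemma hasCS_transv {σ : E →L[ℝ] E →L[ℝ] ℝ} (hσ : IsSympForm σ) (w : E) (c : ℝ) :
    HasCS σ (transv σ w c) := by
  obtain ⟨η, hη, key⟩ := hasCS_of_near hσ
  obtain ⟨n, hn⟩ : ∃ n : ℕ, ‖(c • (σ w).smulRight w : E →L[ℝ] E)‖ / η ≤ n := exists_nat_ge _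
  set B := ‖(c • (σ w).smulRight w : E →L[ℝ] E)‖ with hB
  have hn1 : (0 : ℝ) < (n : ℝ) + 1 := by positivity
  -- small step
  have hstep : HasCS σ (transv σ w (c / ((n : ℝ) + 1))) := by
    apply key _ (transv_symp hσ w _)
    have h1 : transv σ w (c / ((n : ℝ) + 1)) - ContinuousLinearMap.id ℝ E =
        (((n : ℝ) + 1)⁻¹) • (c • (σ w).smulRight w : E →L[ℝ] E) := by
      ext x
      simp only [transv, add_sub_cancel_left, smul_smul]
      rw [div_eq_inv_mul]
    rw [h1, norm_smul, ← hB, norm_inv, Real.norm_eq_abs, abs_of_pos hn1, inv_mul_le_iff₀ hn1]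
    rw [div_le_iff₀ hη] at hn
    nlinarith
  have hpow : ∀ m : ℕ, HasCS σ (transv σ w (m * (c / ((n : ℝ) + 1)))) := by
    intro m
    induction m with
    | zero =>
      have h1 : ((0 : ℕ) : ℝ) * (c / ((n : ℝ) + 1)) = 0 := by simp
      rw [h1, transv_zero]
      exact HasCS.id σ
    | succ m ih =>
      have h1 : ((m + 1 : ℕ) : ℝ) * (c / ((n : ℝ) + 1)) =
          m * (c / ((n : ℝ) + 1)) + c / ((n : ℝ) + 1) := by push_cast; ring
      rw [h1, ← transv_comp hσ]
      exact ih.comp hstep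
  have h1 := hpow (n + 1)
  have h2 : ((n + 1 : ℕ) : ℝ) * (c / ((n : ℝ) + 1)) = c := by
    push_cast
    field_simp
  rwa [h2] at h1

/-- the fixed space -/
def fixSpace (A : E →L[ℝ] E) : Submodule ℝ E where
  carrier := {x | A x = x}
  add_mem' := fun {x y} hx hy => by
    show A (x + y) = x + y
    rw [map_add, show A x = x from hx, show A y = y from hy]
  zero_mem' := map_zero A
  smul_mem' := fun c x hx => by
    show A (c • x) = c • x
    rw [map_smul, show A x = x from hx]

lemma mem_fixSpace {A : E →L[ℝ] E} {x : E} : x ∈ fixSpace A ↔ A x = x := Iff.rfl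

lemma IsSymp.comp {σ : E →L[ℝ] E →L[ℝ] ℝ} {A B : E →L[ℝ] E} (hA : IsSymp σ A) (hB : IsSymp σ B) :
    IsSymp σ (A.comp B) := fun u v => by
  rw [ContinuousLinearMap.comp_apply, ContinuousLinearMap.comp_apply, hA, hB]

lemma hasCS_of_transv_comp {σ : E →L[ℝ] E →L[ℝ] ℝ} (hσ : IsSympForm σ) {A : E →L[ℝ] E} {w : E}
    {c : ℝ} (h : HasCS σ ((transv σ w c).comp A)) : HasCS σ A := by
  have h1 := (hasCS_transv hσ w (-c)).comp h
  rw [← ContinuousLinearMap.comp_assoc, transv_comp hσ, neg_add_cancel, transv_zero] at h1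
  exact h1

/-- first kind of step: increase the fixed space -/
lemma step_one {σ : E →L[ℝ] E →L[ℝ] ℝ} (hσ : IsSympForm σ) {A : E →L[ℝ] E} (hA : IsSymp σ A) {v : E}
    (hv : σ v (A v) ≠ 0) : fixSpace A <
      fixSpace ((transv σ (v - A v) (1 / σ v (A v))).comp A) := by
  rw [SetLike.lt_iff_le_and_exists]
  refine ⟨fun x hx => ?_, v, ?_, ?_⟩
  · rw [mem_fixSpace] at hx ⊢
    rw [ContinuousLinearMap.comp_apply, hx, transv_apply]
    have h1 : σ (v - A v) x = 0 := by
      rw [map_sub, sub_apply]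
      have h2 := hA v x
      rw [hx] at h2
      rw [h2, sub_self]
    rw [h1, mul_zero, zero_smul, add_zero]
  · rw [mem_fixSpace, ContinuousLinearMap.comp_apply, transv_apply]
    have h1 : σ (v - A v) (A v) = σ v (A v) := by
      rw [map_sub, sub_apply, hσ.alt, sub_zero]
    rw [h1, one_div, inv_mul_cancel₀ hv, one_smul]
    abel
  · rw [mem_fixSpace]
    intro h
    rw [h] at hv
    exact hv (hσ.alt v)

/-- the symplectic group is generated by transvections, hence every linear symplectic map agrees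
on a ball with a compactly supported symplectic diffeomorphism -/
theorem hasCS_of_symp {σ : E →L[ℝ] E →L[ℝ] ℝ} (hσ : IsSympForm σ) {A : E →L[ℝ] E}
    (hA : IsSymp σ A) : HasCS σ A := by
  obtain ⟨n, hn⟩ : ∃ n : ℕ, Module.finrank ℝ E - Module.finrank ℝ (fixSpace A) ≤ n := ⟨_, le_rfl⟩
  induction n generalizing A with
  | zero =>
    have h1 : Module.finrank ℝ (fixSpace A) = Module.finrank ℝ E :=
      le_antisymm (Submodule.finrank_le _) (by omega)
    have h2 : fixSpace A = ⊤ := Submodule.eq_top_of_finrank_eq h1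
    have h3 : A = ContinuousLinearMap.id ℝ E := by
      ext x
      have : x ∈ fixSpace A := by rw [h2]; trivial
      exact this
    rw [h3]
    exact HasCS.id σ
  | succ n ih =>
    have key : ∀ B : E →L[ℝ] E, IsSymp σ B → fixSpace A ≤ fixSpace B → (∃ v, σ v (B v) ≠ 0) →
        HasCS σ B := by
      rintro B hB hAB ⟨v, hv⟩
      have h1 := step_one hσ hB hv
      apply hasCS_of_transv_comp hσ (w := v - B v) (c := 1 / σ v (B v))
      apply ih ((transv_symp hσ _ _).comp hB)
      have h2 := Submodule.finrank_lt_finrank_of_lt (lt_of_le_of_lt hAB h1)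
      omega
    by_cases h : ∃ v, σ v (A v) ≠ 0
    · exact key A hA le_rfl h
    · have h0 : ∀ v, σ v (A v) = 0 := fun v => by_contra fun h' => h ⟨v, h'⟩
      by_cases h1 : ∀ v, A v = v
      · have h3 : A = ContinuousLinearMap.id ℝ E := by
          ext x
          exact h1 x
        rw [h3]
        exact HasCS.id σ
      · obtain ⟨v, hv⟩ : ∃ v, A v ≠ v := by
          by_contra h2
          exact h1 fun v => by_contra fun h3 => h2 ⟨v, h3⟩
        -- polarisation
        have hpol : ∀ u, σ u (A v) = - σ v (A u) := by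
          intro u
          have h2 := h0 (u + v)
          simp only [map_add, add_apply, h0, zero_add, add_zero] at h2
          linarith
        obtain ⟨u, hu⟩ : ∃ u, σ u (A v - v) ≠ 0 := by
          by_contra h2
          apply hv
          have h3 : A v - v = 0 := by
            apply hσ.nd
            intro u
            rw [hσ.skew, neg_eq_zero]
            exact by_contra fun h4 => h2 ⟨u, h4⟩
          exact sub_eq_zero.1 h3
        set w := u - A u with hw
        have e1 : σ w (A v) = σ u (A v - v) := by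
          rw [hw, map_sub, sub_apply, hA u v, map_sub]
        have e2 : σ v w = σ u (A v - v) := by
          rw [hw, map_sub, map_sub, hpol u, hσ.skew v u]
          ring
        apply hasCS_of_transv_comp hσ (w := w) (c := 1)
        apply key _ ((transv_symp hσ _ _).comp hA)
        · intro x hx
          rw [mem_fixSpace] at hx ⊢
          rw [ContinuousLinearMap.comp_apply, hx, transv_apply]
          have h4 : σ w x = 0 := by
            rw [hw, map_sub, sub_apply]
            have h5 := hA u x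
            rw [hx] at h5
            rw [h5, sub_self]
          rw [h4, mul_zero, zero_smul, add_zero]
        · refine ⟨v, ?_⟩
          rw [ContinuousLinearMap.comp_apply, transv_apply, map_add, map_smul, h0, e1, e2, one_mul,
            smul_eq_mul, zero_add]
          exact mul_ne_zero hu hu

end Run7.h115
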