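import Pool.Agent.Run7.h115.TwoForm

/-! Moser's stability theorem on closed manifolds, for deformations by exact forms. -/

set_option autoImplicit false
set_option linter.unusedSectionVars false
set_option maxSynthPendingDepth 3

open scoped ContDiff Topology Manifold
open Set Metric Function Bundle
open Pool.Agent.Helper186

noncomputable section

namespace Run7.h115

variable {E : Type*} [NormedAddCommGroup E] [NormedSpace ℝ E] [FiniteDimensional ℝ E]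
  {M : Type*} [TopologicalSpace M] [ChartedSpace E M] [IsManifold 𝓘(ℝ, E) ∞ M]

/-- the pull back of a one-form by a map from a vector space -/
def pullOne {V : Type*} [NormedAddCommGroup V] [NormedSpace ℝ V]
    (μ : (x : M) → TangentSpace 𝓘(ℝ, E) x →L[ℝ] ℝ) (S : V → M) (q : V) : V →L[ℝ] ℝ :=
  (show E →L[ℝ] ℝ from μ (S q)).comp (show V →L[ℝ] E from mfderiv 𝓘(ℝ, V) 𝓘(ℝ, E) S q)

lemma contDiffOn_pullOne {V : Type*} [NormedAddCommGroup V] [NormedSpace ℝ V]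
    [FiniteDimensional ℝ V] {μ : (x : M) → TangentSpace 𝓘(ℝ, E) x →L[ℝ] ℝ} (hμ : SmoothForm μ)
    {S : V → M} {U : Set V} (hU : IsOpen U) (hS : ContMDiffOn 𝓘(ℝ, V) 𝓘(ℝ, E) ∞ S U) :
    ContDiffOn ℝ ∞ (pullOne μ S) U := by
  rw [contDiffOn_clm_apply]
  intro w
  rw [← contMDiffOn_iff_contDiffOn]
  intro y hy
  apply ContMDiffAt.contMDiffWithinAt
  have h1 : ContMDiffAt 𝓘(ℝ, V).tangent 𝓘(ℝ, E).tangent ∞
      (tangentMap 𝓘(ℝ, V) 𝓘(ℝ, E) S) (⟨y, w⟩ : TangentBundle 𝓘(ℝ, V) V) :=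
    contMDiffAt_tangentMap hU hS hy
  have h2 : ContMDiffAt 𝓘(ℝ, V) 𝓘(ℝ, E).tangent ∞ (fun y : V =>
      (tangentMap 𝓘(ℝ, V) 𝓘(ℝ, E) S (⟨y, w⟩ : TangentBundle 𝓘(ℝ, V) V))) y :=
    ContMDiffAt.comp y h1 (contMDiff_constSection w y)
  exact hμ.comp h2 le_rfl

/-- The exterior derivative of a one-form is closed. -/
theorem extDer_closed_pullback {μ : (x : M) → TangentSpace 𝓘(ℝ, E) x →L[ℝ] ℝ} (hμ : SmoothForm μ)
    {V : Type*} [NormedAddCommGroup V] [NormedSpace ℝ V] [FiniteDimensional ℝ V] {S : V → M}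
    {U : Set V} (hU : IsOpen U) (hS : ContMDiffOn 𝓘(ℝ, V) 𝓘(ℝ, E) ∞ S U) {p : V} (hp : p ∈ U) :
    (∀ b c : V, DifferentiableAt ℝ (fun q => extDer 𝓘(ℝ, E) μ (S q)
      (mfderiv 𝓘(ℝ, V) 𝓘(ℝ, E) S q b) (mfderiv 𝓘(ℝ, V) 𝓘(ℝ, E) S q c)) p) ∧
    ∀ a b c : V, fderiv ℝ (fun q => extDer 𝓘(ℝ, E) μ (S q) (mfderiv 𝓘(ℝ, V) 𝓘(ℝ, E) S q b)
      (mfderiv 𝓘(ℝ, V) 𝓘(ℝ, E) S q c)) p a +
      fderiv ℝ (fun q => extDer 𝓘(ℝ, E) μ (S q) (mfderiv 𝓘(ℝ, V) 𝓘(ℝ, E) S q c)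
      (mfderiv 𝓘(ℝ, V) 𝓘(ℝ, E) S q a)) p b +
      fderiv ℝ (fun q => extDer 𝓘(ℝ, E) μ (S q) (mfderiv 𝓘(ℝ, V) 𝓘(ℝ, E) S q a)
      (mfderiv 𝓘(ℝ, V) 𝓘(ℝ, E) S q b)) p c = 0 := by
  set m : V → V →L[ℝ] ℝ := pullOne μ S with hm
  have hms : ContDiffOn ℝ ∞ m U := contDiffOn_pullOne hμ hU hS
  have hmd : ∀ q ∈ U, HasFDerivAt m (fderiv ℝ m q) q := fun q hq =>
    ((hms.contDiffAt (hU.mem_nhds hq)).differentiableAt (by simp)).hasFDerivAt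
  have e1 : ∀ q ∈ U, ∀ b c : V, extDer 𝓘(ℝ, E) μ (S q) (mfderiv 𝓘(ℝ, V) 𝓘(ℝ, E) S q b)
      (mfderiv 𝓘(ℝ, V) 𝓘(ℝ, E) S q c) = fderiv ℝ m q b c - fderiv ℝ m q c b := by
    intro q hq b c
    rw [extDer_pullback hμ hU hS hq b c]
    have h4 : ∀ c d : V, fderiv ℝ (fun q => μ (S q) (mfderiv 𝓘(ℝ, V) 𝓘(ℝ, E) S q d)) q c =
        fderiv ℝ m q c d := by
      intro c d
      have h5 : HasFDerivAt (fun q => m q d)
          ((ContinuousLinearMap.apply ℝ ℝ d).comp (fderiv ℝ m q)) q :=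
        (ContinuousLinearMap.apply ℝ ℝ d).hasFDerivAt.comp q (hmd q hq)
      have h6 := h5.fderiv
      change fderiv ℝ (fun q => m q d) q c = _
      rw [h6]
      rfl
    rw [h4, h4]
  have hm2 : HasFDerivAt (fderiv ℝ m) (fderiv ℝ (fderiv ℝ m) p) p :=
    (((hms.contDiffAt (hU.mem_nhds hp)).fderiv_right (m := ∞) (by simp)).differentiableAt
      (by simp)).hasFDerivAt
  have hder : ∀ b c : V, HasFDerivAt (fun q => fderiv ℝ m q b c - fderiv ℝ m q c b)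
      ((ContinuousLinearMap.apply ℝ ℝ c).comp ((ContinuousLinearMap.apply ℝ (V →L[ℝ] ℝ) b).comp
        (fderiv ℝ (fderiv ℝ m) p)) -
      (ContinuousLinearMap.apply ℝ ℝ b).comp ((ContinuousLinearMap.apply ℝ (V →L[ℝ] ℝ) c).comp
        (fderiv ℝ (fderiv ℝ m) p))) p := by
    intro b c
    have h : ∀ b c : V, HasFDerivAt (fun q => fderiv ℝ m q b c)
        ((ContinuousLinearMap.apply ℝ ℝ c).comp ((ContinuousLinearMap.apply ℝ (V →L[ℝ] ℝ) b).comp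
        (fderiv ℝ (fderiv ℝ m) p))) p := by
      intro b c
      have h1 := (ContinuousLinearMap.apply ℝ (V →L[ℝ] ℝ) b).hasFDerivAt.comp p hm2
      exact (ContinuousLinearMap.apply ℝ ℝ c).hasFDerivAt.comp p h1
    exact (h b c).sub (h c b)
  have hev : ∀ b c : V, (fun q => extDer 𝓘(ℝ, E) μ (S q) (mfderiv 𝓘(ℝ, V) 𝓘(ℝ, E) S q b)
      (mfderiv 𝓘(ℝ, V) 𝓘(ℝ, E) S q c)) =ᶠ[𝓝 p]
      fun q => fderiv ℝ m q b c - fderiv ℝ m q c b := by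
    intro b c
    filter_upwards [hU.mem_nhds hp] with q hq
    exact e1 q hq b c
  refine ⟨fun b c => ((hder b c).differentiableAt.congr_of_eventuallyEq (hev b c)), ?_⟩
  intro a b c
  have hval : ∀ a b c : V, fderiv ℝ (fun q => extDer 𝓘(ℝ, E) μ (S q)
      (mfderiv 𝓘(ℝ, V) 𝓘(ℝ, E) S q b) (mfderiv 𝓘(ℝ, V) 𝓘(ℝ, E) S q c)) p a =
      fderiv ℝ (fderiv ℝ m) p a b c - fderiv ℝ (fderiv ℝ m) p a c b := by
    intro a b c
    rw [(hev b c).fderiv_eq, (hder b c).fderiv]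
    rfl
  have hsymm : ∀ u v : V, fderiv ℝ (fderiv ℝ m) p u v = fderiv ℝ (fderiv ℝ m) p v u := by
    intro u v
    have := (hms.contDiffAt (hU.mem_nhds hp)).isSymmSndFDerivAt (by
      simp only [minSmoothness_of_isRCLikeNormedField]; exact ENat.LEInfty.out)
    exact this u v
  rw [hval, hval, hval, hsymm b a, hsymm c a, hsymm c b]
  ring

/-- the path of forms `w + s dμ` -/
def pathForm (w : Bil E M) (μ : (x : M) → TangentSpace 𝓘(ℝ, E) x →L[ℝ] ℝ) (p : ℝ × M) :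
    TangentSpace 𝓘(ℝ, E) p.2 →L[ℝ] TangentSpace 𝓘(ℝ, E) p.2 →L[ℝ] ℝ :=
  w p.2 + p.1 • extDerL 𝓘(ℝ, E) μ p.2

lemma pathForm_apply (w : Bil E M) (μ : (x : M) → TangentSpace 𝓘(ℝ, E) x →L[ℝ] ℝ) (p : ℝ × M)
    (u v : TangentSpace 𝓘(ℝ, E) p.2) : pathForm w μ p u v =
      w p.2 u v + p.1 * extDer 𝓘(ℝ, E) μ p.2 u v := rfl

lemma smooth_pathForm {w : Bil E M}
    (hw : ∀ x₀, ContDiffOn ℝ ∞ (chartBil w x₀) (extChartAt 𝓘(ℝ, E) x₀).target)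
    {μ : (x : M) → TangentSpace 𝓘(ℝ, E) x →L[ℝ] ℝ} (hμ : SmoothForm μ) (p₀ : ℝ × M) :
    SmoothBilinAt (𝓘(ℝ, ℝ).prod 𝓘(ℝ, E)) (fun p : ℝ × M => p.2) (pathForm w μ) p₀ := by
  intro u v hu hv
  have a0 := smoothBilinAt_bil (J := 𝓘(ℝ, ℝ).prod 𝓘(ℝ, E)) (f := fun p : ℝ × M => p.2) hw
    (contMDiffAt_snd (p := p₀)) u v hu hv
  have a1 := smoothBilinAt_extDer (J := 𝓘(ℝ, ℝ).prod 𝓘(ℝ, E)) (f := fun p : ℝ × M => p.2) hμ
    (contMDiffAt_snd (p := p₀)) u v hu hv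
  have hs : ContMDiffAt (𝓘(ℝ, ℝ).prod 𝓘(ℝ, E)) 𝓘(ℝ, ℝ) ∞ (fun p : ℝ × M => p.1) p₀ :=
    contMDiffAt_fst
  exact a0.add (hs.mul a1)

/-- **The Moser computation**: along the evolution of the Moser vector field the path of forms
`w + s dμ` pulls back to a constant form. -/
theorem hasDerivAt_moser {w : Bil E M}
    (hw : ∀ x₀, ContDiffOn ℝ ∞ (chartBil w x₀) (extChartAt 𝓘(ℝ, E) x₀).target)
    (halt : ∀ x v, w x v v = 0)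
    (hcl : ∀ x₀, ∀ y ∈ (extChartAt 𝓘(ℝ, E) x₀).target, ∀ u v t,
      fderiv ℝ (chartBil w x₀) y u v t + fderiv ℝ (chartBil w x₀) y v t u +
        fderiv ℝ (chartBil w x₀) y t u v = 0)
    {μ : (x : M) → TangentSpace 𝓘(ℝ, E) x →L[ℝ] ℝ} (hμ : SmoothForm μ) {R : ℝ × M → M}
    (hR : ContMDiff (𝓘(ℝ, ℝ).prod 𝓘(ℝ, E)) 𝓘(ℝ, E) ∞ R) {D : Set (ℝ × M)} (hD : IsOpen D)
    (heq : ∀ p ∈ D, ∀ v, pathForm w μ (p.1, R p) (dS 𝓘(ℝ, E) R p.1 p.2) v = - μ (R p) v)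
    {s : ℝ} {x : M} (hsx : (s, x) ∈ D) (u v : E) :
    HasDerivAt (fun σ => pathForm w μ (σ, R (σ, x)) (dX 𝓘(ℝ, E) 𝓘(ℝ, E) R σ x u)
      (dX 𝓘(ℝ, E) 𝓘(ℝ, E) R σ x v)) 0 s := by
  set ψ := extChartAt 𝓘(ℝ, E) x with hψ
  set y : E := ψ x with hy
  have hψo : IsOpen ψ.target := isOpen_extChartAt_target x
  have hψs : ContMDiffOn 𝓘(ℝ, E) 𝓘(ℝ, E) ∞ ψ.symm ψ.target := contMDiffOn_extChartAt_symm x
  have hyt : y ∈ ψ.target := mem_extChartAt_target x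
  have hyx : ψ.symm y = x := ψ.left_inv (mem_extChartAt_source x)
  set S : ℝ × E → M := fun q => R (q.1, ψ.symm q.2) with hS
  have hmap : ContMDiffOn 𝓘(ℝ, ℝ × E) (𝓘(ℝ, ℝ).prod 𝓘(ℝ, E)) ∞
      (fun q : ℝ × E => (q.1, ψ.symm q.2)) (univ ×ˢ ψ.target) := by
    apply ContMDiffOn.prodMk
    · exact contDiff_fst.contMDiff.contMDiffOn
    · exact hψs.comp contDiff_snd.contMDiff.contMDiffOn (fun q hq => hq.2)
  have hopen0 : IsOpen ((univ : Set ℝ) ×ˢ ψ.target) := isOpen_univ.prod hψo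
  set U : Set (ℝ × E) := (univ ×ˢ ψ.target) ∩ (fun q : ℝ × E => (q.1, ψ.symm q.2)) ⁻¹' D with hU
  have hUo : IsOpen U := hmap.continuousOn.isOpen_inter_preimage hopen0 hD
  have hSs : ContMDiffOn 𝓘(ℝ, ℝ × E) 𝓘(ℝ, E) ∞ S U :=
    hR.comp_contMDiffOn (hmap.mono inter_subset_left)
  have hsy : (s, y) ∈ U := ⟨⟨mem_univ _, hyt⟩, by
    show (s, ψ.symm y) ∈ D
    rw [hyx]
    exact hsx⟩
  have hRs : ∀ p, MDifferentiableAt (𝓘(ℝ, ℝ).prod 𝓘(ℝ, E)) 𝓘(ℝ, E) R p := fun p =>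
    (hR p).mdifferentiableAt (by simp)
  -- derivatives of `S`
  have hS1 : ∀ q ∈ U, mfderiv 𝓘(ℝ, ℝ × E) 𝓘(ℝ, E) S q ((1:ℝ), (0:E)) =
      dS 𝓘(ℝ, E) R q.1 (ψ.symm q.2) := by
    intro q hq
    have h1 : MDifferentiableAt 𝓘(ℝ, ℝ × E) 𝓘(ℝ, E) S q :=
      (hSs.contMDiffAt (hUo.mem_nhds hq)).mdifferentiableAt (by simp)
    have h2 : HasMFDerivAt 𝓘(ℝ, ℝ) 𝓘(ℝ, ℝ × E) (fun σ : ℝ => (σ, q.2)) q.1
        (ContinuousLinearMap.inl ℝ ℝ E) :=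
      (hasFDerivAt_prodMk_left q.1 q.2).hasMFDerivAt
    have h3 := (HasMFDerivAt.comp q.1 (g := S) (f := fun σ : ℝ => (σ, q.2))
      h1.hasMFDerivAt h2).mfderiv
    have h4 : dS 𝓘(ℝ, E) R q.1 (ψ.symm q.2) =
      mfderiv 𝓘(ℝ, ℝ) 𝓘(ℝ, E) (S ∘ fun σ : ℝ => (σ, q.2)) q.1 (1:ℝ) := rfl
    rw [h4, h3]
    rfl
  have hS2 : ∀ q ∈ U, ∀ b : E, mfderiv 𝓘(ℝ, ℝ × E) 𝓘(ℝ, E) S q ((0:ℝ), b) =
      dX 𝓘(ℝ, E) 𝓘(ℝ, E) R q.1 (ψ.symm q.2) (mfderiv 𝓘(ℝ, E) 𝓘(ℝ, E) ψ.symm q.2 b) := by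
    intro q hq b
    have h1 : MDifferentiableAt 𝓘(ℝ, ℝ × E) 𝓘(ℝ, E) S q :=
      (hSs.contMDiffAt (hUo.mem_nhds hq)).mdifferentiableAt (by simp)
    have h2 : HasMFDerivAt 𝓘(ℝ, E) 𝓘(ℝ, ℝ × E) (fun z : E => (q.1, z)) q.2
        (ContinuousLinearMap.inr ℝ ℝ E) :=
      (hasFDerivAt_prodMk_right q.1 q.2).hasMFDerivAt
    have h3 := (HasMFDerivAt.comp q.2 (g := S) (f := fun z : E => (q.1, z))
      h1.hasMFDerivAt h2).mfderiv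
    have h5 : MDifferentiableAt 𝓘(ℝ, E) 𝓘(ℝ, E) (fun x' => R (q.1, x')) (ψ.symm q.2) := by
      exact (hRs (q.1, ψ.symm q.2)).comp (ψ.symm q.2)
        (mdifferentiableAt_const.prodMk mdifferentiableAt_id)
    have h7 : MDifferentiableAt 𝓘(ℝ, E) 𝓘(ℝ, E) ψ.symm q.2 :=
      (hψs.contMDiffAt (hψo.mem_nhds hq.1.2)).mdifferentiableAt (by simp)
    have h8 := mfderiv_comp (I := 𝓘(ℝ, E)) (I' := 𝓘(ℝ, E)) (I'' := 𝓘(ℝ, E)) q.2 h5 h7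
    have h9 : (S ∘ fun z : E => (q.1, z)) = (fun x' => R (q.1, x')) ∘ ψ.symm := rfl
    rw [h9, h8] at h3
    have h10 := DFunLike.congr_fun h3 b
    exact h10.symm
  have hS2' : ∀ σ, (σ, y) ∈ U → ∀ b : E,
      (mfderiv 𝓘(ℝ, ℝ × E) 𝓘(ℝ, E) S (σ, y) ((0:ℝ), b) : E) =
      (dX 𝓘(ℝ, E) 𝓘(ℝ, E) R σ x b : E) := by
    intro σ hσ b
    have h1 := hS2 (σ, y) hσ b
    have h2 : (mfderiv 𝓘(ℝ, E) 𝓘(ℝ, E) ψ.symm y b : E) = b := mfderiv_extChartAt_symm_self x b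
    refine (show _ = (_ : E) from h1).trans ?_
    show (mfderiv 𝓘(ℝ, E) 𝓘(ℝ, E) (fun x' => R (σ, x')) (ψ.symm y) : E →L[ℝ] E)
      (mfderiv 𝓘(ℝ, E) 𝓘(ℝ, E) ψ.symm y b : E) =
      (mfderiv 𝓘(ℝ, E) 𝓘(ℝ, E) (fun x' => R (σ, x')) x : E →L[ℝ] E) b
    rw [h2, hyx]
  -- the three functions
  set W : ℝ × E → ℝ × E → ℝ × E → ℝ := fun b c q => w (S q)
    (mfderiv 𝓘(ℝ, ℝ × E) 𝓘(ℝ, E) S q b) (mfderiv 𝓘(ℝ, ℝ × E) 𝓘(ℝ, E) S q c) with hWdef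
  set Vf : ℝ × E → ℝ × E → ℝ × E → ℝ := fun b c q => extDer 𝓘(ℝ, E) μ (S q)
    (mfderiv 𝓘(ℝ, ℝ × E) 𝓘(ℝ, E) S q b) (mfderiv 𝓘(ℝ, ℝ × E) 𝓘(ℝ, E) S q c) with hVdef
  obtain ⟨hWd, hWc⟩ := closed_pullback hw halt hcl hUo hSs hsy
  obtain ⟨hVd, hVc⟩ := extDer_closed_pullback hμ hUo hSs hsy
  set e : ℝ × E := ((1:ℝ), (0:E)) with he
  set b : ℝ × E := ((0:ℝ), u) with hb
  set c : ℝ × E := ((0:ℝ), v) with hc
  have hpull := extDer_pullback hμ hUo hSs hsy b c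
  -- the function in coordinates
  have hUs : ∀ᶠ σ in 𝓝 s, (σ, y) ∈ U := by
    have : ContinuousAt (fun σ : ℝ => (σ, y)) s := by fun_prop
    exact this.preimage_mem_nhds (hUo.mem_nhds hsy)
  have hfun : (fun σ => pathForm w μ (σ, R (σ, x)) (dX 𝓘(ℝ, E) 𝓘(ℝ, E) R σ x u)
      (dX 𝓘(ℝ, E) 𝓘(ℝ, E) R σ x v)) =ᶠ[𝓝 s] fun σ => W b c (σ, y) + σ * Vf b c (σ, y) := by
    filter_upwards [hUs] with σ hσ
    have h1 := hS2' σ hσ u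
    have h2 := hS2' σ hσ v
    have h3 : S (σ, y) = R (σ, x) := by
      show R (σ, ψ.symm y) = _
      rw [hyx]
    rw [pathForm_apply]
    have h4 : ∀ z z' : M, z = z' → ∀ a a' d d' : E, a = a' → d = d' →
        (w z : E →L[ℝ] E →L[ℝ] ℝ) a d = (w z' : E →L[ℝ] E →L[ℝ] ℝ) a' d' := by
      intro z z' h a a' d d' ha hd
      subst h ha hd
      rfl
    have h5 : ∀ z z' : M, z = z' → ∀ a a' d d' : E, a = a' → d = d' →
        extDer 𝓘(ℝ, E) μ z a d = extDer 𝓘(ℝ, E) μ z' a' d' := by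
      intro z z' h a a' d d' ha hd
      subst h ha hd
      rfl
    exact congrArg₂ (· + ·) (h4 _ _ h3.symm _ _ _ _ h1.symm h2.symm)
      (congrArg (σ * ·) (h5 _ _ h3.symm _ _ _ _ h1.symm h2.symm))
  have hline : HasDerivAt (fun σ : ℝ => (σ, y)) e s := (hasFDerivAt_prodMk_left s y).hasDerivAt
  have hd1 : HasDerivAt (W b c ∘ fun σ : ℝ => (σ, y)) (fderiv ℝ (W b c) (s, y) e) s :=
    (show HasFDerivAt (W b c) (fderiv ℝ (W b c) (s, y)) (s, y) from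
      (hWd b c).hasFDerivAt).comp_hasDerivAt s hline
  have hd2 : HasDerivAt (Vf b c ∘ fun σ : ℝ => (σ, y)) (fderiv ℝ (Vf b c) (s, y) e) s :=
    (show HasFDerivAt (Vf b c) (fderiv ℝ (Vf b c) (s, y)) (s, y) from
      (hVd b c).hasFDerivAt).comp_hasDerivAt s hline
  have hd3 := hd1.add ((hasDerivAt_id s).mul hd2)
  refine (hd3.congr_of_eventuallyEq hfun).congr_deriv ?_
  -- contraction identities
  have hfst : HasFDerivAt (fun q : ℝ × E => q.1) (ContinuousLinearMap.fst ℝ ℝ E) (s, y) :=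
    hasFDerivAt_fst
  have hcontr : ∀ d : ℝ × E, (fun q => W e d q + q.1 * Vf e d q) =ᶠ[𝓝 (s, y)]
      fun q => - μ (S q) (mfderiv 𝓘(ℝ, ℝ × E) 𝓘(ℝ, E) S q d) := by
    intro d
    filter_upwards [hUo.mem_nhds hsy] with q hq
    have h1 := heq (q.1, ψ.symm q.2) hq.2 (mfderiv 𝓘(ℝ, ℝ × E) 𝓘(ℝ, E) S q d)
    rw [← h1, pathForm_apply]
    show w (S q) (mfderiv 𝓘(ℝ, ℝ × E) 𝓘(ℝ, E) S q e) _ +
      q.1 * extDer 𝓘(ℝ, E) μ (S q) (mfderiv 𝓘(ℝ, ℝ × E) 𝓘(ℝ, E) S q e) _ = _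
    rw [hS1 q hq]
  have hWanti : ∀ b' c' : ℝ × E, W b' c' = fun q => - W c' b' q := by
    intro b' c'
    funext q
    exact alt_swap halt _ _ _
  have hVanti : ∀ b' c' : ℝ × E, Vf b' c' = fun q => - Vf c' b' q := by
    intro b' c'
    funext q
    simp only [hVdef, extDer]
    ring
  have hneg : ∀ (f : ℝ × E → ℝ) (q d : ℝ × E), fderiv ℝ (fun q => - f q) q d = - fderiv ℝ f q d := by
    intro f q d
    rw [fderiv_fun_neg]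
    rfl
  have hder : ∀ d d' : ℝ × E, d'.1 = 0 → fderiv ℝ (W e d) (s, y) d' + s * fderiv ℝ (Vf e d) (s, y) d' =
      - fderiv ℝ (fun q => μ (S q) (mfderiv 𝓘(ℝ, ℝ × E) 𝓘(ℝ, E) S q d)) (s, y) d' := by
    intro d d' hd'
    have hW' : HasFDerivAt (W e d) (fderiv ℝ (W e d) (s, y)) (s, y) := (hWd e d).hasFDerivAt
    have hV' : HasFDerivAt (Vf e d) (fderiv ℝ (Vf e d) (s, y)) (s, y) := (hVd e d).hasFDerivAt
    have h1 := hW'.add (hfst.mul hV')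
    have h2 : fderiv ℝ (fun q => W e d q + q.1 * Vf e d q) (s, y) = _ := h1.fderiv
    have h3 := (hcontr d).fderiv_eq (𝕜 := ℝ)
    rw [h2] at h3
    have h4 : _ = fderiv ℝ (fun q => - μ (S q) (mfderiv 𝓘(ℝ, ℝ × E) 𝓘(ℝ, E) S q d)) (s, y) d' :=
      congrArg (fun A : ℝ × E →L[ℝ] ℝ => A d') h3
    rw [hneg] at h4
    simp only [add_apply, smul_apply, smul_eq_mul, ContinuousLinearMap.coe_fst', hd', mul_zero,
      neg_apply, add_zero] at h4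
    exact h4
  have k1 := hder c b rfl
  have k2 := hder b c rfl
  have c1 := hWc e b c
  have c2 := hVc e b c
  have n1 : fderiv ℝ (W c e) (s, y) b = - fderiv ℝ (W e c) (s, y) b := by
    rw [hWanti c e]
    exact hneg _ _ _
  have n2 : fderiv ℝ (Vf c e) (s, y) b = - fderiv ℝ (Vf e c) (s, y) b := by
    rw [hVanti c e]
    exact hneg _ _ _
  change fderiv ℝ (W b c) (s, y) e + fderiv ℝ (W c e) (s, y) b + fderiv ℝ (W e b) (s, y) c = 0 at c1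
  change fderiv ℝ (Vf b c) (s, y) e + fderiv ℝ (Vf c e) (s, y) b +
    fderiv ℝ (Vf e b) (s, y) c = 0 at c2
  change Vf b c (s, y) = _ at hpull
  simp only [id_eq, one_mul, Function.comp_apply]
  rw [n1] at c1
  rw [n2] at c2
  linear_combination c1 + s * c2 + k1 - k2 + hpull

end Run7.h115
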