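import Pool.Agent.Run7.h115.Glue3

/-! Pushing forward symplectic diffeomorphisms of balls by finitely many disjoint Darboux balls. -/

set_option autoImplicit false
set_option linter.unusedSectionVars false
set_option maxSynthPendingDepth 3

open scoped ContDiff Topology Manifold
open Set Metric Function

noncomputable section

namespace Run7.h115

variable {E : Type*} [NormedAddCommGroup E] [InnerProductSpace ℂ E] [FiniteDimensional ℂ E]
  {M : Type*} [TopologicalSpace M] [ChartedSpace E M] [IsManifold 𝓘(ℝ, E) ∞ M]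

/-- A finite (or not) collection of disjoint symplectic balls of radius `r` -/
structure Balls (wM : Bil E M) (S : Set M) (r : ℝ) (φ : M → E → M) : Prop where
  smooth : ∀ p ∈ S, ContMDiffOn 𝓘(ℝ, E) 𝓘(ℝ, E) ∞ (φ p) (ball 0 r)
  inj : ∀ p ∈ S, ∀ q ∈ S, ∀ x ∈ ball (0 : E) r, ∀ y ∈ ball (0 : E) r,
    φ p x = φ q y → p = q ∧ x = y
  symp : ∀ p ∈ S, ∀ x ∈ ball (0 : E) r, ∀ u v : E,
    wM (φ p x) (mfderiv 𝓘(ℝ, E) 𝓘(ℝ, E) (φ p) x u) (mfderiv 𝓘(ℝ, E) 𝓘(ℝ, E) (φ p) x v) =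
      stdForm u v

lemma Balls.mono {wM : Bil E M} {S : Set M} {r r' : ℝ} {φ : M → E → M} (h : Balls wM S r φ)
    (hr : r' ≤ r) : Balls wM S r' φ where
  smooth := fun p hp => (h.smooth p hp).mono (ball_subset_ball hr)
  inj := fun p hp q hq x hx y hy => h.inj p hp q hq x (ball_subset_ball hr hx) y
    (ball_subset_ball hr hy)
  symp := fun p hp x hx => h.symp p hp x (ball_subset_ball hr hx)

lemma IsBlowup.balls {N : Type*} [TopologicalSpace N] [ChartedSpace E N] {wM : Bil E M} {S : Set M}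
    {ε : ℝ} {wN : Bil E N} {r : ℝ} {φ : M → E → M} {J : M → N}
    {K : M → E × ℂ → N} (B : IsBlowup wM S ε wN r φ J K) : Balls wM S r φ :=
  ⟨B.φ_smooth, B.φ_inj, B.φ_symp⟩

variable (E) in
/-- the constant field given by the standard form -/
def stdBil : Bil E E := fun _ => stdL E

lemma stdBil_nd : (stdBil E).ND := fun _ v h => (isSympForm_stdL (E := E)).nd v h

lemma Balls.pullsBack {wM : Bil E M} {S : Set M} {r : ℝ} {φ : M → E → M} (h : Balls wM S r φ)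
    {p : M} (hp : p ∈ S) : PullsBack wM (stdBil E) (φ p) 1 (ball 0 r) := by
  intro x hx u v
  rw [one_mul]
  exact h.symp p hp x hx u v

lemma isAut_std {H : E ≃ E} (h1 : ContDiff ℝ ∞ H) (h2 : ContDiff ℝ ∞ H.symm)
    (h3 : ∀ x, IsSymp (stdL E) (fderiv ℝ H x)) : IsAut (stdBil E) H := by
  refine ⟨h1.contMDiff, h2.contMDiff, fun x u v => ?_⟩
  rw [mfderiv_eq_fderiv]
  exact h3 x u v

/-- push forward by one ball -/
lemma exists_push_ball [T2Space M] {wM : Bil E M} {S : Set M} {r : ℝ} {φ : M → E → M}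
    (h : Balls wM S r φ) {p : M} (hp : p ∈ S) {H : E ≃ E} (hH : IsAut (stdBil E) H) {R : ℝ}
    (hR : R < r) (hHR : ∀ x, x ∉ closedBall (0 : E) R → H x = x) :
    ∃ G : M ≃ M, IsAut wM G ∧ (∀ x ∈ ball (0 : E) r, G (φ p x) = φ p (H x)) ∧
      ∀ y, y ∉ φ p '' closedBall 0 R → G y = y :=
  exists_push one_ne_zero isOpen_ball (h.smooth p hp)
    (fun x hx y hy hxy => (h.inj p hp p hp x hx y hy hxy).2) (h.pullsBack hp) stdBil_nd hH
    (isCompact_closedBall _ _) (closedBall_subset_ball hR) hHR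

/-- push forward by finitely many balls -/
lemma exists_push_balls [T2Space M] {wM : Bil E M} {S : Set M} (hS : S.Finite) {r : ℝ}
    {φ : M → E → M} (h : Balls wM S r φ) {H : M → (E ≃ E)} (hH : ∀ p ∈ S, IsAut (stdBil E) (H p))
    {R : M → ℝ} (hR : ∀ p ∈ S, R p < r)
    (hHR : ∀ p ∈ S, ∀ x, x ∉ closedBall (0 : E) (R p) → H p x = x) :
    ∃ G : M ≃ M, IsAut wM G ∧ (∀ p ∈ S, ∀ x ∈ ball (0 : E) r, G (φ p x) = φ p (H p x)) ∧
      ∀ y, (∀ p ∈ S, y ∉ φ p '' closedBall 0 (R p)) → G y = y := by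
  have key : ∀ T : Set M, T.Finite → T ⊆ S → ∃ G : M ≃ M, IsAut wM G ∧
      (∀ p ∈ T, ∀ x ∈ ball (0 : E) r, G (φ p x) = φ p (H p x)) ∧
      ∀ y, (∀ p ∈ T, y ∉ φ p '' closedBall 0 (R p)) → G y = y := by
    intro T hT
    induction T, hT using Set.Finite.induction_on with
    | empty =>
      intro _
      exact ⟨Equiv.refl M, IsAut.refl _, fun p hp => absurd hp (notMem_empty p), fun y _ => rfl⟩
    | @insert q T hq hT ih =>
      intro hTS
      obtain ⟨G, hG1, hG2, hG3⟩ := ih ((subset_insert q T).trans hTS)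
      have hqS : q ∈ S := hTS (mem_insert q T)
      obtain ⟨G', hG1', hG2', hG3'⟩ := exists_push_ball h hqS (hH q hqS) (hR q hqS) (hHR q hqS)
      refine ⟨G.trans G', hG1.trans hG1', ?_, ?_⟩
      · intro p hp x hx
        show G' (G (φ p x)) = φ p (H p x)
        rcases hp with rfl | hp
        · have h1 : G (φ p x) = φ p x := by
            apply hG3
            rintro p' hp' ⟨y', hy', hyp⟩
            have hp'S := hTS (mem_insert_of_mem _ hp')
            have h2 := h.inj p' hp'S p hqS y' (closedBall_subset_ball (hR p' hp'S) hy') x hx hyp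
            exact hq (h2.1 ▸ hp')
          rw [h1, hG2' x hx]
        · have hpS := hTS (mem_insert_of_mem _ hp)
          rw [hG2 p hp x hx]
          apply hG3'
          rintro ⟨y', hy', hyp⟩
          have hHx : H p x ∈ ball (0 : E) r :=
            maps_of_support (closedBall_subset_ball (hR p hpS)) (hHR p hpS) hx
          have h2 := h.inj q hqS p hpS y' (closedBall_subset_ball (hR q hqS) hy') _ hHx hyp
          exact hq (h2.1.symm ▸ hp)
      · intro y hy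
        show G' (G y) = y
        rw [hG3 y (fun p hp => hy p (mem_insert_of_mem _ hp))]
        exact hG3' y (hy q (mem_insert _ _))
  exact key S hS subset_rfl

/-- `φ₁` and `φ₂` are related on the balls of radius `ρ` by a symplectic diffeomorphism. -/
def Related (wM : Bil E M) (S : Set M) (φ₁ φ₂ : M → E → M) (ρ : ℝ) : Prop :=
  ∃ Γ : M ≃ M, IsAut wM Γ ∧ ∀ p ∈ S, ∀ x ∈ closedBall (0 : E) ρ, Γ (φ₁ p x) = φ₂ p x

lemma Related.symm {wM : Bil E M} {S : Set M} {φ₁ φ₂ : M → E → M} {ρ : ℝ}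
    (h : Related wM S φ₁ φ₂ ρ) : Related wM S φ₂ φ₁ ρ := by
  obtain ⟨Γ, h1, h2⟩ := h
  refine ⟨Γ.symm, h1.symm, fun p hp x hx => ?_⟩
  rw [Equiv.symm_apply_eq, h2 p hp x hx]

lemma Related.trans {wM : Bil E M} {S : Set M} {φ₁ φ₂ φ₃ : M → E → M} {ρ : ℝ}
    (h : Related wM S φ₁ φ₂ ρ) (h' : Related wM S φ₂ φ₃ ρ) : Related wM S φ₁ φ₃ ρ := by
  obtain ⟨Γ, h1, h2⟩ := h
  obtain ⟨Γ', h1', h2'⟩ := h'
  refine ⟨Γ.trans Γ', h1.trans h1', fun p hp x hx => ?_⟩
  show Γ' (Γ (φ₁ p x)) = φ₃ p x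
  rw [h2 p hp x hx, h2' p hp x hx]

lemma Related.refl (wM : Bil E M) (S : Set M) (φ : M → E → M) (ρ : ℝ) : Related wM S φ φ ρ :=
  ⟨Equiv.refl M, IsAut.refl _, fun _ _ _ _ => rfl⟩

/-- **Openness**: if `φ₂ = φ₁ ∘ g` with `g` close to the identity, then the balls are related. -/
lemma exists_related [T2Space M] {wM : Bil E M} {S : Set M} (hS : S.Finite) {r : ℝ}
    {φ₁ : M → E → M} (h : Balls wM S r φ₁) {ρ R : ℝ} (hρ : 0 < ρ) (hρR : ρ < R) (hRr : R ≤ r) :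
    ∃ η : ℝ, 0 < η ∧ ∀ (φ₂ : M → E → M) (g : M → E → E),
      (∀ p ∈ S, ContDiffOn ℝ ∞ (g p) (ball 0 R)) →
      (∀ p ∈ S, ∀ x ∈ ball (0 : E) R, IsSymp (stdL E) (fderiv ℝ (g p) x)) →
      (∀ p ∈ S, ∀ x ∈ ball (0 : E) R, ‖g p x - x‖ ≤ η) →
      (∀ p ∈ S, ∀ x ∈ ball (0 : E) R, ‖fderiv ℝ (g p) x - ContinuousLinearMap.id ℝ E‖ ≤ η) →
      (∀ p ∈ S, ∀ x ∈ closedBall (0 : E) ρ, φ₂ p x = φ₁ p (g p x)) →
      Related wM S φ₁ φ₂ ρ := by
  obtain ⟨η, hη, key⟩ := cutoff_ext (isSympForm_stdL (E := E)) hρ hρR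
  refine ⟨η, hη, fun φ₂ g hg1 hg2 hg3 hg4 hg5 => ?_⟩
  have h1 : ∀ p : M, ∃ (H : E ≃ E) (R' : ℝ), p ∈ S → (IsAut (stdBil E) H ∧
      (∀ x ∈ closedBall (0 : E) ρ, H x = g p x) ∧ R' < R ∧ ∀ x, x ∉ closedBall (0 : E) R' → H x = x) := by
    intro p
    by_cases hp : p ∈ S
    · obtain ⟨H, hH1, hH2, hH3, hH4, R', hR', hH5⟩ :=
        key (g p) (hg1 p hp) (hg2 p hp) (hg3 p hp) (hg4 p hp)
      refine ⟨H, R', fun _ => ⟨isAut_std hH1 hH2 hH3, hH4, hR', fun x hx => ?_⟩⟩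
      exact hH5 x (fun h => hx (ball_subset_closedBall h))
    · exact ⟨Equiv.refl E, 0, fun h => absurd h hp⟩
  choose H R' hHR' using h1
  obtain ⟨G, hG1, hG2, -⟩ := exists_push_balls hS h (H := H) (R := R')
    (fun p hp => (hHR' p hp).1) (fun p hp => (hHR' p hp).2.2.1.trans_le hRr)
    (fun p hp => (hHR' p hp).2.2.2)
  refine ⟨G, hG1, fun p hp x hx => ?_⟩
  rw [hG2 p hp x (closedBall_subset_ball (hρR.trans_le hRr) hx), (hHR' p hp).2.1 x hx,
    hg5 p hp x hx]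

end Run7.h115
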