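import Mathlib

/-! Small perturbations of the identity are diffeomorphisms. -/

set_option autoImplicit false
set_option linter.unusedSectionVars false
set_option maxSynthPendingDepth 3

open scoped ContDiff Topology NNReal
open Set Metric Function

noncomputable section

namespace Run7.h115

variable {E : Type*} [NormedAddCommGroup E] [NormedSpace ℝ E] [FiniteDimensional ℝ E]

lemma norm_id_le' : ‖ContinuousLinearMap.id ℝ E‖ ≤ 1 := ContinuousLinearMap.norm_id_le

/-- a map whose derivative is close to the identity has an invertible derivative -/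
lemma injective_of_near_id {A : E →L[ℝ] E} (h : ‖A - ContinuousLinearMap.id ℝ E‖ ≤ 1 / 2) :
    Injective A := by
  rw [injective_iff_map_eq_zero]
  intro v hv
  have h1 : ‖(A - ContinuousLinearMap.id ℝ E) v‖ ≤ 1 / 2 * ‖v‖ :=
    (A - ContinuousLinearMap.id ℝ E).le_of_opNorm_le h v
  have h2 : (A - ContinuousLinearMap.id ℝ E) v = - v := by
    simp [hv]
  rw [h2, norm_neg] at h1
  have h3 : ‖v‖ ≤ 0 := by linarith
  exact norm_le_zero_iff.1 h3

/-- the continuous linear equivalence given by an injective endomorphism -/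
def equivOfInj (A : E →L[ℝ] E) (h : Injective A) : E ≃L[ℝ] E :=
  (LinearEquiv.ofInjectiveEndo (A : E →ₗ[ℝ] E) h).toContinuousLinearEquiv

@[simp] lemma equivOfInj_apply (A : E →L[ℝ] E) (h : Injective A) (v : E) :
    equivOfInj A h v = A v := rfl

lemma equivOfInj_coe (A : E →L[ℝ] E) (h : Injective A) :
    (equivOfInj A h : E →L[ℝ] E) = A := by
  ext v; rfl

/-- A smooth map `g : E → E` with `‖Dg - 1‖ ≤ 1/2` is a diffeomorphism. -/
theorem pert_diffeo {g : E → E} (hg : ContDiff ℝ ∞ g)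
    (h : ∀ x, ‖fderiv ℝ g x - ContinuousLinearMap.id ℝ E‖ ≤ 1 / 2) :
    ∃ e : E ≃ E, (∀ x, e x = g x) ∧ ContDiff ℝ ∞ e.symm := by
  have : CompleteSpace E := FiniteDimensional.complete ℝ E
  have hgd : Differentiable ℝ g := hg.differentiable (by simp)
  have hlip : LipschitzWith (1 / 2 : ℝ≥0) (fun x => g x - x) := by
    apply lipschitzWith_of_nnnorm_fderiv_le (𝕜 := ℝ) (hgd.sub differentiable_id)
    intro x
    have h1 : fderiv ℝ (g - id) x = fderiv ℝ g x - ContinuousLinearMap.id ℝ E :=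
      ((hgd x).hasFDerivAt.sub (hasFDerivAt_id x)).fderiv
    rw [h1]
    have h2 := h x
    rw [← NNReal.coe_le_coe]
    simpa using h2
  have hal : ApproximatesLinearOn g ((ContinuousLinearEquiv.refl ℝ E : E ≃L[ℝ] E) : E →L[ℝ] E)
      univ (1 / 2 : ℝ≥0) := by
    intro x _ y _
    have h1 := hlip.dist_le_mul x y
    rw [dist_eq_norm] at h1
    have h2 : g x - g y - ((ContinuousLinearEquiv.refl ℝ E : E ≃L[ℝ] E) : E →L[ℝ] E) (x - y) =
        g x - x - (g y - y) := by
      simp
      abel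
    rw [h2, ← dist_eq_norm x y]
    exact h1
  have hc : Subsingleton E ∨ (1 / 2 : ℝ≥0) <
      ‖((ContinuousLinearEquiv.refl ℝ E).symm : E →L[ℝ] E)‖₊⁻¹ := by
    rcases subsingleton_or_nontrivial E with h1 | h1
    · exact Or.inl h1
    · right
      have h2 : ‖((ContinuousLinearEquiv.refl ℝ E).symm : E →L[ℝ] E)‖₊ = 1 := by
        have : ((ContinuousLinearEquiv.refl ℝ E).symm : E →L[ℝ] E) =
          ContinuousLinearMap.id ℝ E := by ext; rfl
        rw [this]
        exact ContinuousLinearMap.nnnorm_id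
      rw [h2, inv_one]
      rw [← NNReal.coe_lt_coe]
      norm_num
  let hm : E ≃ₜ E := hal.toHomeomorph g hc
  have hmg : ∀ x, hm x = g x := fun x => rfl
  refine ⟨hm.toEquiv, hmg, ?_⟩
  refine hm.contDiff_symm (f₀' := fun a => equivOfInj (fderiv ℝ g a) (injective_of_near_id (h a)))
    (fun a => ?_) hg
  rw [equivOfInj_coe]
  exact (hgd a).hasFDerivAt

/-- derivative of the inverse of a small perturbation -/
lemma fderiv_symm_near {e : E ≃ E} (he : ContDiff ℝ ∞ e) (hes : ContDiff ℝ ∞ e.symm) {δ : ℝ}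
    (hδ : δ ≤ 1 / 2)
    (h : ∀ x, ‖fderiv ℝ e x - ContinuousLinearMap.id ℝ E‖ ≤ δ) (y : E) :
    ‖fderiv ℝ e.symm y - ContinuousLinearMap.id ℝ E‖ ≤ 2 * δ := by
  set x := e.symm y with hx
  have hy : e x = y := e.apply_symm_apply y
  have hed := he.differentiable (by simp) x
  have hesd := hes.differentiable (by simp) (e x)
  set B := fderiv ℝ e.symm y with hB
  set A := fderiv ℝ e x with hA
  have h1 : B.comp A = ContinuousLinearMap.id ℝ E := by
    have h2 := fderiv_comp x hesd hed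
    have h3 : (e.symm ∘ e) = id := by funext z; simp
    rw [h3, fderiv_id, hy] at h2
    exact h2.symm
  have hδ0 : 0 ≤ δ := (norm_nonneg _).trans (h x)
  have h4 : B - ContinuousLinearMap.id ℝ E = - B.comp (A - ContinuousLinearMap.id ℝ E) := by
    rw [ContinuousLinearMap.comp_sub, h1]
    ext v
    simp
  have h5 : ‖B - ContinuousLinearMap.id ℝ E‖ ≤ ‖B‖ * δ := by
    rw [h4, norm_neg]
    exact (ContinuousLinearMap.opNorm_comp_le _ _).trans
      (mul_le_mul_of_nonneg_left (h x) (norm_nonneg _))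
  have h6 : ‖B‖ ≤ 1 + ‖B‖ * δ := by
    calc ‖B‖ = ‖ContinuousLinearMap.id ℝ E + (B - ContinuousLinearMap.id ℝ E)‖ := by
            congr 1; abel
      _ ≤ ‖ContinuousLinearMap.id ℝ E‖ + ‖B - ContinuousLinearMap.id ℝ E‖ := norm_add_le _ _
      _ ≤ 1 + ‖B‖ * δ := add_le_add norm_id_le' h5
  have h7 : ‖B‖ ≤ 2 := by
    nlinarith [norm_nonneg B]
  calc ‖B - ContinuousLinearMap.id ℝ E‖ ≤ ‖B‖ * δ := h5
    _ ≤ 2 * δ := mul_le_mul_of_nonneg_right h7 hδ0

end Run7.h115
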