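import Mathlib

/-! The inverse function theorem for maps smooth on an open set, and extension by the identity of
diffeomorphisms with compact support. -/

set_option autoImplicit false
set_option linter.unusedSectionVars false
set_option maxSynthPendingDepth 3

open scoped ContDiff Topology Manifold
open Set Metric Function

noncomputable section

namespace Run7.h115

variable {E : Type*} [NormedAddCommGroup E] [NormedSpace ℝ E] [FiniteDimensional ℝ E]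
  {X : Type*} [TopologicalSpace X] [ChartedSpace E X] [IsManifold 𝓘(ℝ, E) ∞ X]
  {M : Type*} [TopologicalSpace M] [ChartedSpace E M] [IsManifold 𝓘(ℝ, E) ∞ M]

/-- Inverse function theorem for maps which are smooth on an open set. -/
theorem local_inverse {w : X → M} {U : Set X} (hU : IsOpen U)
    (hw : ContMDiffOn 𝓘(ℝ, E) 𝓘(ℝ, E) ∞ w U) {ξ : X} (hξ : ξ ∈ U)
    (hinj : Function.Injective (mfderiv 𝓘(ℝ, E) 𝓘(ℝ, E) w ξ)) :
    ∃ (S : Set X) (v : M → X), IsOpen S ∧ ξ ∈ S ∧ S ⊆ U ∧ (∀ ζ ∈ S, v (w ζ) = ζ) ∧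
      (∀ S' ⊆ S, IsOpen S' → IsOpen (w '' S')) ∧
      ∀ ζ ∈ S, ContMDiffAt 𝓘(ℝ, E) 𝓘(ℝ, E) ∞ v (w ζ) := by
  set φ := extChartAt 𝓘(ℝ, E) (w ξ) with hφ
  set ψ := extChartAt 𝓘(ℝ, E) ξ with hψ
  have hψo : IsOpen ψ.target := isOpen_extChartAt_target ξ
  have hφs : IsOpen φ.source := isOpen_extChartAt_source (w ξ)
  have hψs : IsOpen ψ.source := isOpen_extChartAt_source ξ
  set W : E → E := φ ∘ w ∘ ψ.symm with hW
  have hWs : ∀ y ∈ ψ.target, ψ.symm y ∈ U → w (ψ.symm y) ∈ φ.source → ContDiffAt ℝ ∞ W y := by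
    intro y hy hyU hwy
    rw [← contMDiffAt_iff_contDiffAt]
    have h1 : ContMDiffAt 𝓘(ℝ, E) 𝓘(ℝ, E) ∞ ψ.symm y :=
      (contMDiffOn_extChartAt_symm ξ).contMDiffAt (hψo.mem_nhds hy)
    have h2 : ContMDiffAt 𝓘(ℝ, E) 𝓘(ℝ, E) ∞ (w ∘ ψ.symm) y :=
      (hw.contMDiffAt (hU.mem_nhds hyU)).comp y h1
    have h3 : ContMDiffAt 𝓘(ℝ, E) 𝓘(ℝ, E) ∞ φ ((w ∘ ψ.symm) y) :=
      contMDiffAt_extChartAt' (by rwa [hφ, extChartAt_source] at hwy)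
    exact h3.comp y h2
  have hy₀ : ψ ξ ∈ ψ.target := mem_extChartAt_target ξ
  have hsym : ψ.symm (ψ ξ) = ξ := ψ.left_inv (mem_extChartAt_source ξ)
  have hw₀ : w (ψ.symm (ψ ξ)) ∈ φ.source := by rw [hsym]; exact mem_extChartAt_source (w ξ)
  have hu₀ : ψ.symm (ψ ξ) ∈ U := by rw [hsym]; exact hξ
  have hwat : ContMDiffAt 𝓘(ℝ, E) 𝓘(ℝ, E) ∞ w ξ := hw.contMDiffAt (hU.mem_nhds hξ)
  have hWd : fderiv ℝ W (ψ ξ) = mfderiv 𝓘(ℝ, E) 𝓘(ℝ, E) w ξ := by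
    have h1 := (hwat.mdifferentiableAt (by simp)).mfderiv
    rw [h1]
    simp only [modelWithCornersSelf_coe, range_id, fderivWithin_univ]
    rfl
  have hinj' : Function.Injective (fderiv ℝ W (ψ ξ)) := by rw [hWd]; exact hinj
  let l : E ≃ₗ[ℝ] E := LinearEquiv.ofInjectiveEndo
    (fderiv ℝ W (ψ ξ) : E →ₗ[ℝ] E) hinj'
  let L : E ≃L[ℝ] E := l.toContinuousLinearEquiv
  have hL : (L : E →L[ℝ] E) = fderiv ℝ W (ψ ξ) := by
    refine ContinuousLinearMap.ext fun a => ?_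
    rfl
  have hWdiff : HasFDerivAt W (L : E →L[ℝ] E) (ψ ξ) := by
    rw [hL]
    exact ((hWs _ hy₀ hu₀ hw₀).differentiableAt (by simp)).hasFDerivAt
  let f := (hWs _ hy₀ hu₀ hw₀).toOpenPartialHomeomorph W hWdiff (by simp)
  have hfc : (f : E → E) = W := rfl
  have hfs : ψ ξ ∈ f.source :=
    (hWs _ hy₀ hu₀ hw₀).mem_toOpenPartialHomeomorph_source hWdiff (by simp)
  -- the neighbourhood
  have hS : ∀ᶠ ζ in 𝓝 ξ, (ζ ∈ ψ.source ∧ ζ ∈ U) ∧ ψ ζ ∈ f.source ∧ w ζ ∈ φ.source ∧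
      fderiv ℝ W (ψ ζ) ∈ range ((↑) : (E ≃L[ℝ] E) → (E →L[ℝ] E)) := by
    have h1 : ∀ᶠ ζ in 𝓝 ξ, ζ ∈ ψ.source := hψs.mem_nhds (mem_extChartAt_source ξ)
    have h1' : ∀ᶠ ζ in 𝓝 ξ, ζ ∈ U := hU.mem_nhds hξ
    have hψc : ContinuousAt ψ ξ := continuousAt_extChartAt ξ
    have h2 : ∀ᶠ ζ in 𝓝 ξ, ψ ζ ∈ f.source := hψc.eventually (f.open_source.mem_nhds hfs)
    have h3 : ∀ᶠ ζ in 𝓝 ξ, w ζ ∈ φ.source :=
      hwat.continuousAt.eventually (hφs.mem_nhds (mem_extChartAt_source (w ξ)))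
    have h4 : ContinuousAt (fderiv ℝ W) (ψ ξ) :=
      ((hWs _ hy₀ hu₀ hw₀).fderiv_right (m := ∞) (by simp)).continuousAt
    have h5 : ∀ᶠ ζ in 𝓝 ξ, fderiv ℝ W (ψ ζ) ∈
        range ((↑) : (E ≃L[ℝ] E) → (E →L[ℝ] E)) := by
      have h6 : ∀ᶠ A in 𝓝 (fderiv ℝ W (ψ ξ)), A ∈
          range ((↑) : (E ≃L[ℝ] E) → (E →L[ℝ] E)) := by
        rw [← hL]
        exact ContinuousLinearEquiv.nhds L
      exact (h4.comp (f := ψ) (x := ξ) hψc).eventually h6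
    exact (h1.and h1').and (h2.and (h3.and h5))
  obtain ⟨S, hSP, hSo, hξS⟩ := _root_.mem_nhds_iff.1 hS
  have hWψ : ∀ ζ ∈ S, W (ψ ζ) = φ (w ζ) := by
    intro ζ hζ
    simp only [hW, Function.comp]
    rw [ψ.left_inv (hSP hζ).1.1]
  have hinv : ∀ ζ ∈ S, ψ.symm (f.symm (φ (w ζ))) = ζ := by
    intro ζ hζ
    rw [← hWψ ζ hζ, ← hfc, f.left_inv (hSP hζ).2.1, ψ.left_inv (hSP hζ).1.1]
  refine ⟨S, fun x => ψ.symm (f.symm (φ x)), hSo, hξS, fun ζ hζ => (hSP hζ).1.2, hinv, ?_, ?_⟩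
  · intro S' hS'S hS'o
    -- the image of `S'` in the chart
    have h1 : IsOpen (ψ.target ∩ ψ.symm ⁻¹' S') :=
      (continuousOn_extChartAt_symm ξ).isOpen_inter_preimage hψo hS'o
    have h2 : IsOpen (f.source ∩ (ψ.target ∩ ψ.symm ⁻¹' S')) := f.open_source.inter h1
    have h3 : IsOpen (f '' (f.source ∩ (ψ.target ∩ ψ.symm ⁻¹' S'))) :=
      f.isOpen_image_of_subset_source h2 inter_subset_left
    have h4 : IsOpen (φ.source ∩ φ ⁻¹' (f '' (f.source ∩ (ψ.target ∩ ψ.symm ⁻¹' S')))) :=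
      (continuousOn_extChartAt (w ξ)).isOpen_inter_preimage hφs h3
    convert h4 using 1
    ext x
    constructor
    · rintro ⟨ζ, hζ, rfl⟩
      have hζS := hS'S hζ
      refine ⟨(hSP hζS).2.2.1, ψ ζ, ⟨(hSP hζS).2.1, ψ.map_source (hSP hζS).1.1, ?_⟩, hWψ ζ hζS⟩
      show ψ.symm (ψ ζ) ∈ S'
      rw [ψ.left_inv (hSP hζS).1.1]
      exact hζ
    · rintro ⟨hx, y, ⟨hy1, hy2, hy3⟩, hyx⟩
      refine ⟨ψ.symm y, hy3, ?_⟩
      have h5 : φ (w (ψ.symm y)) = φ x := hyx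
      exact φ.injOn (hSP (hS'S hy3)).2.2.1 hx h5
  · intro ζ hζ
    obtain ⟨⟨hζ1, hζU⟩, hζ2, hζ3, A, hA⟩ := hSP hζ
    have h1 : ContMDiffAt 𝓘(ℝ, E) 𝓘(ℝ, E) ∞ φ (w ζ) :=
      contMDiffAt_extChartAt' (by rwa [hφ, extChartAt_source] at hζ3)
    have hψζ : ψ ζ ∈ ψ.target := ψ.map_source hζ1
    have hwψ : w (ψ.symm (ψ ζ)) ∈ φ.source := by rw [ψ.left_inv hζ1]; exact hζ3
    have huψ : ψ.symm (ψ ζ) ∈ U := by rw [ψ.left_inv hζ1]; exact hζU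
    have hfζ : f.symm (φ (w ζ)) = ψ ζ := by
      rw [← hWψ ζ hζ, ← hfc, f.left_inv hζ2]
    have h2 : ContDiffAt ℝ ∞ f.symm (φ (w ζ)) := by
      apply f.contDiffAt_symm (f₀' := A)
      · rw [← hWψ ζ hζ, ← hfc]
        exact f.map_source hζ2
      · rw [hfζ, hfc, hA]
        exact ((hWs _ hψζ huψ hwψ).differentiableAt (by simp)).hasFDerivAt
      · rw [hfζ, hfc]
        exact hWs _ hψζ huψ hwψ
    have h3 : ContMDiffAt 𝓘(ℝ, E) 𝓘(ℝ, E) ∞ ψ.symm (f.symm (φ (w ζ))) := by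
      rw [hfζ]
      exact (contMDiffOn_extChartAt_symm ξ).contMDiffAt (hψo.mem_nhds hψζ)
    exact h3.comp (w ζ) (h2.contMDiffAt.comp (w ζ) h1)

/-- A field of bilinear forms on the tangent spaces of `M`. -/
abbrev Bil (E : Type*) [NormedAddCommGroup E] [NormedSpace ℝ E] (M : Type*) [TopologicalSpace M]
    [ChartedSpace E M] : Type _ :=
  (x : M) → TangentSpace 𝓘(ℝ, E) x →L[ℝ] TangentSpace 𝓘(ℝ, E) x →L[ℝ] ℝ

/-- pointwise nondegenerate -/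
def Bil.ND (w : Bil E M) : Prop := ∀ x v, (∀ u, w x v u = 0) → v = 0

/-- `G` is a diffeomorphism preserving the field of forms `w`. -/
structure IsAut (w : Bil E M) (G : M ≃ M) : Prop where
  smooth : ContMDiff 𝓘(ℝ, E) 𝓘(ℝ, E) ∞ G
  smooth_symm : ContMDiff 𝓘(ℝ, E) 𝓘(ℝ, E) ∞ G.symm
  pres : ∀ x u v, w (G x) (mfderiv 𝓘(ℝ, E) 𝓘(ℝ, E) G x u) (mfderiv 𝓘(ℝ, E) 𝓘(ℝ, E) G x v) = w x u v

lemma IsAut.refl (w : Bil E M) : IsAut w (Equiv.refl M) := by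
  refine ⟨contMDiff_id, contMDiff_id, fun x u v => ?_⟩
  have h : (Equiv.refl M : M → M) = id := rfl
  rw [h]
  rw [mfderiv_id]
  rfl

lemma IsAut.trans {w : Bil E M} {G G' : M ≃ M} (h : IsAut w G) (h' : IsAut w G') :
    IsAut w (G.trans G') := by
  refine ⟨h'.smooth.comp h.smooth, h.smooth_symm.comp h'.smooth_symm, fun x u v => ?_⟩
  have h1 : mfderiv 𝓘(ℝ, E) 𝓘(ℝ, E) (G.trans G') x =
      (mfderiv 𝓘(ℝ, E) 𝓘(ℝ, E) G' (G x)).comp (mfderiv 𝓘(ℝ, E) 𝓘(ℝ, E) G x) :=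
    mfderiv_comp x (h'.smooth.mdifferentiableAt (by simp)) (h.smooth.mdifferentiableAt (by simp))
  rw [h1]
  have h2 := h'.pres (G x) (mfderiv 𝓘(ℝ, E) 𝓘(ℝ, E) G x u) (mfderiv 𝓘(ℝ, E) 𝓘(ℝ, E) G x v)
  exact h2.trans (h.pres x u v)

lemma IsAut.mfderiv_symm_apply {w : Bil E M} {G : M ≃ M} (h : IsAut w G) (x : M)
    (u : TangentSpace 𝓘(ℝ, E) x) :
    mfderiv 𝓘(ℝ, E) 𝓘(ℝ, E) G (G.symm x) (mfderiv 𝓘(ℝ, E) 𝓘(ℝ, E) G.symm x u) = u := by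
  have h1 : mfderiv 𝓘(ℝ, E) 𝓘(ℝ, E) (G ∘ G.symm) x =
      (mfderiv 𝓘(ℝ, E) 𝓘(ℝ, E) G (G.symm x)).comp (mfderiv 𝓘(ℝ, E) 𝓘(ℝ, E) G.symm x) :=
    mfderiv_comp x (h.smooth.mdifferentiableAt (by simp))
      (h.smooth_symm.mdifferentiableAt (by simp))
  have h2 : (G ∘ G.symm : M → M) = id := by funext z; simp
  rw [h2, mfderiv_id] at h1
  exact (DFunLike.congr_fun h1 u).symm

lemma IsAut.symm {w : Bil E M} {G : M ≃ M} (h : IsAut w G) : IsAut w G.symm := by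
  refine ⟨h.smooth_symm, h.smooth, fun x u v => ?_⟩
  have h2 := h.pres (G.symm x) (mfderiv 𝓘(ℝ, E) 𝓘(ℝ, E) G.symm x u)
    (mfderiv 𝓘(ℝ, E) 𝓘(ℝ, E) G.symm x v)
  rw [h.mfderiv_symm_apply, h.mfderiv_symm_apply] at h2
  rw [← h2]
  have h3 : G (G.symm x) = x := G.apply_symm_apply x
  rw [h3]

/-- The map `ψ` pulls the form `wM` back to `c • wX`, on `U`. -/
def PullsBack (wM : Bil E M) (wX : Bil E X) (ψ : X → M) (c : ℝ) (U : Set X) : Prop :=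
  ∀ x ∈ U, ∀ u v, wM (ψ x) (mfderiv 𝓘(ℝ, E) 𝓘(ℝ, E) ψ x u) (mfderiv 𝓘(ℝ, E) 𝓘(ℝ, E) ψ x v) =
    c * wX x u v

lemma PullsBack.injective {wM : Bil E M} {wX : Bil E X} {ψ : X → M} {c : ℝ} {U : Set X}
    (h : PullsBack wM wX ψ c U) (hc : c ≠ 0) (hnd : wX.ND) {x : X} (hx : x ∈ U) :
    Injective (mfderiv 𝓘(ℝ, E) 𝓘(ℝ, E) ψ x) := by
  rw [injective_iff_map_eq_zero]
  intro u hu
  apply hnd x u
  intro v
  have h1 := h x hx u v
  rw [hu, map_zero] at h1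
  have h2 : (0 : ℝ) = c * wX x u v := h1
  rcases mul_eq_zero.1 h2.symm with h3 | h3
  · exact absurd h3 hc
  · exact h3

lemma surjective_of_injective_tangent {x : X} {y : M}
    (A : TangentSpace 𝓘(ℝ, E) x →L[ℝ] TangentSpace 𝓘(ℝ, E) y) (h : Injective A) : Surjective A := by
  have key : ∀ B : E →ₗ[ℝ] E, Injective B → Surjective B := fun B hB =>
    LinearMap.surjective_of_injective hB
  let A' : E →L[ℝ] E := A
  exact key (A' : E →ₗ[ℝ] E) h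

open Classical in
/-- the extension by the identity of `ψ G ψ⁻¹` -/
def pushFun [Nonempty X] (ψ : X → M) (U : Set X) (G : X → X) (y : M) : M :=
  if y ∈ ψ '' U then ψ (G (invFunOn ψ U y)) else y

lemma pushFun_apply [Nonempty X] {ψ : X → M} {U : Set X} {G : X → X} (hinj : InjOn ψ U) {x : X}
    (hx : x ∈ U) : pushFun ψ U G (ψ x) = ψ (G x) := by
  unfold pushFun
  rw [if_pos (mem_image_of_mem ψ hx), hinj.leftInvOn_invFunOn hx]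

lemma pushFun_of_notMem [Nonempty X] {ψ : X → M} {U : Set X} {G : X → X} {y : M}
    (hy : y ∉ ψ '' U) : pushFun ψ U G y = y := by
  unfold pushFun
  rw [if_neg hy]

lemma maps_of_support {C U : Set X} {G : X ≃ X} (hCU : C ⊆ U) (hG : ∀ x, x ∉ C → G x = x) {x : X}
    (hx : x ∈ U) : G x ∈ U := by
  by_cases h : G x ∈ C
  · exact hCU h
  · have h1 := hG _ h
    have h2 : G x = x := G.injective h1
    rw [h2]
    exact hx

lemma support_symm {C : Set X} {G : X ≃ X} (hG : ∀ x, x ∉ C → G x = x) :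
    ∀ x, x ∉ C → G.symm x = x := by
  intro x hx
  rw [Equiv.symm_apply_eq]
  exact (hG x hx).symm

/-- **Extension by the identity.** -/
theorem exists_push [T2Space M] {wM : Bil E M} {wX : Bil E X} {ψ : X → M} {c : ℝ} (hc : c ≠ 0)
    {U C : Set X} (hU : IsOpen U) (hψ : ContMDiffOn 𝓘(ℝ, E) 𝓘(ℝ, E) ∞ ψ U) (hinj : InjOn ψ U)
    (hpb : PullsBack wM wX ψ c U) (hnd : wX.ND) {G : X ≃ X} (hG : IsAut wX G) (hC : IsCompact C)
    (hCU : C ⊆ U) (hGC : ∀ x, x ∉ C → G x = x) :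
    ∃ G' : M ≃ M, IsAut wM G' ∧ (∀ x ∈ U, G' (ψ x) = ψ (G x)) ∧ ∀ y, y ∉ ψ '' C → G' y = y := by
  classical
  rcases isEmpty_or_nonempty X with hX | hX
  · refine ⟨Equiv.refl M, IsAut.refl _, fun x => hX.elim x, fun y _ => rfl⟩
  have hmaps : ∀ x ∈ U, G x ∈ U := fun x hx => maps_of_support hCU hGC hx
  have hGC' := support_symm hGC
  have hmaps' : ∀ x ∈ U, G.symm x ∈ U := fun x hx => maps_of_support hCU hGC' hx
  -- key smoothness statement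
  have key : ∀ G₀ : X ≃ X, ContMDiff 𝓘(ℝ, E) 𝓘(ℝ, E) ∞ G₀ → (∀ x, x ∉ C → G₀ x = x) →
      (∀ x ∈ U, G₀ x ∈ U) → ∀ y, y ∉ ψ '' C → pushFun ψ U G₀ y = y := by
    intro G₀ _ hC₀ _ y hy
    by_cases hyU : y ∈ ψ '' U
    · obtain ⟨x, hx, rfl⟩ := hyU
      rw [pushFun_apply hinj hx, hC₀ x (fun h => hy (mem_image_of_mem ψ h))]
    · exact pushFun_of_notMem hyU
  have hclosed : IsClosed (ψ '' C) :=
    (hC.image_of_continuousOn (hψ.continuousOn.mono hCU)).isClosed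
  have keyS : ∀ G₀ : X ≃ X, ContMDiff 𝓘(ℝ, E) 𝓘(ℝ, E) ∞ G₀ → (∀ x, x ∉ C → G₀ x = x) →
      (∀ x ∈ U, G₀ x ∈ U) → ContMDiff 𝓘(ℝ, E) 𝓘(ℝ, E) ∞ (pushFun ψ U G₀) := by
    intro G₀ hs hC₀ hm y
    by_cases hyU : y ∈ ψ '' U
    · obtain ⟨x, hx, rfl⟩ := hyU
      obtain ⟨S, v, hSo, hxS, hSU, hv, hSopen, hvs⟩ :=
        local_inverse hU hψ hx (hpb.injective hc hnd hx)
      have h1 : pushFun ψ U G₀ =ᶠ[𝓝 (ψ x)] fun y => ψ (G₀ (v y)) := by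
        filter_upwards [(hSopen S subset_rfl hSo).mem_nhds (mem_image_of_mem ψ hxS)] with y hy
        obtain ⟨ζ, hζ, rfl⟩ := hy
        rw [pushFun_apply hinj (hSU hζ), hv ζ hζ]
      refine ContMDiffAt.congr_of_eventuallyEq ?_ h1
      have h2 := hvs x hxS
      have h3 : ContMDiffAt 𝓘(ℝ, E) 𝓘(ℝ, E) ∞ (fun y => G₀ (v y)) (ψ x) := (hs _).comp _ h2
      have h4 : G₀ (v (ψ x)) = G₀ x := by rw [hv x hxS]
      have h5 : ContMDiffAt 𝓘(ℝ, E) 𝓘(ℝ, E) ∞ ψ (G₀ (v (ψ x))) := by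
        rw [h4]
        exact hψ.contMDiffAt (hU.mem_nhds (hm x hx))
      exact h5.comp (ψ x) h3
    · have hyC : y ∉ ψ '' C := fun h => hyU (image_mono hCU h)
      have h1 : pushFun ψ U G₀ =ᶠ[𝓝 y] id := by
        filter_upwards [hclosed.isOpen_compl.mem_nhds hyC] with z hz
        exact key G₀ hs hC₀ hm z hz
      exact contMDiffAt_id.congr_of_eventuallyEq h1
  have hcomp : ∀ G₀ G₁ : X → X, (∀ x, G₁ (G₀ x) = x) → (∀ x ∈ U, G₀ x ∈ U) →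
      ∀ y, pushFun ψ U G₁ (pushFun ψ U G₀ y) = y := by
    intro G₀ G₁ h01 hm y
    by_cases hyU : y ∈ ψ '' U
    · obtain ⟨x, hx, rfl⟩ := hyU
      rw [pushFun_apply hinj hx, pushFun_apply hinj (hm x hx), h01]
    · rw [pushFun_of_notMem hyU, pushFun_of_notMem hyU]
  let G' : M ≃ M :=
    { toFun := pushFun ψ U G
      invFun := pushFun ψ U G.symm
      left_inv := hcomp G G.symm (fun x => G.symm_apply_apply x) hmaps
      right_inv := hcomp G.symm G (fun x => G.apply_symm_apply x) hmaps' }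
  have hG' : ∀ y, G' y = pushFun ψ U G y := fun y => rfl
  have hG's : ∀ y, G'.symm y = pushFun ψ U G.symm y := fun y => rfl
  have hsm : ContMDiff 𝓘(ℝ, E) 𝓘(ℝ, E) ∞ G' := keyS G hG.smooth hGC hmaps
  refine ⟨G', ⟨hsm, keyS G.symm hG.smooth_symm hGC' hmaps', fun y u v => ?_⟩,
    fun x hx => pushFun_apply hinj hx, fun y hy => key G hG.smooth hGC hmaps y hy⟩
  by_cases hyU : y ∈ ψ '' U
  · obtain ⟨x, hx, rfl⟩ := hyU
    have hsurj := surjective_of_injective_tangent _ (hpb.injective hc hnd hx)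
    obtain ⟨u', rfl⟩ := hsurj u
    obtain ⟨v', rfl⟩ := hsurj v
    have hψx : MDifferentiableAt 𝓘(ℝ, E) 𝓘(ℝ, E) ψ x :=
      (hψ.contMDiffAt (hU.mem_nhds hx)).mdifferentiableAt (by simp)
    have hψGx : MDifferentiableAt 𝓘(ℝ, E) 𝓘(ℝ, E) ψ (G x) :=
      (hψ.contMDiffAt (hU.mem_nhds (hmaps x hx))).mdifferentiableAt (by simp)
    have e1 : mfderiv 𝓘(ℝ, E) 𝓘(ℝ, E) (G' ∘ ψ) x =
        (mfderiv 𝓘(ℝ, E) 𝓘(ℝ, E) G' (ψ x)).comp (mfderiv 𝓘(ℝ, E) 𝓘(ℝ, E) ψ x) :=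
      mfderiv_comp x (hsm.mdifferentiableAt (by simp)) hψx
    have e2 : mfderiv 𝓘(ℝ, E) 𝓘(ℝ, E) (ψ ∘ G) x =
        (mfderiv 𝓘(ℝ, E) 𝓘(ℝ, E) ψ (G x)).comp (mfderiv 𝓘(ℝ, E) 𝓘(ℝ, E) G x) :=
      mfderiv_comp x hψGx (hG.smooth.mdifferentiableAt (by simp))
    have e3 : (G' ∘ ψ) =ᶠ[𝓝 x] (ψ ∘ G) := by
      filter_upwards [hU.mem_nhds hx] with z hz
      exact pushFun_apply hinj hz
    have e4 : G' (ψ x) = ψ (G x) := pushFun_apply hinj hx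
    have e5 : ∀ a, mfderiv 𝓘(ℝ, E) 𝓘(ℝ, E) G' (ψ x) (mfderiv 𝓘(ℝ, E) 𝓘(ℝ, E) ψ x a) =
        (mfderiv 𝓘(ℝ, E) 𝓘(ℝ, E) ψ (G x) (mfderiv 𝓘(ℝ, E) 𝓘(ℝ, E) G x a) : E) := by
      intro a
      have h1 := DFunLike.congr_fun e1 a
      have h2 := DFunLike.congr_fun e2 a
      have h3 := e3.mfderiv_eq (I := 𝓘(ℝ, E)) (I' := 𝓘(ℝ, E))
      have h4 := DFunLike.congr_fun h3 a
      exact h1.symm.trans (h4.trans h2)
    have e6 := hpb (G x) (hmaps x hx) (mfderiv 𝓘(ℝ, E) 𝓘(ℝ, E) G x u')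
      (mfderiv 𝓘(ℝ, E) 𝓘(ℝ, E) G x v')
    have e7 := hpb x hx u' v'
    rw [e7, ← hG.pres x u' v', ← e6]
    have e8 : ∀ (z z' : M) (h : z = z') (a b : E), (wM z : E →L[ℝ] E →L[ℝ] ℝ) a b =
        (wM z' : E →L[ℝ] E →L[ℝ] ℝ) a b := by
      intro z z' h a b
      subst h
      rfl
    have e9 := e8 _ _ e4 (mfderiv 𝓘(ℝ, E) 𝓘(ℝ, E) G' (ψ x) (mfderiv 𝓘(ℝ, E) 𝓘(ℝ, E) ψ x u'))
      (mfderiv 𝓘(ℝ, E) 𝓘(ℝ, E) G' (ψ x) (mfderiv 𝓘(ℝ, E) 𝓘(ℝ, E) ψ x v'))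
    refine e9.trans ?_
    rw [e5 u', e5 v']
  · have hyC : y ∉ ψ '' C := fun h => hyU (image_mono hCU h)
    have h1 : (G' : M → M) =ᶠ[𝓝 y] id := by
      filter_upwards [hclosed.isOpen_compl.mem_nhds hyC] with z hz
      exact key G hG.smooth hGC hmaps z hz
    have h2 : G' y = y := h1.eq_of_nhds
    have h3 := h1.mfderiv_eq (I := 𝓘(ℝ, E)) (I' := 𝓘(ℝ, E))
    have e8 : ∀ (z z' : M) (h : z = z') (a b : E), (wM z : E →L[ℝ] E →L[ℝ] ℝ) a b =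
        (wM z' : E →L[ℝ] E →L[ℝ] ℝ) a b := by
      intro z z' h a b
      subst h
      rfl
    have h5 : ∀ a : E, (mfderiv 𝓘(ℝ, E) 𝓘(ℝ, E) G' y : E →L[ℝ] E) a = a := by
      intro a
      rw [mfderiv_id] at h3
      exact DFunLike.congr_fun h3 a
    refine (e8 _ _ h2 _ _).trans ?_
    have h6 := h5 u
    have h7 := h5 v
    exact congrArg₂ (fun a b : E => (wM y : E →L[ℝ] E →L[ℝ] ℝ) a b) h6 h7

end Run7.h115
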