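import Pool.Agent.Run7.h115.Dilat

/-! Changing the Darboux balls by unitary maps does not change the blowup; Darboux balls of
bounded dilatation. -/

set_option autoImplicit false
set_option linter.unusedSectionVars false
set_option maxSynthPendingDepth 3

open scoped ContDiff Topology Manifold
open Set Metric Function

noncomputable section

namespace Run7.h115

variable {E : Type*} [NormedAddCommGroup E] [InnerProductSpace ℂ E] [FiniteDimensional ℂ E]
  {M : Type*} [TopologicalSpace M] [ChartedSpace E M] [IsManifold 𝓘(ℝ, E) ∞ M]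
  {N : Type*} [TopologicalSpace N] [ChartedSpace E N] [IsManifold 𝓘(ℝ, E) ∞ N]

lemma stdForm_unitary (U : E ≃ₗᵢ[ℂ] E) (u v : E) : stdForm (U u) (U v) = stdForm u v := by
  unfold stdForm
  rw [U.inner_map_map]

lemma perp_unitary (U : E ≃ₗᵢ[ℂ] E) (z u : E) : perp (U z) (U u) = U (perp z u) := by
  unfold perp
  rw [U.inner_map_map, U.norm_map, map_sub, map_smul]

lemma unitary_image_closedBall (U : E ≃ₗᵢ[ℂ] E) (r : ℝ) :
    U '' closedBall (0 : E) r = closedBall 0 r := by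
  ext x
  constructor
  · rintro ⟨y, hy, rfl⟩
    rw [mem_closedBall_zero_iff] at hy ⊢
    rw [U.norm_map]
    exact hy
  · intro hx
    refine ⟨U.symm x, ?_, U.apply_symm_apply x⟩
    rw [mem_closedBall_zero_iff] at hx ⊢
    rw [U.symm.norm_map]
    exact hx

lemma unitary_mem_ball (U : E ≃ₗᵢ[ℂ] E) {r : ℝ} {x : E} (hx : x ∈ ball (0 : E) r) :
    U x ∈ ball (0 : E) r := by
  rw [mem_ball_zero_iff] at hx ⊢
  rw [U.norm_map]
  exact hx

lemma unitary_mem_closedBall (U : E ≃ₗᵢ[ℂ] E) {r : ℝ} {x : E} (hx : x ∈ closedBall (0 : E) r) :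
    U x ∈ closedBall (0 : E) r := by
  rw [mem_closedBall_zero_iff] at hx ⊢
  rw [U.norm_map]
  exact hx

/-- the unitary map as a real continuous linear map -/
def uL (U : E ≃ₗᵢ[ℂ] E) : E →L[ℝ] E := (U.toContinuousLinearEquiv : E →L[ℂ] E).restrictScalars ℝ

lemma uL_apply (U : E ≃ₗᵢ[ℂ] E) (x : E) : uL U x = U x := rfl

lemma outer_unitary (S : Set M) (ε : ℝ) (φ : M → E → M) (U : M → (E ≃ₗᵢ[ℂ] E)) (x : M) :
    (∀ p ∈ S, x ∉ (fun y => φ p (U p y)) '' closedBall 0 ε) ↔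
      ∀ p ∈ S, x ∉ φ p '' closedBall 0 ε := by
  have h1 : ∀ p, (fun y => φ p (U p y)) '' closedBall 0 ε = φ p '' closedBall 0 ε := by
    intro p
    have h2 : (fun y => φ p (U p y)) '' closedBall 0 ε = φ p '' (U p '' closedBall 0 ε) := by
      rw [image_image]
    rw [h2, unitary_image_closedBall]
  simp only [h1]

lemma blowupForm_unitary (U : E ≃ₗᵢ[ℂ] E) (ε : ℝ) (a u v : E × ℂ) :
    blowupForm ε (U a.1, a.2) (U u.1, u.2) (U v.1, v.2) = blowupForm ε a u v := by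
  unfold blowupForm
  simp only
  rw [perp_unitary, perp_unitary, stdForm_unitary, U.norm_map]
  have h1 : ∀ (c d : ℂ) (x y : E), c • U x + d • U y = U (c • x + d • y) := by
    intro c d x y
    rw [map_add, map_smul, map_smul]
  rw [h1, h1, stdForm_unitary]

lemma modelDomain_unitary (U : E ≃ₗᵢ[ℂ] E) (ε r : ℝ) {a : E × ℂ} (ha : a ∈ modelDomain E ε r) :
    (U a.1, a.2) ∈ modelDomain E ε r := by
  refine ⟨fun h => ha.1 ?_, ?_⟩
  · have h1 : U a.1 = 0 := h
    exact (map_eq_zero_iff U U.injective).1 h1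
  · show ‖a.2 • U a.1‖ ^ 2 + ε ^ 2 < r ^ 2
    rw [← map_smul, U.norm_map]
    exact ha.2

lemma modelPoint_unitary (U : E ≃ₗᵢ[ℂ] E) (ε : ℝ) (a : E × ℂ) :
    modelPoint ε (U a.1, a.2) = U (modelPoint ε a) := by
  unfold modelPoint
  simp only
  rw [← map_smul, U.norm_map, ← map_smul]

/-- **Unitary reparametrisation of a blowup.** -/
theorem IsBlowup.reparam {wM : Bil E M} {S : Set M} {ε : ℝ} {wN : Bil E N} {r : ℝ}
    {φ : M → E → M} {J : M → N} {K : M → E × ℂ → N} (B : IsBlowup wM S ε wN r φ J K)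
    (U : M → (E ≃ₗᵢ[ℂ] E)) :
    IsBlowup wM S ε wN r (fun p x => φ p (U p x)) J (fun p a => K p (U p a.1, a.2)) := by
  have hUs : ∀ p, ContDiff ℝ ∞ (fun x => U p x) := fun p => (uL (U p)).contDiff
  have hUd : ∀ p x, HasFDerivAt (fun x => U p x) (uL (U p)) x := fun p x => (uL (U p)).hasFDerivAt
  have hUd2 : ∀ p (a : E × ℂ), HasFDerivAt (fun a : E × ℂ => (U p a.1, a.2))
      (((uL (U p)).comp (ContinuousLinearMap.fst ℝ E ℂ)).prod (ContinuousLinearMap.snd ℝ E ℂ)) a :=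
    fun p a => (((uL (U p)).comp (ContinuousLinearMap.fst ℝ E ℂ)).prod
      (ContinuousLinearMap.snd ℝ E ℂ)).hasFDerivAt
  have hUs2 : ∀ p, ContDiff ℝ ∞ (fun a : E × ℂ => (U p a.1, a.2)) := fun p =>
    (((uL (U p)).comp (ContinuousLinearMap.fst ℝ E ℂ)).prod
      (ContinuousLinearMap.snd ℝ E ℂ)).contDiff
  have hset : {x | ∀ p ∈ S, x ∉ (fun y => φ p (U p y)) '' closedBall 0 ε} =
      {x | ∀ p ∈ S, x ∉ φ p '' closedBall 0 ε} := by
    ext x
    exact outer_unitary S ε φ U x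
  refine
    { lt := B.lt
      φ_smooth := fun p hp => ?_
      φ_inj := fun p hp q hq x hx y hy hxy => ?_
      φ_center := fun p hp => by rw [map_zero]; exact B.φ_center p hp
      φ_symp := fun p hp x hx u v => ?_
      J_smooth := ?_
      J_inj := ?_
      J_symp := fun x hx => B.J_symp x ((outer_unitary S ε φ U x).1 hx)
      K_smooth := fun p hp => ?_
      K_eq := fun p hp q hq a ha b hb => ?_
      K_symp := fun p hp a ha u v => ?_
      glue := fun p hp a ha x hx => ?_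
      cover := fun y => ?_ }
  · exact (B.φ_smooth p hp).comp (hUs p).contMDiff.contMDiffOn
      (fun x hx => unitary_mem_ball (U p) hx)
  · obtain ⟨h1, h2⟩ := B.φ_inj p hp q hq _ (unitary_mem_ball _ hx) _ (unitary_mem_ball _ hy) hxy
    subst h1
    exact ⟨rfl, (U p).injective h2⟩
  · have hx' := unitary_mem_ball (U p) hx
    have hφd : MDifferentiableAt 𝓘(ℝ, E) 𝓘(ℝ, E) (φ p) (U p x) :=
      ((B.φ_smooth p hp).contMDiffAt (isOpen_ball.mem_nhds hx')).mdifferentiableAt (by simp)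
    have h0 := (hUd p x).hasMFDerivAt
    have e : ∀ b : E, (mfderiv 𝓘(ℝ, E) 𝓘(ℝ, E) (fun x => φ p (U p x)) x b : E) =
        mfderiv 𝓘(ℝ, E) 𝓘(ℝ, E) (φ p) (U p x) (U p b : E) := by
      intro b
      have h1 : mfderiv 𝓘(ℝ, E) 𝓘(ℝ, E) (φ p ∘ fun x => U p x) x =
          (mfderiv 𝓘(ℝ, E) 𝓘(ℝ, E) (φ p) (U p x)).comp
          (mfderiv 𝓘(ℝ, E) 𝓘(ℝ, E) (fun x => U p x) x) := mfderiv_comp x hφd h0.mdifferentiableAt
      rw [h0.mfderiv] at h1
      exact DFunLike.congr_fun h1 b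
    have h1 := B.φ_symp p hp (U p x) hx' (U p u) (U p v)
    rw [stdForm_unitary] at h1
    refine Eq.trans ?_ h1
    exact congrArg₂ (fun a' b' : E =>
      (wM (φ p (U p x)) : E →L[ℝ] E →L[ℝ] ℝ) a' b') (e u) (e v)
  · rw [hset]
    exact B.J_smooth
  · rw [hset]
    exact B.J_inj
  · exact (B.K_smooth p hp).comp (hUs2 p).contMDiff.contMDiffOn
      (fun a ha => modelDomain_unitary (U p) ε r ha)
  · have h1 := B.K_eq p hp q hq _ (modelDomain_unitary (U p) ε r ha) _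
      (modelDomain_unitary (U q) ε r hb)
    simp only at h1
    rw [h1]
    constructor
    · rintro ⟨rfl, t, ht, hb'⟩
      refine ⟨rfl, t, ht, ?_⟩
      have h2 : U p b.1 = t • U p a.1 := congrArg Prod.fst hb'
      have h3 : b.2 = t⁻¹ * a.2 := congrArg Prod.snd hb'
      rw [← map_smul] at h2
      exact Prod.ext ((U p).injective h2) h3
    · rintro ⟨rfl, t, ht, rfl⟩
      refine ⟨rfl, t, ht, ?_⟩
      simp only [map_smul]
  · have ha' := modelDomain_unitary (U p) ε r ha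
    have hKd : MDifferentiableAt 𝓘(ℝ, E × ℂ) 𝓘(ℝ, E) (K p) (U p a.1, a.2) :=
      ((B.K_smooth p hp).contMDiffAt
        ((isOpen_modelDomain ε r).mem_nhds ha')).mdifferentiableAt (by simp)
    have h0 := (hUd2 p a).hasMFDerivAt
    have e : ∀ b : E × ℂ, (mfderiv 𝓘(ℝ, E × ℂ) 𝓘(ℝ, E) (fun a : E × ℂ => K p (U p a.1, a.2)) a b : E) =
        mfderiv 𝓘(ℝ, E × ℂ) 𝓘(ℝ, E) (K p) (U p a.1, a.2) ((U p b.1, b.2) : E × ℂ) := by
      intro b
      have h1 : mfderiv 𝓘(ℝ, E × ℂ) 𝓘(ℝ, E) (K p ∘ fun a : E × ℂ => (U p a.1, a.2)) a =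
          (mfderiv 𝓘(ℝ, E × ℂ) 𝓘(ℝ, E) (K p) (U p a.1, a.2)).comp
          (mfderiv 𝓘(ℝ, E × ℂ) 𝓘(ℝ, E × ℂ) (fun a : E × ℂ => (U p a.1, a.2)) a) :=
        mfderiv_comp a hKd h0.mdifferentiableAt
      rw [h0.mfderiv] at h1
      exact DFunLike.congr_fun h1 b
    have h1 := B.K_symp p hp (U p a.1, a.2) ha' (U p u.1, u.2) (U p v.1, v.2)
    rw [blowupForm_unitary] at h1
    refine Eq.trans ?_ h1
    exact congrArg₂ (fun a' b' : E =>
      (wN (K p (U p a.1, a.2)) : E →L[ℝ] E →L[ℝ] ℝ) a' b') (e u) (e v)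
  · have h1 := B.glue p hp (U p a.1, a.2) (modelDomain_unitary (U p) ε r ha) x
      ((outer_unitary S ε φ U x).1 hx)
    simp only at h1
    rw [h1, modelPoint_unitary]
  · rcases B.cover y with ⟨x, hx, hxy⟩ | ⟨p, hp, a, ha, hay⟩
    · exact Or.inl ⟨x, (outer_unitary S ε φ U x).2 hx, hxy⟩
    · refine Or.inr ⟨p, hp, ((U p).symm a.1, a.2), modelDomain_unitary (U p).symm ε r ha, ?_⟩
      simp only [LinearIsometryEquiv.apply_symm_apply]
      exact hay

end Run7.h115
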