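import Pool.Agent.Run7.h115.Polar

/-! A consistency check for the definition of the blowup: the radial map used in `modelPoint` pulls
the standard form back to the model form of the blowup. (Not used in the proofs.) -/

set_option autoImplicit false
set_option linter.unusedSectionVars false
set_option maxSynthPendingDepth 3

open scoped ContDiff Topology
open Set Metric Function

noncomputable section

namespace Run7.h115

variable {E : Type*} [NormedAddCommGroup E] [InnerProductSpace ℂ E] [FiniteDimensional ℂ E]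

attribute [local instance] realInner

lemma stdForm_perp {y : E} (hy : y ≠ 0) (u v : E) : stdForm (perp y u) (perp y v) =
    stdForm u v - ((inner ℂ y u).re * (inner ℂ y v).im -
      (inner ℂ y u).im * (inner ℂ y v).re) / ‖y‖ ^ 2 := by
  have ht : (‖y‖ : ℂ) ≠ 0 := by exact_mod_cast norm_ne_zero_iff.2 hy
  have ht' : ‖y‖ ≠ 0 := norm_ne_zero_iff.2 hy
  have h1 : inner ℂ (perp y u) (perp y v) = inner ℂ u (perp y v) := by
    nth_rewrite 1 [perp]
    rw [inner_sub_left, inner_smul_left, inner_perp hy, mul_zero, sub_zero]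
  unfold stdForm
  rw [h1]
  unfold perp
  rw [inner_sub_right, inner_smul_right, ← inner_conj_symm u y, Complex.sub_im]
  have h2 : (inner ℂ y v / (‖y‖ : ℂ) ^ 2 * (starRingEnd ℂ) (inner ℂ y u)).im =
      ((inner ℂ y u).re * (inner ℂ y v).im -
        (inner ℂ y u).im * (inner ℂ y v).re) / ‖y‖ ^ 2 := by
    have h3 : inner ℂ y v / (‖y‖ : ℂ) ^ 2 * (starRingEnd ℂ) (inner ℂ y u) =
        (((‖y‖ ^ 2)⁻¹ : ℝ) : ℂ) * (inner ℂ y v * (starRingEnd ℂ) (inner ℂ y u)) := by
      push_cast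
      field_simp
    rw [h3, Complex.im_ofReal_mul, Complex.mul_im, Complex.conj_re, Complex.conj_im]
    ring
  rw [h2]

/-- The radial map `y ↦ √(‖y‖² + ε²) / ‖y‖ • y` pulls the standard form back to
`stdForm + ε² / ‖y‖² stdForm (perp, perp)`. -/
theorem radial_pullback (ε : ℝ) {y : E} (hy : y ≠ 0) :
    ∃ D : E →L[ℝ] E, HasFDerivAt
      (fun y : E => (Real.sqrt (‖y‖ ^ 2 + ε ^ 2) / ‖y‖) • y) D y ∧
      ∀ u v, stdForm (D u) (D v) = stdForm u v + ε ^ 2 / ‖y‖ ^ 2 * stdForm (perp y u) (perp y v) := by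
  have hn : 0 < ‖y‖ := norm_pos_iff.2 hy
  set t := ‖y‖ ^ 2 with ht
  have ht0 : 0 < t := by positivity
  have h1 : HasFDerivAt (fun y : E => ‖y‖ ^ 2) ((2 : ℕ) • innerSL ℝ y) y :=
    (hasStrictFDerivAt_norm_sq y).hasFDerivAt
  have hpos : 0 < 1 + ε ^ 2 * t⁻¹ := by positivity
  set q := Real.sqrt (1 + ε ^ 2 * t⁻¹) with hq
  have hq0 : 0 < q := Real.sqrt_pos.2 hpos
  have hq2 : q ^ 2 = 1 + ε ^ 2 * t⁻¹ := Real.sq_sqrt hpos.le
  -- the radial factor as a function of the square of the norm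
  have h2 : HasDerivAt (fun t : ℝ => Real.sqrt (1 + ε ^ 2 * t⁻¹))
      ((ε ^ 2 * -(t ^ 2)⁻¹) / (2 * q)) t :=
    (((hasDerivAt_inv ht0.ne').const_mul (ε ^ 2)).const_add 1).sqrt hpos.ne'
  have h3 : HasFDerivAt (fun y : E => Real.sqrt (1 + ε ^ 2 * (‖y‖ ^ 2)⁻¹))
      (((ε ^ 2 * -(t ^ 2)⁻¹) / (2 * q)) • ((2 : ℕ) • innerSL ℝ y)) y :=
    HasDerivAt.comp_hasFDerivAt (h₂ := fun t : ℝ => Real.sqrt (1 + ε ^ 2 * t⁻¹))
      (f := fun y : E => ‖y‖ ^ 2) y h2 h1
  have h4 := h3.smul (hasFDerivAt_id y)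
  have heq : ∀ z : E, z ≠ 0 → Real.sqrt (1 + ε ^ 2 * (‖z‖ ^ 2)⁻¹) =
      Real.sqrt (‖z‖ ^ 2 + ε ^ 2) / ‖z‖ := by
    intro z hz
    have hz0 : 0 < ‖z‖ := norm_pos_iff.2 hz
    have h5 : 1 + ε ^ 2 * (‖z‖ ^ 2)⁻¹ = (‖z‖ ^ 2 + ε ^ 2) / ‖z‖ ^ 2 := by
      field_simp
    rw [h5, Real.sqrt_div (by positivity), Real.sqrt_sq hz0.le]
  refine ⟨_, h4.congr_of_eventuallyEq ?_, fun u v => ?_⟩
  · filter_upwards [isOpen_ne.mem_nhds hy] with z hz
    show (Real.sqrt (‖z‖ ^ 2 + ε ^ 2) / ‖z‖) • z = Real.sqrt (1 + ε ^ 2 * (‖z‖ ^ 2)⁻¹) • z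
    rw [heq z hz]
  · set κ : ℝ := (ε ^ 2 * -(t ^ 2)⁻¹) / (2 * q) with hκ
    have hκq : q * (2 * κ) = - (ε ^ 2 * (t ^ 2)⁻¹) := by
      rw [hκ]
      field_simp
    have hD : ∀ w : E, (q • ContinuousLinearMap.id ℝ E +
        (κ • ((2 : ℕ) • innerSL ℝ y)).smulRight (id y)) w =
        q • w + (2 * κ * (inner ℂ y w).re) • y := by
      intro w
      simp only [add_apply, smul_apply, ContinuousLinearMap.smulRight_apply,
        ContinuousLinearMap.id_apply, id, innerSL_apply_apply, real_inner_def]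
      congr 2
      rw [nsmul_eq_mul, smul_eq_mul]
      push_cast
      ring
    rw [hD u, hD v]
    have hskew : ∀ a b : E, stdForm a b = - stdForm b a := (isSympForm_stdL (E := E)).skew
    simp only [stdForm_add_left, stdForm_add_right, stdForm_smul_left, stdForm_smul_right,
      stdForm_self, stdForm_perp hy, mul_zero, add_zero]
    rw [hskew u y]
    have e1 : stdForm y v = (inner ℂ y v).im := rfl
    have e2 : stdForm y u = (inner ℂ y u).im := rfl
    rw [e1, e2, ← ht]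
    have e3 : q * (q * stdForm u v + 2 * κ * (inner ℂ y u).re * (inner ℂ y v).im) +
        2 * κ * (inner ℂ y v).re * (q * -(inner ℂ y u).im) =
        q ^ 2 * stdForm u v + (q * (2 * κ)) * ((inner ℂ y u).re * (inner ℂ y v).im -
          (inner ℂ y v).re * (inner ℂ y u).im) := by ring
    rw [e3, hκq, hq2]
    field_simp
    ring

end Run7.h115
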