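import Pool.Agent.Run7.h115.Defs
import Pool.Agent.Helper186.Moser

/-! Pull back of closed two-forms, and their smoothness. -/

set_option autoImplicit false
set_option linter.unusedSectionVars false
set_option maxSynthPendingDepth 3

open scoped ContDiff Topology Manifold
open Set Metric Function Bundle
open Pool.Agent.Helper186

noncomputable section

namespace Run7.h115

variable {E : Type*} [NormedAddCommGroup E] [NormedSpace ℝ E] [FiniteDimensional ℝ E]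
  {M : Type*} [TopologicalSpace M] [ChartedSpace E M] [IsManifold 𝓘(ℝ, E) ∞ M]

/-- the expression of a field of bilinear forms in a chart -/
lemma bil_eq_chart (w : Bil E M) (x₀ : M) {x : M} (hx : x ∈ (chartAt E x₀).source)
    (a b : TangentSpace 𝓘(ℝ, E) x) :
    w x a b = chartBil w x₀ (extChartAt 𝓘(ℝ, E) x₀ x)
      ((trivializationAt E (TangentSpace 𝓘(ℝ, E)) x₀).continuousLinearMapAt ℝ x a)
      ((trivializationAt E (TangentSpace 𝓘(ℝ, E)) x₀).continuousLinearMapAt ℝ x b) := by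
  set φ := extChartAt 𝓘(ℝ, E) x₀ with hφ
  have hx' : x ∈ φ.source := by rwa [hφ, extChartAt_source]
  obtain ⟨y, hy, hyx⟩ : ∃ y ∈ φ.target, φ.symm y = x := ⟨φ x, φ.map_source hx', φ.left_inv hx'⟩
  subst hyx
  have hcoord : ∀ a : TangentSpace 𝓘(ℝ, E) (φ.symm y), mfderiv 𝓘(ℝ, E) 𝓘(ℝ, E) φ.symm y
      ((trivializationAt E (TangentSpace 𝓘(ℝ, E)) x₀).continuousLinearMapAt ℝ (φ.symm y) a) = a := by
    intro a
    have h1 := TangentBundle.symmL_trivializationAt (I := 𝓘(ℝ, E)) hx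
    have h2 : (trivializationAt E (TangentSpace 𝓘(ℝ, E)) x₀).symmL ℝ (φ.symm y)
      ((trivializationAt E (TangentSpace 𝓘(ℝ, E)) x₀).continuousLinearMapAt ℝ (φ.symm y) a) = a :=
      (trivializationAt E (TangentSpace 𝓘(ℝ, E)) x₀).symmL_continuousLinearMapAt (R := ℝ) hx a
    rw [h1, ModelWithCorners.range_eq_univ, mfderivWithin_univ] at h2
    rw [← hφ, φ.right_inv hy] at h2
    exact h2
  rw [φ.right_inv hy]
  have e1 := hcoord a
  have e2 := hcoord b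
  show _ = (w (φ.symm y)) (mfderiv 𝓘(ℝ, E) 𝓘(ℝ, E) φ.symm y _)
    (mfderiv 𝓘(ℝ, E) 𝓘(ℝ, E) φ.symm y _)
  rw [e1, e2]

variable {E' : Type*} [NormedAddCommGroup E'] [NormedSpace ℝ E']
  {H' : Type*} [TopologicalSpace H'] {J : ModelWithCorners ℝ E' H'}
  {P : Type*} [TopologicalSpace P] [ChartedSpace H' P]

/-- A field of forms which is smooth in charts is smooth in the sense of `SmoothBilinAt`. -/
lemma smoothBilinAt_bil {w : Bil E M}
    (hw : ∀ x₀, ContDiffOn ℝ ∞ (chartBil w x₀) (extChartAt 𝓘(ℝ, E) x₀).target)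
    {f : P → M} {p₀ : P} (hf : ContMDiffAt J 𝓘(ℝ, E) ∞ f p₀) :
    SmoothBilinAt J f (fun p => w (f p)) p₀ := by
  intro u v hu hv
  have hu' := contMDiffAt_coord hu
  have hv' := contMDiffAt_coord hv
  have h1 : ∀ᶠ p in 𝓝 p₀, f p ∈ (chartAt E (f p₀)).source :=
    hf.continuousAt.preimage_mem_nhds (chart_source_mem_nhds E (f p₀))
  have hD : ContMDiffAt J 𝓘(ℝ, E →L[ℝ] E →L[ℝ] ℝ) ∞
      (fun p => chartBil w (f p₀) (extChartAt 𝓘(ℝ, E) (f p₀) (f p))) p₀ := by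
    have h2 : ContDiffAt ℝ ∞ (chartBil w (f p₀)) (extChartAt 𝓘(ℝ, E) (f p₀) (f p₀)) :=
      (hw (f p₀)).contDiffAt (extChartAt_target_mem_nhds (f p₀))
    exact ContMDiffAt.comp (g := chartBil w (f p₀))
      (f := fun p => extChartAt 𝓘(ℝ, E) (f p₀) (f p)) p₀ h2.contMDiffAt
      ((contMDiffAt_extChartAt (x := f p₀)).comp p₀ hf)
  have h3 := (hD.clm_apply hu').clm_apply hv'
  refine h3.congr_of_eventuallyEq ?_
  filter_upwards [h1] with p hp
  rw [bil_eq_chart w (f p₀) hp]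
  simp only [Trivialization.continuousLinearMapAt_apply]
  rw [Trivialization.coe_linearMapAt_of_mem (R := ℝ) _ (by simpa using hp)]

/-- alternating forms are antisymmetric -/
lemma alt_swap {w : Bil E M} (halt : ∀ x v, w x v v = 0) (x : M) (u v : TangentSpace 𝓘(ℝ, E) x) :
    w x u v = - w x v u := by
  have h := halt x (u + v)
  simp only [map_add, add_apply, halt, zero_add, add_zero] at h
  linarith

lemma chartBil_swap {w : Bil E M} (halt : ∀ x v, w x v v = 0) (x₀ : M) (y u v : E) :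
    chartBil w x₀ y u v = - chartBil w x₀ y v u :=
  alt_swap halt _ _ _

/-- **Closed two-forms pull back to closed two-forms.** -/
theorem closed_pullback {w : Bil E M}
    (hw : ∀ x₀, ContDiffOn ℝ ∞ (chartBil w x₀) (extChartAt 𝓘(ℝ, E) x₀).target)
    (halt : ∀ x v, w x v v = 0)
    (hcl : ∀ x₀, ∀ y ∈ (extChartAt 𝓘(ℝ, E) x₀).target, ∀ u v t,
      fderiv ℝ (chartBil w x₀) y u v t + fderiv ℝ (chartBil w x₀) y v t u +
        fderiv ℝ (chartBil w x₀) y t u v = 0)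
    {V : Type*} [NormedAddCommGroup V] [NormedSpace ℝ V] {S : V → M}
    {U : Set V} (hU : IsOpen U) (hS : ContMDiffOn 𝓘(ℝ, V) 𝓘(ℝ, E) ∞ S U) {p : V} (hp : p ∈ U) :
    (∀ b c : V, DifferentiableAt ℝ (fun q => w (S q) (mfderiv 𝓘(ℝ, V) 𝓘(ℝ, E) S q b)
      (mfderiv 𝓘(ℝ, V) 𝓘(ℝ, E) S q c)) p) ∧
    ∀ a b c : V, fderiv ℝ (fun q => w (S q) (mfderiv 𝓘(ℝ, V) 𝓘(ℝ, E) S q b)
      (mfderiv 𝓘(ℝ, V) 𝓘(ℝ, E) S q c)) p a +
      fderiv ℝ (fun q => w (S q) (mfderiv 𝓘(ℝ, V) 𝓘(ℝ, E) S q c)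
      (mfderiv 𝓘(ℝ, V) 𝓘(ℝ, E) S q a)) p b +
      fderiv ℝ (fun q => w (S q) (mfderiv 𝓘(ℝ, V) 𝓘(ℝ, E) S q a)
      (mfderiv 𝓘(ℝ, V) 𝓘(ℝ, E) S q b)) p c = 0 := by
  set x := S p with hx
  set φ := extChartAt 𝓘(ℝ, E) x with hφ
  set T : V → E := fun q => φ (S q) with hT
  obtain ⟨U', hU'o, hpU', hU'⟩ : ∃ U' : Set V, IsOpen U' ∧ p ∈ U' ∧
      ∀ q ∈ U', q ∈ U ∧ S q ∈ φ.source := by
    have h1 : ∀ᶠ q in 𝓝 p, q ∈ U ∧ S q ∈ φ.source := by
      have h2 : ∀ᶠ q in 𝓝 p, q ∈ U := hU.mem_nhds hp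
      have := (hS.contMDiffAt (hU.mem_nhds hp)).continuousAt
      exact h2.and (this.preimage_mem_nhds (extChartAt_source_mem_nhds x))
    obtain ⟨U', h, h2, h3⟩ := _root_.mem_nhds_iff.1 h1
    exact ⟨U', h2, h3, h⟩
  have hSat : ∀ q ∈ U', ContMDiffAt 𝓘(ℝ, V) 𝓘(ℝ, E) ∞ S q := fun q hq =>
    hS.contMDiffAt (hU.mem_nhds (hU' q hq).1)
  have hTat : ∀ q ∈ U', ContDiffAt ℝ ∞ T q := by
    intro q hq
    rw [← contMDiffAt_iff_contDiffAt]
    have hs : S q ∈ (chartAt E x).source := by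
      have := (hU' q hq).2
      rwa [hφ, extChartAt_source] at this
    exact (contMDiffAt_extChartAt' hs).comp q (hSat q hq)
  have hmf : ∀ q ∈ U', ∀ b : V, tangentMap 𝓘(ℝ, V) 𝓘(ℝ, E) S (⟨q, b⟩ : TangentBundle 𝓘(ℝ, V) V) =
      tangentMap 𝓘(ℝ, E) 𝓘(ℝ, E) φ.symm
        (tangentMap 𝓘(ℝ, V) 𝓘(ℝ, E) T (⟨q, b⟩ : TangentBundle 𝓘(ℝ, V) V)) := by
    intro q hq b
    have e1 : S =ᶠ[𝓝 q] φ.symm ∘ T := by
      filter_upwards [hU'o.mem_nhds hq] with q' hq'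
      exact (φ.left_inv (hU' q' hq').2).symm
    have hTq : T q ∈ φ.target := φ.map_source (hU' q hq).2
    rw [tangentMap_congr_of_eventuallyEq (J := 𝓘(ℝ, V)) (I := 𝓘(ℝ, E))
      (v := (⟨q, b⟩ : TangentBundle 𝓘(ℝ, V) V)) e1]
    apply tangentMap_comp_at
    · exact ((contMDiffOn_extChartAt_symm (n := ∞) x).contMDiffAt
        ((isOpen_extChartAt_target x).mem_nhds hTq)).mdifferentiableAt (by simp)
    · exact (contMDiffAt_iff_contDiffAt.2 (hTat q hq)).mdifferentiableAt (by simp)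
  have key : ∀ q ∈ U', ∀ b c : V, w (S q) (mfderiv 𝓘(ℝ, V) 𝓘(ℝ, E) S q b)
      (mfderiv 𝓘(ℝ, V) 𝓘(ℝ, E) S q c) =
      chartBil w x (T q) (fderiv ℝ T q b) (fderiv ℝ T q c) := by
    intro q hq b c
    have h1 : S q = φ.symm (T q) := (φ.left_inv (hU' q hq).2).symm
    have h2 : ∀ b : V, (mfderiv 𝓘(ℝ, V) 𝓘(ℝ, E) S q b : E) =
        (mfderiv 𝓘(ℝ, E) 𝓘(ℝ, E) φ.symm (T q) (fderiv ℝ T q b) : E) := by
      intro b
      have h3 := hmf q hq b
      have h4 := congrArg (fun z : TangentBundle 𝓘(ℝ, E) M => (z.2 : E)) h3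
      simp only [tangentMap, mfderiv_eq_fderiv] at h4
      exact h4
    have h5 : (w (S q) : E →L[ℝ] E →L[ℝ] ℝ) = (w (φ.symm (T q)) : E →L[ℝ] E →L[ℝ] ℝ) := by
      rw [← h1]
    show (w (S q) : E →L[ℝ] E →L[ℝ] ℝ) (mfderiv 𝓘(ℝ, V) 𝓘(ℝ, E) S q b)
      (mfderiv 𝓘(ℝ, V) 𝓘(ℝ, E) S q c) = _
    rw [h2 b, h2 c, h5]
    rfl
  set B : E → E →L[ℝ] E →L[ℝ] ℝ := chartBil w x with hB
  have hTp : HasFDerivAt T (fderiv ℝ T p) p :=
    ((hTat p hpU').differentiableAt (by simp)).hasFDerivAt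
  have hTt : T p ∈ φ.target := φ.map_source (hU' p hpU').2
  have hBp : HasFDerivAt B (fderiv ℝ B (T p)) (T p) :=
    (((hw x).contDiffAt ((isOpen_extChartAt_target x).mem_nhds hTt)).differentiableAt
      (by simp)).hasFDerivAt
  have hDT : HasFDerivAt (fderiv ℝ T) (fderiv ℝ (fderiv ℝ T) p) p :=
    (((hTat p hpU').fderiv_right (m := ∞) (by simp)).differentiableAt (by simp)).hasFDerivAt
  have hder : ∀ b c : V, HasFDerivAt (fun q => B (T q) (fderiv ℝ T q b) (fderiv ℝ T q c))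
      (((B (T p) (fderiv ℝ T p b)).comp
          ((ContinuousLinearMap.apply ℝ E c).comp (fderiv ℝ (fderiv ℝ T) p))) +
        (((B (T p)).comp ((ContinuousLinearMap.apply ℝ E b).comp (fderiv ℝ (fderiv ℝ T) p)) +
          ((fderiv ℝ B (T p)).comp (fderiv ℝ T p)).flip (fderiv ℝ T p b)).flip
            (fderiv ℝ T p c))) p := by
    intro b c
    have h1 : HasFDerivAt (fun q => B (T q)) ((fderiv ℝ B (T p)).comp (fderiv ℝ T p)) p :=
      hBp.comp p hTp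
    have h3 : ∀ b : V, HasFDerivAt (fun q => fderiv ℝ T q b)
        ((ContinuousLinearMap.apply ℝ E b).comp (fderiv ℝ (fderiv ℝ T) p)) p := fun b =>
      (ContinuousLinearMap.apply ℝ E b).hasFDerivAt.comp p hDT
    exact (h1.clm_apply (h3 b)).clm_apply (h3 c)
  have hev : ∀ b c : V, (fun q => w (S q) (mfderiv 𝓘(ℝ, V) 𝓘(ℝ, E) S q b)
      (mfderiv 𝓘(ℝ, V) 𝓘(ℝ, E) S q c)) =ᶠ[𝓝 p]
      fun q => B (T q) (fderiv ℝ T q b) (fderiv ℝ T q c) := by
    intro b c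
    filter_upwards [hU'o.mem_nhds hpU'] with q hq
    exact key q hq b c
  refine ⟨fun b c => ((hder b c).differentiableAt.congr_of_eventuallyEq (hev b c)), ?_⟩
  intro a b c
  have hval : ∀ a b c : V, fderiv ℝ (fun q => w (S q) (mfderiv 𝓘(ℝ, V) 𝓘(ℝ, E) S q b)
      (mfderiv 𝓘(ℝ, V) 𝓘(ℝ, E) S q c)) p a =
      B (T p) (fderiv ℝ T p b) (fderiv ℝ (fderiv ℝ T) p a c) +
        (B (T p) (fderiv ℝ (fderiv ℝ T) p a b) (fderiv ℝ T p c) +
          fderiv ℝ B (T p) (fderiv ℝ T p a) (fderiv ℝ T p b) (fderiv ℝ T p c)) := by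
    intro a b c
    rw [(hev b c).fderiv_eq, (hder b c).fderiv]
    rfl
  have hsymm : ∀ u v : V, fderiv ℝ (fderiv ℝ T) p u v = fderiv ℝ (fderiv ℝ T) p v u := by
    intro u v
    have := (hTat p hpU').isSymmSndFDerivAt (by
      simp only [minSmoothness_of_isRCLikeNormedField]; exact ENat.LEInfty.out)
    exact this u v
  have hBs : ∀ u v : E, B (T p) u v = - B (T p) v u := fun u v => chartBil_swap halt x (T p) u v
  have hc := hcl x (T p) hTt (fderiv ℝ T p a) (fderiv ℝ T p b) (fderiv ℝ T p c)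
  rw [hval, hval, hval]
  rw [hsymm b a, hsymm c a, hsymm c b]
  rw [hBs (fderiv ℝ T p b) (fderiv ℝ (fderiv ℝ T) p a c),
    hBs (fderiv ℝ T p c) (fderiv ℝ (fderiv ℝ T) p a b),
    hBs (fderiv ℝ T p a) (fderiv ℝ (fderiv ℝ T) p b c)]
  linarith

end Run7.h115
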